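import Pool.Agent.H45.AT.Df

/-!
# AT-AHa: the coefficients of the Artin-Hasse exponential are integral at `p`

`ah_fact`: induction on `n`: for `1 ≤ n < p` the only `j < n` with `p ^ j ≤ n` is `0`, so `n E n = E (n - 1)`.

`exists_ah`: define `c : ℕ → ℚ` by `c 0 = 1`, `n c_n = ∑_(j < n, p ^ j ≤ n) c_(n - p ^ j)` (strong recursion). Claim: `p ∤ (c n).den` for all
`n`. Then `E n = (c n).num * ((c n).den)⁻¹` in `O` (`(c n).den` is a unit by `D.unit`, as `res ((c n).den) = ((c n).den : k) ≠ 0`), and the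
recursion follows from that of `c` (clear denominators; e.g. `O` embeds in its field of fractions, a `ℚ`-algebra, where `E n = c n`).

Proof of the claim. In `ℚ⟦X⟧` let `E = ∑ c_n X ^ n`, `ℓ = ∑_j X ^ (p ^ j)`: the recursion says `X E' = ℓ E`. Then `E ^ p = exp (p X) E(X ^ p)`
(`exp (p X) = ∑ p ^ n X ^ n / n!`): both sides have constant coefficient `1` and satisfy `X Z' = p ℓ Z` [right side: `X d/dX (E(X ^ p)) = p ℓ(X ^ p) E(X ^ p)`,
`ℓ(X ^ p) = ℓ - X`], and such a `Z` is unique (recursion for the coefficients). Induction on `n`: suppose `c_i ∈ ℤ_(p)` for `i < n`, `n ≥ 1`. Coefficient `n` of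
`E ^ p` is `p c_n + [coefficient n of (∑_(i<n) c_i X ^ i) ^ p]`. In `ℤ_(p)` (work in `ℤ_[p]`, norm `≤ 1`, or in the localization) and modulo `p`: for a polynomial `g`
over `ℤ_[p]`, `g ^ p ≡ (g with coefficients to the power p)(X ^ p) ≡ ` expand of `g` (`ZMod.expand_card`, `c ^ p ≡ c` modulo `p`), so the coefficient `n` of
`(∑_(i<n) c_i X ^ i) ^ p` is `≡ c_(n/p)` (`0` if `p ∤ n`). Coefficient `n` of `exp (p X) E(X ^ p)` is `∑_(p i ≤ n) c_i p ^ (n - p i) / (n - p i)! ≡ c_(n/p)` or `0` modulo `p ℤ_(p)`,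
since `p ^ m / m! ∈ p ℤ_(p)` for `m ≥ 1` (`v_p(m!) ≤ m - 1`: `Nat.Prime.pow_dvd_factorial_iff`/`sub_one_mul_padicValNat_factorial`) (and `n - p i = 0` only for `i = n/p`). So `p c_n ∈ p ℤ_(p)`.
-/

set_option autoImplicit false

open Polynomial

noncomputable section

namespace H45.AT

theorem ah_fact {p : ℕ} {O : Type} [CommRing O] {E : ℕ → O} (hE : AH p E) (n : ℕ) (hn : n < p) :
    (n.factorial : O) * E n = 1 := by
  induction n with
  | zero => rw [Nat.factorial_zero, Nat.cast_one, one_mul, hE.zero]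
  | succ n ih =>
    have h1 := ih (by omega)
    have h2 := hE.step (n + 1) (Nat.succ_ne_zero n)
    have h3 : (Finset.range (n + 1)).filter (fun j => p ^ j ≤ n + 1) = {0} := by
      ext j
      rw [Finset.mem_filter, Finset.mem_range, Finset.mem_singleton]
      constructor
      · rintro ⟨_, h5⟩
        by_contra h6
        have h7 : p ^ 1 ≤ p ^ j := Nat.pow_le_pow_right (by omega) (Nat.one_le_iff_ne_zero.2 h6)
        rw [pow_one] at h7
        omega
      · rintro rfl
        rw [pow_zero]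
        omega
    rw [h3, Finset.sum_singleton, pow_zero, Nat.add_sub_cancel] at h2
    rw [Nat.factorial_succ, Nat.cast_mul, mul_comm ((n + 1 : ℕ) : O), mul_assoc, h2, h1]

private def cf (p : ℕ) (n : ℕ) : ℚ :=
  if n = 0 then 1 else (∑ j ∈ (Finset.range n).filter (fun j => p ^ j ≤ n),
    if _ : n - p ^ j < n then cf p (n - p ^ j) else 0) / n
termination_by n

private theorem cf_zero (p : ℕ) : cf p 0 = 1 := by
  rw [cf, if_pos rfl]

private theorem cf_step {p : ℕ} (hp : 0 < p) (n : ℕ) (hn : n ≠ 0) :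
    (n : ℚ) * cf p n = ∑ j ∈ (Finset.range n).filter (fun j => p ^ j ≤ n), cf p (n - p ^ j) := by
  rw [cf, if_neg hn, mul_div_cancel₀ _ (Nat.cast_ne_zero.2 hn)]
  refine Finset.sum_congr rfl fun j _ => ?_
  have h1 : 0 < p ^ j := Nat.pow_pos hp
  rw [dif_pos (by omega)]

private def ell (p : ℕ) : PowerSeries ℚ := by
  classical exact PowerSeries.mk fun n => if ∃ j, n = p ^ j then 1 else 0

private theorem coeff_ell (p n : ℕ) [Decidable (∃ j, n = p ^ j)] :
    PowerSeries.coeff n (ell p) = if ∃ j, n = p ^ j then 1 else 0 := by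
  unfold ell
  rw [PowerSeries.coeff_mk]
  congr

private theorem sum_pw {p : ℕ} (hp : 2 ≤ p) (n : ℕ) (f : ℕ → ℚ) :
    ∑ i ∈ Finset.range (n + 1), PowerSeries.coeff i (ell p) * f i =
      ∑ j ∈ (Finset.range n).filter (fun j => p ^ j ≤ n), f (p ^ j) := by
  classical
  have hinj : Function.Injective fun j : ℕ => p ^ j := Nat.pow_right_injective hp
  have h0 : ∀ j : ℕ, j < p ^ j := fun j => Nat.lt_pow_self (by omega)
  have h1 : ∀ i ∈ Finset.range (n + 1), PowerSeries.coeff i (ell p) * f i = if ∃ j, i = p ^ j then f i else 0 := by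
    intro i _
    rw [coeff_ell, ite_mul, one_mul, zero_mul]
  rw [Finset.sum_congr rfl h1, ← Finset.sum_filter]
  have h2 : (Finset.range (n + 1)).filter (fun i => ∃ j, i = p ^ j) =
      ((Finset.range n).filter (fun j => p ^ j ≤ n)).image fun j => p ^ j := by
    ext i
    rw [Finset.mem_filter, Finset.mem_image, Finset.mem_range]
    constructor
    · rintro ⟨h3, j, rfl⟩
      refine ⟨j, ?_, rfl⟩
      rw [Finset.mem_filter, Finset.mem_range]
      have := h0 j
      omega
    · rintro ⟨j, h3, rfl⟩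
      rw [Finset.mem_filter, Finset.mem_range] at h3
      exact ⟨by omega, j, rfl⟩
  rw [h2, Finset.sum_image (fun a _ b _ h => hinj h)]

private theorem coeff_XD (f : PowerSeries ℚ) (n : ℕ) :
    PowerSeries.coeff n (PowerSeries.X * PowerSeries.derivative ℚ f) = n * PowerSeries.coeff n f := by
  cases n with
  | zero => rw [PowerSeries.coeff_zero_X_mul, Nat.cast_zero, zero_mul]
  | succ n =>
    rw [PowerSeries.coeff_succ_X_mul, PowerSeries.coeff_derivative]
    push_cast
    ring

private def ez (p : ℕ) : PowerSeries ℚ := PowerSeries.mk (cf p)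

private theorem ez_ode {p : ℕ} (hp : 2 ≤ p) :
    PowerSeries.X * PowerSeries.derivative ℚ (ez p) = ell p * ez p := by
  ext n
  rw [coeff_XD, PowerSeries.coeff_mul, Finset.Nat.sum_antidiagonal_eq_sum_range_succ_mk,
    sum_pw hp n (fun i => PowerSeries.coeff (n - i) (ez p))]
  unfold ez
  simp only [PowerSeries.coeff_mk]
  by_cases hn : n = 0
  · subst hn
    simp
  · exact cf_step (by omega) n hn

private theorem ode_unique {p : ℕ} (hp : 2 ≤ p) {Z1 Z2 : PowerSeries ℚ} (h0 : PowerSeries.coeff 0 Z1 = PowerSeries.coeff 0 Z2)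
    (h1 : PowerSeries.X * PowerSeries.derivative ℚ Z1 = (p : PowerSeries ℚ) * (ell p * Z1))
    (h2 : PowerSeries.X * PowerSeries.derivative ℚ Z2 = (p : PowerSeries ℚ) * (ell p * Z2)) : Z1 = Z2 := by
  have hc : ∀ (Z : PowerSeries ℚ) (n : ℕ), PowerSeries.coeff n ((p : PowerSeries ℚ) * Z) = p * PowerSeries.coeff n Z := by
    intro Z n
    rw [← nsmul_eq_mul, map_nsmul, nsmul_eq_mul]
  have h : ∀ n, PowerSeries.coeff n Z1 = PowerSeries.coeff n Z2 := by
    intro n
    induction n using Nat.strong_induction_on with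
    | _ n ih =>
      by_cases hn : n = 0
      · rw [hn]
        exact h0
      · have e1 := congrArg (PowerSeries.coeff n) h1
        have e2 := congrArg (PowerSeries.coeff n) h2
        rw [coeff_XD, hc, PowerSeries.coeff_mul, Finset.Nat.sum_antidiagonal_eq_sum_range_succ_mk,
          sum_pw hp n (fun i => PowerSeries.coeff (n - i) Z1)] at e1
        rw [coeff_XD, hc, PowerSeries.coeff_mul, Finset.Nat.sum_antidiagonal_eq_sum_range_succ_mk,
          sum_pw hp n (fun i => PowerSeries.coeff (n - i) Z2)] at e2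
        have e3 : ∑ j ∈ (Finset.range n).filter (fun j => p ^ j ≤ n), PowerSeries.coeff (n - p ^ j) Z1 =
            ∑ j ∈ (Finset.range n).filter (fun j => p ^ j ≤ n), PowerSeries.coeff (n - p ^ j) Z2 := by
          refine Finset.sum_congr rfl fun j _ => ih _ ?_
          have : 0 < p ^ j := Nat.pow_pos (by omega)
          omega
        rw [e3, ← e2] at e1
        exact mul_left_cancel₀ (Nat.cast_ne_zero.2 hn) e1
  exact PowerSeries.ext h

private theorem pow_ode {p : ℕ} (hp : 2 ≤ p) :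
    PowerSeries.X * PowerSeries.derivative ℚ (ez p ^ p) = (p : PowerSeries ℚ) * (ell p * ez p ^ p) := by
  obtain ⟨q, rfl⟩ : ∃ q, p = q + 1 := ⟨p - 1, by omega⟩
  rw [PowerSeries.derivative_pow, Nat.add_sub_cancel]
  have h := ez_ode hp
  calc PowerSeries.X * (((q + 1 : ℕ) : PowerSeries ℚ) * ez (q + 1) ^ q * PowerSeries.derivative ℚ (ez (q + 1)))
      = ((q + 1 : ℕ) : PowerSeries ℚ) * ez (q + 1) ^ q * (PowerSeries.X * PowerSeries.derivative ℚ (ez (q + 1))) := by ring
    _ = ((q + 1 : ℕ) : PowerSeries ℚ) * (ell (q + 1) * ez (q + 1) ^ (q + 1)) := by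
      rw [h]
      ring

private theorem expand_XD {p : ℕ} (hp : p ≠ 0) (f : PowerSeries ℚ) :
    PowerSeries.X * PowerSeries.derivative ℚ (PowerSeries.expand p hp f) =
      (p : PowerSeries ℚ) * PowerSeries.expand p hp (PowerSeries.X * PowerSeries.derivative ℚ f) := by
  have hc : ∀ (Z : PowerSeries ℚ) (n : ℕ), PowerSeries.coeff n ((p : PowerSeries ℚ) * Z) = p * PowerSeries.coeff n Z := by
    intro Z n
    rw [← nsmul_eq_mul, map_nsmul, nsmul_eq_mul]
  ext n
  rw [coeff_XD, hc, PowerSeries.coeff_expand, PowerSeries.coeff_expand, coeff_XD]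
  by_cases h : p ∣ n
  · obtain ⟨k, rfl⟩ := h
    rw [if_pos (Dvd.intro k rfl), if_pos (Dvd.intro k rfl), Nat.mul_div_cancel_left _ (Nat.pos_of_ne_zero hp)]
    push_cast
    ring
  · rw [if_neg h, if_neg h, mul_zero, mul_zero]

private theorem expand_ell {p : ℕ} (hp : 2 ≤ p) :
    PowerSeries.expand p (by omega) (ell p) + PowerSeries.X = ell p := by
  classical
  ext n
  rw [map_add, PowerSeries.coeff_expand, PowerSeries.coeff_X, coeff_ell, coeff_ell]
  by_cases h : ∃ j, n = p ^ j
  · rw [if_pos h]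
    obtain ⟨j, rfl⟩ := h
    cases j with
    | zero =>
      rw [pow_zero, if_neg, if_pos rfl, zero_add]
      intro h2
      have := Nat.le_of_dvd one_pos h2
      omega
    | succ j =>
      have h3 : p ^ (j + 1) ≠ 1 := by
        intro h4
        have h5 : p ^ 1 ≤ p ^ (j + 1) := Nat.pow_le_pow_right (by omega) (by omega)
        rw [pow_one] at h5
        omega
      rw [if_pos (Dvd.intro_left (p ^ j) (by rw [pow_succ])), if_neg h3, add_zero, if_pos]
      refine ⟨j, ?_⟩
      rw [pow_succ, Nat.mul_div_cancel _ (by omega)]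
  · rw [if_neg h]
    have h1 : n ≠ 1 := fun h2 => h ⟨0, by rw [h2, pow_zero]⟩
    rw [if_neg h1, add_zero]
    by_cases h2 : p ∣ n
    · rw [if_pos h2, if_neg]
      rintro ⟨j, hj⟩
      obtain ⟨k, rfl⟩ := h2
      rw [Nat.mul_div_cancel_left _ (by omega)] at hj
      exact h ⟨j + 1, by rw [hj, pow_succ, mul_comm]⟩
    · rw [if_neg h2]

private theorem exp_ode (p : ℕ) :
    PowerSeries.derivative ℚ (PowerSeries.exp ℚ ^ p) = (p : PowerSeries ℚ) * PowerSeries.exp ℚ ^ p := by
  cases p with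
  | zero => rw [pow_zero, PowerSeries.derivative_one, Nat.cast_zero, zero_mul]
  | succ q =>
    rw [PowerSeries.derivative_pow, Nat.add_sub_cancel, PowerSeries.derivative_exp, mul_assoc, ← pow_succ]

private theorem rhs_ode {p : ℕ} (hp : 2 ≤ p) :
    PowerSeries.X * PowerSeries.derivative ℚ (PowerSeries.exp ℚ ^ p * PowerSeries.expand p (by omega) (ez p)) =
      (p : PowerSeries ℚ) * (ell p * (PowerSeries.exp ℚ ^ p * PowerSeries.expand p (by omega) (ez p))) := by
  have h1 := expand_XD (p := p) (by omega) (ez p)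
  rw [ez_ode hp, map_mul] at h1
  have h2 := expand_ell hp
  rw [Derivation.leibniz, smul_eq_mul, smul_eq_mul, exp_ode, mul_add]
  have h3 : PowerSeries.X * (PowerSeries.exp ℚ ^ p * PowerSeries.derivative ℚ (PowerSeries.expand p (by omega) (ez p))) =
      PowerSeries.exp ℚ ^ p * (PowerSeries.X * PowerSeries.derivative ℚ (PowerSeries.expand p (by omega) (ez p))) := by ring
  rw [h3, h1]
  linear_combination (PowerSeries.exp ℚ ^ p * (p : PowerSeries ℚ) * PowerSeries.expand p (by omega) (ez p)) * h2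

private theorem dwork {p : ℕ} (hp : 2 ≤ p) :
    ez p ^ p = PowerSeries.exp ℚ ^ p * PowerSeries.expand p (by omega) (ez p) := by
  refine ode_unique hp ?_ (pow_ode hp) (rhs_ode hp)
  have h1 : PowerSeries.constantCoeff (ez p) = 1 := by
    unfold ez
    rw [← PowerSeries.coeff_zero_eq_constantCoeff_apply, PowerSeries.coeff_mk, cf_zero]
  rw [PowerSeries.coeff_zero_eq_constantCoeff_apply, PowerSeries.coeff_zero_eq_constantCoeff_apply, map_pow, map_mul,
    map_pow, PowerSeries.constantCoeff_expand, h1, PowerSeries.constantCoeff_exp, one_pow, one_mul]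

private def Ip (p : ℕ) [Fact p.Prime] : Subring ℚ := (PadicInt.subring p).comap (Rat.castHom ℚ_[p])

private theorem mem_Ip {p : ℕ} [Fact p.Prime] {x : ℚ} : x ∈ Ip p ↔ ‖(x : ℚ_[p])‖ ≤ 1 := Iff.rfl

private theorem fact_Ip {p : ℕ} [hp : Fact p.Prime] {a : ℕ} (ha : a ≠ 0) :
    ∃ w ∈ Ip p, (p : ℚ) ^ a / (a.factorial : ℚ) = p * w := by
  have hv := padicValNat_factorial_lt_of_ne_zero (p := p) ha
  obtain ⟨m, hm⟩ : p ^ padicValNat p a.factorial ∣ a.factorial := pow_padicValNat_dvd
  have hm0 : m ≠ 0 := by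
    rintro rfl
    rw [mul_zero] at hm
    exact Nat.factorial_ne_zero a hm
  have hpm : ¬ p ∣ m := by
    rintro ⟨k, rfl⟩
    have h1 : p ^ (padicValNat p a.factorial + 1) ∣ a.factorial := by
      rw [pow_succ]
      exact ⟨k, by rw [mul_assoc, ← hm]⟩
    exact pow_succ_padicValNat_not_dvd (Nat.factorial_ne_zero a) h1
  have hp0 : (p : ℚ) ≠ 0 := Nat.cast_ne_zero.2 hp.out.ne_zero
  refine ⟨(p : ℚ) ^ (a - 1 - padicValNat p a.factorial) * (m : ℚ)⁻¹, ?_, ?_⟩
  · refine (Ip p).mul_mem ((Ip p).pow_mem (natCast_mem _ _) _) ?_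
    rw [mem_Ip]
    refine Padic.norm_rat_le_one ?_
    rw [Rat.inv_natCast_den, if_neg hm0]
    exact hpm
  · have hq : (a.factorial : ℚ) = (p : ℚ) ^ padicValNat p a.factorial * m := by exact_mod_cast hm
    rw [hq]
    have h2 : a = padicValNat p a.factorial + 1 + (a - 1 - padicValNat p a.factorial) := by omega
    have h3 : (p : ℚ) ^ a = p ^ padicValNat p a.factorial * p * p ^ (a - 1 - padicValNat p a.factorial) := by
      rw [← pow_succ, ← pow_add, ← h2]
    have hm1 : (m : ℚ) ≠ 0 := Nat.cast_ne_zero.2 hm0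
    rw [h3]
    field_simp

private theorem mod_p {p : ℕ} [hp : Fact p.Prime] (P : ℤ_[p][X]) (n : ℕ) :
    ∃ w : ℤ_[p], (P ^ p).coeff n = (if p ∣ n then P.coeff (n / p) else 0) + p * w := by
  have h1 : PadicInt.toZMod ((P ^ p).coeff n - if p ∣ n then P.coeff (n / p) else 0) = 0 := by
    rw [map_sub, ← Polynomial.coeff_map, Polynomial.map_pow, ← ZMod.expand_card, Polynomial.coeff_expand hp.out.pos]
    split_ifs
    · rw [Polynomial.coeff_map, sub_self]
    · rw [map_zero, sub_zero]
  rw [← RingHom.mem_ker, PadicInt.ker_toZMod, PadicInt.maximalIdeal_eq_span_p, Ideal.mem_span_singleton] at h1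
  obtain ⟨w, hw⟩ := h1
  exact ⟨w, by rw [← hw]; ring⟩

private theorem pow_coeff {p : ℕ} (_ : p ≠ 0) {n : ℕ} (hn : n ≠ 0) :
    PowerSeries.coeff n (ez p ^ p) = ((∑ i ∈ Finset.range n, Polynomial.monomial i (cf p i)) ^ p : ℚ[X]).coeff n +
      p * cf p n := by
  obtain ⟨T, hT⟩ : ∃ T : ℚ[X], T = ∑ i ∈ Finset.range n, Polynomial.monomial i (cf p i) := ⟨_, rfl⟩
  rw [← hT]
  have hTc : ∀ i, T.coeff i = if i < n then cf p i else 0 := by
    intro i
    rw [hT, Polynomial.finsetSum_coeff]
    simp only [Polynomial.coeff_monomial]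
    by_cases hi : i < n
    · rw [if_pos hi, Finset.sum_eq_single i]
      · rw [if_pos rfl]
      · intro j _ hj
        rw [if_neg hj]
      · intro h
        exact absurd (Finset.mem_range.2 hi) h
    · rw [if_neg hi]
      refine Finset.sum_eq_zero fun j hj => ?_
      rw [if_neg]
      rintro rfl
      exact hi (Finset.mem_range.1 hj)
  obtain ⟨U, hU⟩ : (PowerSeries.X : PowerSeries ℚ) ^ n ∣ ez p - (T : PowerSeries ℚ) := by
    rw [PowerSeries.X_pow_dvd_iff]
    intro i hi
    rw [map_sub, Polynomial.coeff_coe, hTc, if_pos hi]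
    unfold ez
    rw [PowerSeries.coeff_mk, sub_self]
  have hU0 : PowerSeries.constantCoeff U = cf p n := by
    have h1 := congrArg (PowerSeries.coeff n) hU
    rw [map_sub, Polynomial.coeff_coe, hTc, if_neg (lt_irrefl n), sub_zero] at h1
    have h2 : PowerSeries.coeff n (PowerSeries.X ^ n * U) = PowerSeries.constantCoeff U := by
      have h3 := PowerSeries.coeff_X_pow_mul U n 0
      rw [zero_add] at h3
      rw [h3, PowerSeries.coeff_zero_eq_constantCoeff_apply]
    rw [h2] at h1
    rw [← h1]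
    unfold ez
    rw [PowerSeries.coeff_mk]
  have h1 := Commute.mul_geom_sum₂ (Commute.all (ez p) (T : PowerSeries ℚ)) p
  rw [hU, mul_assoc] at h1
  have h2 := congrArg (PowerSeries.coeff n) h1
  have h3 := PowerSeries.coeff_X_pow_mul (U * ∑ i ∈ Finset.range p, ez p ^ i * (T : PowerSeries ℚ) ^ (p - 1 - i)) n 0
  rw [zero_add] at h3
  have he : PowerSeries.constantCoeff (ez p) = 1 := by
    unfold ez
    rw [← PowerSeries.coeff_zero_eq_constantCoeff_apply, PowerSeries.coeff_mk, cf_zero]
  have ht : PowerSeries.constantCoeff (T : PowerSeries ℚ) = 1 := by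
    rw [← PowerSeries.coeff_zero_eq_constantCoeff_apply, Polynomial.coeff_coe, hTc, if_pos (Nat.pos_of_ne_zero hn), cf_zero]
  rw [h3, PowerSeries.coeff_zero_eq_constantCoeff_apply, map_mul, hU0, map_sum, map_sub] at h2
  simp only [map_mul, map_pow, he, ht, one_pow, mul_one, Finset.sum_const, Finset.card_range, nsmul_eq_mul] at h2
  rw [← Polynomial.coe_pow, Polynomial.coeff_coe] at h2
  linear_combination -h2

private theorem cf_Ip {p : ℕ} [hp : Fact p.Prime] (n : ℕ) : cf p n ∈ Ip p := by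
  induction n using Nat.strong_induction_on with
  | _ n ih =>
    by_cases hn : n = 0
    · rw [hn, cf_zero]
      exact one_mem _
    have hp2 : 2 ≤ p := hp.out.two_le
    have hp0 : (p : ℚ) ≠ 0 := Nat.cast_ne_zero.2 hp.out.ne_zero
    -- the right hand side
    obtain ⟨w, hw, hr⟩ : ∃ w ∈ Ip p, PowerSeries.coeff n (PowerSeries.exp ℚ ^ p *
        PowerSeries.expand p (by omega) (ez p)) = (if p ∣ n then cf p (n / p) else 0) + p * w := by
      rw [PowerSeries.coeff_mul, Finset.Nat.sum_antidiagonal_eq_sum_range_succ_mk, Finset.sum_range_succ']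
      have h1 : ∀ a : ℕ, PowerSeries.coeff a (PowerSeries.exp ℚ ^ p) = (p : ℚ) ^ a / (a.factorial : ℚ) := by
        intro a
        rw [PowerSeries.exp_pow_eq_rescale_exp, PowerSeries.coeff_rescale, PowerSeries.coeff_exp]
        rw [eq_ratCast, Rat.cast_id]
        ring
      have h2 : ∀ a ∈ Finset.range n, ∃ w ∈ Ip p, PowerSeries.coeff (a + 1) (PowerSeries.exp ℚ ^ p) *
          PowerSeries.coeff (n - (a + 1)) (PowerSeries.expand p (by omega) (ez p)) = p * w := by
        intro a ha
        rw [Finset.mem_range] at ha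
        obtain ⟨w, hw, h3⟩ := fact_Ip (p := p) (Nat.succ_ne_zero a)
        rw [h1, h3, PowerSeries.coeff_expand]
        by_cases hd : p ∣ n - (a + 1)
        · refine ⟨w * cf p ((n - (a + 1)) / p), (Ip p).mul_mem hw (ih _ ?_), ?_⟩
          · have := Nat.div_le_self (n - (a + 1)) p
            omega
          · rw [if_pos hd, mul_assoc]
            unfold ez
            rw [PowerSeries.coeff_mk]
        · exact ⟨0, zero_mem _, by rw [if_neg hd, mul_zero, mul_zero]⟩
      choose! W hW1 hW2 using h2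
      refine ⟨∑ a ∈ Finset.range n, W a, sum_mem fun a ha => hW1 a ha, ?_⟩
      rw [Finset.sum_congr rfl hW2, ← Finset.mul_sum, add_comm]
      congr 1
      rw [h1, pow_zero, Nat.factorial_zero, Nat.cast_one, div_one, one_mul, Nat.sub_zero, PowerSeries.coeff_expand]
      unfold ez
      rw [PowerSeries.coeff_mk]
    -- the left hand side
    have hl := pow_coeff hp.out.ne_zero hn
    rw [dwork hp2, hr] at hl
    obtain ⟨z, hz⟩ : ∃ z : ℕ → ℤ_[p], ∀ i < n, ((z i : ℤ_[p]) : ℚ_[p]) = (cf p i : ℚ_[p]) := by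
      have h1 : ∀ i, ∃ z : ℤ_[p], i < n → ((z : ℤ_[p]) : ℚ_[p]) = (cf p i : ℚ_[p]) := by
        intro i
        by_cases hi : i < n
        · exact ⟨⟨(cf p i : ℚ_[p]), mem_Ip.1 (ih i hi)⟩, fun _ => rfl⟩
        · exact ⟨0, fun h => absurd h hi⟩
      choose z hz using h1
      exact ⟨z, hz⟩
    obtain ⟨v, hv⟩ := mod_p (∑ i ∈ Finset.range n, Polynomial.monomial i (z i)) n
    have hmap : (∑ i ∈ Finset.range n, Polynomial.monomial i (z i) : ℤ_[p][X]).map PadicInt.Coe.ringHom =
        (∑ i ∈ Finset.range n, Polynomial.monomial i (cf p i) : ℚ[X]).map (Rat.castHom ℚ_[p]) := by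
      rw [Polynomial.map_sum, Polynomial.map_sum]
      refine Finset.sum_congr rfl fun i hi => ?_
      rw [Polynomial.map_monomial, Polynomial.map_monomial]
      congr 1
      exact hz i (Finset.mem_range.1 hi)
    have hc : (((∑ i ∈ Finset.range n, Polynomial.monomial i (cf p i)) ^ p : ℚ[X]).coeff n : ℚ_[p]) =
        PadicInt.Coe.ringHom (((∑ i ∈ Finset.range n, Polynomial.monomial i (z i)) ^ p : ℤ_[p][X]).coeff n) := by
      rw [← Polynomial.coeff_map, Polynomial.map_pow, hmap, ← Polynomial.map_pow, Polynomial.coeff_map]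
      rfl
    have hnp : n / p < n := Nat.div_lt_self (Nat.pos_of_ne_zero hn) (by omega)
    have hd : PadicInt.Coe.ringHom ((∑ i ∈ Finset.range n, Polynomial.monomial i (z i) : ℤ_[p][X]).coeff (n / p)) =
        (cf p (n / p) : ℚ_[p]) := by
      rw [← Polynomial.coeff_map, hmap, Polynomial.coeff_map, Polynomial.finsetSum_coeff, Finset.sum_eq_single (n / p)]
      · rw [Polynomial.coeff_monomial, if_pos rfl]
        rfl
      · intro j _ hj
        rw [Polynomial.coeff_monomial, if_neg hj]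
      · intro h
        exact absurd (Finset.mem_range.2 hnp) h
    have hl2 := congrArg (fun x : ℚ => (x : ℚ_[p])) hl
    beta_reduce at hl2
    push_cast at hl2
    rw [hc, hv, map_add, map_mul, map_natCast] at hl2
    have h5 : (PadicInt.Coe.ringHom (if p ∣ n then
        (∑ i ∈ Finset.range n, Polynomial.monomial i (z i) : ℤ_[p][X]).coeff (n / p) else 0)) =
        if p ∣ n then (cf p (n / p) : ℚ_[p]) else 0 := by
      split_ifs
      · exact hd
      · exact map_zero _
    rw [h5] at hl2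
    have h8 : ((if p ∣ n then cf p (n / p) else 0 : ℚ) : ℚ_[p]) = if p ∣ n then (cf p (n / p) : ℚ_[p]) else 0 := by
      split_ifs
      · rfl
      · exact Rat.cast_zero
    rw [h8] at hl2
    have hq0 : (p : ℚ_[p]) ≠ 0 := Nat.cast_ne_zero.2 hp.out.ne_zero
    have h6 : (cf p n : ℚ_[p]) = (w : ℚ_[p]) - PadicInt.Coe.ringHom v := by
      apply mul_left_cancel₀ hq0
      linear_combination -hl2
    rw [mem_Ip, h6]
    have h7 : ((w : ℚ_[p]) - PadicInt.Coe.ringHom v) ∈ PadicInt.subring p := sub_mem (mem_Ip.1 hw) v.2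
    exact h7

private theorem not_dvd_den {p : ℕ} [hp : Fact p.Prime] {x : ℚ} (hx : x ∈ Ip p) : ¬ p ∣ x.den := by
  intro h
  rw [mem_Ip] at hx
  have hq : (x : ℚ_[p]) * ((x.den : ℤ) : ℚ_[p]) = ((x.num : ℤ) : ℚ_[p]) := by
    have h1 : x * x.den = x.num := Rat.mul_den_eq_num x
    have h2 := congrArg (fun y : ℚ => (y : ℚ_[p])) h1
    beta_reduce at h2
    push_cast at h2 ⊢
    exact h2
  have h3 : ‖((x.den : ℤ) : ℚ_[p])‖ < 1 := (Padic.norm_intCast_lt_one_iff).2 (by exact_mod_cast h)
  have h4 : ‖((x.num : ℤ) : ℚ_[p])‖ < 1 := by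
    rw [← hq, norm_mul]
    exact lt_of_le_of_lt (mul_le_of_le_one_left (norm_nonneg _) hx) h3
  have h5 : (p : ℤ) ∣ x.num := (Padic.norm_intCast_lt_one_iff).1 h4
  have h6 := x.reduced
  have h7 : p ∣ x.num.natAbs := Int.natCast_dvd.1 h5
  exact hp.out.one_lt.ne' (Nat.dvd_one.1 (h6 ▸ Nat.dvd_gcd h7 h))

theorem exists_ah {p e : ℕ} [Fact p.Prime] {k O : Type} [Field k] [CharP k p] [CommRing O] [IsDomain O] [CharZero O]
    (D : DR p e k O) : ∃ E : ℕ → O, AH p E := by
  have hp : p.Prime := Fact.out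
  have h1 : ∀ n : ℕ, ∃ y : O, y * ((cf p n).den : O) = ((cf p n).num : O) := by
    intro n
    have h2 : IsUnit (((cf p n).den : ℕ) : O) := by
      apply D.unit
      rw [map_natCast]
      intro h3
      rw [CharP.cast_eq_zero_iff k p] at h3
      exact not_dvd_den (cf_Ip n) h3
    obtain ⟨u, hu⟩ := h2
    exact ⟨((cf p n).num : O) * ((u⁻¹ : Oˣ) : O), by rw [mul_assoc, ← hu, Units.inv_mul, mul_one]⟩
  choose E hE using h1
  let L := FractionRing O
  have hL : CharZero L := charZero_of_injective_algebraMap (IsFractionRing.injective O L)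
  have h2 : ∀ n, algebraMap O L (E n) = (cf p n : L) := by
    intro n
    have h3 := congrArg (algebraMap O L) (hE n)
    rw [map_mul, map_natCast, map_intCast] at h3
    rw [Rat.cast_def, eq_div_iff (Nat.cast_ne_zero.2 (cf p n).den_ne_zero)]
    exact h3
  have hinj : Function.Injective (algebraMap O L) := IsFractionRing.injective O L
  refine ⟨E, ⟨hinj ?_, fun n hn => hinj ?_⟩⟩
  · rw [h2, cf_zero, map_one, Rat.cast_one]
  · rw [map_mul, map_natCast, map_sum, h2, Finset.sum_congr rfl fun j _ => h2 _]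
    have h4 := congrArg (fun x : ℚ => (x : L)) (cf_step hp.pos n hn)
    beta_reduce at h4
    push_cast at h4
    exact h4

end H45.AT

end
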