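import Pool.Agent.H45.AT.Df

/-!
# AT-AHb: the product formula for the splitting function

In `O⟦Y⟧` let `E = ∑ E_i Y ^ i`, `ℓ = ∑_i Y ^ (p ^ i)` (`AH` says `Y E' = ℓ E`), `T_j = T ^ (p ^ j)`,
`A = ∏_(j < s) E(T_j Y)` (`PowerSeries.rescale`), `B = E ^ n`, `W = ∑_(j < s) T_j`. `Y A' = (∑_j ∑_i (T_j Y) ^ (p ^ i)) A = W ℓ A`, as
`∑_(j < s) T ^ (p ^ (i + j)) = W` for all `i` (induction on `i`, `T ^ (p ^ s) = T`), and `Y B' = n ℓ B`. `B` has constant coefficient `1`; let `C = A B⁻¹`
(a unit in `O⟦Y⟧`, `PowerSeries.isUnit_iff_constantCoeff`), so `Y C' = (W - n) ℓ C`: `m c_m ∈ p ^ (2 N + 1) O` for all `m`. For `1 ≤ m ≤ N` write `m = p ^ v m'`,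
`p ∤ m'`, `v ≤ N`; `m'` is a unit (`D.unit`, `(m' : k) ≠ 0`), so `c_m ∈ p ^ (N + 1) O` (cancel `p ^ v`, domain of characteristic zero), which is in `w ^ (N + 1) O` because
`w ∣ p` (`w ^ e = - p`, `e ≠ 0`). So the coefficients `m ≤ N` of `A` and `B` are congruent modulo `w ^ (N + 1)`. Finally `γ ^ m ∈ w ^ (N + 1) O` for `m > N`: modulo
`w ^ (N + 1)` the map `f ↦ ∑_(m ≤ N) f_m γ ^ m` is multiplicative on `O⟦Y⟧` (or on polynomials it is the evaluation at `γ`), it takes `E(T_j Y)` to `th E N (γ T_j)` and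
`E` to `th E N γ`.
-/

set_option autoImplicit false

open Polynomial

noncomputable section

namespace H45.AT

/-- the operator `Y d/dY` -/
private def ahT {O : Type} [CommRing O] (F : PowerSeries O) : PowerSeries O :=
  PowerSeries.mk fun n => (n : O) * PowerSeries.coeff n F

private theorem ahT_eq {O : Type} [CommRing O] (F : PowerSeries O) :
    ahT F = PowerSeries.X * PowerSeries.derivative O F := by
  ext n
  rw [ahT, PowerSeries.coeff_mk]
  cases n with
  | zero => rw [Nat.cast_zero, zero_mul, PowerSeries.coeff_zero_X_mul]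
  | succ n =>
    rw [PowerSeries.coeff_succ_X_mul, PowerSeries.coeff_derivative]
    push_cast
    ring

private theorem ahT_mul {O : Type} [CommRing O] (F G : PowerSeries O) :
    ahT (F * G) = ahT F * G + F * ahT G := by
  rw [ahT_eq, ahT_eq, ahT_eq, Derivation.leibniz, smul_eq_mul, smul_eq_mul]
  ring

private theorem ahT_one {O : Type} [CommRing O] : ahT (1 : PowerSeries O) = 0 := by
  rw [ahT_eq, Derivation.map_one_eq_zero, mul_zero]

private theorem ahT_prod {O ι : Type} [CommRing O] (S : Finset ι) (F L : ι → PowerSeries O)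
    (h : ∀ i ∈ S, ahT (F i) = L i * F i) : ahT (∏ i ∈ S, F i) = (∑ i ∈ S, L i) * ∏ i ∈ S, F i := by
  classical
  induction S using Finset.induction_on with
  | empty => rw [Finset.prod_empty, Finset.sum_empty, ahT_one, zero_mul]
  | insert a S ha ih =>
    rw [Finset.prod_insert ha, Finset.sum_insert ha, ahT_mul, h a (Finset.mem_insert_self a S),
      ih fun i hi => h i (Finset.mem_insert_of_mem hi)]
    ring

private theorem ahT_pow {O : Type} [CommRing O] (F L : PowerSeries O) (h : ahT F = L * F) (n : ℕ) :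
    ahT (F ^ n) = (n : PowerSeries O) * L * F ^ n := by
  have h1 := ahT_prod (Finset.range n) (fun _ => F) (fun _ => L) fun _ _ => h
  rw [Finset.prod_const, Finset.sum_const, Finset.card_range, nsmul_eq_mul] at h1
  exact h1

open Classical in
/-- `∑ Y ^ (p ^ i)` -/
private def ahL (p : ℕ) (O : Type) [CommRing O] : PowerSeries O :=
  PowerSeries.mk fun m => if ∃ i, p ^ i = m then 1 else 0

private theorem ahT_E {p : ℕ} [Fact p.Prime] {O : Type} [CommRing O] {E : ℕ → O} (hE : AH p E) :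
    ahT (PowerSeries.mk E) = ahL p O * PowerSeries.mk E := by
  classical
  have hp : p.Prime := Fact.out
  ext n
  rw [ahT, PowerSeries.coeff_mk, PowerSeries.coeff_mk, PowerSeries.coeff_mul]
  rcases Nat.eq_zero_or_pos n with rfl | hn
  · rw [Nat.cast_zero, zero_mul]
    simp only [Finset.Nat.antidiagonal_zero, Finset.sum_singleton, ahL, PowerSeries.coeff_mk]
    rw [if_neg, zero_mul]
    rintro ⟨i, hi⟩
    exact pow_ne_zero i hp.ne_zero hi
  · rw [hE.step n (by omega), Finset.Nat.sum_antidiagonal_eq_sum_range_succ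
      (fun a b => PowerSeries.coeff a (ahL p O) * PowerSeries.coeff b (PowerSeries.mk E))]
    simp only [ahL, PowerSeries.coeff_mk, ite_mul, one_mul, zero_mul]
    rw [← Finset.sum_filter]
    refine Finset.sum_bij (fun j _ => p ^ j) ?_ ?_ ?_ ?_
    · intro j hj
      rw [Finset.mem_filter, Finset.mem_range] at hj ⊢
      exact ⟨by omega, j, rfl⟩
    · intro i _ j _ h
      exact Nat.pow_right_injective hp.two_le h
    · intro b hb
      rw [Finset.mem_filter, Finset.mem_range] at hb
      obtain ⟨h1, i, rfl⟩ := hb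
      refine ⟨i, ?_, rfl⟩
      rw [Finset.mem_filter, Finset.mem_range]
      have h2 : i < p ^ i := Nat.lt_pow_self hp.one_lt
      exact ⟨by omega, by omega⟩
    · intro j _
      rfl

private theorem ahT_rescale {O : Type} [CommRing O] (a : O) (F : PowerSeries O) :
    ahT (PowerSeries.rescale a F) = PowerSeries.rescale a (ahT F) := by
  ext n
  rw [PowerSeries.coeff_rescale, ahT, ahT, PowerSeries.coeff_mk, PowerSeries.coeff_mk, PowerSeries.coeff_rescale]
  ring

private theorem ah_W {O : Type} [CommRing O] (p s : ℕ) (T : O) (hT : T ^ p ^ s = T) (i : ℕ) :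
    ∑ j ∈ Finset.range s, T ^ (p ^ j * p ^ i) = ∑ j ∈ Finset.range s, T ^ p ^ j := by
  induction i with
  | zero => simp only [pow_zero, mul_one]
  | succ i ih =>
    rw [← ih]
    have h1 := Finset.sum_range_succ (fun j => T ^ (p ^ j * p ^ i)) s
    have h2 := Finset.sum_range_succ' (fun j => T ^ (p ^ j * p ^ i)) s
    have h3 : T ^ (p ^ s * p ^ i) = T ^ (p ^ 0 * p ^ i) := by
      rw [pow_mul, hT, pow_zero, one_mul]
    rw [h1, h3] at h2
    have h4 := add_right_cancel h2
    rw [h4]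
    refine Finset.sum_congr rfl fun j _ => ?_
    congr 1
    ring

private theorem ah_sum {p : ℕ} {O : Type} [CommRing O] (s : ℕ) (T : O) (hT : T ^ p ^ s = T) :
    ∑ j ∈ Finset.range s, PowerSeries.rescale (T ^ p ^ j) (ahL p O) =
      PowerSeries.C (∑ j ∈ Finset.range s, T ^ p ^ j) * ahL p O := by
  classical
  ext m
  rw [map_sum, PowerSeries.coeff_C_mul]
  simp only [PowerSeries.coeff_rescale, ahL, PowerSeries.coeff_mk]
  split_ifs with h
  · obtain ⟨i, rfl⟩ := h
    simp only [mul_one, ← pow_mul]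
    exact ah_W p s T hT i
  · simp only [mul_zero, Finset.sum_const_zero]

section ev

variable {O : Type} [CommRing O] (w γ : O) (hγ : w ∣ γ) (N : ℕ)

/-- the evaluation at `γ` modulo `w ^ (N + 1)` -/
private def ahV (F : PowerSeries O) : O := ∑ m ∈ Finset.range (N + 1), PowerSeries.coeff m F * γ ^ m

include hγ

private theorem ahV_poly (P : O[X]) :
    w ^ (N + 1) ∣ P.eval γ - ∑ m ∈ Finset.range (N + 1), P.coeff m * γ ^ m := by
  have h1 : P.eval γ = ∑ m ∈ Finset.range (N + 1 + (P.natDegree + 1)), P.coeff m * γ ^ m := by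
    rw [Polynomial.eval_eq_sum_range' (n := N + 1 + (P.natDegree + 1)) (by omega)]
  rw [h1, Finset.sum_range_add, add_sub_cancel_left]
  refine Finset.dvd_sum fun m _ => Dvd.dvd.mul_left ?_ _
  have h : γ ^ (N + 1 + m) = γ ^ (N + 1) * γ ^ m := pow_add _ _ _
  rw [h]
  exact (pow_dvd_pow_of_dvd hγ (N + 1)).mul_right _

private theorem ahV_mul (F G : PowerSeries O) : w ^ (N + 1) ∣ ahV γ N (F * G) - ahV γ N F * ahV γ N G := by
  have h0 : ∀ F : PowerSeries O, ahV γ N F = (PowerSeries.trunc (N + 1) F).eval γ := by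
    intro F
    rw [Polynomial.eval_eq_sum_range' (n := N + 1) (PowerSeries.natDegree_trunc_lt F N)]
    refine Finset.sum_congr rfl fun m hm => ?_
    rw [PowerSeries.coeff_trunc, if_pos (Finset.mem_range.1 hm)]
  have h1 := ahV_poly w γ hγ N (PowerSeries.trunc (N + 1) F * PowerSeries.trunc (N + 1) G)
  rw [Polynomial.eval_mul, ← h0, ← h0] at h1
  have h2 : ahV γ N (F * G) = ∑ m ∈ Finset.range (N + 1),
      (PowerSeries.trunc (N + 1) F * PowerSeries.trunc (N + 1) G).coeff m * γ ^ m := by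
    refine Finset.sum_congr rfl fun m hm => ?_
    congr 1
    rw [PowerSeries.coeff_mul, Polynomial.coeff_mul]
    refine Finset.sum_congr rfl fun x hx => ?_
    have hx := Finset.HasAntidiagonal.mem_antidiagonal.1 hx
    rw [Finset.mem_range] at hm
    rw [PowerSeries.coeff_trunc, PowerSeries.coeff_trunc, if_pos (by omega), if_pos (by omega)]
  rw [h2]
  have h3 := (dvd_neg.2 h1)
  rwa [neg_sub] at h3

omit hγ in
private theorem ahV_one : ahV γ N 1 = 1 := by
  unfold ahV
  rw [Finset.sum_eq_single 0]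
  · rw [PowerSeries.coeff_zero_one, pow_zero, mul_one]
  · intro m _ hm
    rw [PowerSeries.coeff_one, if_neg hm, zero_mul]
  · intro h
    exact absurd (Finset.mem_range.2 (Nat.succ_pos N)) h

/-- as a monoid homomorphism to the quotient -/
private def ahH : PowerSeries O →* O ⧸ Ideal.span {w ^ (N + 1)} where
  toFun F := Ideal.Quotient.mk _ (ahV γ N F)
  map_one' := by rw [ahV_one, map_one]
  map_mul' F G := by
    rw [← map_mul, Ideal.Quotient.eq, Ideal.mem_span_singleton]
    exact ahV_mul w γ hγ N F G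

end ev

theorem prod_th {p e : ℕ} [Fact p.Prime] {k O : Type} [Field k] [CharP k p] [CommRing O] [IsDomain O] [CharZero O]
    (D : DR p e k O) (he : e ≠ 0) {E : ℕ → O} (hE : AH p E) (N : ℕ) (γ : O) (hγ : D.w ∣ γ) (s : ℕ) (T : O)
    (hT : T ^ p ^ s = T) (n : ℕ)
    (hn : (p : O) ^ (2 * N + 1) ∣ ∑ j ∈ Finset.range s, T ^ p ^ j - (n : O)) :
    D.w ^ (N + 1) ∣ ∏ j ∈ Finset.range s, th E N (γ * T ^ p ^ j) - th E N γ ^ n := by
  classical
  have hp : p.Prime := Fact.out
  have hwp : D.w ∣ (p : O) := by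
    have h1 : D.w ∣ D.w ^ e := dvd_pow_self _ he
    rw [D.w_pow] at h1
    exact (dvd_neg.1 h1)
  obtain ⟨A, hA⟩ : ∃ A : PowerSeries O, A = ∏ j ∈ Finset.range s, PowerSeries.rescale (T ^ p ^ j) (PowerSeries.mk E) :=
    ⟨_, rfl⟩
  obtain ⟨B, hB⟩ : ∃ B : PowerSeries O, B = (PowerSeries.mk E) ^ n := ⟨_, rfl⟩
  obtain ⟨W, hW⟩ : ∃ W : O, W = ∑ j ∈ Finset.range s, T ^ p ^ j := ⟨_, rfl⟩
  have hTA : ahT A = PowerSeries.C W * ahL p O * A := by
    rw [hA, ahT_prod _ _ (fun j => PowerSeries.rescale (T ^ p ^ j) (ahL p O)), ah_sum s T hT, hW]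
    intro j _
    rw [ahT_rescale, ahT_E hE, map_mul]
  have hTB : ahT B = PowerSeries.C (n : O) * ahL p O * B := by
    rw [hB, ahT_pow _ _ (ahT_E hE)]
    congr 2
  have hB0 : PowerSeries.constantCoeff B = 1 := by
    rw [hB, map_pow, ← PowerSeries.coeff_zero_eq_constantCoeff_apply, PowerSeries.coeff_mk, hE.zero, one_pow]
  obtain ⟨B', hB'⟩ : ∃ B' : PowerSeries O, B * B' = 1 := by
    have h1 : IsUnit B := by
      rw [PowerSeries.isUnit_iff_constantCoeff, hB0]
      exact isUnit_one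
    exact h1.exists_right_inv
  obtain ⟨Cc, hC⟩ : ∃ Cc : PowerSeries O, Cc = A * B' := ⟨_, rfl⟩
  have hCB : Cc * B = A := by
    rw [hC, mul_assoc, mul_comm B' B, hB', mul_one]
  have hTC : ahT Cc = PowerSeries.C (W - n) * ahL p O * Cc := by
    have h1 : ahT (Cc * B) = ahT Cc * B + Cc * ahT B := ahT_mul _ _
    rw [hCB, hTA, hTB, ← hCB] at h1
    have h2 : ahT Cc * B = (PowerSeries.C (W - n) * ahL p O * Cc) * B := by
      rw [map_sub]
      linear_combination -h1
    have h3 := congrArg (fun Z => Z * B') h2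
    simp only [mul_assoc] at h3
    rw [hB', mul_one, mul_one] at h3
    rw [h3]
    ring
  have hA0 : PowerSeries.constantCoeff A = 1 := by
    rw [hA, map_prod]
    refine Finset.prod_eq_one fun j _ => ?_
    rw [← PowerSeries.coeff_zero_eq_constantCoeff_apply, PowerSeries.coeff_rescale, PowerSeries.coeff_mk, hE.zero,
      pow_zero, one_mul]
  have hC0 : PowerSeries.coeff 0 Cc = 1 := by
    have h1 := congrArg PowerSeries.constantCoeff hCB
    rw [map_mul, hB0, hA0, mul_one] at h1
    rw [PowerSeries.coeff_zero_eq_constantCoeff_apply]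
    exact h1
  -- the coefficients of `C`
  have hCm : ∀ m, m ≠ 0 → m ≤ N → D.w ^ (N + 1) ∣ PowerSeries.coeff m Cc := by
    intro m hm hmN
    have h1 : (p : O) ^ (2 * N + 1) ∣ (m : O) * PowerSeries.coeff m Cc := by
      have h2 := congrArg (PowerSeries.coeff m) hTC
      rw [ahT, PowerSeries.coeff_mk, mul_assoc, PowerSeries.coeff_C_mul] at h2
      rw [h2]
      refine Dvd.dvd.mul_right ?_ _
      rw [hW]
      exact hn
    obtain ⟨v, m', hm', hmv⟩ : ∃ v m', ¬ p ∣ m' ∧ m = p ^ v * m' := by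
      obtain ⟨v, m', h2, h3⟩ := Nat.exists_eq_pow_mul_and_not_dvd hm p hp.ne_one
      exact ⟨v, m', h2, h3⟩
    have hv : v ≤ N := by
      have h2 : v < p ^ v := Nat.lt_pow_self hp.one_lt
      have h3 : p ^ v ≤ m := by
        rw [hmv]
        refine Nat.le_mul_of_pos_right _ (Nat.pos_of_ne_zero ?_)
        rintro rfl
        exact hm' (dvd_zero p)
      omega
    have hu : IsUnit (m' : O) := by
      apply D.unit
      rw [map_natCast]
      intro h0
      exact hm' ((CharP.cast_eq_zero_iff k p m').1 h0)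
    have hp0 : (p : O) ^ v ≠ 0 := pow_ne_zero _ (Nat.cast_ne_zero.2 hp.ne_zero)
    have h4 : (p : O) ^ (N + 1) ∣ PowerSeries.coeff m Cc := by
      have h5 : (p : O) ^ v * (p : O) ^ (2 * N + 1 - v) ∣ (p : O) ^ v * ((m' : O) * PowerSeries.coeff m Cc) := by
        rw [← pow_add, Nat.add_sub_cancel' (by omega), ← mul_assoc]
        have h6 : (p : O) ^ v * (m' : O) = (m : O) := by
          rw [hmv]
          push_cast
          ring
        rw [h6]
        exact h1
      have h7 := (mul_dvd_mul_iff_left hp0).1 h5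
      have h8 := (IsUnit.dvd_mul_left hu).1 h7
      exact (pow_dvd_pow _ (by omega)).trans h8
    exact (pow_dvd_pow_of_dvd hwp (N + 1)).trans h4
  -- evaluation
  have hq : ∀ x y : O, (D.w ^ (N + 1) ∣ x - y ↔ Ideal.Quotient.mk (Ideal.span {D.w ^ (N + 1)}) x =
      Ideal.Quotient.mk (Ideal.span {D.w ^ (N + 1)}) y) := by
    intro x y
    rw [Ideal.Quotient.eq, Ideal.mem_span_singleton]
  have hHC : ahH D.w γ hγ N Cc = 1 := by
    change Ideal.Quotient.mk _ (ahV γ N Cc) = 1
    rw [← map_one (Ideal.Quotient.mk (Ideal.span {D.w ^ (N + 1)})), ← hq]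
    unfold ahV
    rw [Finset.sum_range_succ', hC0, pow_zero, mul_one, add_sub_cancel_right]
    refine Finset.dvd_sum fun m hm => Dvd.dvd.mul_right ?_ _
    exact hCm (m + 1) (Nat.succ_ne_zero m) (Finset.mem_range.1 hm)
  have hHr : ∀ a : O, ahH D.w γ hγ N (PowerSeries.rescale a (PowerSeries.mk E)) =
      Ideal.Quotient.mk _ (th E N (γ * a)) := by
    intro a
    change Ideal.Quotient.mk _ (ahV γ N (PowerSeries.rescale a (PowerSeries.mk E))) = _
    congr 1
    unfold ahV th
    refine Finset.sum_congr rfl fun m _ => ?_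
    rw [PowerSeries.coeff_rescale, PowerSeries.coeff_mk, mul_pow]
    ring
  have hHE : ahH D.w γ hγ N (PowerSeries.mk E) = Ideal.Quotient.mk _ (th E N γ) := by
    have h1 := hHr 1
    rwa [PowerSeries.rescale_one, RingHom.id_apply, mul_one] at h1
  rw [hq, map_prod, map_pow, ← hHE, ← map_pow, ← hB]
  have h9 : ahH D.w γ hγ N A = ∏ j ∈ Finset.range s, Ideal.Quotient.mk (Ideal.span {D.w ^ (N + 1)})
      (th E N (γ * T ^ p ^ j)) := by
    rw [hA, map_prod]
    exact Finset.prod_congr rfl fun j _ => hHr _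
  rw [← h9, ← hCB, map_mul, hHC, one_mul]

end H45.AT

end
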