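import Pool.Agent.H45.AT.Df

/-!
# AT-AHc: an approximate `p`-th root of unity

Let `π = w ^ d`, so `π ^ (p - 1) = - p`. For `Y ∈ O` let `z = th E N (π Y) - 1 = π (Y + π R)`, `R = ∑_(2 ≤ i ≤ N) E_i π ^ (i - 2) Y ^ i`, a polynomial in `Y` over `O`.
`(1 + z) ^ p - 1 = p z + ∑_(2 ≤ i < p) binom(p, i) z ^ i + z ^ p`; `p = - π ^ (p - 1)`, `p ∣ binom(p, i)`, so this is `π ^ p Q(Y)` with a polynomial `Q ∈ O[Y]`,
`Q = - (Y + π R) + π (…) + (Y + π R) ^ p`, so `Q ≡ Y ^ p - Y` modulo `π`: `Q(1) ≡ 0`, `Q'(Y) ≡ - 1` modulo `w` for every `Y` (`res p = 0` because `w ^ (d (p-1)) = - p` and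
`d (p - 1) ≠ 0`). It is best to construct the polynomial `Q ∈ O[X]` with `C (π ^ p) * Q = (1 + z) ^ p - 1` and `Q.map res = X ^ p - X`.
Newton: by induction on `j ≥ 1` there is `g` with `res g = 1` and `w ^ j ∣ Q(g)`: if `Q(g) = w ^ j c`, then `g' = g + w ^ j c` has
`Q(g') = Q(g) + Q'(g) w ^ j c + w ^ (2 j) (…) = w ^ j c (1 + Q'(g)) + …` (`Polynomial.evalSubFactor`, `Polynomial.binomExpansion`), and `1 + Q'(g) ≡ 0` modulo `w`.
Conclude with `j = K`.
-/

set_option autoImplicit false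

open Polynomial

noncomputable section

namespace H45.AT

private theorem ahc_pow {R : Type} [CommRing R] {p : ℕ} (hp : p.Prime) (y : R) :
    ∃ r : R, (y + 1) ^ p = 1 + y ^ p + (p : R) * (y * (1 + y * r)) := by
  obtain ⟨m, rfl⟩ : ∃ m, p = m + 2 := ⟨p - 2, by have := hp.two_le; omega⟩
  have hc : ∀ i : ℕ, ∃ c : ℕ, i < m → (m + 2).choose (i + 2) = (m + 2) * c := by
    intro i
    by_cases hi : i < m
    · obtain ⟨c, hc⟩ := hp.dvd_choose_self (k := i + 2) (by omega) (by omega)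
      exact ⟨c, fun _ => hc⟩
    · exact ⟨0, fun h => absurd h hi⟩
  choose c hc using hc
  refine ⟨∑ i ∈ Finset.range m, (c i : R) * y ^ i, ?_⟩
  rw [add_pow, Finset.sum_range_succ, Finset.sum_range_succ', Finset.sum_range_succ']
  have h1 : ∑ i ∈ Finset.range m, y ^ (i + 1 + 1) * 1 ^ (m + 2 - (i + 1 + 1)) * ((m + 2).choose (i + 1 + 1) : R) =
      ((m + 2 : ℕ) : R) * (y * (y * ∑ i ∈ Finset.range m, (c i : R) * y ^ i)) := by
    rw [Finset.mul_sum, Finset.mul_sum, Finset.mul_sum]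
    refine Finset.sum_congr rfl fun i hi => ?_
    rw [Finset.mem_range] at hi
    have h2 : (m + 2).choose (i + 1 + 1) = (m + 2) * c i := hc i hi
    rw [h2, one_pow]
    push_cast
    ring
  rw [h1]
  have h2 : (m + 2).choose (0 + 1) = m + 2 := by rw [zero_add, Nat.choose_one_right]
  have h3 : (m + 2).choose 0 = 1 := Nat.choose_zero_right _
  have h4 : (m + 2).choose (m + 2) = 1 := Nat.choose_self _
  rw [h2, h3, h4]
  simp only [one_pow, mul_one, pow_zero, zero_add, pow_one, Nat.cast_one]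
  ring

private theorem ahc_poly {p d : ℕ} [Fact p.Prime] {k O : Type} [Field k] [CharP k p] [CommRing O] [IsDomain O]
    (D : DR p (d * (p - 1)) k O) (hd : d ≠ 0) {E : ℕ → O} (h0 : E 0 = 1) (h1 : E 1 = 1) (N : ℕ) (hN : N ≠ 0) :
    ∃ Q : O[X], (∀ g : O, th E N (D.w ^ d * g) ^ p - 1 = (D.w ^ d) ^ p * Q.eval g) ∧
      Q.map D.res = X ^ p - X := by
  have hp : p.Prime := Fact.out
  obtain ⟨n, rfl⟩ : ∃ n, N = n + 1 := ⟨N - 1, by omega⟩
  obtain ⟨π, hπ⟩ : ∃ π : O, π = D.w ^ d := ⟨_, rfl⟩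
  have hπp : π ^ (p - 1) = -(p : O) := by
    rw [hπ, ← pow_mul]
    exact D.w_pow
  have hπ0 : D.res π = 0 := by
    rw [hπ, map_pow, D.res_w, zero_pow hd]
  obtain ⟨R, hR⟩ : ∃ R : O[X], R = ∑ i ∈ Finset.range n, C (E (i + 2) * π ^ i) * X ^ (i + 2) := ⟨_, rfl⟩
  obtain ⟨S, hS⟩ : ∃ S : O[X], S = X + C π * R := ⟨_, rfl⟩
  obtain ⟨r, hr⟩ := ahc_pow hp (C π * S)
  refine ⟨S ^ p - S * (1 + C π * S * r), ?_, ?_⟩
  · intro g
    have hT : th E (n + 1) (D.w ^ d * g) = (C π * S + 1).eval g := by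
      rw [← hπ]
      unfold th
      rw [Finset.sum_range_succ', Finset.sum_range_succ', hS, hR]
      simp only [eval_add, eval_mul, eval_C, eval_X, eval_one, eval_finsetSum, eval_pow]
      rw [h0, zero_add, h1]
      simp only [pow_zero, mul_one, pow_one, one_mul]
      rw [mul_add, Finset.mul_sum, Finset.mul_sum]
      have h2 : ∀ i ∈ Finset.range n, E (i + 1 + 1) * (π * g) ^ (i + 1 + 1) =
          π * (π * (E (i + 2) * π ^ i * g ^ (i + 2))) := by
        intro i _
        rw [mul_pow]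
        ring
      rw [Finset.sum_congr rfl h2]
      ring
    have h2 : th E (n + 1) (D.w ^ d * g) ^ p = ((C π * S + 1) ^ p).eval g := by
      rw [hT, eval_pow]
    have h3 : (p : O[X]) * (C π) = -(C π) ^ p := by
      have h4 : C ((p : O) * π) = C (-π ^ p) := by
        congr 1
        have h5 : π ^ p = π ^ (p - 1) * π := by
          rw [← pow_succ, Nat.sub_add_cancel hp.one_le]
        rw [h5, hπp]
        ring
      rw [C_mul, C_neg, C_pow] at h4
      simpa using h4
    have h4 : (C π * S + 1) ^ p - 1 = (C π) ^ p * (S ^ p - S * (1 + C π * S * r)) := by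
      rw [hr]
      linear_combination (S * (1 + C π * S * r)) * h3
    have h5 := congrArg (fun P : O[X] => P.eval g) h4
    simp only [eval_sub, eval_mul, eval_pow, eval_C, eval_one, eval_add] at h5
    rw [h2, ← hπ]
    simp only [eval_sub, eval_mul, eval_pow, eval_C, eval_one, eval_add]
    exact h5
  · have hSm : S.map D.res = X := by
      rw [hS, Polynomial.map_add, Polynomial.map_mul, map_C, hπ0, map_X, map_zero, zero_mul, add_zero]
    rw [Polynomial.map_sub, Polynomial.map_pow, Polynomial.map_mul, Polynomial.map_add, Polynomial.map_mul,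
      Polynomial.map_mul, map_C, hπ0, hSm, Polynomial.map_one, map_zero, zero_mul, zero_mul, add_zero, mul_one]

theorem exists_g {p d : ℕ} [Fact p.Prime] {k O : Type} [Field k] [CharP k p] [CommRing O] [IsDomain O]
    (D : DR p (d * (p - 1)) k O) (hd : d ≠ 0) {E : ℕ → O} (h0 : E 0 = 1) (h1 : E 1 = 1) (N : ℕ) (hN : N ≠ 0)
    (K : ℕ) : ∃ g : O, D.res g = 1 ∧ D.w ^ K ∣ th E N (D.w ^ d * g) ^ p - 1 := by
  obtain ⟨Q, hQ, hQr⟩ := ahc_poly D hd h0 h1 N hN
  have hev : ∀ g : O, D.res (Q.eval g) = (D.res g) ^ p - D.res g := by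
    intro g
    have h2 : D.res (Q.eval g) = (Q.map D.res).eval (D.res g) := (eval_map_apply (f := D.res) (p := Q) g).symm
    rw [h2, hQr, eval_sub, eval_pow, eval_X]
  have hdv : ∀ g : O, D.res (Q.derivative.eval g) = -1 := by
    intro g
    have h2 : D.res (Q.derivative.eval g) = (Q.derivative.map D.res).eval (D.res g) :=
      (eval_map_apply (f := D.res) (p := Q.derivative) g).symm
    rw [h2, ← derivative_map, hQr, derivative_sub, derivative_X, derivative_X_pow]
    simp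
  have key : ∀ j : ℕ, ∃ g : O, D.res g = 1 ∧ D.w ^ (j + 1) ∣ Q.eval g := by
    intro j
    induction j with
    | zero =>
      refine ⟨1, map_one _, ?_⟩
      rw [zero_add, pow_one]
      apply D.dvd
      rw [hev, map_one, one_pow, sub_self]
    | succ j ih =>
      obtain ⟨g, hg, c, hc⟩ := ih
      refine ⟨g + D.w ^ (j + 1) * c, ?_, ?_⟩
      · rw [map_add, hg, map_mul, map_pow, D.res_w, zero_pow (Nat.succ_ne_zero j), zero_mul, add_zero]
      · obtain ⟨q, hq⟩ := Q.binomExpansion g (D.w ^ (j + 1) * c)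
        rw [hq, hc]
        obtain ⟨e, he⟩ : D.w ∣ 1 + Q.derivative.eval g := by
          apply D.dvd
          rw [map_add, map_one, hdv]
          ring
        have h2 : D.w ^ (j + 1) * c + Q.derivative.eval g * (D.w ^ (j + 1) * c) + q * (D.w ^ (j + 1) * c) ^ 2 =
            D.w ^ (j + 1 + 1) * (c * e + q * c ^ 2 * D.w ^ j) := by
          have h3 : D.w ^ (j + 1) * c + Q.derivative.eval g * (D.w ^ (j + 1) * c) =
              D.w ^ (j + 1) * c * (1 + Q.derivative.eval g) := by ring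
          rw [h3, he]
          ring
        rw [h2]
        exact dvd_mul_right _ _
  obtain ⟨g, hg, hd2⟩ := key K
  refine ⟨g, hg, ?_⟩
  rw [hQ]
  exact ((pow_dvd_pow D.w (Nat.le_succ K)).trans hd2).trans (dvd_mul_left _ _)

end H45.AT

end
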