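import Pool.Agent.H45.AT.AHb
import Pool.Agent.H45.AT.AHc

/-!
# AT-AHd: splitting functions of every precision

`exists_g` gives `g` with precision `K`. `chr`: let `T = tau a`, `T ^ (p ^ s) = tau (a ^ (p ^ s)) = T`. `D.trc` with `M = 2 N + 1` gives `n'`, `(n' : k) = Tr a`, and
`prod_th` with `γ = w ^ d g` (`w ∣ γ`, `d ≠ 0`): the product is `≡ ζ ^ n'` modulo `w ^ (N + 1)`, so modulo `w ^ K`. `(n : k) = (n' : k)`, so `n ≡ n'` modulo `p`
(`CharP.cast_eq_iff_mod_eq`-like), and `ζ ^ p ≡ 1` modulo `w ^ K` gives `ζ ^ n ≡ ζ ^ n'`.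
-/

set_option autoImplicit false

open Polynomial

noncomputable section

namespace H45.AT

private theorem pow_cong_le {O : Type} [CommRing O] {v z : O} {p : ℕ} (h : v ∣ z ^ p - 1) {a c : ℕ} (hac : a ≤ c)
    (hm : a ≡ c [MOD p]) : v ∣ z ^ c - z ^ a := by
  obtain ⟨e, he⟩ := (Nat.modEq_iff_dvd' hac).1 hm
  have h1 : c = a + p * e := by omega
  have h2 : z ^ c - z ^ a = z ^ a * ((z ^ p) ^ e - 1 ^ e) := by
    rw [h1, pow_add, pow_mul, one_pow]
    ring
  rw [h2]
  exact dvd_mul_of_dvd_right (h.trans (sub_dvd_pow_sub_pow _ _ _)) _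

private theorem pow_cong {O : Type} [CommRing O] {v z : O} {p : ℕ} (h : v ∣ z ^ p - 1) {a c : ℕ}
    (hm : a ≡ c [MOD p]) : v ∣ z ^ c - z ^ a := by
  rcases le_total a c with hac | hac
  · exact pow_cong_le h hac hm
  · rw [← neg_sub]
    exact (pow_cong_le h hac hm.symm).neg_right

theorem exists_sp {p d : ℕ} [Fact p.Prime] {k O : Type} [Field k] [CharP k p] [CommRing O] [IsDomain O] [CharZero O]
    (D : DR p (d * (p - 1)) k O) (hd : d ≠ 0) {E : ℕ → O} (hE : AH p E) (N K : ℕ) (hN : N ≠ 0) (hK : K ≤ N) :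
    ∃ g, SP D d E N K g := by
  have hp : p.Prime := Fact.out
  have h1 : E 1 = 1 := by
    have h := hE.step 1 one_ne_zero
    have e1 : (Finset.range 1).filter (fun j => p ^ j ≤ 1) = {0} := by
      ext j
      simp only [Finset.mem_filter, Finset.mem_range, Finset.mem_singleton]
      constructor
      · intro h
        omega
      · rintro rfl
        exact ⟨by omega, by rw [pow_zero]⟩
    rw [e1, Finset.sum_singleton, pow_zero, Nat.sub_self, hE.zero, Nat.cast_one, one_mul] at h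
    exact h
  obtain ⟨g, hg, hroot⟩ := exists_g D hd hE.zero h1 N hN K
  refine ⟨g, hg, hroot, ?_⟩
  intro s hs a ha n hn
  have hT : D.tau a ^ p ^ s = D.tau a := by rw [← map_pow, ha]
  obtain ⟨n', hn', hdiv⟩ := D.trc s hs a ha (2 * N + 1)
  have he : d * (p - 1) ≠ 0 := Nat.mul_ne_zero hd (by have := hp.two_le; omega)
  have hγ : D.w ∣ D.w ^ d * g := dvd_mul_of_dvd_left (dvd_pow_self _ hd) _
  have h2 := prod_th D he hE N (D.w ^ d * g) hγ s (D.tau a) hT n' hdiv
  have h3 : D.w ^ K ∣ D.w ^ (N + 1) := pow_dvd_pow _ (by omega)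
  have h4 : n ≡ n' [MOD p] := by
    rw [← CharP.natCast_eq_natCast k p, hn, hn']
  have h5 := pow_cong hroot h4
  have h6 := dvd_add (h3.trans h2) h5
  have h7 : ∏ j ∈ Finset.range s, th E N (D.w ^ d * g * D.tau a ^ p ^ j) - th E N (D.w ^ d * g) ^ n' +
      (th E N (D.w ^ d * g) ^ n' - th E N (D.w ^ d * g) ^ n) =
      ∏ j ∈ Finset.range s, th E N (D.w ^ d * g * D.tau a ^ p ^ j) - th E N (D.w ^ d * g) ^ n := by ring
  rwa [h7] at h6

end H45.AT

end
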