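import Pool.Agent.H45.AT.Df

/-!
# AT-CTa: the Cartier operator on the quotients `φ / (X - ρ)`

For `U_p : ∑ c_s t ^ s ↦ ∑ c_(p s) t ^ s` (`Polynomial.contract p`): entry `i` (`0 ≤ i < d`) of the left side is `∑_(j < d) coef_(p (i + 1) - (j + 1))(φ ^ (p - 1)) h_j`, `h = φ /ₘ (X - C ρ)` of degree `< d`, which is
the coefficient of `X ^ (p (i + 1))` in `φ ^ (p - 1) * X * h` (`p (i + 1) ≥ j + 1` because `j < d ≤ p`; `Polynomial.coeff_mul`, or sum over `X * h = ∑_(j<d) h_j X ^ (j + 1)`). With `φ = (X - C ρ) * h`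
(`ρ` is a root): `φ ^ (p - 1) * X * h = h ^ p * (X * (X - C ρ) ^ (p - 1))` and `h ^ p = expand p (h')`, `h' = h.map (frobenius k p)` (`Polynomial.map_frobenius_expand`/`expand_char`). The coefficient of
`X ^ (p m)` in `expand p h' * f` is the coefficient of `X ^ m` in `h' * contract p f` (`Polynomial.contract_mul_expand`), and `contract p (X * (X - C ρ) ^ (p - 1)) = X` (degree `p`, monic, constant coefficient `0`).
So entry `i` is the coefficient of `X ^ (i + 1)` in `h' * X`, the coefficient `i` of `h'`, and `h' = φ' /ₘ (X - C (ρ ^ p))`, `φ' = φ.map (frobenius k p)`, because `φ' = (X - C (ρ ^ p)) * h'`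
(`Polynomial.mul_divByMonic_cancel_left`).
-/

set_option autoImplicit false

open Polynomial

noncomputable section

namespace H45.AT

theorem cartier {p d : ℕ} [Fact p.Prime] {k : Type} [Field k] [CharP k p] (φ : k[X]) (hφ : φ.natDegree = d)
    (hdp : d ≤ p) (ρ : k) (hρ : φ.eval ρ = 0) :
    (hw p (p - 1) d φ).mulVec (vq d φ ρ) = vq d (φ.map (frobenius k p)) (ρ ^ p) := by
  have hp0 : p ≠ 0 := (Fact.out : p.Prime).ne_zero
  have hp1 : 1 ≤ p := (Fact.out : p.Prime).one_le
  by_cases hd0 : d = 0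
  · subst hd0
    funext i
    exact i.elim0
  have hφ0 : φ ≠ 0 := by
    rintro rfl
    exact hd0 (by rw [← hφ, natDegree_zero])
  obtain ⟨h, hh⟩ : ∃ h, h = φ /ₘ (X - C ρ) := ⟨_, rfl⟩
  have hmul : (X - C ρ) * h = φ := by
    rw [hh]
    exact (mul_divByMonic_eq_iff_isRoot).2 hρ
  have hh0 : h ≠ 0 := by
    rintro rfl
    rw [mul_zero] at hmul
    exact hφ0 hmul.symm
  have hdeg : h.natDegree < d := by
    have h1 : φ.natDegree = 1 + h.natDegree := by
      rw [← hmul, natDegree_mul (X_sub_C_ne_zero ρ) hh0, natDegree_X_sub_C]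
    omega
  -- the polynomial `X (X - ρ) ^ (p - 1)`
  have hcon : contract p (X * (X - C ρ) ^ (p - 1)) = (X : k[X]) := by
    have hmon : (X * (X - C ρ) ^ (p - 1)).Monic := monic_X.mul ((monic_X_sub_C ρ).pow _)
    have hnd : (X * (X - C ρ) ^ (p - 1)).natDegree = p := by
      rw [(monic_X).natDegree_mul ((monic_X_sub_C ρ).pow _), natDegree_X, (monic_X_sub_C ρ).natDegree_pow,
        natDegree_X_sub_C]
      omega
    ext n
    rw [coeff_contract hp0]
    rcases n with _ | _ | n
    · rw [zero_mul, coeff_X_mul_zero, coeff_X_zero]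
    · rw [zero_add, one_mul, coeff_X_one]
      have h1 := hmon.coeff_natDegree
      rwa [hnd] at h1
    · rw [coeff_X_of_ne_one (by omega)]
      refine coeff_eq_zero_of_natDegree_lt ?_
      rw [hnd]
      nlinarith
  have hfr : expand k p (h.map (frobenius k p)) = h ^ p := by
    rw [← map_expand, map_frobenius_expand]
  have hprod : φ ^ (p - 1) * (X * h) = (X * (X - C ρ) ^ (p - 1)) * expand k p (h.map (frobenius k p)) := by
    rw [hfr]
    have h1 : h ^ p = h ^ (p - 1) * h := by rw [← pow_succ, Nat.sub_add_cancel hp1]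
    rw [h1, ← hmul, mul_pow]
    ring
  have hrhs : φ.map (frobenius k p) /ₘ (X - C (ρ ^ p)) = h.map (frobenius k p) := by
    rw [← hmul, Polynomial.map_mul, Polynomial.map_sub, map_X, map_C, frobenius_def]
    exact mul_divByMonic_cancel_left _ (monic_X_sub_C _)
  funext i
  have hR : vq d (φ.map (frobenius k p)) (ρ ^ p) i = (φ ^ (p - 1) * (X * h)).coeff (((i : ℕ) + 1) * p) := by
    unfold vq
    rw [hrhs, hprod, ← coeff_contract hp0, contract_mul_expand hp0, hcon, coeff_X_mul]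
  rw [hR]
  conv_rhs => rw [as_sum_range_C_mul_X_pow' h hdeg]
  rw [Finset.mul_sum, Finset.mul_sum, finsetSum_coeff, Finset.sum_range]
  unfold Matrix.mulVec dotProduct
  refine Finset.sum_congr rfl fun j _ => ?_
  have e1 : φ ^ (p - 1) * (X * (C (h.coeff j) * X ^ (j : ℕ))) =
      C (h.coeff j) * (φ ^ (p - 1) * X ^ ((j : ℕ) + 1)) := by
    rw [pow_succ]
    ring
  have e2 : (j : ℕ) + 1 ≤ ((i : ℕ) + 1) * p := by
    have := j.isLt
    nlinarith
  rw [e1, coeff_C_mul, coeff_mul_X_pow', if_pos e2, mul_comm (h.coeff j)]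
  change (φ ^ (p - 1)).coeff (p * ((i : ℕ) + 1) - ((j : ℕ) + 1)) * (φ /ₘ (X - C ρ)).coeff (j : ℕ) = _
  rw [← hh, mul_comm p]

end H45.AT

end
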