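import Pool.Agent.H45.AT.Df

/-!
# AT-CTb: from size `m + 1` to size `m`

`hw p (p - 1) (m + 1) φ` for `natDegree φ = m + 1`: in the last row (`i = m`) the exponent is `p (m + 1) - (j + 1)`, and `φ ^ (p - 1)` has degree `(m + 1) (p - 1) = p (m + 1) - (m + 1)`, so the entry is `0` for `j < m` and
`leadingCoeff φ ^ (p - 1)` for `j = m` (`p ≥ 1`, `m + 1 ≤ p`). The part `i, j < m` is `hw p (p - 1) m φ`. So with the equivalence `Fin m ⊕ Fin 1 ≃ Fin (m + 1)` (`finSumFinEquiv`, or `Fin.castSucc`, `Fin.last`) the matrices are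
`fromBlocks (hw p (p - 1) m φ) * 0 (lc ^ (p - 1))`, and so is the product `pm`, with the blocks `pm (hw ..) a` and `∏ lc ^ (p - 1)` (order of the factors: the ring of `1 × 1` matrices is commutative).
`charpolyRev` is invariant under `reindex` (`Matrix.det_reindex_self`) and `Matrix.det_fromBlocks_zero₂₁`.
-/

set_option autoImplicit false

open Polynomial

noncomputable section

namespace H45.AT

private theorem hw_block {p m : ℕ} [Fact p.Prime] {k : Type} [Field k] (φ : k[X]) (hφ : φ.natDegree = m + 1)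
    (hm : m + 1 ≤ p) : ∃ B : Matrix (Fin m) (Fin 1) k,
    Matrix.reindex finSumFinEquiv.symm finSumFinEquiv.symm (hw p (p - 1) (m + 1) φ) =
      Matrix.fromBlocks (hw p (p - 1) m φ) B 0 (Matrix.of fun _ _ => φ.leadingCoeff ^ (p - 1)) := by
  have hp1 : 1 ≤ p := (Fact.out : p.Prime).one_le
  have hdeg : (φ ^ (p - 1)).natDegree = (p - 1) * (m + 1) := by rw [natDegree_pow, hφ]
  refine ⟨Matrix.of fun i _ => (φ ^ (p - 1)).coeff (p * ((i : ℕ) + 1) - (m + 1)), ?_⟩
  ext i j
  rw [Matrix.reindex_apply, Matrix.submatrix_apply, Equiv.symm_symm]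
  rcases i with i | i
  · rcases j with j | j
    · rw [Matrix.fromBlocks_apply₁₁]
      simp only [finSumFinEquiv_apply_left, hw, Matrix.of_apply, Fin.val_castAdd]
    · rw [Matrix.fromBlocks_apply₁₂]
      simp only [finSumFinEquiv_apply_left, finSumFinEquiv_apply_right, hw, Matrix.of_apply, Fin.val_castAdd,
        Fin.val_natAdd, Fin.val_eq_zero, add_zero]
  · rcases j with j | j
    · rw [Matrix.fromBlocks_apply₂₁]
      simp only [finSumFinEquiv_apply_left, finSumFinEquiv_apply_right, hw, Matrix.of_apply, Fin.val_castAdd,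
        Fin.val_natAdd, Fin.val_eq_zero, add_zero, Matrix.zero_apply]
      refine coeff_eq_zero_of_natDegree_lt ?_
      rw [hdeg]
      have h1 := j.isLt
      obtain ⟨r, rfl⟩ : ∃ r, p = r + 1 := ⟨p - 1, by omega⟩
      rw [Nat.add_sub_cancel, add_mul, one_mul]
      omega
    · rw [Matrix.fromBlocks_apply₂₂]
      simp only [finSumFinEquiv_apply_right, hw, Matrix.of_apply,
        Fin.val_natAdd, Fin.val_eq_zero, add_zero]
      rw [← leadingCoeff_pow, leadingCoeff, hdeg]
      congr 1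
      obtain ⟨r, rfl⟩ : ∃ r, p = r + 1 := ⟨p - 1, by omega⟩
      rw [Nat.add_sub_cancel, add_mul, one_mul, Nat.add_sub_cancel]

private theorem pm_block {m : ℕ} {k : Type} [Field k] (N : ℕ → Matrix (Fin (m + 1)) (Fin (m + 1)) k)
    (A : ℕ → Matrix (Fin m) (Fin m) k) (c : ℕ → k)
    (h : ∀ j, ∃ B : Matrix (Fin m) (Fin 1) k, Matrix.reindex finSumFinEquiv.symm finSumFinEquiv.symm (N j) =
      Matrix.fromBlocks (A j) B 0 (Matrix.of fun _ _ => c j)) (a : ℕ) :
    ∃ B : Matrix (Fin m) (Fin 1) k, Matrix.reindex finSumFinEquiv.symm finSumFinEquiv.symm (pm N a) =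
      Matrix.fromBlocks (pm A a) B 0 (Matrix.of fun _ _ => ∏ j ∈ Finset.range a, c j) := by
  induction a with
  | zero =>
    refine ⟨0, ?_⟩
    have h1 : (Matrix.of fun _ _ => ∏ j ∈ Finset.range 0, c j : Matrix (Fin 1) (Fin 1) k) = 1 := by
      ext i j
      rw [Matrix.of_apply, Finset.prod_range_zero, Subsingleton.elim j i, Matrix.one_apply_eq]
    rw [h1]
    change Matrix.reindex _ _ (1 : Matrix (Fin (m + 1)) (Fin (m + 1)) k) = Matrix.fromBlocks 1 0 0 1
    rw [Matrix.fromBlocks_one, Matrix.reindex_apply, Matrix.submatrix_one_equiv]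
  | succ a ih =>
    obtain ⟨B, hB⟩ := ih
    obtain ⟨B', hB'⟩ := h a
    refine ⟨A a * B + B' * (Matrix.of fun _ _ => ∏ j ∈ Finset.range a, c j), ?_⟩
    change Matrix.reindex _ _ (N a * pm N a) = Matrix.fromBlocks (A a * pm A a) _ _ _
    have h1 : Matrix.reindex finSumFinEquiv.symm finSumFinEquiv.symm (N a * pm N a) =
        Matrix.reindex finSumFinEquiv.symm finSumFinEquiv.symm (N a) *
          Matrix.reindex finSumFinEquiv.symm finSumFinEquiv.symm (pm N a) := by
      rw [Matrix.reindex_apply, Matrix.reindex_apply, Matrix.reindex_apply, Matrix.submatrix_mul_equiv]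
    rw [h1, hB, hB', Matrix.fromBlocks_multiply]
    simp only [Matrix.mul_zero, Matrix.zero_mul, add_zero, zero_add]
    congr 1
    ext i j
    rw [Matrix.mul_apply, Fin.sum_univ_one, Matrix.of_apply, Matrix.of_apply, Matrix.of_apply,
      Finset.prod_range_succ, mul_comm]

private theorem rev_block {m : ℕ} {k : Type} [Field k] (N : Matrix (Fin (m + 1)) (Fin (m + 1)) k)
    (A : Matrix (Fin m) (Fin m) k) (B : Matrix (Fin m) (Fin 1) k) (c : k)
    (h : Matrix.reindex finSumFinEquiv.symm finSumFinEquiv.symm N =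
      Matrix.fromBlocks A B 0 (Matrix.of fun _ _ => c)) :
    N.charpolyRev = A.charpolyRev * (1 - C c * X) := by
  unfold Matrix.charpolyRev
  rw [← Matrix.det_reindex_self finSumFinEquiv.symm (1 - (X : k[X]) • N.map C)]
  have h1 : Matrix.reindex finSumFinEquiv.symm finSumFinEquiv.symm (1 - (X : k[X]) • N.map C) =
      Matrix.fromBlocks (1 - (X : k[X]) • A.map C) (-((X : k[X]) • B.map C)) 0
        (Matrix.of fun _ _ => (1 - C c * X : k[X])) := by
    have hN : ∀ i j, N (finSumFinEquiv i) (finSumFinEquiv j) =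
        Matrix.fromBlocks A B 0 (Matrix.of fun _ _ => c) i j := by
      intro i j
      rw [← h, Matrix.reindex_apply, Matrix.submatrix_apply, Equiv.symm_symm]
    have hone : ∀ i j, (1 : Matrix (Fin (m + 1)) (Fin (m + 1)) k[X]) (finSumFinEquiv i) (finSumFinEquiv j) =
        (1 : Matrix (Fin m ⊕ Fin 1) (Fin m ⊕ Fin 1) k[X]) i j := by
      intro i j
      rw [Matrix.one_apply, Matrix.one_apply]
      simp only [EmbeddingLike.apply_eq_iff_eq]
    ext i j : 2
    rw [Matrix.reindex_apply, Matrix.submatrix_apply, Equiv.symm_symm, Matrix.sub_apply, Matrix.smul_apply,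
      Matrix.map_apply, hN, hone, ← Matrix.fromBlocks_one]
    rcases i with i | i
    · rcases j with j | j
      · rw [Matrix.fromBlocks_apply₁₁, Matrix.fromBlocks_apply₁₁, Matrix.fromBlocks_apply₁₁, Matrix.sub_apply,
          Matrix.smul_apply, Matrix.map_apply]
      · rw [Matrix.fromBlocks_apply₁₂, Matrix.fromBlocks_apply₁₂, Matrix.fromBlocks_apply₁₂, Matrix.neg_apply,
          Matrix.smul_apply, Matrix.map_apply, Matrix.zero_apply, zero_sub]
    · rcases j with j | j
      · rw [Matrix.fromBlocks_apply₂₁, Matrix.fromBlocks_apply₂₁, Matrix.fromBlocks_apply₂₁, Matrix.zero_apply,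
          Matrix.zero_apply, C_0, smul_zero, sub_zero]
      · rw [Matrix.fromBlocks_apply₂₂, Matrix.fromBlocks_apply₂₂, Matrix.fromBlocks_apply₂₂, Matrix.of_apply,
          Matrix.of_apply, Subsingleton.elim j i, Matrix.one_apply_eq, smul_eq_mul, mul_comm]
  rw [h1, Matrix.det_fromBlocks_zero₂₁]
  congr 1
  rw [Matrix.det_unique, Matrix.of_apply]

theorem ct_split {p m a : ℕ} [Fact p.Prime] {k : Type} [Field k] (φ : ℕ → k[X]) (hφ : ∀ j, (φ j).natDegree = m + 1)
    (hm : m + 1 ≤ p) :
    (pm (fun j => hw p (p - 1) (m + 1) (φ j)) a).charpolyRev =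
      (pm (fun j => hw p (p - 1) m (φ j)) a).charpolyRev *
        (1 - C (∏ j ∈ Finset.range a, (φ j).leadingCoeff ^ (p - 1)) * X) := by
  obtain ⟨B, hB⟩ := pm_block (fun j => hw p (p - 1) (m + 1) (φ j)) (fun j => hw p (p - 1) m (φ j))
    (fun j => (φ j).leadingCoeff ^ (p - 1)) (fun j => hw_block (φ j) (hφ j) hm) a
  exact rev_block _ _ B _ hB

end H45.AT

end
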