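import Pool.Agent.H45.AT.Df

/-!
# AT-CTc: the multiplicity of the root `1` is the number of orbits of Frobenius on the zeros

Let `T = τ.map (algebraMap F k)`, `R` the set of its `d` zeros in `k` (`T` is separable, `k` algebraically closed), `q = p ^ a = #F`; `ρ ↦ ρ ^ q` is a permutation `σ` of `R` (injective, and `T(ρ ^ q) = T(ρ) ^ q` as the coefficients
are in `F`). The vectors `v_ρ = vq d T ρ`, `ρ ∈ R`, are a basis of `Fin d → k`: `∑ c_ρ v_ρ = 0` means `∑ c_ρ T /ₘ (X - C ρ) = 0` (degree `< d`); evaluate at `ρ' ∈ R`: `(T /ₘ (X - C ρ))(ρ') = 0` for `ρ ≠ ρ'` and `≠ 0` for `ρ = ρ'`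
(simple zero), so `c_ρ' = 0`. `M v_ρ = v_(σ ρ)`. So `M ^ (d!) = 1` (`σ ^ (d!) = 1`, `orderOf` divides `Fintype.card` of `Perm R` `= d!`), and `p ∤ d!` (`d < p`), so `X ^ (d!) - 1` is separable and `M` is semisimple
(`Module.End.isSemisimple_of_squarefree_aeval_eq_zero`): the generalized eigenspace of `1` is the eigenspace (`Module.End.IsFinitelySemisimple.maxGenEigenspace_eq_eigenspace`), and its dimension is
`rootMultiplicity 1 charpoly` (`LinearMap.finrank_maxGenEigenspace_eq`/`Module.End.finrank_maxGenEigenspace`), which is the multiplicity of `1` in `charpolyRev = reverse charpoly`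
(`Matrix.reverse_charpoly`; `1` is a root of the reverse with the same multiplicity; e.g. `charpoly = (X - 1) ^ n g`, `g(1) ≠ 0`, `reverse = (1 - X) ^ n g.reverse`, `g.reverse (1) = g(1)`, `Polynomial.reverse_mul_of_domain`, `eval₂_reverse_mul_pow`).
The eigenspace: `∑ c_ρ v_ρ` with `c_(σ ρ) = c_ρ`, so (coordinates in the basis `v`) a subspace of the functions on `R` which are constant on the orbits of `σ`. Such a function factors through
`ρ ↦ minpoly F ρ ∈ {P // P.Monic ∧ Irreducible P ∧ P ∣ τ}` (a finite set: the divisors of `τ ≠ 0`), so the dimension is at most `nf τ`. This needs: `minpoly F ρ = minpoly F ρ'`, `ρ, ρ' ∈ R`, implies `ρ' = ρ ^ (q ^ i)` for some `i`: let `e ≥ 1` be minimal with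
`ρ ^ (q ^ e) = ρ`; the polynomial `∏_(i < e) (X - C (ρ ^ (q ^ i)))` has coefficients with `c ^ q = c`, so in `F` (the roots of `X ^ q - X` in `k` are the `q` elements of `F`), and it has the zero `ρ`, so `minpoly F ρ` divides it and its zero `ρ'` is one of the
`ρ ^ (q ^ i)`. (See `H13.TA.Ord` and `H13.PC` (`Fct`) for similar arguments.)
-/

set_option autoImplicit false

open Polynomial

noncomputable section

namespace H45.AT

/-- conjugate elements over a finite field -/
private theorem ctc_conj {F k : Type} [Field F] [Fintype F] [Field k] [Algebra F k] {x y : k}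
    (hx : IsIntegral F x) (hy : IsIntegral F y) (h : minpoly F x = minpoly F y) :
    ∃ n : ℕ, y = x ^ Fintype.card F ^ n := by
  obtain ⟨L, hL⟩ : ∃ L : IntermediateField F k, L = IntermediateField.adjoin F ({x, y} : Set k) :=
    ⟨_, rfl⟩
  have hfd : FiniteDimensional F L := by
    rw [hL]
    refine IntermediateField.finiteDimensional_adjoin fun z hz => ?_
    rcases hz with rfl | hz
    · exact hx
    · rw [Set.mem_singleton_iff.1 hz]
      exact hy
  have hfin : Finite L := Module.finite_of_finite F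
  have hxL : x ∈ L := by
    rw [hL]
    exact IntermediateField.subset_adjoin F _ (Or.inl rfl)
  have hyL : y ∈ L := by
    rw [hL]
    exact IntermediateField.subset_adjoin F _ (Or.inr rfl)
  have e1 : minpoly F (⟨x, hxL⟩ : L) = minpoly F x :=
    (minpoly.algebraMap_eq (algebraMap L k).injective (⟨x, hxL⟩ : L)).symm
  have e2 : minpoly F (⟨y, hyL⟩ : L) = minpoly F y :=
    (minpoly.algebraMap_eq (algebraMap L k).injective (⟨y, hyL⟩ : L)).symm
  obtain ⟨σ, hσ⟩ := minpoly.exists_algEquiv_of_root' (K := F) (x := (⟨y, hyL⟩ : L))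
    (y := (⟨x, hxL⟩ : L)) (Algebra.IsAlgebraic.isAlgebraic _) (by
      rw [e1, h, ← e2]
      exact minpoly.aeval _ _)
  obtain ⟨n, hn⟩ := (FiniteField.bijective_frobeniusAlgEquivOfAlgebraic_pow F L).2 σ
  refine ⟨n.1, ?_⟩
  have h1 : (FiniteField.frobeniusAlgEquivOfAlgebraic F L ^ n.1) (⟨x, hxL⟩ : L) = ⟨y, hyL⟩ := by
    rw [← hσ, ← hn]
  rw [AlgEquiv.coe_pow, FiniteField.coe_frobeniusAlgEquivOfAlgebraic_iterate] at h1
  exact (congrArg Subtype.val h1).symm

/-- the multiplicity of one for the reverse polynomial -/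
private theorem ctc_rev {k : Type} [Field k] {g : k[X]} (h0 : g.coeff 0 ≠ 0) :
    g.reverse.rootMultiplicity 1 ≤ g.rootMultiplicity 1 := by
  have hg : g ≠ 0 := by
    rintro rfl
    exact h0 (coeff_zero 0)
  rw [le_rootMultiplicity_iff hg]
  obtain ⟨q, hq⟩ := pow_rootMultiplicity_dvd g.reverse 1
  have hrr : g.reverse.reverse = g := by
    have h1 : g.natTrailingDegree = 0 := Nat.le_zero.1 (natTrailingDegree_le_of_ne_zero h0)
    have h2 : g.reverse.natDegree = g.natDegree := by
      rw [reverse_natDegree, h1, Nat.sub_zero]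
    unfold reverse at h2 ⊢
    rw [h2, reflect_reflect]
  have hpow : ∀ n : ℕ, ((X - C 1 : k[X]) ^ n).reverse = (X - C 1 : k[X]).reverse ^ n := by
    intro n
    induction n with
    | zero =>
      rw [pow_zero, pow_zero]
      have h1 := reverse_C (1 : k)
      rwa [C_1] at h1
    | succ n ih => rw [pow_succ, reverse_mul_of_domain, ih, pow_succ]
  have hd : (X - C 1 : k[X]) ∣ (X - C 1 : k[X]).reverse := by
    rw [dvd_iff_isRoot]
    let _ : Invertible (1 : k) := invertibleOne
    have h1 := (eval₂_reverse_eq_zero_iff (RingHom.id k) (1 : k) (X - C 1 : k[X])).2 (by simp)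
    rw [invOf_one] at h1
    exact h1
  conv_rhs => rw [← hrr, hq, reverse_mul_of_domain, hpow]
  exact (pow_dvd_pow_of_dvd hd _).trans (Dvd.intro _ rfl)

/-- the values of `T / (X - ρ)` at the zeros of `T` -/
private theorem ctc_val {k : Type} [Field k] {T : k[X]} (hT : T.Separable) {ρ ρ' : k}
    (h : T.eval ρ = 0) (h' : T.eval ρ' = 0) :
    (ρ ≠ ρ' → (T /ₘ (X - C ρ)).eval ρ' = 0) ∧ (T /ₘ (X - C ρ)).eval ρ ≠ 0 := by
  have e : (X - C ρ) * (T /ₘ (X - C ρ)) = T := mul_divByMonic_eq_iff_isRoot.2 h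
  constructor
  · intro hne
    have h1 : ((X - C ρ) * (T /ₘ (X - C ρ))).eval ρ' = 0 := by rw [e, h']
    rw [eval_mul, eval_sub, eval_X, eval_C] at h1
    exact (mul_eq_zero.1 h1).resolve_left (sub_ne_zero.2 hne.symm)
  · have h1 : (derivative T).eval ρ ≠ 0 :=
      hT.eval₂_derivative_ne_zero (RingHom.id k) h
    have h2 : (derivative T).eval ρ = (T /ₘ (X - C ρ)).eval ρ := by
      conv_lhs => rw [← e]
      rw [derivative_mul, derivative_sub, derivative_X, derivative_C, sub_zero, one_mul, eval_add,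
        eval_mul, eval_sub, eval_X, eval_C, sub_self, zero_mul, add_zero]
    rwa [h2] at h1

private theorem ctc_li {k : Type} [Field k] {T : k[X]} (hT : T.Separable) {d : ℕ}
    (hd : T.natDegree = d) {R : Type} [Fintype R] (r : R → k) (hr : Function.Injective r)
    (h0 : ∀ i, T.eval (r i) = 0) : LinearIndependent k fun i => vq d T (r i) := by
  rw [Fintype.linearIndependent_iff]
  intro g hg i
  have hT0 : T ≠ 0 := hT.ne_zero
  have hd1 : 1 ≤ d := by
    rw [← hd]
    refine Nat.one_le_iff_ne_zero.2 fun h => ?_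
    rw [eq_C_of_natDegree_eq_zero h] at hT0 h0
    have h1 := h0 i
    rw [eval_C] at h1
    rw [h1, C_0] at hT0
    exact hT0 rfl
  obtain ⟨P, hP⟩ : ∃ P : k[X], P = ∑ j, C (g j) * (T /ₘ (X - C (r j))) := ⟨_, rfl⟩
  have hP0 : P = 0 := by
    ext n
    rw [hP, finsetSum_coeff, coeff_zero]
    simp only [coeff_C_mul]
    rcases Nat.lt_or_ge n d with h | h
    · have h1 := congrFun hg ⟨n, h⟩
      rw [Finset.sum_apply] at h1
      exact h1
    · refine Finset.sum_eq_zero fun j _ => ?_
      rw [coeff_eq_zero_of_natDegree_lt, mul_zero]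
      rw [natDegree_divByMonic _ (monic_X_sub_C _), natDegree_X_sub_C, hd]
      omega
  have h1 : P.eval (r i) = g i * (T /ₘ (X - C (r i))).eval (r i) := by
    rw [hP, eval_finsetSum, Finset.sum_eq_single i]
    · rw [eval_mul, eval_C]
    · intro j _ hj
      rw [eval_mul, (ctc_val hT (h0 j) (h0 i)).1 (fun h => hj (hr h)), mul_zero]
    · intro h
      exact absurd (Finset.mem_univ i) h
  rw [hP0, eval_zero] at h1
  exact (mul_eq_zero.1 h1.symm).resolve_right (ctc_val hT (h0 i) (h0 i)).2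

/-- the linear algebra of a permutation of a basis -/
private theorem ctc_perm {k : Type} [Field k] {d : ℕ} (M : Matrix (Fin d) (Fin d) k) {R : Type}
    [Fintype R] (b : Module.Basis R k (Fin d → k)) (σ : Equiv.Perm R)
    (hM : ∀ i, M.mulVec (b i) = b (σ i)) (hN : (((Fintype.card R).factorial : ℕ) : k) ≠ 0)
    {Ω : Type} [Finite Ω] (mp : R → Ω) (hmp : ∀ i j, mp i = mp j → ∃ n : ℕ, j = (σ ^ n) i) :
    M.charpolyRev.rootMultiplicity 1 ≤ Nat.card Ω := by
  classical
  have := Fintype.ofFinite Ω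
  obtain ⟨N, hNe⟩ : ∃ N : ℕ, N = (Fintype.card R).factorial := ⟨_, rfl⟩
  have hf : ∀ i, Matrix.toLin' M (b i) = b (σ i) := fun i => hM i
  have hfn : ∀ (n : ℕ) i, (Matrix.toLin' M ^ n) (b i) = b ((σ ^ n) i) := by
    intro n
    induction n with
    | zero => intro i; rfl
    | succ n ih =>
      intro i
      rw [pow_succ', Module.End.mul_apply, ih, hf, pow_succ', Equiv.Perm.mul_apply]
  have hσ : σ ^ N = 1 := by
    rw [hNe, ← Fintype.card_perm]
    exact pow_card_eq_one
  have hfN : Matrix.toLin' M ^ N = 1 := by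
    refine b.ext fun i => ?_
    rw [hfn, hσ]
    rfl
  have hss : Module.End.IsSemisimple (Matrix.toLin' M) := by
    refine Module.End.isSemisimple_of_squarefree_aeval_eq_zero (p := (X ^ N - 1 : k[X])) ?_ ?_
    · refine (X_pow_sub_one_separable_iff.2 ?_).squarefree
      rw [hNe]
      exact hN
    · rw [map_sub, map_pow, aeval_X, map_one, hfN, sub_self]
  have hdet : M.det ≠ 0 := by
    have h1 : M ^ N = 1 := by
      apply Matrix.toLin'.injective
      rw [Matrix.toLin'_pow, hfN, Matrix.toLin'_one]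
      rfl
    have h2 : M.det ^ N = 1 := by rw [← Matrix.det_pow, h1, Matrix.det_one]
    intro h3
    rw [h3, zero_pow (by rw [hNe]; exact Nat.factorial_ne_zero _)] at h2
    exact zero_ne_one h2
  have hc0 : M.charpoly.coeff 0 ≠ 0 := by
    intro h1
    rw [Matrix.det_eq_sign_charpoly_coeff, h1, mul_zero] at hdet
    exact hdet rfl
  rw [← Matrix.reverse_charpoly]
  refine (ctc_rev hc0).trans ?_
  rw [← Matrix.charpoly_toLin', ← LinearMap.finrank_maxGenEigenspace_eq,
    hss.isFinitelySemisimple.maxGenEigenspace_eq_eigenspace]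
  obtain ⟨Φ, hΦ⟩ : ∃ Φ : (Ω → k) →ₗ[k] (Fin d → k), ∀ g, Φ g = ∑ i, g (mp i) • b i :=
    ⟨∑ i, (LinearMap.proj (mp i)).smulRight (b i), fun g => by
      rw [LinearMap.sum_apply]
      rfl⟩
  have hle : Module.End.eigenspace (Matrix.toLin' M) 1 ≤ LinearMap.range Φ := by
    intro x hx
    rw [Module.End.mem_eigenspace_iff, one_smul] at hx
    have h1 : ∀ i, b.repr x (σ i) = b.repr x i := by
      intro i
      have h2 : Matrix.toLin' M x = ∑ j, b.repr x j • b (σ j) := by
        conv_lhs => rw [← b.sum_repr x]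
        rw [map_sum]
        exact Finset.sum_congr rfl fun j _ => by rw [map_smul, hf]
      have h3 := congrArg (fun z => b.repr z (σ i)) h2
      simp only [hx, map_sum, map_smul, Finsupp.coe_finsetSum, Finset.sum_apply, Finsupp.smul_apply,
        Module.Basis.repr_self, Finsupp.single_apply, smul_eq_mul, mul_ite, mul_one, mul_zero,
        EmbeddingLike.apply_eq_iff_eq, Finset.sum_ite_eq', Finset.mem_univ, if_true] at h3
      exact h3
    have h4 : ∀ (n : ℕ) i, b.repr x ((σ ^ n) i) = b.repr x i := by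
      intro n
      induction n with
      | zero => intro i; rfl
      | succ n ih =>
        intro i
        rw [pow_succ', Equiv.Perm.mul_apply, h1, ih]
    have h5 : Function.FactorsThrough (fun i => b.repr x i) mp := by
      intro i j hij
      obtain ⟨n, hn⟩ := hmp i j hij
      change b.repr x i = b.repr x j
      rw [hn, h4]
    refine ⟨Function.extend mp (fun i => b.repr x i) 0, ?_⟩
    rw [hΦ]
    conv_rhs => rw [← b.sum_repr x]
    exact Finset.sum_congr rfl fun i _ => by rw [h5.extend_apply]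
  refine (Submodule.finrank_mono hle).trans ?_
  refine (LinearMap.finrank_range_le Φ).trans ?_
  rw [Module.finrank_fintype_fun_eq_card, Nat.card_eq_fintype_card]

theorem ct_root {p d a : ℕ} [Fact p.Prime] {F k : Type} [Field F] [Finite F] [Field k] [Algebra F k] [IsAlgClosed k]
    [CharP k p] (hq : Nat.card F = p ^ a) (τ : F[X]) (hτ : τ.Separable) (hd : τ.natDegree = d) (hdp : d < p)
    (M : Matrix (Fin d) (Fin d) k)
    (hM : ∀ ρ : k, (τ.map (algebraMap F k)).eval ρ = 0 →
      M.mulVec (vq d (τ.map (algebraMap F k)) ρ) = vq d (τ.map (algebraMap F k)) (ρ ^ p ^ a)) :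
    M.charpolyRev.rootMultiplicity 1 ≤ nf τ := by
  classical
  have := Fintype.ofFinite F
  have hqF : Fintype.card F = p ^ a := by rw [← Nat.card_eq_fintype_card, hq]
  obtain ⟨T, hT⟩ : ∃ T : k[X], T = τ.map (algebraMap F k) := ⟨_, rfl⟩
  rw [← hT] at hM
  have hTs : T.Separable := by
    rw [hT]
    exact hτ.map
  have hTd : T.natDegree = d := by rw [hT, natDegree_map, hd]
  have hT0 : T ≠ 0 := hTs.ne_zero
  have hτ0 : τ ≠ 0 := hτ.ne_zero
  have hroot : ∀ ρ : k, ρ ∈ T.roots.toFinset ↔ T.eval ρ = 0 := fun ρ => by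
    rw [Multiset.mem_toFinset, mem_roots hT0]
    rfl
  have hTa : ∀ ρ : k, T.eval ρ = 0 ↔ aeval ρ τ = 0 := fun ρ => by
    rw [hT, eval_map_algebraMap]
  have hfr : ∀ ρ : k, T.eval ρ = 0 → T.eval (ρ ^ p ^ a) = 0 := by
    intro ρ h
    rw [hTa] at h ⊢
    have h1 := aeval_algHom_apply (FiniteField.frobeniusAlgHom F k) ρ τ
    rw [h, map_zero, FiniteField.frobeniusAlgHom_apply, hqF] at h1
    exact h1
  obtain ⟨s, hs⟩ : ∃ s : T.roots.toFinset → T.roots.toFinset, ∀ i, (s i : k) = (i : k) ^ p ^ a :=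
    ⟨fun i => ⟨(i : k) ^ p ^ a, (hroot _).2 (hfr _ ((hroot _).1 i.2))⟩, fun _ => rfl⟩
  have hsi : Function.Injective s := by
    intro i j hij
    have h1 := congrArg (Subtype.val) hij
    rw [hs, hs, ← hqF] at h1
    exact Subtype.ext ((FiniteField.frobeniusAlgHom F k).injective h1)
  obtain ⟨σ, hσ⟩ : ∃ σ : Equiv.Perm T.roots.toFinset, ∀ i, (σ i : k) = (i : k) ^ p ^ a :=
    ⟨Equiv.ofBijective s (Finite.injective_iff_bijective.1 hsi), hs⟩
  have hσn : ∀ (n : ℕ) i, (((σ ^ n) i : T.roots.toFinset) : k) = (i : k) ^ Fintype.card F ^ n := by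
    intro n
    induction n with
    | zero =>
      intro i
      rw [pow_zero, pow_zero, pow_one]
      rfl
    | succ n ih =>
      intro i
      rw [pow_succ', Equiv.Perm.mul_apply, hσ, ih, ← pow_mul, hqF, pow_succ]
  have hcard : Fintype.card T.roots.toFinset = d := by
    rw [Fintype.card_coe, Multiset.toFinset_card_of_nodup (nodup_roots hTs),
      IsAlgClosed.card_roots_eq_natDegree, hTd]
  have hli : LinearIndependent k fun i : T.roots.toFinset => vq d T (i : k) :=
    ctc_li hTs hTd (fun i : T.roots.toFinset => (i : k)) Subtype.val_injective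
      fun i => (hroot _).1 i.2
  obtain ⟨b, hb⟩ : ∃ b : Module.Basis T.roots.toFinset k (Fin d → k), ∀ i, b i = vq d T (i : k) :=
    ⟨basisOfLinearIndependentOfCardEqFinrank' _ hli (by
      rw [hcard, Module.finrank_fintype_fun_eq_card, Fintype.card_fin]), fun i => by
      rw [coe_basisOfLinearIndependentOfCardEqFinrank']⟩
  have hint : ∀ ρ : k, T.eval ρ = 0 → IsIntegral F ρ := fun ρ h =>
    isAlgebraic_iff_isIntegral.1 ⟨τ, hτ0, (hTa ρ).1 h⟩
  obtain ⟨mp, hmp⟩ : ∃ mp : T.roots.toFinset → {P : F[X] // P.Monic ∧ Irreducible P ∧ P ∣ τ},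
      ∀ i, (mp i).1 = minpoly F (i : k) :=
    ⟨fun i => ⟨minpoly F (i : k), minpoly.monic (hint _ ((hroot _).1 i.2)),
      minpoly.irreducible (hint _ ((hroot _).1 i.2)),
      minpoly.dvd F _ ((hTa _).1 ((hroot _).1 i.2))⟩, fun _ => rfl⟩
  have hsurj : Function.Surjective mp := by
    rintro ⟨P, h1, h2, h3⟩
    obtain ⟨ρ, hρ⟩ := IsAlgClosed.exists_aeval_eq_zero k P h2.degree_pos.ne'
    have h4 : T.eval ρ = 0 := (hTa ρ).2 (by
      obtain ⟨Q, hQ⟩ := h3
      rw [hQ, map_mul, hρ, zero_mul])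
    refine ⟨⟨ρ, (hroot ρ).2 h4⟩, Subtype.ext ?_⟩
    rw [hmp]
    exact (minpoly.eq_of_irreducible_of_monic h2 hρ h1).symm
  have hfin : Finite {P : F[X] // P.Monic ∧ Irreducible P ∧ P ∣ τ} := Finite.of_surjective mp hsurj
  refine ctc_perm M b σ (fun i => ?_) ?_ mp fun i j hij => ?_
  · rw [hb, hb, hσ]
    exact hM _ ((hroot _).1 i.2)
  · rw [hcard]
    intro h
    rw [CharP.cast_eq_zero_iff k p, (Fact.out : p.Prime).dvd_factorial] at h
    omega
  · have h1 := congrArg Subtype.val hij
    rw [hmp, hmp] at h1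
    obtain ⟨n, hn⟩ := ctc_conj (hint _ ((hroot _).1 i.2)) (hint _ ((hroot _).1 j.2)) h1
    refine ⟨n, Subtype.ext ?_⟩
    rw [hσn]
    exact hn

end H45.AT

end
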