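import Pool.Agent.H45.AT.CTa
import Pool.Agent.H45.AT.CTb
import Pool.Agent.H45.AT.CTc

/-!
# AT-CTd: the multiplicity for the matrices of size `d - 1`

Let `T = τ.map (algebraMap F k)`, `φ j = tw p j T` (natDegree `d`; `tw p (j + 1) T = (tw p j T).map (frobenius k p)`, `iterateFrobenius` composition; `tw p a T = T` since the coefficients `c` are in `F`, `c ^ (p ^ a) = c ^ #F = c`).
By `cartier` and induction on `n`: `pm (fun j => hw p (p - 1) d (φ j)) n` maps `vq d T ρ` to `vq d (φ n) (ρ ^ (p ^ n))` for zeros `ρ` of `T` (`ρ ^ (p ^ n)` is a zero of `φ n`). With `n = a`, `ct_root` gives multiplicity `≤ nf τ` for the size `d`.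
`ct_split` (`d = m + 1`): `charpolyRev (size d) = charpolyRev (size d - 1) * (1 - c X)`, `c = ∏_j lc ^ (p ^ j (p - 1)) = lc ^ (p ^ a - 1) = 1` (`lc ∈ F`, `lc ≠ 0`), and `1 - X` has the root `1` with multiplicity one, so
(`Polynomial.rootMultiplicity_mul`, all polynomials nonzero: constant coefficient `1`) the multiplicity for the size `d - 1` plus one is `≤ nf τ`.
-/

set_option autoImplicit false

open Polynomial

noncomputable section

namespace H45.AT

private theorem tw_succ {p : ℕ} [Fact p.Prime] {k : Type} [Field k] [CharP k p] (n : ℕ) (T : k[X]) :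
    (tw p n T).map (frobenius k p) = tw p (n + 1) T := by
  unfold tw
  rw [Polynomial.map_map]
  congr 1
  ext x
  rw [RingHom.comp_apply, frobenius_def, iterateFrobenius_def, iterateFrobenius_def, ← pow_mul, pow_succ]

private theorem prod_lc {k : Type} [Field k] (p : ℕ) (hp : 1 ≤ p) (c : k) (n : ℕ) :
    (∏ j ∈ Finset.range n, (c ^ p ^ j) ^ (p - 1)) * c = c ^ p ^ n := by
  induction n with
  | zero => rw [Finset.prod_range_zero, one_mul, pow_zero, pow_one]
  | succ n ih =>
    rw [Finset.prod_range_succ, mul_right_comm, ih, ← pow_succ', Nat.sub_add_cancel hp, ← pow_mul, ← pow_succ]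

theorem ct_final {p d a : ℕ} [Fact p.Prime] {F k : Type} [Field F] [Finite F] [Field k] [Algebra F k] [IsAlgClosed k]
    [CharP k p] (hq : Nat.card F = p ^ a) (τ : F[X]) (hτ : τ.Separable) (hd : τ.natDegree = d) (hd0 : d ≠ 0) (hdp : d < p) :
    (pm (fun j => hw p (p - 1) (d - 1) (tw p j (τ.map (algebraMap F k)))) a).charpolyRev.rootMultiplicity 1 ≤
      nf τ - 1 := by
  have := Fintype.ofFinite F
  have hp1 : 1 ≤ p := (Fact.out : p.Prime).one_le
  obtain ⟨T, hT⟩ : ∃ T, T = τ.map (algebraMap F k) := ⟨_, rfl⟩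
  rw [← hT]
  have hTd : T.natDegree = d := by rw [hT, natDegree_map, hd]
  have hT0 : T ≠ 0 := by
    rintro rfl
    exact hd0 (by rw [← hTd, natDegree_zero])
  have hcF : ∀ c : F, (algebraMap F k c) ^ p ^ a = algebraMap F k c := by
    intro c
    rw [← map_pow, ← hq, Nat.card_eq_fintype_card, FiniteField.pow_card]
  have htw : ∀ j, (tw p j T).natDegree = d := by
    intro j
    unfold tw
    rw [natDegree_map, hTd]
  have htwa : tw p a T = T := by
    ext i
    unfold tw
    rw [coeff_map, hT, coeff_map, iterateFrobenius_def, hcF]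
  have hroot : ∀ ρ : k, T.eval ρ = 0 → ∀ n, (pm (fun j => hw p (p - 1) d (tw p j T)) n).mulVec (vq d T ρ) =
      vq d (tw p n T) (ρ ^ p ^ n) := by
    intro ρ hρ n
    induction n with
    | zero =>
      have h1 : tw p 0 T = T := by
        ext i
        unfold tw
        rw [coeff_map, iterateFrobenius_def, pow_zero, pow_one]
      rw [h1, pow_zero, pow_one]
      change Matrix.mulVec 1 _ = _
      rw [Matrix.one_mulVec]
    | succ n ih =>
      change Matrix.mulVec (hw p (p - 1) d (tw p n T) * pm (fun j => hw p (p - 1) d (tw p j T)) n) _ = _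
      rw [← Matrix.mulVec_mulVec, ih, cartier (tw p n T) (htw n) hdp.le, tw_succ, ← pow_mul, ← pow_succ]
      have h1 : ρ ^ p ^ n = iterateFrobenius k p n ρ := by rw [iterateFrobenius_def]
      unfold tw
      rw [h1, eval_map_apply, hρ, map_zero]
  have h1 := ct_root hq τ hτ hd hdp (pm (fun j => hw p (p - 1) d (tw p j T)) a) (by
    intro ρ hρ
    rw [← hT] at hρ ⊢
    rw [hroot ρ hρ a, htwa])
  obtain ⟨m, rfl⟩ : ∃ m, d = m + 1 := ⟨d - 1, by omega⟩
  have h2 := ct_split (a := a) (fun j => tw p j T) htw hdp.le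
  have hlc : ∏ j ∈ Finset.range a, (tw p j T).leadingCoeff ^ (p - 1) = 1 := by
    have h3 : ∀ j, (tw p j T).leadingCoeff = T.leadingCoeff ^ p ^ j := by
      intro j
      unfold tw
      rw [leadingCoeff_map, iterateFrobenius_def]
    rw [Finset.prod_congr rfl fun j _ => by rw [h3 j]]
    have h4 := prod_lc p hp1 T.leadingCoeff a
    have h5 : T.leadingCoeff ^ p ^ a = T.leadingCoeff := by
      rw [hT, leadingCoeff_map, hcF]
    rw [h5] at h4
    exact mul_right_cancel₀ (leadingCoeff_ne_zero.2 hT0) (by rw [h4, one_mul])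
  rw [hlc, C_1, one_mul] at h2
  have h6 : (1 - X : k[X]) = C (-1) * (X - C 1) := by
    rw [C_neg, C_1]
    ring
  have h7 : (pm (fun j => hw p (p - 1) (m + 1) (tw p j T)) a).charpolyRev ≠ 0 := by
    intro h8
    have h9 := Matrix.eval_charpolyRev (M := pm (fun j => hw p (p - 1) (m + 1) (tw p j T)) a)
    rw [h8, eval_zero] at h9
    exact zero_ne_one h9
  have h8 := h7
  rw [h2] at h8
  rw [h2, rootMultiplicity_mul h8, h6, rootMultiplicity_mul (by
    rw [← h6]
    exact right_ne_zero_of_mul h8), rootMultiplicity_C, rootMultiplicity_X_sub_C_self] at h1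
  change (pm (fun j => hw p (p - 1) m (tw p j T)) a).charpolyRev.rootMultiplicity 1 ≤ _
  omega

end H45.AT

end
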