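import Mathlib

/-!
# AT-DF: definitions for THEOREM AS (Artin-Schreier surfaces `z ^ p - z = f(t, x)`, MP_1bad5e_ag)

Blueprint: think 1575 and 1600 (table `think`). Everything is finite and algebraic: `O` is a domain of characteristic zero with
an element `w`, `w ^ (d (p - 1)) = - p`, and the residue field `k`, an algebraically closed field of characteristic `p`.
-/

set_option autoImplicit false

open Polynomial

noncomputable section

namespace H45.AT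

/-- The ramified coefficient ring `O` with residue field `k`: `w ^ e = - p`, `w` generates the kernel of `res`, the other
elements are units, `tau` is the Teichmüller lift, and the traces of Teichmüller elements are near natural numbers. -/
structure DR (p e : ℕ) (k O : Type) [Field k] [CommRing O] where
  w : O
  res : O →+* k
  tau : k →* O
  w_pow : w ^ e = -(p : O)
  res_w : res w = 0
  dvd : ∀ x, res x = 0 → w ∣ x
  unit : ∀ x, res x ≠ 0 → IsUnit x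
  res_tau : ∀ a, res (tau a) = a
  tau_zero : tau 0 = 0
  trc : ∀ s : ℕ, s ≠ 0 → ∀ a : k, a ^ p ^ s = a → ∀ M : ℕ, ∃ n : ℕ,
    (n : k) = ∑ j ∈ Finset.range s, a ^ p ^ j ∧
      (p : O) ^ M ∣ ∑ j ∈ Finset.range s, tau a ^ p ^ j - (n : O)

/-- The coefficients of the Artin-Hasse exponential `E`, `X E' = (∑ X ^ (p ^ j)) E`. -/
structure AH (p : ℕ) {O : Type} [CommRing O] (E : ℕ → O) : Prop where
  zero : E 0 = 1
  step : ∀ n : ℕ, n ≠ 0 → (n : O) * E n =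
    ∑ j ∈ (Finset.range n).filter (fun j => p ^ j ≤ n), E (n - p ^ j)

/-- The truncated exponential. -/
def th {O : Type} [CommRing O] (E : ℕ → O) (N : ℕ) (x : O) : O :=
  ∑ i ∈ Finset.range (N + 1), E i * x ^ i

/-- A splitting function with precision `K`: `γ = w ^ d g`, `ζ = th E N γ` is a `p`-th root of unity modulo `w ^ K`, and the
product of the `th E N (γ T ^ (p ^ j))`, `j < s`, is `ζ ^ (Tr a)` modulo `w ^ K` for `T = tau a`, `a ^ (p ^ s) = a`. -/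
structure SP {p e : ℕ} {k O : Type} [Field k] [CommRing O] (D : DR p e k O) (d : ℕ) (E : ℕ → O) (N K : ℕ)
    (g : O) : Prop where
  res_g : D.res g = 1
  root : D.w ^ K ∣ th E N (D.w ^ d * g) ^ p - 1
  chr : ∀ s : ℕ, s ≠ 0 → ∀ a : k, a ^ p ^ s = a → ∀ n : ℕ,
    (n : k) = ∑ j ∈ Finset.range s, a ^ p ^ j →
    D.w ^ K ∣ ∏ j ∈ Finset.range s, th E N (D.w ^ d * g * D.tau a ^ p ^ j) - th E N (D.w ^ d * g) ^ n

/-- The weight of a monomial. -/
def wt (u : ℕ × ℕ) : ℕ := u.1 + u.2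

/-- The monomials of degree at most `d`. -/
def tri (d : ℕ) : Finset (ℕ × ℕ) :=
  (Finset.range (d + 1) ×ˢ Finset.range (d + 1)).filter fun u => wt u ≤ d

/-- The monomials of degree at most `B` divisible by the monomial `ε`. -/
def bx (B : ℕ) (ε : ℕ × ℕ) : Finset (ℕ × ℕ) :=
  (Finset.range (B + 1) ×ˢ Finset.range (B + 1)).filter fun u => ε ≤ u ∧ wt u ≤ B

/-- The exponent of the monomial `t ^ i x ^ j`. -/
def mo (u : ℕ × ℕ) : Fin 2 →₀ ℕ := Finsupp.single 0 u.1 + Finsupp.single 1 u.2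

/-- The coefficients of a polynomial in two variables. -/
def co {R : Type} [CommRing R] (G : MvPolynomial (Fin 2) R) (u : ℕ × ℕ) : R := MvPolynomial.coeff (mo u) G

/-- The coefficient of `X ^ (Q u - v)` in `G` (zero if `Q u - v` is not an exponent). -/
def mt {R : Type} [CommRing R] (Q : ℕ) (G : MvPolynomial (Fin 2) R) (u v : ℕ × ℕ) : R :=
  if v ≤ Q • u then co G (Q • u - v) else 0

/-- The matrix of `U_Q ∘ G` on the monomials in `bx B ε`. -/
def mtx {R : Type} [CommRing R] (Q : ℕ) (G : MvPolynomial (Fin 2) R) (B : ℕ) (ε : ℕ × ℕ) :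
    Matrix (bx B ε) (bx B ε) R :=
  Matrix.of fun u v => mt Q G u v

/-- The product `M (n - 1) ⋯ M 0`. -/
def pm {R : Type} [Monoid R] (M : ℕ → R) : ℕ → R
  | 0 => 1
  | n + 1 => M n * pm M n

/-- The polynomial `∏ th E N (z_u X ^ u)`. -/
def Fp {R : Type} [CommRing R] (E : ℕ → R) (N d : ℕ) (z : ℕ × ℕ → R) : MvPolynomial (Fin 2) R :=
  ∏ u ∈ tri d, ∑ i ∈ Finset.range (N + 1), MvPolynomial.monomial (mo (i • u)) (E i * z u ^ i)

/-- The elements `y` with `y ^ n = y`. -/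
def fx (k : Type) [Field k] (n : ℕ) : Finset k := by
  classical exact (X ^ n - X : k[X]).roots.toFinset

/-- The value of `∑ a_u t ^ u₁ x ^ u₂`. -/
def vl {k : Type} [CommRing k] (d : ℕ) (a : ℕ × ℕ → k) (t x : k) : k := ∑ u ∈ tri d, a u * t ^ u.1 * x ^ u.2

/-- The block cyclic matrix with the blocks `Z 0, …, Z (a - 1)`. -/
def cyc {ι R : Type} [CommRing R] (a : ℕ) (Z : ℕ → Matrix ι ι R) : Matrix (Fin a × ι) (Fin a × ι) R[X] :=
  Matrix.of fun x y =>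
    if (y.1 : ℕ) + 1 = x.1 then C (Z y.1 x.2 y.2)
    else if (y.1 : ℕ) + 1 = a ∧ (x.1 : ℕ) = 0 then X * C (Z y.1 x.2 y.2) else 0

/-- `Z = exp (- ∑ s_r Y ^ r / r)`, without denominators. -/
structure IsZ {R : Type} [CommRing R] (s : ℕ → R) (Z : R[X]) : Prop where
  zero : Z.coeff 0 = 1
  step : ∀ n : ℕ, n ≠ 0 → (n : R) * Z.coeff n = -∑ r ∈ Finset.Icc 1 n, s r * Z.coeff (n - r)

/-- The approximation of `κ exp (- ∑ s_r (Y / q) ^ r / r)` with precision `M`, with a reduction `g` of degree at most `Dg` and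
with multiplicity at most `μ` at `1`. -/
def Apx {p e : ℕ} {k O : Type} [Field k] [CommRing O] (D : DR p e k O) (q : ℕ) (κ : O) (s : ℕ → ℤ) (Dg μ M : ℕ) : Prop :=
  ∃ (P₁ P₂ E D₀ G : O[X]) (t₁ t₂ : ℕ → O), IsZ t₁ P₁ ∧ IsZ t₂ P₂ ∧
    (∀ r : ℕ, r ≠ 0 → D.w ^ M ∣ (s r : O) - (t₁ r - t₂ r)) ∧ P₂ = E.comp (C (q : O) * X) ∧
    C κ * P₁ = (G * D₀).comp (C (q : O) * X) ∧ E.map D.res = 1 ∧ D₀.map D.res = 1 ∧ G.map D.res ≠ 0 ∧
    (G.map D.res).natDegree ≤ Dg ∧ (G.map D.res).rootMultiplicity 1 ≤ μ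

/-- The exact data for one character: `t r = q ^ (2 r) t₀₀ r - q ^ r t₁₀ r - q ^ r t₀₁ r + t₁₁ r`. -/
def One {p e : ℕ} {k O : Type} [Field k] [CommRing O] (D : DR p e k O) (q : ℕ) (κ : O) (t : ℕ → O) (Dg μ : ℕ) : Prop :=
  ∃ (D₀₀ D₁₀ D₀₁ D₁₁ H : O[X]) (t₀₀ t₁₀ t₀₁ t₁₁ : ℕ → O), IsZ t₀₀ D₀₀ ∧ IsZ t₁₀ D₁₀ ∧ IsZ t₀₁ D₀₁ ∧ IsZ t₁₁ D₁₁ ∧
    (∀ r : ℕ, r ≠ 0 → t r = (q : O) ^ (2 * r) * t₀₀ r - (q : O) ^ r * t₁₀ r - (q : O) ^ r * t₀₁ r + t₁₁ r) ∧
    H.comp (C (q : O) * X) = C κ * D₁₁ ∧ D₁₀.map D.res = 1 ∧ D₀₁.map D.res = 1 ∧ H.map D.res ≠ 0 ∧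
    (H.map D.res).natDegree ≤ Dg ∧ (H.map D.res).rootMultiplicity 1 ≤ μ

/-- The matrix `(coef_(p i - i') φ ^ n)`, `1 ≤ i, i' ≤ m`. -/
def hw {R : Type} [CommRing R] (p n m : ℕ) (φ : R[X]) : Matrix (Fin m) (Fin m) R :=
  Matrix.of fun i j => (φ ^ n).coeff (p * ((i : ℕ) + 1) - ((j : ℕ) + 1))

/-- The coefficients of `φ / (X - ρ)`. -/
def vq {k : Type} [Field k] (d : ℕ) (φ : k[X]) (ρ : k) : Fin d → k := fun j => (φ /ₘ (X - C ρ)).coeff j

/-- The polynomial with the coefficients raised to the power `p ^ j`. -/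
def tw {k : Type} [CommRing k] (p : ℕ) [ExpChar k p] (j : ℕ) (φ : k[X]) : k[X] := φ.map (iterateFrobenius k p j)

/-- The number of the monic irreducible factors of `τ`. -/
def nf {F : Type} [Field F] (τ : F[X]) : ℕ := Nat.card {P : F[X] // P.Monic ∧ Irreducible P ∧ P ∣ τ}

end H45.AT

end
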