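import Pool.Agent.H45.AT.TFz

/-!
# AT-ENa: the polynomials `Fp`

`Fp E N d z = ∏_(u ∈ tri d) ∑_(i ≤ N) monomial (mo (i • u)) (E i * z u ^ i)`.
`co_Fp_scale`: both sides are the coefficients of the images under `X_0 ↦ w X_0`, `X_1 ↦ w X_1` (`MvPolynomial.aeval`/`bind₁`), or: the property
`∀ s, co G' s = w ^ wt s * co G s` of a pair `(G', G)` is stable under products (`co_mul`, `wt` is additive) and sums, and true for monomials:
`(w ^ wt u * z u) ^ i = w ^ wt (i • u) * z u ^ i`. `map_Fp`: `MvPolynomial.map_monomial`. `eval_Fp`: `MvPolynomial.eval_monomial`. `wt_Fp`: each factor has degree `≤ N d`, `wt_mul` and induction.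
-/

set_option autoImplicit false

open Polynomial

noncomputable section

namespace H45.AT

private theorem wt_smul' (i : ℕ) (u : ℕ × ℕ) : wt (i • u) = i * wt u := by
  show i * u.1 + i * u.2 = i * (u.1 + u.2)
  ring

private theorem co_sum {R ι : Type} [CommRing R] (S : Finset ι) (G : ι → MvPolynomial (Fin 2) R) (s : ℕ × ℕ) :
    co (∑ i ∈ S, G i) s = ∑ i ∈ S, co (G i) s := MvPolynomial.coeff_sum _ _ _

private theorem scale_mul {R : Type} [CommRing R] {w : R} {G G' H H' : MvPolynomial (Fin 2) R}
    (h1 : ∀ s, co G' s = w ^ wt s * co G s) (h2 : ∀ s, co H' s = w ^ wt s * co H s) (s : ℕ × ℕ) :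
    co (G' * H') s = w ^ wt s * co (G * H) s := by
  rw [co_mul, co_mul, Finset.mul_sum]
  refine Finset.sum_congr rfl fun x hx => ?_
  rw [Finset.mul_sum]
  refine Finset.sum_congr rfl fun y hy => ?_
  rw [h1, h2]
  rw [Finset.HasAntidiagonal.mem_antidiagonal] at hx hy
  have h3 : wt s = wt (x.1, y.1) + wt (x.2, y.2) := by
    unfold wt
    rw [← hx, ← hy]
    ring
  rw [h3, pow_add]
  ring

theorem co_Fp_scale {R : Type} [CommRing R] (E : ℕ → R) (N d : ℕ) (w : R) (z : ℕ × ℕ → R) (s : ℕ × ℕ) :
    co (Fp E N d fun u => w ^ wt u * z u) s = w ^ wt s * co (Fp E N d z) s := by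
  classical
  unfold Fp
  induction tri d using Finset.induction_on generalizing s with
  | empty =>
    rw [Finset.prod_empty, Finset.prod_empty]
    by_cases h : s = 0
    · rw [h]
      have : wt (0 : ℕ × ℕ) = 0 := rfl
      rw [this, pow_zero, one_mul]
    · have h1 : co (1 : MvPolynomial (Fin 2) R) s = 0 := by
        unfold co
        rw [MvPolynomial.coeff_one, if_neg]
        intro h2
        apply h
        apply mo_inj
        rw [← h2]
        simp [mo]
      rw [h1, mul_zero]
  | insert u S hu ih =>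
    rw [Finset.prod_insert hu, Finset.prod_insert hu]
    refine scale_mul (fun s => ?_) ih s
    rw [co_sum, co_sum, Finset.mul_sum]
    refine Finset.sum_congr rfl fun i _ => ?_
    rw [co_monomial, co_monomial]
    by_cases h : i • u = s
    · rw [if_pos h, if_pos h, ← h, wt_smul', mul_pow, ← pow_mul, mul_comm (wt u) i]
      ring
    · rw [if_neg h, if_neg h, mul_zero]

theorem Fp_congr {R : Type} [CommRing R] (E : ℕ → R) (N d : ℕ) {z z' : ℕ × ℕ → R} (h : ∀ u, wt u ≤ d → z u = z' u) :
    Fp E N d z = Fp E N d z' := by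
  unfold Fp
  refine Finset.prod_congr rfl fun u hu => ?_
  rw [h u (mem_tri.1 hu)]

theorem co_map {R S : Type} [CommRing R] [CommRing S] (f : R →+* S) (G : MvPolynomial (Fin 2) R) (u : ℕ × ℕ) :
    co (MvPolynomial.map f G) u = f (co G u) := MvPolynomial.coeff_map f G _

theorem map_Fp {R S : Type} [CommRing R] [CommRing S] (f : R →+* S) (E : ℕ → R) (N d : ℕ) (z : ℕ × ℕ → R) :
    MvPolynomial.map f (Fp E N d z) = Fp (fun i => f (E i)) N d fun u => f (z u) := by
  unfold Fp
  rw [map_prod]
  refine Finset.prod_congr rfl fun u _ => ?_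
  rw [map_sum]
  refine Finset.sum_congr rfl fun i _ => ?_
  rw [MvPolynomial.map_monomial, map_mul, map_pow]

theorem eval_Fp {R : Type} [CommRing R] (E : ℕ → R) (N d : ℕ) (z : ℕ × ℕ → R) (t x : R) :
    MvPolynomial.eval ![t, x] (Fp E N d z) = ∏ u ∈ tri d, th E N (z u * t ^ u.1 * x ^ u.2) := by
  unfold Fp th
  rw [map_prod]
  refine Finset.prod_congr rfl fun u _ => ?_
  rw [map_sum]
  refine Finset.sum_congr rfl fun i _ => ?_
  rw [MvPolynomial.eval_monomial]
  unfold mo
  rw [Finsupp.prod_add_index' (fun _ => pow_zero _) (fun _ _ _ => pow_add _ _ _)]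
  simp only [Finsupp.prod_single_index, pow_zero]
  show E i * z u ^ i * (t ^ (i * u.1) * x ^ (i * u.2)) = _
  rw [mul_pow, mul_pow, ← pow_mul, ← pow_mul, mul_comm u.1 i, mul_comm u.2 i]
  ring

theorem wt_Fp {R : Type} [CommRing R] (E : ℕ → R) (N d : ℕ) (z : ℕ × ℕ → R) (s : ℕ × ℕ)
    (h : co (Fp E N d z) s ≠ 0) : wt s ≤ (tri d).card * (N * d) := by
  classical
  have key : ∀ S : Finset (ℕ × ℕ), (∀ u ∈ S, wt u ≤ d) → ∀ s,
      co (∏ u ∈ S, ∑ i ∈ Finset.range (N + 1), MvPolynomial.monomial (mo (i • u)) (E i * z u ^ i)) s ≠ 0 →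
        wt s ≤ S.card * (N * d) := by
    intro S
    induction S using Finset.induction_on with
    | empty =>
      intro _ s hs
      rw [Finset.prod_empty] at hs
      have h1 : s = 0 := by
        by_contra hne
        apply hs
        unfold co
        rw [MvPolynomial.coeff_one, if_neg]
        intro h2
        apply hne
        apply mo_inj
        rw [← h2]
        simp [mo]
      rw [h1]
      exact Nat.zero_le _
    | insert u S hu ih =>
      intro hS s hs
      rw [Finset.prod_insert hu] at hs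
      rw [Finset.card_insert_of_notMem hu, add_mul, one_mul, add_comm]
      refine wt_mul (fun v hv => ?_) (ih fun v hv => hS v (Finset.mem_insert_of_mem hv)) s hs
      rw [co_sum] at hv
      obtain ⟨i, hi, h2⟩ := Finset.exists_ne_zero_of_sum_ne_zero hv
      rw [co_monomial] at h2
      have h3 : i • u = v := by
        by_contra h4
        exact h2 (if_neg h4)
      rw [← h3, wt_smul']
      exact Nat.mul_le_mul (by have := Finset.mem_range.1 hi; omega) (hS u (Finset.mem_insert_self _ _))
  exact key (tri d) (fun u hu => mem_tri.1 hu) s h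

end H45.AT

end
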