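import Pool.Agent.H45.AT.ENa
import Pool.Agent.H45.AT.ENb

/-!
# AT-ENc: the entries of the matrices

Here `b : ℕ × ℕ → k`, `z_j u = w ^ d g tau(b u) ^ (p ^ j)`, `z'_j u = w ^ (d - wt u) g tau(b u) ^ (p ^ j)`: `z_j u = w ^ wt u * z'_j u` for `wt u ≤ d`. `A_j(u, v) = mt p (Fp E N d z_j) u v`, `B_j(u, v) = mt p (Fp E N d z'_j) u v`.
`ent_scale`: `Fp_congr`, `co_Fp_scale`; if `v ≤ p • u` then `wt (p • u - v) + wt v = p wt u`; if not both are zero.
`ent_res`: `res (co (Fp E N d z'_j) s) = co (Fp (res ∘ E) N d (res ∘ z'_j)) s` (`map_Fp`, `co_map`), `res (z'_j u) = (b u) ^ (p ^ j)` for `wt u = d` (`res g = 1`), `0` for `wt u < d`; use `Fp_congr` to make it `0` for `wt u > d`; `co_Fp_top` with `res (E n) n! = 1` for `n < p`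
(hypothesis `hE`). First claim: `v ≤ p • u`, `wt (p • u - v) = p wt u - wt v ≡ wt u - wt v` modulo `d` (`d ∣ p - 1`). Second claim: `wt u = wt v = i`, `n = i (p - 1) / d`: `wt (p • u - v) = (p - 1) i = d n`, `n ≤ p - 1` for `i ≤ d`; `v ≤ p • u` since `v₁, v₂ ≤ i ≤ d ≤ p - 1 < p u_1`, `u ≥ (1, 1)`.
-/

set_option autoImplicit false

open Polynomial

noncomputable section

namespace H45.AT

private theorem enc_wt {p : ℕ} {u v : ℕ × ℕ} (h : v ≤ p • u) : wt (p • u - v) + wt v = p * wt u := by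
  have h1 : v.1 ≤ p * u.1 := h.1
  have h2 : v.2 ≤ p * u.2 := h.2
  have h3 : wt (p • u - v) = (p * u.1 - v.1) + (p * u.2 - v.2) := rfl
  rw [h3]
  unfold wt
  rw [Nat.mul_add]
  omega

theorem ent_scale {p e : ℕ} {k O : Type} [Field k] [CommRing O] (D : DR p e k O) (E : ℕ → O) (N d : ℕ) (g : O)
    (b : ℕ × ℕ → k) (j : ℕ) (u v : ℕ × ℕ) :
    D.w ^ wt v * mt p (Fp E N d fun u => D.w ^ d * g * D.tau (b u) ^ p ^ j) u v =
      D.w ^ (p * wt u) * mt p (Fp E N d fun u => D.w ^ (d - wt u) * g * D.tau (b u) ^ p ^ j) u v := by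
  have h1 : (Fp E N d fun u => D.w ^ d * g * D.tau (b u) ^ p ^ j) =
      Fp E N d fun u => D.w ^ wt u * (D.w ^ (d - wt u) * g * D.tau (b u) ^ p ^ j) := by
    refine Fp_congr E N d fun u hu => ?_
    rw [← mul_assoc, ← mul_assoc, ← pow_add, Nat.add_sub_cancel' hu]
  unfold mt
  by_cases h : v ≤ p • u
  · rw [if_pos h, if_pos h, h1, co_Fp_scale, ← mul_assoc, ← pow_add, add_comm (wt v), enc_wt h]
  · rw [if_neg h, if_neg h, mul_zero, mul_zero]

open Classical in
private theorem enc_res {p e : ℕ} {k O : Type} [Field k] [CommRing O] (D : DR p e k O) (E : ℕ → O) (N d : ℕ) (g : O)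
    (hg : D.res g = 1) (b : ℕ × ℕ → k) (j : ℕ) (s : ℕ × ℕ) :
    D.res (co (Fp E N d fun u => D.w ^ (d - wt u) * g * D.tau (b u) ^ p ^ j) s) =
      co (Fp (fun n => D.res (E n)) N d fun u => if wt u = d then b u ^ p ^ j else 0) s := by
  rw [← co_map, map_Fp]
  congr 1
  refine Fp_congr _ N d fun u hu => ?_
  rw [map_mul, map_mul, map_pow, map_pow, D.res_tau, hg, D.res_w, mul_one]
  by_cases h : wt u = d
  · rw [if_pos h, h, Nat.sub_self, pow_zero, one_mul]
  · rw [if_neg h, zero_pow (by omega), zero_mul]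

private theorem enc_E {p e : ℕ} {k O : Type} [Field k] [CommRing O] (D : DR p e k O) (E : ℕ → O)
    (hE : ∀ n < p, (n.factorial : O) * E n = 1) : ∀ n < p, (n.factorial : k) * D.res (E n) = 1 := by
  intro n hn
  have h1 := congrArg D.res (hE n hn)
  rwa [map_mul, map_natCast, map_one] at h1

theorem ent_res0 {p e : ℕ} [Fact p.Prime] {k O : Type} [Field k] [CharP k p] [CommRing O] (D : DR p e k O) (E : ℕ → O) (N d : ℕ)
    (hd : d ≠ 0) (hdp : d ∣ p - 1) (hE : ∀ n < p, (n.factorial : O) * E n = 1) (hN : p ≤ N + 1) (g : O)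
    (hg : D.res g = 1) (b : ℕ × ℕ → k) (j : ℕ) (u v : ℕ × ℕ) (huv : ¬ wt u ≡ wt v [MOD d]) :
    D.res (mt p (Fp E N d fun u => D.w ^ (d - wt u) * g * D.tau (b u) ^ p ^ j) u v) = 0 := by
  classical
  have hp : p.Prime := Fact.out
  unfold mt
  by_cases h : v ≤ p • u
  · rw [if_pos h, enc_res D E N d g hg b j]
    refine (co_Fp_top _ N d p hd (enc_E D E hE) hp.ne_zero hN _ (fun u hu => if_neg hu) _).1 fun h1 => huv ?_
    have h2 := enc_wt h
    obtain ⟨t, ht⟩ := hdp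
    have h3 : p = d * t + 1 := by
      have := hp.one_le
      omega
    have h4 : p * wt u = d * (t * wt u) + wt u := by
      rw [h3]
      ring
    rw [h4] at h2
    have h5 : wt v ≡ wt (p • u - v) + wt v [MOD d] := by
      have h6 := ((Nat.modEq_zero_iff_dvd.2 h1).symm).add_right (wt v)
      rwa [zero_add] at h6
    have h7 : d * (t * wt u) + wt u ≡ wt u [MOD d] := by
      have h8 := ((Nat.modEq_zero_iff_dvd.2 (dvd_mul_right d (t * wt u)))).add_right (wt u)
      rwa [zero_add] at h8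
    rw [h2] at h5
    exact (h5.trans h7).symm
  · rw [if_neg h, map_zero]

theorem ent_res1 {p e : ℕ} [Fact p.Prime] {k O : Type} [Field k] [CharP k p] [CommRing O] (D : DR p e k O) (E : ℕ → O) (N d : ℕ)
    (hd : d ≠ 0) (hdp : d ∣ p - 1) (hE : ∀ n < p, (n.factorial : O) * E n = 1) (hN : p ≤ N + 1) (g : O)
    (hg : D.res g = 1) (b : ℕ × ℕ → k) (j i : ℕ) (hi : i ≤ d) (u v : ℕ × ℕ) (hu : (1, 1) ≤ u) (hv : (1, 1) ≤ v)
    (hui : wt u = i) (hvi : wt v = i) :
    ((i * (p - 1) / d).factorial : k) *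
        D.res (mt p (Fp E N d fun u => D.w ^ (d - wt u) * g * D.tau (b u) ^ p ^ j) u v) =
      ((∑ l ∈ Finset.range (d + 1), C (b (l, d - l) ^ p ^ j) * X ^ l) ^ (i * (p - 1) / d)).coeff
        (p * u.1 - v.1) := by
  classical
  have hp : p.Prime := Fact.out
  have hp2 := hp.two_le
  have hdle : d ≤ p - 1 := Nat.le_of_dvd (by omega) hdp
  have hu1 : 1 ≤ u.1 := hu.1
  have hu2 : 1 ≤ u.2 := hu.2
  have hv1 : 1 ≤ v.1 := hv.1
  have hv2 : 1 ≤ v.2 := hv.2
  have hvi' : v.1 + v.2 = i := hvi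
  have hle : v ≤ p • u := by
    constructor
    · show v.1 ≤ p * u.1
      have h1 : p * 1 ≤ p * u.1 := Nat.mul_le_mul_left _ hu1
      omega
    · show v.2 ≤ p * u.2
      have h1 : p * 1 ≤ p * u.2 := Nat.mul_le_mul_left _ hu2
      omega
  have hdn : d * (i * (p - 1) / d) = i * (p - 1) := Nat.mul_div_cancel' (hdp.mul_left i)
  have hn : i * (p - 1) / d < p := by
    have h1 : d * (i * (p - 1) / d) ≤ d * (p - 1) := by
      rw [hdn]
      exact Nat.mul_le_mul_right _ hi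
    have h2 := Nat.le_of_mul_le_mul_left h1 (Nat.pos_of_ne_zero hd)
    omega
  have hwt : wt (p • u - v) = d * (i * (p - 1) / d) := by
    have h1 := enc_wt hle
    rw [hui, hvi] at h1
    rw [hdn, Nat.mul_sub, Nat.mul_one, Nat.mul_comm i p]
    omega
  unfold mt
  rw [if_pos hle, enc_res D E N d g hg b j]
  have h3 := (co_Fp_top (fun n => D.res (E n)) N d p hd (enc_E D E hE) hp.ne_zero hN
    (fun u => if wt u = d then b u ^ p ^ j else 0) (fun u hu => if_neg hu) (p • u - v)).2 _ hn hwt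
  rw [h3]
  have h4 : (p • u - v).1 = p * u.1 - v.1 := rfl
  rw [h4]
  congr 2
  refine Finset.sum_congr rfl fun l hl => ?_
  have h5 : wt (l, d - l) = d := by
    have h6 := Finset.mem_range.1 hl
    show l + (d - l) = d
    omega
  rw [if_pos h5]

end H45.AT

end
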