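import Pool.Agent.H45.AT.LDa

/-!
# AT-LDb: the reduction of the determinant

Let `π = w ^ (p - 1)`, `π ^ d = - p`, `K` the field of fractions of `O`, `α_u = - π ^ (d - wt u)`, `β_u = 1` if `wt u < d`, `α_u = 1`, `β_u = - π ^ (wt u - d)` if `wt u ≥ d`. So `p β_u = α_u π ^ (wt u)`.
Let `H` be the determinant of `diag (C α) - cyc a (β B)` (the matrix with the diagonal entries `C (α u)` at `((j, u), (j, u))`, and the blocks `(β_u B_j(u, v))`). `κ = ∏_(i : Fin a) ∏_u α_u`.

(1) `H(q X) = κ charpolyRev (pm A a)`, `q = p ^ a`: work in `K[X]` (injective). The matrix is `diag α (1 - cyc a (α⁻¹ β B))`, so `H = κ charpolyRev (pm (α⁻¹ β B) a)` (`det_cyc`), `α⁻¹ β B_j = p⁻¹ π ^ (wt u) B_j`, so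
`pm (α⁻¹ β B) a = q⁻¹ pm X a`, `X_j(u, v) = π ^ (wt u) B_j(u, v)`, and `charpolyRev (q⁻¹ M) (q X) = charpolyRev M`. With `Λ = diag (w ^ wt u)`: `A_j Λ = Λ X_j` (`hAB`; `w ^ (p wt u) = w ^ (wt u) π ^ (wt u)`, `p ≥ 1`), so
`pm A a Λ = Λ pm X a`, `det Λ ≠ 0` (`w ≠ 0`), so `charpolyRev (pm A a) = charpolyRev (pm X a)`.

(2) `H.map res`: `res α_u = 0` and `res β_u = 1` for `wt u < d`, `res α_u = res (- π ^ (d - wt u))`; `β_u = -1`, `α_u = 1` for `wt u = d`; `res β_u = 0` for `wt u > d` (`p - 1 ≥ 1`). So the reduced matrix has the rows: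
`wt u < d`: `- cyc a (B̄)`; `wt u = d`: `1 + cyc a B̄ = 1 - cyc a (- B̄)`; `wt u > d`: the identity. Rows with `wt u > d` are rows of the identity, so the determinant is the determinant of the part `wt u, wt v ≤ d`
(`Matrix.det_fromBlocks_zero₂₁`-like, `Matrix.twoBlockTriangular_det`), and for `1 ≤ wt u, wt v ≤ d` the entry `B̄_j(u, v)` is zero unless `wt u = wt v` (`hB0`), so it is block diagonal
(`Matrix.BlockTriangular.det` with `b (i, u) = wt u`, or induction on `i ≤ d`; the whole matrix is block triangular for the function `(i, u) ↦ min (wt u) (d + 1)` with the order reversed or not: rows with `wt u > d` have no other entries,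
and rows with `wt u ≤ d` may have entries in columns with `wt v > d`). The blocks: `wt = i < d`: `- cyc a (B̄ on wt = i)`, determinant `ε_i X ^ (card {wt = i}) ∏_j det` (`det_cyc0`), nonzero constant by `hB1`; `wt = d`:
`charpolyRev (pm (- B̄ on wt = d) a)`; `wt > d`: `1`.
-/

set_option autoImplicit false

open Polynomial

noncomputable section

namespace H45.AT

/-- the matrix with the diagonal entries `α u` and the blocks `Z j` -/
private def bm {ι R : Type} [CommRing R] [DecidableEq ι] (a : ℕ) (α : ι → R) (Z : ℕ → Matrix ι ι R) :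
    Matrix (Fin a × ι) (Fin a × ι) R[X] :=
  Matrix.diagonal (fun x : Fin a × ι => (C (α x.2) : R[X])) - cyc a Z

private theorem cyc_ap {ι R : Type} [CommRing R] (a : ℕ) (Z : ℕ → Matrix ι ι R) (x y : Fin a × ι) :
    cyc a Z x y = if (y.1 : ℕ) + 1 = x.1 then C (Z y.1 x.2 y.2)
      else if (y.1 : ℕ) + 1 = a ∧ (x.1 : ℕ) = 0 then X * C (Z y.1 x.2 y.2) else 0 := rfl

private theorem bm_ap {ι R : Type} [CommRing R] [DecidableEq ι] (a : ℕ) (α : ι → R) (Z : ℕ → Matrix ι ι R)
    (x y : Fin a × ι) : bm a α Z x y = (if x = y then C (α x.2) else 0) - cyc a Z x y := by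
  unfold bm
  rw [Matrix.sub_apply, Matrix.diagonal_apply]

/-- two block cyclic matrices with comparable entries -/
private theorem cyc_cong {ι R S : Type} [CommRing R] [CommRing S] (a : ℕ) (Z : ℕ → Matrix ι ι R)
    (Z' : ℕ → Matrix ι ι S) (x y : Fin a × ι) (F : R[X] → S[X]) (h0 : F 0 = 0)
    (h1 : (y.1 : ℕ) + 1 = x.1 → F (C (Z y.1 x.2 y.2)) = C (Z' y.1 x.2 y.2))
    (h2 : (y.1 : ℕ) + 1 = a → (x.1 : ℕ) = 0 → F (X * C (Z y.1 x.2 y.2)) = X * C (Z' y.1 x.2 y.2)) :
    F (cyc a Z x y) = cyc a Z' x y := by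
  rw [cyc_ap, cyc_ap]
  split_ifs with h3 h4
  · exact h1 h3
  · exact h2 h4.1 h4.2
  · exact h0

private theorem bm_comp {ι R : Type} [CommRing R] [IsDomain R] [Fintype ι] [DecidableEq ι] (a : ℕ) (α : ι → R)
    (Z : ℕ → Matrix ι ι R) (r : R) (hr : r ≠ 0) :
    (bm a α Z).det.comp (C (r ^ a) * X) = (bm a α (fun j => r • Z j)).det := by
  obtain ⟨φ, hφ⟩ : ∃ φ : R[X] →+* R[X], φ = compRingHom (C (r ^ a) * X) := ⟨_, rfl⟩
  have hφC : ∀ c : R, φ (C c) = C c := by
    intro c
    rw [hφ, coe_compRingHom_apply, C_comp]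
  have hφX : φ X = C (r ^ a) * X := by
    rw [hφ, coe_compRingHom_apply, X_comp]
  have h1 : Matrix.diagonal (fun x : Fin a × ι => (C (r ^ (x.1 : ℕ)) : R[X])) * (bm a α Z).map φ =
      bm a α (fun j => r • Z j) * Matrix.diagonal (fun x : Fin a × ι => (C (r ^ (x.1 : ℕ)) : R[X])) := by
    refine Matrix.ext fun x y => ?_
    rw [Matrix.diagonal_mul, Matrix.mul_diagonal, Matrix.map_apply, bm_ap, bm_ap, map_sub, mul_sub, sub_mul]
    congr 1
    · split_ifs with h
      · rw [h, hφC, mul_comm]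
      · rw [map_zero, mul_zero, zero_mul]
    · rw [cyc_ap, cyc_ap]
      split_ifs with h3 h4
      · rw [hφC, Matrix.smul_apply, smul_eq_mul, ← C_mul, ← C_mul, ← h3, pow_succ]
        congr 1
        ring
      · have e : r ^ a = r * r ^ (y.1 : ℕ) := by
          rw [← pow_succ']
          exact congrArg (fun n => r ^ n) h4.1.symm
        rw [map_mul, hφC, hφX, Matrix.smul_apply, smul_eq_mul, h4.2, pow_zero, C_1, one_mul, e, C_mul, C_mul]
        ring
      · rw [map_zero, mul_zero, zero_mul]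
  have h2 : (Matrix.diagonal (fun x : Fin a × ι => (C (r ^ (x.1 : ℕ)) : R[X]))).det ≠ 0 := by
    rw [Matrix.det_diagonal, Finset.prod_ne_zero_iff]
    intro x _
    exact C_ne_zero.2 (pow_ne_zero _ hr)
  have h3 := congrArg Matrix.det h1
  rw [Matrix.det_mul, Matrix.det_mul, mul_comm] at h3
  have h4 := mul_right_cancel₀ h2 h3
  have h5 : (bm a α Z).det.comp (C (r ^ a) * X) = φ (bm a α Z).det := by
    rw [hφ, coe_compRingHom_apply]
  rw [h5, RingHom.map_det, RingHom.mapMatrix_apply]
  exact h4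

private theorem bm_fac {ι R : Type} [CommRing R] [Fintype ι] [DecidableEq ι] (a : ℕ) (ha : a ≠ 0)
    (α β γ : ι → R) (B : ℕ → Matrix ι ι R) (r : R) (h : ∀ u, r * β u = α u * γ u) :
    (bm a α (fun j => r • Matrix.of fun u v => β u * B j u v)).det =
      C ((∏ u, α u) ^ a) * (pm (fun j => Matrix.of fun u v => γ u * B j u v) a).charpolyRev := by
  have h1 : bm a α (fun j => r • Matrix.of fun u v => β u * B j u v) =
      Matrix.diagonal (fun x : Fin a × ι => (C (α x.2) : R[X])) *
        (1 - cyc a (fun j => Matrix.of fun u v => γ u * B j u v)) := by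
    refine Matrix.ext fun x y => ?_
    rw [Matrix.diagonal_mul, bm_ap, Matrix.sub_apply, mul_sub, Matrix.one_apply]
    congr 1
    · split_ifs
      · rw [mul_one]
      · rw [mul_zero]
    · have e : ∀ j : ℕ, C ((r • Matrix.of fun u v => β u * B j u v) x.2 y.2) =
          C (α x.2) * C ((Matrix.of fun u v => γ u * B j u v) x.2 y.2) := by
        intro j
        rw [Matrix.smul_apply, smul_eq_mul, Matrix.of_apply, Matrix.of_apply, ← C_mul, ← mul_assoc, h, mul_assoc]
      refine (cyc_cong a (fun j => Matrix.of fun u v => γ u * B j u v)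
        (fun j => r • Matrix.of fun u v => β u * B j u v) x y (fun z => C (α x.2) * z) (mul_zero _)
        (fun _ => (e _).symm) (fun _ _ => ?_)).symm
      show C (α x.2) * (X * _) = X * _
      rw [e]
      ring
  rw [h1, Matrix.det_mul, Matrix.det_diagonal, det_cyc a ha]
  congr 1
  rw [Fintype.prod_prod_type, C_pow, map_prod]
  show ∏ _x : Fin a, ∏ y, C (α y) = _
  rw [Finset.prod_const, Finset.card_univ, Fintype.card_fin]

private theorem pm_conj {ι R : Type} [CommRing R] [Fintype ι] [DecidableEq ι] (A Y : ℕ → Matrix ι ι R)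
    (L : Matrix ι ι R) (h : ∀ j, A j * L = L * Y j) (n : ℕ) : pm A n * L = L * pm Y n := by
  induction n with
  | zero => exact (one_mul L).trans (mul_one L).symm
  | succ n ih =>
    show A n * pm A n * L = L * (Y n * pm Y n)
    rw [mul_assoc, ih, ← mul_assoc, h, mul_assoc]

private theorem cr_conj {ι R : Type} [CommRing R] [IsDomain R] [Fintype ι] [DecidableEq ι] (M N L : Matrix ι ι R)
    (h : M * L = L * N) (h0 : L.det ≠ 0) : M.charpolyRev = N.charpolyRev := by
  have h1 : (1 - (X : R[X]) • M.map C) * L.map C = L.map C * (1 - (X : R[X]) • N.map C) := by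
    rw [sub_mul, mul_sub, one_mul, mul_one, smul_mul_assoc, mul_smul_comm, ← Matrix.map_mul, ← Matrix.map_mul, h]
  have h2 := congrArg Matrix.det h1
  rw [Matrix.det_mul, Matrix.det_mul, mul_comm] at h2
  have h3 : (L.map (C : R →+* R[X])).det ≠ 0 := by
    have h4 := RingHom.map_det (C : R →+* R[X]) L
    rw [RingHom.mapMatrix_apply] at h4
    rw [← h4]
    exact C_ne_zero.2 h0
  exact mul_left_cancel₀ h3 h2

private theorem bm_map {ι R S : Type} [CommRing R] [CommRing S] [Fintype ι] [DecidableEq ι] (a : ℕ) (α : ι → R)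
    (Z : ℕ → Matrix ι ι R) (f : R →+* S) :
    (bm a α Z).det.map f = (bm a (fun u => f (α u)) (fun j => (Z j).map f)).det := by
  have h1 : (bm a α Z).det.map f = (mapRingHom f) (bm a α Z).det := rfl
  rw [h1, RingHom.map_det, RingHom.mapMatrix_apply]
  congr 1
  refine Matrix.ext fun x y => ?_
  rw [Matrix.map_apply, bm_ap, bm_ap, map_sub]
  congr 1
  · split_ifs
    · rw [coe_mapRingHom, map_C]
    · rw [map_zero]
  · refine cyc_cong a Z (fun j => (Z j).map f) x y (fun z => mapRingHom f z) (map_zero _) (fun _ => ?_)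
      (fun _ _ => ?_)
    · rw [coe_mapRingHom, map_C, Matrix.map_apply]
    · rw [coe_mapRingHom, Polynomial.map_mul, map_C, map_X, Matrix.map_apply]

/-- a block -/
private theorem bm_blk {ι R κ : Type} [CommRing R] [Fintype ι] [DecidableEq ι] [LinearOrder κ] (a : ℕ) (W : ι → ℕ)
    (a' b' : ℕ → R) (B : ℕ → Matrix ι ι R) (i : ℕ) (b : Fin a × ι → κ) (k : κ) (hk : ∀ x, b x = k ↔ W x.2 = i) :
    ((bm a (fun u => a' (W u)) (fun j => Matrix.of fun u v => b' (W u) * B j u v)).toSquareBlock b k).det =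
      (bm a (fun _ : {u // W u = i} => a' i) (fun j => Matrix.of fun u v => b' i * B j u.1 v.1)).det := by
  let e : Fin a × {u // W u = i} ≃ {x : Fin a × ι // b x = k} :=
    { toFun := fun y => ⟨(y.1, y.2.1), (hk _).2 y.2.2⟩
      invFun := fun x => (x.1.1, ⟨x.1.2, (hk _).1 x.2⟩)
      left_inv := fun _ => rfl
      right_inv := fun _ => rfl }
  rw [← Matrix.det_submatrix_equiv_self e]
  congr 1
  refine Matrix.ext fun x y => ?_
  show bm a (fun u => a' (W u)) (fun j => Matrix.of fun u v => b' (W u) * B j u v) (x.1, x.2.1) (y.1, y.2.1) = _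
  rw [bm_ap, bm_ap, cyc_ap, cyc_ap]
  have h1 : ((x.1, x.2.1) = (y.1, y.2.1)) ↔ x = y := by
    rw [Prod.ext_iff, Prod.ext_iff, Subtype.ext_iff]
  rw [if_congr h1 rfl rfl]
  simp only [Matrix.of_apply, x.2.2]

private theorem bm_one {ι R κ : Type} [CommRing R] [Fintype ι] [DecidableEq ι] [LinearOrder κ] (a : ℕ) (W : ι → ℕ)
    (a' b' : ℕ → R) (B : ℕ → Matrix ι ι R) (b : Fin a × ι → κ) (k : κ)
    (hk : ∀ x, b x = k → a' (W x.2) = 1 ∧ b' (W x.2) = 0) :
    ((bm a (fun u => a' (W u)) (fun j => Matrix.of fun u v => b' (W u) * B j u v)).toSquareBlock b k).det = 1 := by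
  have h1 : (bm a (fun u => a' (W u)) (fun j => Matrix.of fun u v => b' (W u) * B j u v)).toSquareBlock b k = 1 := by
    refine Matrix.ext fun x y => ?_
    show bm a (fun u => a' (W u)) (fun j => Matrix.of fun u v => b' (W u) * B j u v) x.1 y.1 = _
    obtain ⟨h2, h3⟩ := hk x.1 x.2
    rw [bm_ap, cyc_ap, h2, Matrix.one_apply]
    simp only [Matrix.of_apply, h3, zero_mul, C_0, mul_zero, ite_self, sub_zero, C_1, Subtype.ext_iff]
  rw [h1, Matrix.det_one]

private theorem card_lt {ι : Type} [Fintype ι] (W : ι → ℕ) (d : ℕ) :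
    ∑ i : Fin d, Fintype.card {u // W u = (i : ℕ)} = (Finset.univ.filter (fun u => W u < d)).card := by
  classical
  rw [Finset.card_eq_sum_card_fiberwise (f := W) (t := Finset.range d)
    (fun x hx => Finset.mem_coe.2 (Finset.mem_range.2 (Finset.mem_filter.1 (Finset.mem_coe.1 hx)).2)),
    Finset.sum_range]
  refine Finset.sum_congr rfl fun i _ => ?_
  rw [Fintype.card_subtype, Finset.filter_filter]
  congr 1
  ext u
  rw [Finset.mem_filter, Finset.mem_filter]
  exact ⟨fun h => ⟨h.1, by rw [h.2]; exact i.2, h.2⟩, fun h => ⟨h.1, h.2.2⟩⟩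

theorem ldb {p d a : ℕ} [Fact p.Prime] {k O : Type} [Field k] [CommRing O] [IsDomain O] [CharZero O]
    (D : DR p (d * (p - 1)) k O) (hd : d ≠ 0) (ha : a ≠ 0) {ι : Type} [Fintype ι] [DecidableEq ι] (W : ι → ℕ)
    (hW : ∀ u, 1 ≤ W u) (A B : ℕ → Matrix ι ι O)
    (hAB : ∀ j u v, D.w ^ W v * A j u v = D.w ^ (p * W u) * B j u v)
    (hB0 : ∀ j u v, ¬ W u ≡ W v [MOD d] → D.res (B j u v) = 0)
    (hB1 : ∀ j i, i < d →
      (((B j).map D.res).submatrix (Subtype.val : {u // W u = i} → ι) Subtype.val).det ≠ 0) :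
    ∃ (H : O[X]) (c : k), c ≠ 0 ∧
      H.comp (C ((p : O) ^ a) * X) =
        C ((∏ u ∈ Finset.univ.filter (fun u => W u < d), -(D.w ^ (p - 1)) ^ (d - W u)) ^ a) *
          (pm A a).charpolyRev ∧
      H.map D.res = C c * X ^ (Finset.univ.filter (fun u => W u < d)).card *
        (pm (fun j => -((B j).map D.res).submatrix (Subtype.val : {u // W u = d} → ι) Subtype.val)
          a).charpolyRev := by
  classical
  have hp : p.Prime := Fact.out
  have hp1 : p - 1 ≠ 0 := by
    have := hp.two_le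
    omega
  have hpO : (p : O) ≠ 0 := Nat.cast_ne_zero.2 hp.ne_zero
  have hw0 : D.w ≠ 0 := by
    intro h
    have h1 := D.w_pow
    rw [h, zero_pow (mul_ne_zero hd hp1)] at h1
    exact hpO (neg_eq_zero.1 h1.symm)
  obtain ⟨ϖ, hϖ⟩ : ∃ ϖ : O, ϖ = D.w ^ (p - 1) := ⟨_, rfl⟩
  have hϖd : ϖ ^ d = -(p : O) := by
    rw [hϖ, ← pow_mul, mul_comm (p - 1) d, D.w_pow]
  have hresϖ : D.res ϖ = 0 := by
    rw [hϖ, map_pow, D.res_w, zero_pow hp1]
  let α : ι → O := fun u => if W u < d then -ϖ ^ (d - W u) else 1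
  let β : ι → O := fun u => if W u < d then 1 else -ϖ ^ (W u - d)
  have hαβ : ∀ u, (p : O) * β u = α u * ϖ ^ W u := by
    intro u
    by_cases h : W u < d
    · have h1 : α u = -ϖ ^ (d - W u) := if_pos h
      have h2 : β u = 1 := if_pos h
      rw [h1, h2, mul_one, neg_mul, ← pow_add, Nat.sub_add_cancel h.le, hϖd, neg_neg]
    · have h1 : α u = 1 := if_neg h
      have h2 : β u = -ϖ ^ (W u - d) := if_neg h
      have h3 : ϖ ^ W u = ϖ ^ d * ϖ ^ (W u - d) := by
        rw [← pow_add, Nat.add_sub_cancel' (not_lt.1 h)]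
      rw [h1, h2, one_mul, h3, hϖd]
      ring
  let Z : ℕ → Matrix ι ι O := fun j => Matrix.of fun u v => β u * B j u v
  let a' : ℕ → k := fun i => if i < d then 0 else 1
  let b' : ℕ → k := fun i => if i < d then 1 else if i = d then -1 else 0
  have hres1 : ∀ u, D.res (α u) = a' (W u) := by
    intro u
    by_cases h : W u < d
    · have h1 : α u = -ϖ ^ (d - W u) := if_pos h
      have h2 : a' (W u) = 0 := if_pos h
      rw [h1, h2, map_neg, map_pow, hresϖ, zero_pow (by omega), neg_zero]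
    · have h1 : α u = 1 := if_neg h
      have h2 : a' (W u) = 1 := if_neg h
      rw [h1, h2, map_one]
  have hres2 : ∀ u, D.res (β u) = b' (W u) := by
    intro u
    by_cases h : W u < d
    · have h1 : β u = 1 := if_pos h
      have h2 : b' (W u) = 1 := if_pos h
      rw [h1, h2, map_one]
    · have h1 : β u = -ϖ ^ (W u - d) := if_neg h
      by_cases h3 : W u = d
      · have h2 : b' (W u) = -1 := (if_neg h).trans (if_pos h3)
        rw [h1, h2, h3, Nat.sub_self, pow_zero, map_neg, map_one]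
      · have h2 : b' (W u) = 0 := (if_neg h).trans (if_neg h3)
        rw [h1, h2, map_neg, map_pow, hresϖ, zero_pow (by omega), neg_zero]
  have hblk : ∀ i : Fin d, ∃ ε : k, ε ^ 2 = 1 ∧
      (-cyc a (fun j => ((B j).map D.res).submatrix (Subtype.val : {u // W u = (i : ℕ)} → ι) Subtype.val)).det =
        C ε * X ^ Fintype.card {u // W u = (i : ℕ)} * C (∏ j ∈ Finset.range a,
          (((B j).map D.res).submatrix (Subtype.val : {u // W u = (i : ℕ)} → ι) Subtype.val).det) :=
    fun i => det_cyc0 a ha _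
  choose ε hε1 hε2 using hblk
  have hε0 : ∀ i, ε i ≠ 0 := by
    intro i h
    have h1 := hε1 i
    rw [h, zero_pow two_ne_zero] at h1
    exact zero_ne_one h1
  refine ⟨(bm a α Z).det, ∏ i : Fin d, (ε i * ∏ j ∈ Finset.range a,
    (((B j).map D.res).submatrix (Subtype.val : {u // W u = (i : ℕ)} → ι) Subtype.val).det), ?_, ?_, ?_⟩
  · refine Finset.prod_ne_zero_iff.2 fun i _ => mul_ne_zero (hε0 i) (Finset.prod_ne_zero_iff.2 fun j _ => ?_)
    exact hB1 j i i.2
  · rw [bm_comp a α Z (p : O) hpO, bm_fac a ha α β (fun u => ϖ ^ W u) B (p : O) hαβ]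
    have h1 : ∏ u, α u = ∏ u ∈ Finset.univ.filter (fun u => W u < d), -(D.w ^ (p - 1)) ^ (d - W u) := by
      rw [Finset.prod_filter, ← hϖ]
    rw [h1]
    congr 1
    refine (cr_conj _ _ (Matrix.diagonal fun u => D.w ^ W u) (pm_conj _ _ _ (fun j => ?_) a) ?_).symm
    · refine Matrix.ext fun u v => ?_
      rw [Matrix.mul_diagonal, Matrix.diagonal_mul, mul_comm, hAB, Matrix.of_apply, ← mul_assoc, hϖ, ← pow_mul,
        ← pow_add]
      congr 2
      obtain ⟨n, hn⟩ : ∃ n, p = n + 1 := ⟨p - 1, by have := hp.two_le; omega⟩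
      rw [hn, Nat.add_sub_cancel]
      ring
    · rw [Matrix.det_diagonal, Finset.prod_ne_zero_iff]
      exact fun u _ => pow_ne_zero _ hw0
  · have hM : (bm a α Z).det.map D.res = (bm a (fun u => a' (W u))
        (fun j => Matrix.of fun u v => b' (W u) * ((B j).map D.res) u v)).det := by
      rw [bm_map]
      congr 2
      · exact funext hres1
      · funext j
        refine Matrix.ext fun u v => ?_
        show D.res (β u * B j u v) = b' (W u) * D.res (B j u v)
        rw [map_mul, hres2]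
    let b : Fin a × ι → Fin (d + 2) := fun x => ⟨min (W x.2) (d + 1), by omega⟩
    have hT : Matrix.BlockTriangular (bm a (fun u => a' (W u))
        (fun j => Matrix.of fun u v => b' (W u) * ((B j).map D.res) u v)) b := by
      intro x y hxy
      have hne : x ≠ y := by
        rintro rfl
        exact lt_irrefl _ hxy
      have hlt : min (W y.2) (d + 1) < min (W x.2) (d + 1) := hxy
      have hz : ∀ j : ℕ, b' (W x.2) * ((B j).map D.res) x.2 y.2 = 0 := by
        intro j
        by_cases h : W x.2 ≤ d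
        · have h1 : W y.2 < W x.2 := by omega
          have h2 := hW y.2
          rw [Matrix.map_apply, hB0 j x.2 y.2, mul_zero]
          intro h3
          have h4 := (Nat.modEq_iff_dvd' h1.le).1 h3.symm
          have h5 := Nat.le_of_dvd (by omega) h4
          omega
        · have h1 : b' (W x.2) = 0 := (if_neg (by omega)).trans (if_neg (by omega))
          rw [h1, zero_mul]
      rw [bm_ap, if_neg hne, cyc_ap]
      simp only [Matrix.of_apply, hz, C_0, mul_zero, ite_self, sub_zero]
    rw [hM, hT.det_fintype, Fin.prod_univ_castSucc, Fin.prod_univ_castSucc]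
    have hlast := bm_one a W a' b' (fun j => (B j).map D.res) b (Fin.last (d + 1)) (fun x hx => by
      have h1 : min (W x.2) (d + 1) = d + 1 := congrArg Fin.val hx
      have h2 : ¬ W x.2 < d := by omega
      have h3 : ¬ W x.2 = d := by omega
      exact ⟨if_neg h2, (if_neg h2).trans (if_neg h3)⟩)
    rw [hlast, mul_one]
    have hd1 := bm_blk a W a' b' (fun j => (B j).map D.res) d b (Fin.last d).castSucc (fun x => by
      rw [Fin.ext_iff]
      show min (W x.2) (d + 1) = d ↔ W x.2 = d
      omega)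
    rw [hd1]
    have hd2 : bm a (fun _ : {u // W u = d} => a' d)
        (fun j => Matrix.of fun u v => b' d * ((B j).map D.res) u.1 v.1) =
        1 - cyc a (fun j => -((B j).map D.res).submatrix (Subtype.val : {u // W u = d} → ι) Subtype.val) := by
      have e1 : a' d = 1 := if_neg (lt_irrefl d)
      have e2 : b' d = -1 := (if_neg (lt_irrefl d)).trans (if_pos rfl)
      refine Matrix.ext fun x y => ?_
      rw [bm_ap, Matrix.sub_apply, Matrix.one_apply, e1, C_1]
      congr 1
      rw [cyc_ap, cyc_ap]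
      simp only [Matrix.of_apply, e2, Matrix.neg_apply, Matrix.submatrix_apply, neg_one_mul]
    rw [hd2, det_cyc a ha]
    congr 1
    have hd3 : ∀ i : Fin d, ((bm a (fun u => a' (W u))
        (fun j => Matrix.of fun u v => b' (W u) * ((B j).map D.res) u v)).toSquareBlock b
          i.castSucc.castSucc).det = C (ε i) * X ^ Fintype.card {u // W u = (i : ℕ)} * C (∏ j ∈ Finset.range a,
          (((B j).map D.res).submatrix (Subtype.val : {u // W u = (i : ℕ)} → ι) Subtype.val).det) := by
      intro i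
      have hi := i.2
      rw [bm_blk a W a' b' (fun j => (B j).map D.res) (i : ℕ) b i.castSucc.castSucc (fun x => by
        rw [Fin.ext_iff]
        show min (W x.2) (d + 1) = (i : ℕ) ↔ W x.2 = (i : ℕ)
        omega), ← hε2 i]
      congr 1
      have e1 : a' (i : ℕ) = 0 := if_pos hi
      have e2 : b' (i : ℕ) = 1 := if_pos hi
      refine Matrix.ext fun x y => ?_
      rw [bm_ap, Matrix.neg_apply, e1, C_0, ite_self, zero_sub]
      congr 1
      rw [cyc_ap, cyc_ap]
      simp only [Matrix.of_apply, e2, Matrix.submatrix_apply, one_mul]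
    rw [Finset.prod_congr rfl fun i _ => hd3 i, Finset.prod_mul_distrib, Finset.prod_mul_distrib,
      Finset.prod_pow_eq_pow_sum, card_lt, Finset.prod_mul_distrib, C_mul, map_prod, map_prod]
    ring

end H45.AT

end
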