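import Pool.Agent.H45.AT.Df

/-!
# AT-LDc: the other three determinants

`res_one`: `Λ = diag (w ^ W u)`, `X_j(u, v) = w ^ ((p - 1) W u) B_j(u, v)`: `A_j Λ = Λ X_j` (`hAB`, domain), so `pm A a Λ = Λ pm X a` and `charpolyRev (pm A a) = charpolyRev (pm X a)` (`det Λ ≠ 0` because `w ≠ 0`: `w ^ e = - p ≠ 0`, `e ≠ 0`). All
entries of `X_0` are divisible by `w` (`W u ≥ 1`, `p ≥ 2`), so those of `pm X a` are (`a ≠ 0`), so the reduction of `charpolyRev (pm X a)` is `det 1 = 1`. `res_comp`: `(Z.comp (C q * X)).map res = (Z.map res).comp 0 = C (Z.coeff 0)` and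
`Z.coeff 0 = 1` (`charpolyRev`: `Matrix.coeff_charpolyRev...`, `eval 0`).
-/

set_option autoImplicit false

open Polynomial

noncomputable section

namespace H45.AT

private theorem pm_conj {ι O : Type} [Fintype ι] [DecidableEq ι] [CommRing O] (A X : ℕ → Matrix ι ι O) (L : Matrix ι ι O)
    (h : ∀ j, A j * L = L * X j) (n : ℕ) : pm A n * L = L * pm X n := by
  induction n with
  | zero =>
    change (1 : Matrix ι ι O) * L = L * 1
    rw [one_mul, mul_one]
  | succ n ih =>
    change A n * pm A n * L = L * (X n * pm X n)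
    rw [mul_assoc, ih, ← mul_assoc, h n, mul_assoc]

private theorem rev_conj {ι O : Type} [Fintype ι] [DecidableEq ι] [CommRing O] [IsDomain O] (M N L : Matrix ι ι O)
    (h : M * L = L * N) (hL : L.det ≠ 0) : M.charpolyRev = N.charpolyRev := by
  have h1 : (1 - (X : O[X]) • M.map C) * L.map C = L.map C * (1 - (X : O[X]) • N.map C) := by
    rw [sub_mul, mul_sub, one_mul, mul_one, smul_mul_assoc, mul_smul_comm]
    congr 2
    have h2 := congrArg (fun Z : Matrix ι ι O => Z.map (C : O →+* O[X])) h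
    simp only [Matrix.map_mul] at h2
    exact h2
  have h3 := congrArg Matrix.det h1
  rw [Matrix.det_mul, Matrix.det_mul, mul_comm] at h3
  have h4 : (L.map (C : O →+* O[X])).det ≠ 0 := by
    have h5 : (L.map (C : O →+* O[X])).det = C L.det := by
      rw [RingHom.map_det]
      rfl
    rw [h5]
    exact fun h6 => hL (C_eq_zero.1 h6)
  exact mul_left_cancel₀ h4 h3

private theorem rev_res {ι O k : Type} [Fintype ι] [DecidableEq ι] [CommRing O] [CommRing k] (f : O →+* k)
    (M : Matrix ι ι O) (h : ∀ u v, f (M u v) = 0) : M.charpolyRev.map f = 1 := by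
  unfold Matrix.charpolyRev
  rw [← coe_mapRingHom, RingHom.map_det]
  have h1 : (mapRingHom f).mapMatrix (1 - (X : O[X]) • M.map C) = 1 := by
    rw [map_sub, map_one]
    have h2 : (mapRingHom f).mapMatrix ((X : O[X]) • M.map C) = 0 := by
      ext1 u v
      rw [RingHom.mapMatrix_apply, Matrix.map_apply, Matrix.smul_apply, Matrix.map_apply, smul_eq_mul, map_mul,
        coe_mapRingHom, map_C, h u v, C_0, mul_zero, Matrix.zero_apply]
    rw [h2, sub_zero]
  rw [h1, Matrix.det_one]

theorem res_one {p e a : ℕ} [Fact p.Prime] {k O : Type} [Field k] [CommRing O] [IsDomain O] [CharZero O]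
    (D : DR p e k O) (he : e ≠ 0) (ha : a ≠ 0) {ι : Type} [Fintype ι] [DecidableEq ι] (W : ι → ℕ)
    (hW : ∀ u, 1 ≤ W u) (A B : ℕ → Matrix ι ι O)
    (hAB : ∀ j u v, D.w ^ W v * A j u v = D.w ^ (p * W u) * B j u v) :
    (pm A a).charpolyRev.map D.res = 1 := by
  have hp : p.Prime := Fact.out
  have hw : D.w ≠ 0 := by
    intro h
    have h1 := D.w_pow
    rw [h, zero_pow he] at h1
    have h2 : (p : O) = 0 := neg_eq_zero.1 h1.symm
    exact hp.ne_zero (Nat.cast_eq_zero.1 h2)
  set L : Matrix ι ι O := Matrix.diagonal fun u => D.w ^ W u with hL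
  set Y : ℕ → Matrix ι ι O := fun j => Matrix.of fun u v => D.w ^ ((p - 1) * W u) * B j u v with hY
  have h1 : ∀ j, A j * L = L * Y j := by
    intro j
    ext1 u v
    rw [hL, Matrix.mul_diagonal, Matrix.diagonal_mul, hY]
    have h2 : D.w ^ W u * (D.w ^ ((p - 1) * W u) * B j u v) = D.w ^ (p * W u) * B j u v := by
      rw [← mul_assoc, ← pow_add]
      congr 2
      obtain ⟨q, rfl⟩ : ∃ q, p = q + 1 := ⟨p - 1, by have := hp.one_lt; omega⟩
      rw [Nat.add_sub_cancel]
      ring
    change A j u v * D.w ^ W v = D.w ^ W u * (D.w ^ ((p - 1) * W u) * B j u v)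
    rw [h2, ← hAB j u v, mul_comm]
  have hdet : L.det ≠ 0 := by
    rw [hL, Matrix.det_diagonal]
    exact Finset.prod_ne_zero_iff.2 fun u _ => pow_ne_zero _ hw
  rw [rev_conj _ _ L (pm_conj A Y L h1 a) hdet]
  apply rev_res
  intro u v
  obtain ⟨n, rfl⟩ : ∃ n, a = n + 1 := ⟨a - 1, by omega⟩
  change D.res ((Y n * pm Y n) u v) = 0
  rw [Matrix.mul_apply, map_sum]
  refine Finset.sum_eq_zero fun c _ => ?_
  have h3 : D.res (Y n u c) = 0 := by
    change D.res (D.w ^ ((p - 1) * W u) * B n u c) = 0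
    rw [map_mul, map_pow, D.res_w, zero_pow, zero_mul]
    have h4 := hp.one_lt
    have h5 := hW u
    exact Nat.mul_ne_zero (by omega) (by omega)
  rw [map_mul, h3, zero_mul]

theorem res_comp {R S : Type} [CommRing R] [CommRing S] (f : R →+* S) (q : R) (hq : f q = 0) (Z : R[X])
    (h0 : Z.coeff 0 = 1) : (Z.comp (C q * X)).map f = 1 := by
  rw [Polynomial.map_comp, Polynomial.map_mul, map_C, map_X, hq, C_0, zero_mul, comp_zero, ← coeff_zero_eq_eval_zero,
    coeff_map, h0, map_one, C_1]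

end H45.AT

end
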