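import Pool.Agent.H45.AT.Df
import Pool.Agent.H70.KR.Newt

/-!
# AT-NWa: Newton identities

`IsZ s Z`: `Z.coeff 0 = 1` and `n z_n = - ∑_(r = 1)^n s_r z_(n - r)`, that is `X Z' = - (∑_(r ≥ 1) s_r X ^ r) Z` in `R⟦X⟧`. `IsZ.mul`: Leibniz (in `R⟦X⟧` or with sums). `IsZ.scale`: `(Z.comp (C q * X)).coeff n = q ^ n z_n`
(`Polynomial.comp_C_mul_X_coeff`). `IsZ.prod`: induction, `IsZ.one`.
`isZ_charpolyRev`: let `R` be a domain, `L` an algebraically closed field containing it (`AlgebraicClosure (FractionRing R)`); `M` over `L`: the statement for `M.map` implies that for `M` (injectivity, `trace`, `charpolyRev` commute with `map`). Over `L`: `charpoly = ∏ (X - λ)`,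
`charpolyRev = ∏ (1 - λ X)` and `trace (M ^ r) = ∑ λ ^ r` (the roots with multiplicity; e.g. `Matrix.trace_eq_sum_roots_charpoly` for `M ^ r` and the characteristic polynomial of a power; or triangularization). Another way, for every commutative ring: let
`Δ = charpolyRev M = det (1 - X M)`, `Adj = adjugate (1 - X M)`, `Adj (1 - X M) = Δ`. Jacobi's formula `Δ' = - tr (Adj M)` (derivative of a determinant, row by row: `Δ' = ∑_(i, j) (1 - X M)_(i j)' Adj_(j i)`, from `Matrix.det_apply`, `Polynomial.derivative_prod`; or the formula for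
`derivative_det_one_add_X_smul` in `Mathlib/LinearAlgebra/Matrix/Charpoly/Coeff.lean`), and in `R⟦X⟧` `Adj = Δ ∑_(r ≥ 0) X ^ r M ^ r`, so `X Δ' = - Δ ∑_(r ≥ 1) X ^ r tr (M ^ r)`. With polynomials: let `Adj = ∑ X ^ n A_n` (matrices over `R`);
`A_n = ∑_(i ≤ n) z_i M ^ (n - i)` from `A_n - A_(n-1) M = z_n` (induction on `n`), and `(n + 1) z_(n+1) = - tr (A_n M) = - ∑_(i ≤ n) z_i tr (M ^ (n + 1 - i))`.
-/

set_option autoImplicit false

open Polynomial

noncomputable section

namespace H45.AT

/-- the series of the `s r`, `r ≥ 1` -/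
private def sr {R : Type} [CommRing R] (s : ℕ → R) : PowerSeries R := PowerSeries.mk fun r => if r = 0 then 0 else s r

private theorem isZ_iff {R : Type} [CommRing R] {s : ℕ → R} {Z : R[X]} :
    IsZ s Z ↔ Z.coeff 0 = 1 ∧
      PowerSeries.X * PowerSeries.derivative R (Z : PowerSeries R) = -(sr s * (Z : PowerSeries R)) := by
  have h1 : ∀ n : ℕ, PowerSeries.coeff n (PowerSeries.X * PowerSeries.derivative R (Z : PowerSeries R)) =
      (n : R) * Z.coeff n := by
    intro n
    rcases n with _ | n
    · simp
    · rw [PowerSeries.coeff_succ_X_mul, PowerSeries.coeff_derivative, Polynomial.coeff_coe]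
      push_cast
      ring
  have h2 : ∀ n : ℕ, PowerSeries.coeff n (-(sr s * (Z : PowerSeries R))) =
      -∑ r ∈ Finset.Icc 1 n, s r * Z.coeff (n - r) := by
    intro n
    rw [map_neg, PowerSeries.coeff_mul, Finset.Nat.sum_antidiagonal_eq_sum_range_succ_mk]
    congr 1
    have h3 : Finset.range n.succ = insert 0 (Finset.Icc 1 n) := by
      ext a
      simp only [Finset.mem_range, Finset.mem_insert, Finset.mem_Icc]
      omega
    rw [h3, Finset.sum_insert (by simp)]
    have h4 : PowerSeries.coeff 0 (sr s) = 0 := by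
      unfold sr
      rw [PowerSeries.coeff_mk, if_pos rfl]
    rw [h4, zero_mul, zero_add]
    refine Finset.sum_congr rfl fun r hr => ?_
    have h5 : PowerSeries.coeff r (sr s) = s r := by
      unfold sr
      rw [PowerSeries.coeff_mk, if_neg]
      have := (Finset.mem_Icc.1 hr).1
      omega
    rw [h5, Polynomial.coeff_coe]
  constructor
  · intro h
    refine ⟨h.zero, PowerSeries.ext fun n => ?_⟩
    rw [h1, h2]
    rcases Nat.eq_zero_or_pos n with rfl | hn
    · simp
    · exact h.step n hn.ne'
  · rintro ⟨h3, h4⟩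
    refine ⟨h3, fun n _ => ?_⟩
    rw [← h1, ← h2, h4]

private theorem sr_add {R : Type} [CommRing R] (s t : ℕ → R) : sr (s + t) = sr s + sr t := by
  ext n
  unfold sr
  rw [map_add, PowerSeries.coeff_mk, PowerSeries.coeff_mk, PowerSeries.coeff_mk]
  split_ifs
  · rw [add_zero]
  · rfl

theorem IsZ.one {R : Type} [CommRing R] : IsZ (0 : ℕ → R) (1 : R[X]) := by
  refine ⟨Polynomial.coeff_one_zero, fun n hn => ?_⟩
  rw [Polynomial.coeff_one, if_neg hn, mul_zero]
  simp

theorem IsZ.mul {R : Type} [CommRing R] {s t : ℕ → R} {Z W : R[X]} (hs : IsZ s Z) (ht : IsZ t W) :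
    IsZ (s + t) (Z * W) := by
  obtain ⟨h1, h2⟩ := isZ_iff.1 hs
  obtain ⟨h3, h4⟩ := isZ_iff.1 ht
  refine isZ_iff.2 ⟨by rw [Polynomial.mul_coeff_zero, h1, h3, one_mul], ?_⟩
  rw [Polynomial.coe_mul, Derivation.leibniz, smul_eq_mul, smul_eq_mul, sr_add]
  linear_combination (W : PowerSeries R) * h2 + (Z : PowerSeries R) * h4

theorem IsZ.prod {R ι : Type} [CommRing R] (T : Finset ι) (s : ι → ℕ → R) (Z : ι → R[X]) (h : ∀ i ∈ T, IsZ (s i) (Z i)) :
    IsZ (∑ i ∈ T, s i) (∏ i ∈ T, Z i) := by
  classical
  induction T using Finset.induction_on with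
  | empty =>
    rw [Finset.sum_empty, Finset.prod_empty]
    exact IsZ.one
  | insert a T ha ih =>
    rw [Finset.sum_insert ha, Finset.prod_insert ha]
    exact (h a (Finset.mem_insert_self a T)).mul (ih fun i hi => h i (Finset.mem_insert_of_mem hi))

theorem IsZ.scale {R : Type} [CommRing R] {s : ℕ → R} {Z : R[X]} (hs : IsZ s Z) (q : R) :
    IsZ (fun r => q ^ r * s r) (Z.comp (C q * X)) := by
  refine ⟨by rw [Polynomial.comp_C_mul_X_coeff, pow_zero, mul_one, hs.zero], fun n hn => ?_⟩
  rw [Polynomial.comp_C_mul_X_coeff, ← mul_assoc, hs.step n hn, neg_mul, Finset.sum_mul]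
  congr 1
  refine Finset.sum_congr rfl fun r hr => ?_
  rw [Polynomial.comp_C_mul_X_coeff]
  have h1 : q ^ n = q ^ r * q ^ (n - r) := by
    rw [← pow_add, Nat.add_sub_cancel' (Finset.mem_Icc.1 hr).2]
  rw [h1]
  ring

private theorem isZ_lin {R : Type} [CommRing R] (x : R) : IsZ (fun r => x ^ r) (1 - C x * X : R[X]) := by
  refine ⟨by simp, fun n hn => ?_⟩
  have h1 : ∀ m : ℕ, (1 - C x * X : R[X]).coeff m = if m = 0 then 1 else if m = 1 then -x else 0 := by
    intro m
    rw [Polynomial.coeff_sub, Polynomial.coeff_one, Polynomial.coeff_C_mul, Polynomial.coeff_X]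
    rcases m with _ | _ | m
    · simp
    · simp
    · simp
  simp only [h1]
  rw [if_neg hn]
  rcases n with _ | _ | n
  · exact absurd rfl hn
  · simp
  · have h2 : Finset.Icc 1 (n + 1 + 1) = insert (n + 1 + 1) (insert (n + 1) (Finset.Icc 1 n)) := by
      ext a
      simp only [Finset.mem_insert, Finset.mem_Icc]
      omega
    rw [h2, Finset.sum_insert (by simp), Finset.sum_insert (by simp), Finset.sum_eq_zero]
    · simp
      ring
    · intro r hr
      have h3 := Finset.mem_Icc.1 hr
      rw [if_neg (by omega), if_neg (by omega), mul_zero]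

private theorem isZ_mul {R : Type} [CommRing R] (S : Multiset R) :
    IsZ (fun r => (S.map (· ^ r)).sum) (S.map fun x => (1 - C x * X : R[X])).prod := by
  induction S using Multiset.induction with
  | empty =>
    simp only [Multiset.map_zero, Multiset.sum_zero, Multiset.prod_zero]
    exact IsZ.one
  | cons a S ih =>
    simp only [Multiset.map_cons, Multiset.sum_cons, Multiset.prod_cons]
    exact (isZ_lin a).mul ih

private theorem rev_lin {K : Type} [Field K] (x : K) : (X - C x : K[X]).reverse = 1 - C x * X := by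
  unfold Polynomial.reverse
  rw [Polynomial.natDegree_X_sub_C]
  ext n
  rw [Polynomial.coeff_reflect, Polynomial.coeff_sub, Polynomial.coeff_sub, Polynomial.coeff_one,
    Polynomial.coeff_C_mul, Polynomial.coeff_X, Polynomial.coeff_X, Polynomial.coeff_C]
  rcases n with _ | _ | n
  · simp [Polynomial.revAt]
  · simp [Polynomial.revAt]
  · simp [Polynomial.revAt]

private theorem rev_prod {K : Type} [Field K] (S : Multiset K) :
    (S.map fun x => (X - C x : K[X])).prod.reverse = (S.map fun x => (1 - C x * X : K[X])).prod := by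
  induction S using Multiset.induction with
  | empty =>
    simp only [Multiset.map_zero, Multiset.prod_zero]
    have h1 : (1 : K[X]) = C 1 := by rw [C_1]
    rw [h1, Polynomial.reverse_C]
  | cons a S ih =>
    simp only [Multiset.map_cons, Multiset.prod_cons]
    rw [Polynomial.reverse_mul_of_domain, ih, rev_lin]

private theorem isZ_closed {K ι : Type} [Field K] [IsAlgClosed K] [Fintype ι] [DecidableEq ι] (M : Matrix ι ι K) :
    IsZ (fun r => (M ^ r).trace) M.charpolyRev := by
  have h1 : M.charpolyRev = (M.charpoly.roots.map fun x => (1 - C x * X : K[X])).prod := by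
    rw [← Matrix.reverse_charpoly, ← rev_prod]
    congr 1
    exact (IsAlgClosed.splits M.charpoly).eq_prod_roots_of_monic M.charpoly_monic
  rw [h1]
  have h2 : (fun r => (M ^ r).trace) = fun r => (M.charpoly.roots.map (· ^ r)).sum :=
    funext fun r => Pool.Agent.H70.KR.trace_pow_eq_sum_roots M r
  rw [h2]
  exact isZ_mul _

private theorem isZ_of_map {R L : Type} [CommRing R] [CommRing L] (f : R →+* L) (hf : Function.Injective f) {s : ℕ → R}
    {Z : R[X]} (h : IsZ (fun r => f (s r)) (Z.map f)) : IsZ s Z := by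
  refine ⟨hf ?_, fun n hn => hf ?_⟩
  · rw [← Polynomial.coeff_map, h.zero, map_one]
  · have h1 := h.step n hn
    rw [map_mul, map_natCast, ← Polynomial.coeff_map, h1, map_neg, map_sum]
    congr 1
    refine Finset.sum_congr rfl fun r _ => ?_
    rw [map_mul, Polynomial.coeff_map]

theorem isZ_charpolyRev {R ι : Type} [CommRing R] [IsDomain R] [Fintype ι] [DecidableEq ι] (M : Matrix ι ι R) :
    IsZ (fun r => (M ^ r).trace) M.charpolyRev := by
  obtain ⟨f, hf⟩ : ∃ f : R →+* AlgebraicClosure (FractionRing R), Function.Injective f :=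
    ⟨(algebraMap (FractionRing R) (AlgebraicClosure (FractionRing R))).comp (algebraMap R (FractionRing R)),
      (algebraMap (FractionRing R) (AlgebraicClosure (FractionRing R))).injective.comp
        (IsFractionRing.injective R (FractionRing R))⟩
  refine isZ_of_map f hf ?_
  have h1 := isZ_closed (f.mapMatrix M)
  have h2 : (f.mapMatrix M).charpolyRev = M.charpolyRev.map f := by
    unfold Matrix.charpolyRev
    rw [← Polynomial.coe_mapRingHom, RingHom.map_det]
    congr 1
    ext i j
    simp [Matrix.one_apply, apply_ite]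
  have h3 : (fun r => ((f.mapMatrix M) ^ r).trace) = fun r => f ((M ^ r).trace) := by
    funext r
    rw [← map_pow]
    simp [Matrix.trace]
  rw [h2, h3] at h1
  exact h1

end H45.AT

end
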