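import Pool.Agent.H45.AT.TFa

/-!
# AT-TFc: the trace formula

`mtx_mul`: entry `(u, v)`: `Matrix.mul_apply`, `Finset.sum_coe_sort`-like, and `co_mul_expand` with `S = bx B ε`: if `mt Q₂ G₂ m v ≠ 0` with `v ∈ bx B ε` then
`v ≤ Q₂ • m`, so `ε ≤ m` (`ε ≤ v ≤ Q₂ m`, `ε ≤ (1, 1)`, so `m₁ ≥ 1` if `ε₁ = 1`), and `wt (Q₂ • m - v) = Q₂ wt m - wt v ≤ (Q₂ - 1) B`, `wt v ≤ B`, so `Q₂ wt m ≤ Q₂ B`, `wt m ≤ B`.

`trace_formula`: let `G_n = ∏_(j < n) expand (p ^ j) (F j)`. By induction on `n`: `pm (mtx p (F j)) n = mtx (p ^ n) G_n` (for `n ≥ 1`; the step: `G_(n+1) = expand (p ^ n) (F n) * G_n`,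
`mtx_mul` with `Q₁ = p`, `Q₂ = p ^ n`, and the degree bound `co G_n u ≠ 0 → wt u ≤ (p ^ n - 1) B`, from `wt_mul`, `co_expand_ne`, `co_expand`), and `pm M (a r) = (pm M a) ^ r` for `M (j + a) = M j`.
So `(pm M a) ^ r = mtx (p ^ (a r)) G_(a r)`, whose trace is `∑_(u ∈ bx B ε) mt Q G u u`. The left side is `∑ eval ![tau t, tau x] G_(a r)` (`MvPolynomial.eval` of `expand`: `eval ![t, x] (expand Q G) = eval ![t ^ Q, x ^ Q] G`).
Apply `sum_points` with `s = a r`.
-/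

set_option autoImplicit false

open Polynomial

noncomputable section

namespace H45.AT

private theorem tfc_eval {R : Type} [CommRing R] (Q : ℕ) (G : MvPolynomial (Fin 2) R) (t x : R) :
    MvPolynomial.eval ![t, x] (MvPolynomial.expand Q G) = MvPolynomial.eval ![t ^ Q, x ^ Q] G := by
  induction G using MvPolynomial.induction_on with
  | C c => simp
  | add a b ha hb => rw [map_add, map_add, map_add, ha, hb]
  | mul_X a i ha =>
    rw [map_mul, map_mul, map_mul, ha, MvPolynomial.expand_X, map_pow, MvPolynomial.eval_X, MvPolynomial.eval_X]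
    congr 1
    fin_cases i
    · rfl
    · rfl

private theorem tfc_add {R : Type} [Monoid R] (M : ℕ → R) (n m : ℕ) :
    pm M (n + m) = pm (fun j => M (j + m)) n * pm M m := by
  induction n with
  | zero =>
    rw [Nat.zero_add]
    show pm M m = 1 * pm M m
    rw [one_mul]
  | succ n ih =>
    rw [Nat.succ_add]
    show M (n + m) * pm M (n + m) = M (n + m) * pm (fun j => M (j + m)) n * pm M m
    rw [ih, mul_assoc]

private theorem tfc_per {R : Type} [Monoid R] (M : ℕ → R) (a : ℕ) (hM : ∀ j, M (j + a) = M j) (r : ℕ) :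
    pm M (a * r) = pm M a ^ r := by
  induction r with
  | zero =>
    rw [mul_zero, pow_zero]
    rfl
  | succ r ih =>
    rw [Nat.mul_succ, tfc_add, pow_succ, ← ih]
    congr 2
    funext j
    exact hM j

theorem mtx_mul {R : Type} [CommRing R] (Q₁ Q₂ : ℕ) (hQ₂ : Q₂ ≠ 0) (G₁ G₂ : MvPolynomial (Fin 2) R) (B : ℕ)
    (ε : ℕ × ℕ) (hε : ε ≤ (1, 1)) (h : ∀ u, co G₂ u ≠ 0 → wt u ≤ (Q₂ - 1) * B) :
    mtx Q₁ G₁ B ε * mtx Q₂ G₂ B ε = mtx (Q₁ * Q₂) (MvPolynomial.expand Q₂ G₁ * G₂) B ε := by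
  classical
  ext u v
  have hv := mem_bx.1 v.2
  rw [Matrix.mul_apply]
  show (∑ m : bx B ε, mt Q₁ G₁ u m * mt Q₂ G₂ m v) = mt (Q₁ * Q₂) (MvPolynomial.expand Q₂ G₁ * G₂) u v
  rw [co_mul_expand Q₁ Q₂ hQ₂ G₁ G₂ u v (bx B ε)]
  · exact Finset.sum_coe_sort (bx B ε) (fun m => mt Q₁ G₁ u m * mt Q₂ G₂ m v)
  · intro m hm
    have h1 : (v : ℕ × ℕ) ≤ Q₂ • m := by
      by_contra h1
      exact hm (if_neg h1)
    have h2 : co G₂ (Q₂ • m - v) ≠ 0 := by
      intro h2
      apply hm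
      unfold mt
      rw [if_pos h1, h2]
    have h3 := h _ h2
    have e1 : (v : ℕ × ℕ).1 ≤ Q₂ * m.1 := h1.1
    have e2 : (v : ℕ × ℕ).2 ≤ Q₂ * m.2 := h1.2
    have e3 : wt (Q₂ • m - v) = (Q₂ * m.1 - (v : ℕ × ℕ).1) + (Q₂ * m.2 - (v : ℕ × ℕ).2) := rfl
    rw [e3] at h3
    have e4 : (v : ℕ × ℕ).1 + (v : ℕ × ℕ).2 ≤ B := hv.2
    have e5 : (Q₂ - 1) * B + B = Q₂ * B := by
      obtain ⟨q, rfl⟩ := Nat.exists_eq_succ_of_ne_zero hQ₂
      rw [Nat.succ_sub_one, Nat.succ_mul]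
    have e6 : Q₂ * m.1 + Q₂ * m.2 ≤ Q₂ * B := by omega
    rw [mem_bx]
    refine ⟨⟨?_, ?_⟩, ?_⟩
    · have f1 : ε.1 ≤ 1 := hε.1
      have f2 : ε.1 ≤ (v : ℕ × ℕ).1 := hv.1.1
      rcases Nat.eq_zero_or_pos m.1 with h0 | h0
      · rw [h0, mul_zero] at e1
        omega
      · omega
    · have f1 : ε.2 ≤ 1 := hε.2
      have f2 : ε.2 ≤ (v : ℕ × ℕ).2 := hv.1.2
      rcases Nat.eq_zero_or_pos m.2 with h0 | h0
      · rw [h0, mul_zero] at e2
        omega
      · omega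
    · show m.1 + m.2 ≤ B
      rw [← mul_add] at e6
      exact Nat.le_of_mul_le_mul_left e6 (Nat.pos_of_ne_zero hQ₂)

theorem trace_formula {p e : ℕ} [Fact p.Prime] {k O : Type} [Field k] [CharP k p] [IsAlgClosed k] [CommRing O]
    [IsDomain O] (D : DR p e k O) (a r B : ℕ) (ha : a ≠ 0) (hr : r ≠ 0) (F : ℕ → MvPolynomial (Fin 2) O)
    (hF : ∀ j, F (j + a) = F j) (hB : ∀ j u, co (F j) u ≠ 0 → wt u ≤ (p - 1) * B) :
    ∑ t ∈ fx k (p ^ (a * r)), ∑ x ∈ fx k (p ^ (a * r)), ∏ j ∈ Finset.range (a * r),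
        MvPolynomial.eval ![D.tau t ^ p ^ j, D.tau x ^ p ^ j] (F j) =
      (p : O) ^ (a * r) * (p : O) ^ (a * r) * (pm (fun j => mtx p (F j) B (0, 0)) a ^ r).trace
        - (p : O) ^ (a * r) * (pm (fun j => mtx p (F j) B (1, 0)) a ^ r).trace
        - (p : O) ^ (a * r) * (pm (fun j => mtx p (F j) B (0, 1)) a ^ r).trace
        + (pm (fun j => mtx p (F j) B (1, 1)) a ^ r).trace := by
  classical
  obtain ⟨Gn, hGn⟩ : ∃ Gn : ℕ → MvPolynomial (Fin 2) O,
      ∀ n, Gn n = ∏ j ∈ Finset.range n, MvPolynomial.expand (p ^ j) (F j) := ⟨_, fun _ => rfl⟩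
  have hp0 : ∀ n : ℕ, p ^ n ≠ 0 := fun n => pow_ne_zero n (Fact.out : p.Prime).ne_zero
  have hone : ∀ w : ℕ × ℕ, co (1 : MvPolynomial (Fin 2) O) w = if 0 = w then 1 else 0 := by
    intro w
    have h1 : (1 : MvPolynomial (Fin 2) O) = MvPolynomial.monomial (mo 0) 1 := by
      have h2 : mo 0 = 0 := by
        unfold mo
        simp
      rw [h2]
      rfl
    rw [h1, co_monomial]
  -- the degree bound
  have hdeg : ∀ n u, co (Gn n) u ≠ 0 → wt u ≤ (p ^ n - 1) * B := by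
    intro n
    induction n with
    | zero =>
      intro u hu
      rw [hGn, Finset.prod_range_zero, hone] at hu
      have h1 : (0 : ℕ × ℕ) = u := by
        by_contra h1
        exact hu (if_neg h1)
      rw [← h1]
      exact Nat.zero_le _
    | succ n ih =>
      intro u hu
      have h1 : Gn (n + 1) = Gn n * MvPolynomial.expand (p ^ n) (F n) := by
        rw [hGn, hGn, Finset.prod_range_succ]
      rw [h1] at hu
      have h2 : ∀ w, co (MvPolynomial.expand (p ^ n) (F n)) w ≠ 0 → wt w ≤ p ^ n * ((p - 1) * B) := by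
        intro w hw
        obtain ⟨w', rfl⟩ := co_expand_ne _ _ _ hw
        rw [co_expand _ (hp0 n)] at hw
        have h3 := hB n w' hw
        have h4 : wt (p ^ n • w') = p ^ n * wt w' := (mul_add _ _ _).symm
        rw [h4]
        exact Nat.mul_le_mul_left _ h3
      have h3 := wt_mul ih h2 u hu
      refine h3.trans (le_of_eq ?_)
      have h4 : (p ^ n - 1) + p ^ n * (p - 1) = p ^ (n + 1) - 1 := by
        obtain ⟨q, hq⟩ := Nat.exists_eq_succ_of_ne_zero (Fact.out : p.Prime).ne_zero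
        have h5 : 1 ≤ p ^ n := Nat.one_le_iff_ne_zero.2 (hp0 n)
        have h6 : p ^ (n + 1) = p ^ n + p ^ n * (p - 1) := by
          rw [hq, Nat.succ_sub_one, pow_succ, Nat.mul_succ]
          ring
        omega
      rw [← mul_assoc, ← add_mul, h4]
  -- the product of the matrices
  have hpm : ∀ ε : ℕ × ℕ, ε ≤ (1, 1) → ∀ n, pm (fun j => mtx p (F j) B ε) n = mtx (p ^ n) (Gn n) B ε := by
    intro ε hε n
    induction n with
    | zero =>
      show (1 : Matrix _ _ O) = _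
      ext u v
      rw [hGn, Finset.prod_range_zero, pow_zero]
      show _ = mt 1 1 (u : ℕ × ℕ) (v : ℕ × ℕ)
      unfold mt
      rw [one_smul, hone]
      by_cases huv : u = v
      · rw [huv, Matrix.one_apply_eq, if_pos le_rfl, if_pos (tsub_self _).symm]
      · rw [Matrix.one_apply_ne huv]
        by_cases h1 : (v : ℕ × ℕ) ≤ u
        · rw [if_pos h1, if_neg]
          intro h2
          apply huv
          apply Subtype.ext
          have h3 : (u : ℕ × ℕ) ≤ v := tsub_eq_zero_iff_le.1 h2.symm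
          exact le_antisymm h3 h1
        · rw [if_neg h1]
    | succ n ih =>
      show mtx p (F n) B ε * pm (fun j => mtx p (F j) B ε) n = _
      rw [ih, mtx_mul p (p ^ n) (hp0 n) (F n) (Gn n) B ε hε (hdeg n)]
      have h1 : Gn (n + 1) = MvPolynomial.expand (p ^ n) (F n) * Gn n := by
        rw [hGn, hGn, Finset.prod_range_succ, mul_comm]
      rw [h1, pow_succ']
  have hper : ∀ ε : ℕ × ℕ, pm (fun j => mtx p (F j) B ε) a ^ r = pm (fun j => mtx p (F j) B ε) (a * r) := by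
    intro ε
    refine (tfc_per (fun j => mtx p (F j) B ε) a (fun j => ?_) r).symm
    show mtx p (F (j + a)) B ε = mtx p (F j) B ε
    rw [hF]
  have htr : ∀ ε : ℕ × ℕ, ε ≤ (1, 1) → (pm (fun j => mtx p (F j) B ε) a ^ r).trace =
      ∑ u ∈ bx B ε, mt (p ^ (a * r)) (Gn (a * r)) u u := by
    intro ε hε
    rw [hper, hpm ε hε, Matrix.trace]
    exact Finset.sum_coe_sort (bx B ε) (fun u => mt (p ^ (a * r)) (Gn (a * r)) u u)
  have hL : ∀ t x : O, ∏ j ∈ Finset.range (a * r), MvPolynomial.eval ![t ^ p ^ j, x ^ p ^ j] (F j) =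
      MvPolynomial.eval ![t, x] (Gn (a * r)) := by
    intro t x
    rw [hGn, map_prod]
    refine Finset.prod_congr rfl fun j _ => ?_
    rw [tfc_eval]
  rw [htr (0, 0) ⟨Nat.zero_le _, Nat.zero_le _⟩, htr (1, 0) ⟨le_rfl, Nat.zero_le _⟩, htr (0, 1) ⟨Nat.zero_le _, le_rfl⟩,
    htr (1, 1) le_rfl, ← sum_points D (a * r) (mul_ne_zero ha hr) (Gn (a * r)) B (hdeg _)]
  exact Finset.sum_congr rfl fun t _ => Finset.sum_congr rfl fun x _ => hL _ _

end H45.AT

end
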