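import Pool.Agent.H45.AT.IX
import Pool.Agent.H45.AT.ENc
import Pool.Agent.H45.AT.LDb
import Pool.Agent.H45.AT.LDc
import Pool.Agent.H45.AT.TFc
import Pool.Agent.H45.AT.CTd
import Pool.Agent.H45.AT.NWa
import Pool.Agent.H45.AT.AHa

/-!
# AT-FC: the data for one character

`q = p ^ a`, `T = τ.map (algebraMap F k)`. `F j = Fp E N d (fun u => w ^ d g tau(c a_u) ^ (p ^ j))`; `F (j + a) = F j`: `tau(b) ^ (p ^ (j + a)) = tau(b ^ (p ^ a)) ^ (p ^ j)`, `b = c a_u`, `b ^ (p ^ a) = b` (`(c : k) ^ p = c`). Box: `B = (tri d).card * (N * d) + d`, degree bound `wt_Fp` and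
`p - 1 ≥ 1`. `trace_formula` (the product over `u` is `eval_Fp`: `th E N (w ^ d g tau(c a_u t ^ u₁ x ^ u₂) ^ (p ^ j)) = th E N (w ^ d g tau(c a_u) ^ (p ^ j) * (tau t ^ (p ^ j)) ^ u₁ * (tau x ^ (p ^ j)) ^ u₂)`) gives the identity for `t r`, with
`t_ε r = trace (pm (mtx ..ε) a ^ r)`, `D_ε = charpolyRev (pm (mtx .. ε) a)`, `isZ_charpolyRev`. `D₁₀`, `D₀₁`: `res_one` with `W u = wt u ≥ 1`, `ent_scale`. `D₁₁`: `ldb` with `W u = wt u` (`≥ 2`), `B_j` from `ENc`, `hB0`: `ent_res0`. `hB1`: for `i < d` reindex with `exists_ix`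
(`i ≤ d ≤ B`): by `ent_res1` and `∑_l C (b (l, d - l) ^ (p ^ j)) X ^ l = C c * tw p j T` (`b (l, d - l) = c T_l`, `(c : k) ^ (p ^ j) = c`) the matrix is `(c ^ n / n!) • hw p n (i - 1) (tw p j T)`, `n = i (p - 1) / d < p`, and
`det (hw p n (i - 1) (tw p j T)) = (algebraMap (det (hw p n (i - 1) τ))) ^ (p ^ j) ≠ 0` (`hH`; for `i ≤ 1` the size is `0` and the determinant is `1`). For `i = d`: `n = p - 1`, `(p - 1)! = - 1`, `c ^ (p - 1) = 1`, so `- B̄_j` on `wt = d` is `hw p (p - 1) (d - 1) (tw p j T)` reindexed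
(same equivalence for all `j`: `pm_submatrix`, `charpolyRev_submatrix`). So `H.map res = C c' * X ^ M₀ * Δ`, `Δ` the `charpolyRev` of `ct_final`, nonzero (constant coefficient `1`), of degree `≤ d - 1` (`charpolyRev` of a matrix of size `d - 1`), `M₀ ≤ card` (`card_lt`); the multiplicity of
`1` in `C c' * X ^ M₀` is `0`. `κ` from `ldb` is independent of `N` by `prod_lt` with `f i = - (w ^ (p - 1)) ^ (d - i)`.
-/

set_option autoImplicit false

open Polynomial

noncomputable section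

namespace H45.AT

/-- the constant -/
def kap {p e : ℕ} {k O : Type} [Field k] [CommRing O] (D : DR p e k O) (d a : ℕ) : O :=
  (∏ u ∈ (bx d (1, 1)).filter (fun u => wt u < d), -(D.w ^ (p - 1)) ^ (d - wt u)) ^ a

theorem kap_ne {p e : ℕ} {k O : Type} [Field k] [CommRing O] [IsDomain O] (D : DR p e k O) (hw0 : D.w ≠ 0) (d a : ℕ) :
    kap D d a ≠ 0 := by
  unfold kap
  refine pow_ne_zero _ (Finset.prod_ne_zero_iff.2 fun u _ => ?_)
  exact neg_ne_zero.2 (pow_ne_zero _ (pow_ne_zero _ hw0))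

private theorem fc_cast {p : ℕ} [Fact p.Prime] {k : Type} [Field k] [CharP k p] (c j : ℕ) :
    (c : k) ^ p ^ j = c := by
  have h : iterateFrobenius k p j (c : k) = c := map_natCast _ c
  rwa [iterateFrobenius_def] at h

private theorem fc_hw_map {R S : Type} [CommRing R] [CommRing S] (f : R →+* S) (p n m : ℕ) (φ : R[X]) :
    hw p n m (φ.map f) = (hw p n m φ).map f := by
  ext i j
  simp only [hw, Matrix.of_apply, Matrix.map_apply]
  rw [← Polynomial.map_pow, coeff_map]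

private theorem fc_det {R S : Type} [CommRing R] [CommRing S] (f : R →+* S) (p n m : ℕ) (φ : R[X]) :
    (hw p n m (φ.map f)).det = f (hw p n m φ).det := by
  rw [fc_hw_map, RingHom.map_det]
  rfl

private theorem fc_fact {p : ℕ} [Fact p.Prime] {k : Type} [Field k] [CharP k p] {n : ℕ} (hn : n < p) :
    (n.factorial : k) ≠ 0 := by
  have hp : p.Prime := Fact.out
  rw [Ne, CharP.cast_eq_zero_iff k p, hp.dvd_factorial]
  omega

private theorem fc_wil {p : ℕ} [Fact p.Prime] {k : Type} [Field k] [CharP k p] :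
    ((p - 1).factorial : k) = -1 := by
  have h := congrArg (ZMod.castHom (dvd_refl p) k) (ZMod.wilsons_lemma p)
  rwa [map_natCast, map_neg, map_one] at h

private theorem fc_flt {p : ℕ} [Fact p.Prime] {k : Type} [Field k] [CharP k p] {c : ℕ} (hc : (c : k) ≠ 0) :
    (c : k) ^ (p - 1) = 1 := by
  have hp : p.Prime := Fact.out
  have h := fc_cast (p := p) (k := k) c 1
  rw [pow_one] at h
  have h1 : (c : k) ^ (p - 1) * c = 1 * c := by
    rw [← pow_succ, Nat.sub_add_cancel hp.one_le, h, one_mul]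
  exact mul_right_cancel₀ hc h1

private theorem fc_cne {p : ℕ} [Fact p.Prime] {k : Type} [Field k] [CharP k p] {c : ℕ} (hc : c ∈ Finset.Ico 1 p) :
    (c : k) ≠ 0 := by
  obtain ⟨h1, h2⟩ := Finset.mem_Ico.1 hc
  rw [Ne, CharP.cast_eq_zero_iff k p]
  intro h
  exact absurd (Nat.le_of_dvd (by omega) h) (by omega)

private theorem fc_sum {p d : ℕ} [Fact p.Prime] {F k : Type} [Field F] [Field k] [Algebra F k] [CharP k p]
    (τ : F[X]) (hτd : τ.natDegree = d) (b : ℕ × ℕ → k)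
    (hbτ : ∀ l ≤ d, b (l, d - l) = algebraMap F k (τ.coeff l)) (c j : ℕ) :
    ∑ l ∈ Finset.range (d + 1), C (((c : k) * b (l, d - l)) ^ p ^ j) * X ^ l =
      C (c : k) * tw p j (τ.map (algebraMap F k)) := by
  have h1 : (tw p j (τ.map (algebraMap F k))).natDegree < d + 1 := by
    unfold tw
    have e1 := natDegree_map_le (f := iterateFrobenius k p j) (p := τ.map (algebraMap F k))
    have e2 := natDegree_map_le (f := algebraMap F k) (p := τ)
    omega
  rw [as_sum_range_C_mul_X_pow' _ h1, Finset.mul_sum]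
  refine Finset.sum_congr rfl fun l hl => ?_
  have hl' : l ≤ d := Nat.lt_succ_iff.1 (Finset.mem_range.1 hl)
  rw [mul_pow, fc_cast, hbτ l hl', C_mul, mul_assoc]
  congr 3
  unfold tw
  rw [coeff_map, coeff_map, iterateFrobenius_def]

private theorem fc_ent {p d : ℕ} [Fact p.Prime] {F k O : Type} [Field F] [Field k] [Algebra F k] [CharP k p]
    [CommRing O] (D : DR p (d * (p - 1)) k O) (hd : d ≠ 0) (hdp : d ∣ p - 1) {E : ℕ → O}
    (hE : ∀ n < p, (n.factorial : O) * E n = 1) (N : ℕ) (hN : p ≤ N + 1) (g : O) (hg : D.res g = 1) (τ : F[X])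
    (hτd : τ.natDegree = d) (b : ℕ × ℕ → k)
    (hbτ : ∀ l ≤ d, b (l, d - l) = algebraMap F k (τ.coeff l)) (c j i : ℕ) (hi : i ≤ d) (x y : Fin (i - 1)) :
    ((i * (p - 1) / d).factorial : k) *
        D.res (mt p (Fp E N d fun u => D.w ^ (d - wt u) * g * D.tau ((c : k) * b u) ^ p ^ j)
          ((x : ℕ) + 1, i - ((x : ℕ) + 1)) ((y : ℕ) + 1, i - ((y : ℕ) + 1))) =
      (c : k) ^ (i * (p - 1) / d) *
        hw p (i * (p - 1) / d) (i - 1) (tw p j (τ.map (algebraMap F k))) x y := by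
  have hx := x.2
  have hy := y.2
  have h := ent_res1 D E N d hd hdp hE hN g hg (fun u => (c : k) * b u) j i hi
    ((x : ℕ) + 1, i - ((x : ℕ) + 1)) ((y : ℕ) + 1, i - ((y : ℕ) + 1))
    (Prod.mk_le_mk.2 ⟨by omega, by omega⟩) (Prod.mk_le_mk.2 ⟨by omega, by omega⟩)
    (by unfold wt; simp only; omega) (by unfold wt; simp only; omega)
  rw [h, fc_sum τ hτd b hbτ, mul_pow, ← C_pow, coeff_C_mul]
  rfl

private theorem fc_div {p d i : ℕ} (hd : d ≠ 0) (hi : i ≤ d) : i * (p - 1) / d ≤ p - 1 :=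
  Nat.div_le_of_le_mul (Nat.mul_le_mul_right _ hi)

/-- the determinants of the blocks -/
private theorem fc_blk {p d : ℕ} [Fact p.Prime] {F k O : Type} [Field F] [Field k] [Algebra F k] [CharP k p]
    [CommRing O] (D : DR p (d * (p - 1)) k O) (hd : d ≠ 0) (hdp : d ∣ p - 1) {E : ℕ → O}
    (hE : ∀ n < p, (n.factorial : O) * E n = 1) (N : ℕ) (hN : p ≤ N + 1) (g : O) (hg : D.res g = 1) (τ : F[X])
    (hτd : τ.natDegree = d)
    (hH : ∀ m, 2 ≤ m → m < d → (hw p (m * (p - 1) / d) (m - 1) τ).det ≠ 0) (b : ℕ × ℕ → k)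
    (hbτ : ∀ l ≤ d, b (l, d - l) = algebraMap F k (τ.coeff l)) (c : ℕ) (hc : (c : k) ≠ 0) (j i : ℕ)
    (hi : i < d) (M : Matrix (Fin (i - 1)) (Fin (i - 1)) k)
    (hM : ∀ x y, M x y = D.res (mt p (Fp E N d fun u => D.w ^ (d - wt u) * g * D.tau ((c : k) * b u) ^ p ^ j)
          ((x : ℕ) + 1, i - ((x : ℕ) + 1)) ((y : ℕ) + 1, i - ((y : ℕ) + 1)))) : M.det ≠ 0 := by
  rcases Nat.lt_or_ge i 2 with h2 | h2
  · haveI : IsEmpty (Fin (i - 1)) := by
      have : i - 1 = 0 := by omega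
      rw [this]
      infer_instance
    rw [Matrix.det_isEmpty]
    exact one_ne_zero
  · have h1 : ((i * (p - 1) / d).factorial : k) • M =
        (c : k) ^ (i * (p - 1) / d) • hw p (i * (p - 1) / d) (i - 1) (tw p j (τ.map (algebraMap F k))) := by
      ext x y
      rw [Matrix.smul_apply, Matrix.smul_apply, smul_eq_mul, smul_eq_mul, hM]
      exact fc_ent D hd hdp hE N hN g hg τ hτd b hbτ c j i hi.le x y
    have h3 := congrArg Matrix.det h1
    rw [Matrix.det_smul, Matrix.det_smul] at h3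
    intro h0
    rw [h0, mul_zero] at h3
    have h4 : (hw p (i * (p - 1) / d) (i - 1) (tw p j (τ.map (algebraMap F k)))).det ≠ 0 := by
      unfold tw
      rw [fc_det, fc_det]
      exact (_root_.map_ne_zero _).2 ((_root_.map_ne_zero _).2 (hH i h2 hi))
    exact (mul_ne_zero (pow_ne_zero _ (pow_ne_zero _ hc)) h4) h3.symm

private theorem fc_last {p d : ℕ} [Fact p.Prime] {F k O : Type} [Field F] [Field k] [Algebra F k] [CharP k p]
    [CommRing O] (D : DR p (d * (p - 1)) k O) (hd : d ≠ 0) (hdp : d ∣ p - 1) {E : ℕ → O}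
    (hE : ∀ n < p, (n.factorial : O) * E n = 1) (N : ℕ) (hN : p ≤ N + 1) (g : O) (hg : D.res g = 1) (τ : F[X])
    (hτd : τ.natDegree = d) (b : ℕ × ℕ → k)
    (hbτ : ∀ l ≤ d, b (l, d - l) = algebraMap F k (τ.coeff l)) (c : ℕ) (hc : (c : k) ≠ 0) (j : ℕ)
    (x y : Fin (d - 1)) :
    -D.res (mt p (Fp E N d fun u => D.w ^ (d - wt u) * g * D.tau ((c : k) * b u) ^ p ^ j)
          ((x : ℕ) + 1, d - ((x : ℕ) + 1)) ((y : ℕ) + 1, d - ((y : ℕ) + 1))) =
      hw p (p - 1) (d - 1) (tw p j (τ.map (algebraMap F k))) x y := by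
  have h := fc_ent D hd hdp hE N hN g hg τ hτd b hbτ c j d le_rfl x y
  rw [Nat.mul_div_cancel_left _ (Nat.pos_of_ne_zero hd), fc_wil, fc_flt hc, one_mul, neg_one_mul] at h
  exact h

private theorem fc_rev {k : Type} [Field k] {n : ℕ} (M : Matrix (Fin n) (Fin n) k) :
    M.charpolyRev ≠ 0 ∧ M.charpolyRev.natDegree ≤ n := by
  refine ⟨fun h => ?_, ?_⟩
  · have h1 := M.eval_charpolyRev
    rw [h, eval_zero] at h1
    exact zero_ne_one h1
  · rw [← Matrix.reverse_charpoly]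
    refine (reverse_natDegree_le _).trans ?_
    rw [Matrix.charpoly_natDegree_eq_dim, Fintype.card_fin]

/-- the reduced polynomial -/
private theorem fc_red {k : Type} [Field k] {n M₀ μ : ℕ} (M : Matrix (Fin n) (Fin n) k) (c : k) (hc : c ≠ 0)
    (hμ : M.charpolyRev.rootMultiplicity 1 ≤ μ) :
    C c * X ^ M₀ * M.charpolyRev ≠ 0 ∧ (C c * X ^ M₀ * M.charpolyRev).natDegree ≤ M₀ + n ∧
      (C c * X ^ M₀ * M.charpolyRev).rootMultiplicity 1 ≤ μ := by
  obtain ⟨h1, h2⟩ := fc_rev M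
  have h0 : (C c * X ^ M₀ : k[X]) ≠ 0 := mul_ne_zero (C_ne_zero.2 hc) (pow_ne_zero _ X_ne_zero)
  refine ⟨mul_ne_zero h0 h1, ?_, ?_⟩
  · refine natDegree_mul_le.trans (add_le_add ?_ h2)
    exact natDegree_C_mul_X_pow_le _ _
  · rw [rootMultiplicity_mul (mul_ne_zero h0 h1)]
    have h3 : (C c * X ^ M₀ : k[X]).rootMultiplicity 1 = 0 := by
      apply rootMultiplicity_eq_zero
      intro h
      rw [IsRoot.def, eval_mul, eval_C, eval_pow, eval_X, one_pow, mul_one] at h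
      exact hc h
    rw [h3, zero_add]
    exact hμ

theorem one_of {p d a : ℕ} [Fact p.Prime] {F k O : Type} [Field F] [Finite F] [Field k] [Algebra F k] [CharP k p] [IsAlgClosed k]
    [CommRing O] [IsDomain O] [CharZero O] (hq : Nat.card F = p ^ a) (D : DR p (d * (p - 1)) k O) (hd2 : 2 ≤ d) (hdp : d ∣ p - 1)
    {E : ℕ → O} (hE : AH p E) (N : ℕ) (hN : p ≤ N + 1) (g : O) (hg : D.res g = 1) (τ : F[X]) (hτd : τ.natDegree = d)
    (hτ : τ.Separable) (hH : ∀ m, 2 ≤ m → m < d → (hw p (m * (p - 1) / d) (m - 1) τ).det ≠ 0) (b : ℕ × ℕ → k)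
    (hb : ∀ u, b u ^ p ^ a = b u) (hbτ : ∀ l ≤ d, b (l, d - l) = algebraMap F k (τ.coeff l)) (c : ℕ) (hc : c ∈ Finset.Ico 1 p) :
    One D (p ^ a) (kap D d a)
      (fun r => ∑ t ∈ fx k (p ^ (a * r)), ∑ x ∈ fx k (p ^ (a * r)), ∏ j ∈ Finset.range (a * r), ∏ u ∈ tri d,
        th E N (D.w ^ d * g * D.tau ((c : k) * b u * t ^ u.1 * x ^ u.2) ^ p ^ j))
      (((bx d (1, 1)).filter fun u => wt u < d).card + (d - 1)) (nf τ - 1) := by
  have hp : p.Prime := Fact.out
  have hp1 : 1 ≤ p - 1 := by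
    have := hp.two_le
    omega
  have hd : d ≠ 0 := by omega
  have hdp1 : d ≤ p - 1 := Nat.le_of_dvd (by omega) hdp
  have ha : a ≠ 0 := by
    rintro rfl
    have h1 : 1 < Nat.card F := Finite.one_lt_card
    rw [hq, pow_zero] at h1
    exact lt_irrefl _ h1
  have he : d * (p - 1) ≠ 0 := Nat.mul_ne_zero hd (by omega)
  have hEf : ∀ n < p, (n.factorial : O) * E n = 1 := fun n hn => ah_fact hE n hn
  have hc0 : (c : k) ≠ 0 := fc_cne (p := p) hc
  obtain ⟨B, hB⟩ : ∃ B, B = (tri d).card * (N * d) + d := ⟨_, rfl⟩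
  have hdB : d ≤ B := by omega
  obtain ⟨G, hG⟩ : ∃ G : ℕ → MvPolynomial (Fin 2) O,
      G = fun j => Fp E N d fun u => D.w ^ d * g * D.tau ((c : k) * b u) ^ p ^ j := ⟨_, rfl⟩
  have hGa : ∀ j, G (j + a) = G j := by
    intro j
    rw [hG]
    show Fp E N d (fun u => D.w ^ d * g * D.tau ((c : k) * b u) ^ p ^ (j + a)) =
      Fp E N d (fun u => D.w ^ d * g * D.tau ((c : k) * b u) ^ p ^ j)
    congr 1
    funext u
    rw [pow_add, mul_comm (p ^ j), pow_mul, ← map_pow D.tau ((c : k) * b u) (p ^ a), mul_pow, fc_cast, hb]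
  have hGB : ∀ j u, co (G j) u ≠ 0 → wt u ≤ (p - 1) * B := by
    intro j u hu
    rw [hG] at hu
    have h1 := wt_Fp E N d _ u hu
    have h2 : B ≤ (p - 1) * B := Nat.le_mul_of_pos_left _ (by omega)
    omega
  have hscale : ∀ (ε : ℕ × ℕ) (j : ℕ) (u v : bx B ε), D.w ^ wt v.1 * mtx p (G j) B ε u v =
      D.w ^ (p * wt u.1) * (Matrix.of fun u v : bx B ε =>
        mt p (Fp E N d fun u => D.w ^ (d - wt u) * g * D.tau ((c : k) * b u) ^ p ^ j) u.1 v.1) u v := by
    intro ε j u v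
    rw [hG]
    exact ent_scale D E N d g (fun u => (c : k) * b u) j u.1 v.1
  have hW10 : ∀ u : bx B (1, 0), 1 ≤ wt u.1 := by
    intro u
    have h1 := (mem_bx.1 u.2).1
    have h2 : 1 ≤ u.1.1 := h1.1
    unfold wt
    omega
  have hW01 : ∀ u : bx B (0, 1), 1 ≤ wt u.1 := by
    intro u
    have h1 := (mem_bx.1 u.2).1
    have h2 : 1 ≤ u.1.2 := h1.2
    unfold wt
    omega
  have hW11 : ∀ u : bx B (1, 1), 1 ≤ wt u.1 := by
    intro u
    have h1 := (mem_bx.1 u.2).1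
    have h2 : 1 ≤ u.1.1 := h1.1
    unfold wt
    omega
  obtain ⟨H, c', hc', hH1, hH2⟩ := ldb D hd ha (fun u : bx B (1, 1) => wt u.1) hW11
    (fun j => mtx p (G j) B (1, 1)) (fun j => Matrix.of fun u v : bx B (1, 1) =>
        mt p (Fp E N d fun u => D.w ^ (d - wt u) * g * D.tau ((c : k) * b u) ^ p ^ j) u.1 v.1)
    (hscale (1, 1)) (fun j u v huv => ent_res0 D E N d hd hdp hEf hN g hg (fun u => (c : k) * b u) j u.1 v.1 huv)
    (fun j i hi => by
      obtain ⟨e, he'⟩ := exists_ix B i (by omega)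
      rw [← Matrix.det_submatrix_equiv_self e]
      refine fc_blk D hd hdp hEf N hN g hg τ hτd hH b hbτ c hc0 j i hi _ fun x y => ?_
      simp only [Matrix.submatrix_apply, Matrix.map_apply, Matrix.of_apply, he'])
  obtain ⟨e, he'⟩ := exists_ix B d hdB
  have hH3 : (pm (fun j => -(((Matrix.of fun u v : bx B (1, 1) =>
        mt p (Fp E N d fun u => D.w ^ (d - wt u) * g * D.tau ((c : k) * b u) ^ p ^ j) u.1 v.1).map
        D.res).submatrix (Subtype.val : {u : bx B (1, 1) // wt u.1 = d} → bx B (1, 1)) Subtype.val)) a).charpolyRev =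
      (pm (fun j => hw p (p - 1) (d - 1) (tw p j (τ.map (algebraMap F k)))) a).charpolyRev := by
    rw [← charpolyRev_submatrix e, pm_submatrix]
    congr 2
    funext j
    ext x y
    rw [← fc_last D hd hdp hEf N hN g hg τ hτd b hbτ c hc0 j x y]
    simp only [Matrix.submatrix_apply, Matrix.neg_apply, Matrix.map_apply, Matrix.of_apply, he']
  have hct := ct_final (k := k) hq τ hτ hτd hd (by omega : d < p)
  obtain ⟨r1, r2, r3⟩ := fc_red (M₀ := ((bx d (1, 1)).filter fun u => wt u < d).card)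
    (pm (fun j => hw p (p - 1) (d - 1) (tw p j (τ.map (algebraMap F k)))) a) c' hc' hct
  have hH4 : H.map D.res = C c' * X ^ ((bx d (1, 1)).filter fun u => wt u < d).card *
      (pm (fun j => hw p (p - 1) (d - 1) (tw p j (τ.map (algebraMap F k)))) a).charpolyRev := by
    rw [hH2, card_lt B d hdB, ← hH3]
  refine ⟨(pm (fun j => mtx p (G j) B (0, 0)) a).charpolyRev,
    (pm (fun j => mtx p (G j) B (1, 0)) a).charpolyRev,
    (pm (fun j => mtx p (G j) B (0, 1)) a).charpolyRev,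
    (pm (fun j => mtx p (G j) B (1, 1)) a).charpolyRev, H, _, _, _, _,
    isZ_charpolyRev _, isZ_charpolyRev _, isZ_charpolyRev _, isZ_charpolyRev _, ?_, ?_, ?_, ?_, ?_, ?_, ?_⟩
  · intro r hr
    have h1 := trace_formula D a r B ha hr G hGa hGB
    have h2 : ∀ t x : k, ∀ j : ℕ, MvPolynomial.eval ![D.tau t ^ p ^ j, D.tau x ^ p ^ j] (G j) =
        ∏ u ∈ tri d, th E N (D.w ^ d * g * D.tau ((c : k) * b u * t ^ u.1 * x ^ u.2) ^ p ^ j) := by
      intro t x j
      rw [hG]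
      show MvPolynomial.eval ![D.tau t ^ p ^ j, D.tau x ^ p ^ j]
        (Fp E N d fun u => D.w ^ d * g * D.tau ((c : k) * b u) ^ p ^ j) = _
      rw [eval_Fp]
      refine Finset.prod_congr rfl fun u _ => ?_
      congr 1
      simp only [map_mul, map_pow]
      ring
    simp only [h2] at h1
    show (∑ t ∈ fx k (p ^ (a * r)), ∑ x ∈ fx k (p ^ (a * r)), ∏ j ∈ Finset.range (a * r), ∏ u ∈ tri d,
        th E N (D.w ^ d * g * D.tau ((c : k) * b u * t ^ u.1 * x ^ u.2) ^ p ^ j)) = _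
    rw [h1]
    push_cast
    ring
  · rw [← Nat.cast_pow] at hH1
    rw [hH1]
    congr 2
    unfold kap
    congr 1
    exact prod_lt B d hdB fun i => -(D.w ^ (p - 1)) ^ (d - i)
  · exact res_one D he ha (fun u : bx B (1, 0) => wt u.1) hW10 _ _ (hscale (1, 0))
  · exact res_one D he ha (fun u : bx B (0, 1) => wt u.1) hW01 _ _ (hscale (0, 1))
  · rw [hH4]
    exact r1
  · rw [hH4]
    exact r2
  · rw [hH4]
    exact r3

end H45.AT

end
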