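import Pool.Agent.H45.AT.NWb

/-!
# AT-NWc: the end of the argument

Let `L = card A + Dg`, `y`, `y'` from `exists_int_poly`. For a natural number `n ≠ 0`: `(n : O) = w ^ j * unit` for some `j` (`n = p ^ v n'`, `p ∤ n'`, `n'` a unit by `D.unit` and `CharP k p`, `p = - w ^ e`). So there is `M` with `L! * L! * q ^ L * w ∣ w ^ M` in `O`. Take the data `P₁, P₂, E, D₀, G, t₁, t₂` of `Apx` for this `M`.
Let `V = P₁ P₂⁻¹ ∈ O⟦X⟧` (constant coefficients `1`): `n v_n = - ∑_(r=1)^n (t₁ r - t₂ r) v_(n-r)`. By induction on `n ≤ L`: `w ^ M ∣ n! (L! v_n - y_n)` (`y_0 = L!`). [Step: `n (L! v_n - y_n) = - ∑ ((t₁ - t₂)_r L! v_(n-r) - s_r y_(n-r))`, times `(n-1)!`.]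
So `w ^ M ∣ L! (L! v_n - y_n)` for `n ≤ L`, and by the choice of `M` (cancel `L!`, domain): `L! q ^ L w ∣ L! v_n - y_n`.
Let `U = G D₀ E⁻¹ ∈ O⟦X⟧` (`E` has the constant coefficient `1`, as `P₂` has). `C κ * P₁ = (G D₀)(q X)`, `P₂ = E(q X)` give `κ v_n = q ^ n u_n`. So `κ y_n = κ L! v_n - κ (L! q ^ L w …) = L! q ^ n (u_n - w …)` for `n ≤ L`:
there is `R ∈ O[X]` of degree `≤ L` with `κ y_n = L! q ^ n R_n`, `R_n ≡ u_n` modulo `w`, and `R.map res = G.map res`: for `n ≤ L` `res u_n = res G_n` (`D₀ ≡ E ≡ 1`), and `natDegree (G.map res) ≤ Dg ≤ L`.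
`y = (1 - q X) ^ c y'`, `c = A.count q`. Over the field of fractions `K` of `O`: `R(X) = (κ / L!) y(X / q) = (1 - X) ^ c (κ / L!) y'(X / q)`. So `(X - 1) ^ c ∣ R` in `K[X]`, so in `O[X]` (monic: `Polynomial.map_dvd_map`), so
`(X - 1) ^ c ∣ G.map res ≠ 0` in `k[X]` and `c ≤ rootMultiplicity 1 ≤ μ` (`Polynomial.le_rootMultiplicity_iff`).
-/

set_option autoImplicit false

open Polynomial

noncomputable section

namespace H45.AT

/-- The operator `X d/dX`. -/
private def dl {O : Type} [CommRing O] (f : PowerSeries O) : PowerSeries O :=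
  PowerSeries.X * PowerSeries.derivative O f

private theorem dl_coeff {O : Type} [CommRing O] (f : PowerSeries O) (n : ℕ) :
    PowerSeries.coeff n (dl f) = n * PowerSeries.coeff n f := by
  unfold dl
  cases n with
  | zero => rw [PowerSeries.coeff_zero_X_mul, Nat.cast_zero, zero_mul]
  | succ n =>
    rw [PowerSeries.coeff_succ_X_mul, PowerSeries.coeff_derivative]
    push_cast
    ring

private theorem dl_mul {O : Type} [CommRing O] (f g : PowerSeries O) : dl (f * g) = dl f * g + f * dl g := by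
  unfold dl
  rw [Derivation.leibniz, smul_eq_mul, smul_eq_mul]
  ring

/-- The series of the power sums. -/
private def sT {O : Type} [CommRing O] (t : ℕ → O) : PowerSeries O :=
  PowerSeries.mk fun r => if r = 0 then 0 else t r

private theorem sT_coeff {O : Type} [CommRing O] (t : ℕ → O) (f : PowerSeries O) (n : ℕ) :
    PowerSeries.coeff n (sT t * f) = ∑ r ∈ Finset.Icc 1 n, t r * PowerSeries.coeff (n - r) f := by
  rw [PowerSeries.coeff_mul, Finset.Nat.sum_antidiagonal_eq_sum_range_succ_mk]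
  symm
  refine Finset.sum_subset_zero_on_sdiff (fun r hr => ?_) (fun r hr => ?_) (fun r hr => ?_)
  · rw [Finset.mem_Icc] at hr
    rw [Finset.mem_range]
    omega
  · rw [Finset.mem_sdiff, Finset.mem_range, Finset.mem_Icc] at hr
    have hr0 : r = 0 := by omega
    unfold sT
    rw [PowerSeries.coeff_mk, if_pos hr0, zero_mul]
  · rw [Finset.mem_Icc] at hr
    unfold sT
    rw [PowerSeries.coeff_mk, if_neg (by omega)]

private theorem dl_of_step {O : Type} [CommRing O] {t : ℕ → O} {f : PowerSeries O}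
    (h : ∀ n : ℕ, n ≠ 0 → (n : O) * PowerSeries.coeff n f =
      -∑ r ∈ Finset.Icc 1 n, t r * PowerSeries.coeff (n - r) f) : dl f = -(sT t * f) := by
  ext n
  rw [dl_coeff, map_neg, sT_coeff]
  by_cases hn : n = 0
  · subst hn
    simp
  · exact h n hn

private theorem isz_dl {O : Type} [CommRing O] {t : ℕ → O} {P : O[X]} (h : IsZ t P) :
    dl (P : PowerSeries O) = -(sT t * P) := by
  refine dl_of_step fun n hn => ?_
  simp only [Polynomial.coeff_coe]
  exact h.step n hn

/-- Natural numbers divide powers of `w`. -/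
private theorem nat_dvd {p e : ℕ} [Fact p.Prime] {k O : Type} [Field k] [CharP k p] [CommRing O]
    (D : DR p e k O) (n : ℕ) (hn : n ≠ 0) : ∃ j : ℕ, (n : O) ∣ D.w ^ j := by
  obtain ⟨v, n', hn', rfl⟩ := Nat.exists_eq_pow_mul_and_not_dvd hn p (Fact.out : p.Prime).ne_one
  have hu : IsUnit ((n' : ℕ) : O) := D.unit _ (by
    rw [map_natCast]
    rwa [Ne, CharP.cast_eq_zero_iff k p])
  obtain ⟨u, hu'⟩ := hu
  refine ⟨e * v, (-1) ^ v * ((u⁻¹ : Oˣ) : O), ?_⟩
  have h1 : D.w ^ (e * v) = (-1) ^ v * (p : O) ^ v := by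
    rw [pow_mul, D.w_pow, neg_pow]
  rw [h1, Nat.cast_mul, Nat.cast_pow, ← hu']
  calc (-1) ^ v * (p : O) ^ v = (-1) ^ v * (p : O) ^ v * ((u : O) * ((u⁻¹ : Oˣ) : O)) := by
        rw [Units.mul_inv, mul_one]
    _ = (p : O) ^ v * (u : O) * ((-1) ^ v * ((u⁻¹ : Oˣ) : O)) := by ring

/-- Comparison of two solutions of `X f' = - S f` with close `S`. -/
private theorem cmp {O : Type} [CommRing O] (V Y : PowerSeries O) (τ s : ℕ → O) (x f : O)
    (hV : dl V = -(sT τ * V)) (hY : dl Y = -(sT s * Y)) (hs : ∀ r : ℕ, r ≠ 0 → x ∣ s r - τ r)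
    (h0 : PowerSeries.coeff 0 (PowerSeries.C f * V - Y) = 0) (n : ℕ) :
    x ∣ (n.factorial : O) * PowerSeries.coeff n (PowerSeries.C f * V - Y) := by
  obtain ⟨Z, hZ⟩ : ∃ Z, Z = PowerSeries.C f * V - Y := ⟨_, rfl⟩
  rw [← hZ] at h0 ⊢
  have hZn : ∀ n : ℕ, PowerSeries.coeff n Z = f * PowerSeries.coeff n V - PowerSeries.coeff n Y := by
    intro n
    rw [hZ, map_sub, PowerSeries.coeff_C_mul]
  have hst : ∀ n : ℕ, (n : O) * PowerSeries.coeff n Z =
      -∑ r ∈ Finset.Icc 1 n, (τ r * PowerSeries.coeff (n - r) Z - (s r - τ r) * PowerSeries.coeff (n - r) Y) := by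
    intro n
    have e1 := congrArg (PowerSeries.coeff n) hV
    have e2 := congrArg (PowerSeries.coeff n) hY
    rw [dl_coeff, map_neg, sT_coeff] at e1 e2
    rw [hZn, mul_sub, mul_left_comm, e1, e2]
    simp only [hZn]
    rw [mul_neg, Finset.mul_sum, sub_neg_eq_add, neg_add_eq_sub, ← Finset.sum_sub_distrib,
      ← Finset.sum_neg_distrib]
    exact Finset.sum_congr rfl fun r _ => by ring
  induction n using Nat.strong_induction_on with
  | _ n ih =>
    cases n with
    | zero => rw [h0, mul_zero]; exact dvd_zero x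
    | succ m =>
      have e1 : ((m + 1).factorial : O) * PowerSeries.coeff (m + 1) Z =
          (m.factorial : O) * (((m + 1 : ℕ) : O) * PowerSeries.coeff (m + 1) Z) := by
        rw [Nat.factorial_succ, Nat.cast_mul]
        ring
      rw [e1, hst (m + 1), mul_neg, dvd_neg, Finset.mul_sum]
      refine Finset.dvd_sum fun r hr => ?_
      rw [Finset.mem_Icc] at hr
      rw [mul_sub]
      refine dvd_sub ?_ ?_
      · obtain ⟨b, hb⟩ := Nat.factorial_dvd_factorial (show m + 1 - r ≤ m by omega)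
        have e2 : (m.factorial : O) * (τ r * PowerSeries.coeff (m + 1 - r) Z) =
            (((m + 1 - r).factorial : O) * PowerSeries.coeff (m + 1 - r) Z) * (b * τ r) := by
          rw [hb, Nat.cast_mul]
          ring
        rw [e2]
        exact (ih (m + 1 - r) (by omega)).mul_right _
      · have e2 : (m.factorial : O) * ((s r - τ r) * PowerSeries.coeff (m + 1 - r) Y) =
            (s r - τ r) * ((m.factorial : O) * PowerSeries.coeff (m + 1 - r) Y) := by ring
        rw [e2]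
        exact (hs r (by omega)).mul_right _

private theorem comp_rescale {O : Type} [CommRing O] (q : O) (f : O[X]) :
    ((f.comp (C q * X) : O[X]) : PowerSeries O) = PowerSeries.rescale q (f : PowerSeries O) := by
  ext n
  rw [Polynomial.coeff_coe, PowerSeries.coeff_rescale, Polynomial.coeff_coe, Polynomial.comp_C_mul_X_coeff,
    mul_comm]

private theorem unit_of_coeff {O : Type} [CommRing O] {f : PowerSeries O} (h : PowerSeries.coeff 0 f = 1) :
    ∃ g : PowerSeries O, f * g = 1 := by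
  have h1 : IsUnit f := by
    rw [PowerSeries.isUnit_iff_constantCoeff, ← PowerSeries.coeff_zero_eq_constantCoeff_apply, h]
    exact isUnit_one
  obtain ⟨u, rfl⟩ := h1
  exact ⟨_, u.mul_inv⟩

/-- The divisibility by `(X - 1) ^ c`. -/
private theorem dvd_of_scale {O : Type} [CommRing O] [IsDomain O] (q κ f : O) (hq : q ≠ 0) (hf : f ≠ 0)
    (c : ℕ) (y' R : O[X]) (h : C κ * ((1 - C q * X) ^ c * y') = C f * R.comp (C q * X)) :
    (X - C 1) ^ c ∣ R := by
  obtain ⟨ι, hι⟩ : ∃ ι : O →+* FractionRing O, ι = algebraMap O (FractionRing O) := ⟨_, rfl⟩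
  have hinj : Function.Injective ι := by
    rw [hι]
    exact IsFractionRing.injective O (FractionRing O)
  have hιq : ι q ≠ 0 := fun h0 => hq (hinj (by rw [h0, map_zero]))
  have hιf : ι f ≠ 0 := fun h0 => hf (hinj (by rw [h0, map_zero]))
  rw [← Polynomial.map_dvd_map ι hinj ((Polynomial.monic_X_sub_C 1).pow c)]
  have h1 := congrArg (fun g : O[X] => (g.map ι).comp (C (ι q)⁻¹ * X)) h
  simp only [Polynomial.map_mul, Polynomial.map_C, Polynomial.map_pow, Polynomial.map_sub,
    Polynomial.map_one, Polynomial.map_X, Polynomial.mul_comp, Polynomial.C_comp, Polynomial.pow_comp,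
    Polynomial.sub_comp, Polynomial.one_comp, Polynomial.X_comp, Polynomial.map_comp] at h1
  have h2 : C (ι q) * (C (ι q)⁻¹ * X) = (X : (FractionRing O)[X]) := by
    rw [← mul_assoc, ← C_mul, mul_inv_cancel₀ hιq, C_1, one_mul]
  have h3 : ((R.map ι).comp (C (ι q) * X)).comp (C (ι q)⁻¹ * X) = R.map ι := by
    rw [Polynomial.comp_assoc, Polynomial.mul_comp, Polynomial.C_comp, Polynomial.X_comp, h2,
      Polynomial.comp_X]
  rw [h3, h2] at h1
  have h4 : R.map ι = C (ι f)⁻¹ * (C (ι f) * R.map ι) := by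
    rw [← mul_assoc, ← C_mul, inv_mul_cancel₀ hιf, C_1, one_mul]
  rw [h4, ← h1]
  have h5 : ((X - C 1) ^ c : O[X]).map ι = (-1) ^ c * (1 - X) ^ c := by
    rw [Polynomial.map_pow, Polynomial.map_sub, Polynomial.map_X, Polynomial.map_C, map_one, C_1,
      ← mul_pow]
    congr 1
    ring
  rw [h5]
  refine Dvd.intro ((-1) ^ c * (C (ι f)⁻¹ * (C (ι κ) * (y'.map ι).comp (C (ι q)⁻¹ * X)))) ?_
  have h6 : ((-1 : (FractionRing O)[X]) ^ c) * (-1) ^ c = 1 := by
    have e0 : (-1 : (FractionRing O)[X]) * (-1) = 1 := by ring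
    rw [← mul_pow, e0, one_pow]
  calc (-1) ^ c * (1 - X) ^ c * ((-1) ^ c * (C (ι f)⁻¹ * (C (ι κ) * (y'.map ι).comp (C (ι q)⁻¹ * X))))
      = ((-1) ^ c * (-1) ^ c) * (C (ι f)⁻¹ * (C (ι κ) * ((1 - X) ^ c * (y'.map ι).comp (C (ι q)⁻¹ * X)))) := by
        ring
    _ = _ := by rw [h6, one_mul]

theorem nwd {p e a : ℕ} [Fact p.Prime] {k O : Type} [Field k] [CharP k p] [CommRing O] [IsDomain O] [CharZero O]
    (D : DR p e k O) (he : e ≠ 0) (κ : O) (hκ : κ ≠ 0) (A : Multiset ℂ) (s : ℕ → ℤ)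
    (hA : ∀ r : ℕ, r ≠ 0 → (s r : ℂ) = (A.map fun α => α ^ r).sum) (Dg μ : ℕ)
    (h : ∀ M : ℕ, Apx D (p ^ a) κ s Dg μ M) : A.count ((p ^ a : ℕ) : ℂ) ≤ μ := by
  have hp : p.Prime := Fact.out
  obtain ⟨q, hq⟩ : ∃ q : ℕ, q = p ^ a := ⟨_, rfl⟩
  rw [← hq] at h ⊢
  have hq0 : q ≠ 0 := hq ▸ pow_ne_zero _ hp.ne_zero
  have hqO : (q : O) ≠ 0 := Nat.cast_ne_zero.2 hq0
  obtain ⟨L, hL⟩ : ∃ L, L = Multiset.card A + Dg := ⟨_, rfl⟩
  obtain ⟨y, y', hy1, hy2, hy3, hy4⟩ := exists_int_poly A s q hA L (by omega)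
  obtain ⟨c, hc⟩ : ∃ c, c = A.count (q : ℂ) := ⟨_, rfl⟩
  rw [← hc] at hy4 ⊢
  have hfO : (L.factorial : O) ≠ 0 := Nat.cast_ne_zero.2 (Nat.factorial_ne_zero L)
  obtain ⟨j, hj⟩ := nat_dvd D (L.factorial * (L.factorial * q ^ L))
    (mul_ne_zero (Nat.factorial_ne_zero L) (mul_ne_zero (Nat.factorial_ne_zero L) (pow_ne_zero _ hq0)))
  obtain ⟨P₁, P₂, E, D₀, G, t₁, t₂, hP1, hP2, hst, hPE, hGD, hE, hD0, hG0, hGd, hGm⟩ := h (j + 1)
  -- the series `V = P₁ / P₂`
  obtain ⟨W, hW⟩ := unit_of_coeff (f := (P₂ : PowerSeries O)) (by rw [Polynomial.coeff_coe, hP2.zero])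
  obtain ⟨V, hVd⟩ : ∃ V : PowerSeries O, V = P₁ * W := ⟨_, rfl⟩
  have hVP : V * P₂ = P₁ := by
    rw [hVd, mul_assoc, mul_comm W, hW, mul_one]
  have hV0 : PowerSeries.coeff 0 V = 1 := by
    have e1 := congrArg PowerSeries.constantCoeff hVP
    rw [map_mul, Polynomial.constantCoeff_coe, Polynomial.constantCoeff_coe, hP1.zero, hP2.zero,
      mul_one] at e1
    rw [PowerSeries.coeff_zero_eq_constantCoeff_apply]
    exact e1
  have hVdl : dl V = -(sT (fun r => t₁ r - t₂ r) * V) := by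
    have e0 : sT (fun r => t₁ r - t₂ r) = sT t₁ - sT t₂ := by
      ext n
      unfold sT
      rw [map_sub, PowerSeries.coeff_mk, PowerSeries.coeff_mk, PowerSeries.coeff_mk]
      split_ifs
      · rw [sub_zero]
      · rfl
    have e1 := dl_mul V P₂
    rw [hVP, isz_dl hP1, isz_dl hP2] at e1
    have e2 : dl V = (-(sT t₁ * P₁) + V * (sT t₂ * P₂)) * W := by
      calc dl V = dl V * (P₂ * W) := by rw [hW, mul_one]
        _ = (-(sT t₁ * P₁) + V * (sT t₂ * P₂)) * W := by rw [e1]; ring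
    rw [e2, e0, ← hVP]
    calc (-(sT t₁ * (V * P₂)) + V * (sT t₂ * P₂)) * W = (-(sT t₁ * V) + V * sT t₂) * (P₂ * W) := by ring
      _ = -((sT t₁ - sT t₂) * V) := by rw [hW]; ring
  obtain ⟨Y, hYd⟩ : ∃ Y : PowerSeries O, Y = ((y.map (Int.castRingHom O) : O[X]) : PowerSeries O) := ⟨_, rfl⟩
  have hYn : ∀ n : ℕ, PowerSeries.coeff n Y = ((y.coeff n : ℤ) : O) := by
    intro n
    rw [hYd, Polynomial.coeff_coe, Polynomial.coeff_map, eq_intCast]
  have hYdl : dl Y = -(sT (fun r => ((s r : ℤ) : O)) * Y) := by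
    refine dl_of_step fun n hn => ?_
    simp only [hYn]
    have e1 := congrArg (fun z : ℤ => (z : O)) (hy3 n hn)
    push_cast at e1
    exact e1
  have hcmp := cmp V Y (fun r => t₁ r - t₂ r) (fun r => ((s r : ℤ) : O)) (D.w ^ (j + 1)) (L.factorial : O)
    hVdl hYdl hst (by
      rw [map_sub, PowerSeries.coeff_C_mul, hV0, hYn, hy2]
      push_cast
      ring)
  have hz : ∀ n : ℕ, n ≤ L → ∃ z : O, (L.factorial : O) * PowerSeries.coeff n V - PowerSeries.coeff n Y =
      (L.factorial : O) * ((q : O) ^ L * (D.w * z)) := by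
    intro n hn
    obtain ⟨b, hb⟩ := hcmp n
    obtain ⟨b', hb'⟩ := hj
    obtain ⟨b'', hb''⟩ := Nat.factorial_dvd_factorial hn
    rw [map_sub, PowerSeries.coeff_C_mul] at hb
    refine ⟨b' * b * b'', mul_left_cancel₀ hfO ?_⟩
    calc (L.factorial : O) * ((L.factorial : O) * PowerSeries.coeff n V - PowerSeries.coeff n Y)
        = b'' * ((n.factorial : O) * ((L.factorial : O) * PowerSeries.coeff n V - PowerSeries.coeff n Y)) := by
          have e : (L.factorial : O) = n.factorial * b'' := by rw [← Nat.cast_mul, ← hb'']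
          linear_combination ((L.factorial : O) * PowerSeries.coeff n V - PowerSeries.coeff n Y) * e
      _ = b'' * (D.w ^ j * D.w * b) := by rw [hb, pow_succ]
      _ = (L.factorial : O) * ((L.factorial : O) * ((q : O) ^ L * (D.w * (b' * b * b'')))) := by
          rw [hb']
          push_cast
          ring
  choose! z hz using hz
  -- the series `U = G D₀ / E`
  have hE0 : E.coeff 0 = 1 := by
    have e1 : P₂.coeff 0 = E.coeff 0 * (q : O) ^ 0 := by rw [hPE, Polynomial.comp_C_mul_X_coeff]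
    rw [hP2.zero, pow_zero, mul_one] at e1
    exact e1.symm
  obtain ⟨WE, hWE⟩ := unit_of_coeff (f := (E : PowerSeries O)) (by rw [Polynomial.coeff_coe, hE0])
  obtain ⟨U, hUd⟩ : ∃ U : PowerSeries O, U = (G : PowerSeries O) * D₀ * WE := ⟨_, rfl⟩
  have hUE : U * E = (G : PowerSeries O) * D₀ := by
    rw [hUd, mul_assoc, mul_comm WE, hWE, mul_one]
  have hUV : ∀ n : ℕ, κ * PowerSeries.coeff n V = (q : O) ^ n * PowerSeries.coeff n U := by
    have e1 : PowerSeries.rescale (q : O) U * P₂ = PowerSeries.C κ * V * P₂ := by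
      have e2 : (P₂ : PowerSeries O) = PowerSeries.rescale (q : O) E := by rw [hPE, comp_rescale]
      have e3 : ((C κ * P₁ : O[X]) : PowerSeries O) = PowerSeries.rescale (q : O) ((G * D₀ : O[X]) : PowerSeries O) := by
        rw [hGD, comp_rescale]
      rw [Polynomial.coe_mul, Polynomial.coe_mul, Polynomial.coe_C] at e3
      rw [mul_assoc, hVP, e3, e2, ← map_mul, hUE]
    have e4 : PowerSeries.rescale (q : O) U = PowerSeries.C κ * V := by
      calc PowerSeries.rescale (q : O) U = PowerSeries.rescale (q : O) U * P₂ * W := by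
            rw [mul_assoc, hW, mul_one]
        _ = PowerSeries.C κ * V * P₂ * W := by rw [e1]
        _ = PowerSeries.C κ * V := by rw [mul_assoc, hW, mul_one]
    intro n
    have e5 := congrArg (PowerSeries.coeff n) e4
    rw [PowerSeries.coeff_rescale, PowerSeries.coeff_C_mul] at e5
    exact e5.symm
  have hUres : ∀ n : ℕ, D.res (PowerSeries.coeff n U) = (G.map D.res).coeff n := by
    have e1 := congrArg (PowerSeries.map D.res) hUE
    rw [map_mul, map_mul, ← Polynomial.polynomial_map_coe, ← Polynomial.polynomial_map_coe,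
      ← Polynomial.polynomial_map_coe, hE, hD0, Polynomial.coe_one, mul_one, mul_one] at e1
    intro n
    have e2 := congrArg (PowerSeries.coeff n) e1
    rw [PowerSeries.coeff_map, Polynomial.coeff_coe] at e2
    exact e2
  -- the polynomial `R`
  obtain ⟨R, hRd⟩ : ∃ R : O[X], R = ∑ n ∈ Finset.range (L + 1),
      monomial n (PowerSeries.coeff n U - κ * ((q : O) ^ (L - n) * (D.w * z n))) := ⟨_, rfl⟩
  have hRn : ∀ n : ℕ, R.coeff n = if n ≤ L then
      PowerSeries.coeff n U - κ * ((q : O) ^ (L - n) * (D.w * z n)) else 0 := by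
    intro n
    rw [hRd, Polynomial.finsetSum_coeff]
    simp only [Polynomial.coeff_monomial]
    rw [Finset.sum_ite_eq']
    by_cases hn : n ≤ L
    · rw [if_pos (Finset.mem_range.2 (by omega)), if_pos hn]
    · rw [if_neg (fun h' => hn (by rw [Finset.mem_range] at h'; omega)), if_neg hn]
  have hRy : C κ * ((1 - C (q : O) * X) ^ c * y'.map (Int.castRingHom O)) =
      C (L.factorial : O) * R.comp (C (q : O) * X) := by
    have e1 : (1 - C (q : O) * X) ^ c * y'.map (Int.castRingHom O) = y.map (Int.castRingHom O) := by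
      rw [hy4, Polynomial.map_mul, Polynomial.map_pow, Polynomial.map_sub, Polynomial.map_one,
        Polynomial.map_mul, Polynomial.map_C, Polynomial.map_X, eq_intCast, Int.cast_natCast]
    rw [e1]
    ext n
    rw [Polynomial.coeff_C_mul, Polynomial.coeff_C_mul, Polynomial.comp_C_mul_X_coeff, hRn,
      Polynomial.coeff_map, eq_intCast, ← hYn]
    by_cases hn : n ≤ L
    · rw [if_pos hn]
      have e2 := hz n hn
      have e3 := hUV n
      have e4 : (q : O) ^ L = (q : O) ^ (L - n) * (q : O) ^ n := by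
        rw [← pow_add]
        congr 1
        omega
      rw [e4] at e2
      linear_combination (-κ) * e2 + (L.factorial : O) * e3
    · rw [if_neg hn, zero_mul, mul_zero, hYn, Polynomial.coeff_eq_zero_of_natDegree_lt (by omega),
        Int.cast_zero, mul_zero]
  have hRG : R.map D.res = G.map D.res := by
    ext n
    rw [Polynomial.coeff_map, hRn]
    by_cases hn : n ≤ L
    · rw [if_pos hn, map_sub, map_mul, map_mul, map_mul, D.res_w, zero_mul, mul_zero, mul_zero, sub_zero,
        hUres]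
    · rw [if_neg hn, map_zero, Polynomial.coeff_eq_zero_of_natDegree_lt (by omega)]
  have hdv := dvd_of_scale (q : O) κ (L.factorial : O) hqO hfO c (y'.map (Int.castRingHom O)) R hRy
  have hdv' := Polynomial.map_dvd D.res hdv
  rw [hRG, Polynomial.map_pow, Polynomial.map_sub, Polynomial.map_X, Polynomial.map_C, map_one] at hdv'
  exact ((Polynomial.le_rootMultiplicity_iff hG0).2 hdv').trans hGm

end H45.AT

end
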