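import Pool.Agent.H45.AT.NWa

/-!
# AT-NWd: the product over the characters

For `c ∈ T` take the data `D₀₀, D₁₀, D₀₁, D₁₁, H, t₀₀, …` of `One D q κ (t c) Dg μ`. `P₁ = ∏_c (D₁₁ * D₀₀.comp (C (q ^ 2) * X))`, `t₁ = ∑_c (t₁₁ + q ^ (2 r) t₀₀)`; `E = ∏_c (D₁₀ * D₀₁)`, `P₂ = E.comp (C q * X)`,
`t₂ = ∑_c q ^ r (t₁₀ + t₀₁)`; `D₀ = ∏_c D₀₀.comp (C q * X)`, `D₀.comp (C q * X) = ∏_c D₀₀.comp (C (q ^ 2) * X)`; `G = ∏_c H`. `IsZ.mul`, `IsZ.scale`, `IsZ.prod`. `t₁ r - t₂ r = ∑_c t c r` for `r ≠ 0`. `D₀.map res = 1`: `res q = 0` (`q = p ^ a`, `a ≠ 0`, hypothesis `hq`),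
`D₀₀.coeff 0 = 1`. `natDegree ∏ ≤ ∑`, `rootMultiplicity` of a product of nonzero polynomials is the sum.
-/

set_option autoImplicit false

open Polynomial

noncomputable section

namespace H45.AT

private theorem nwd_root {k ι : Type} [Field k] (T : Finset ι) (f : ι → k[X]) (μ : ℕ)
    (h0 : ∀ c ∈ T, f c ≠ 0) (h : ∀ c ∈ T, (f c).rootMultiplicity 1 ≤ μ) :
    (∏ c ∈ T, f c).rootMultiplicity 1 ≤ T.card * μ := by
  classical
  induction T using Finset.induction_on with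
  | empty =>
    rw [Finset.prod_empty, Finset.card_empty, zero_mul]
    have h1 : rootMultiplicity (1 : k) (1 : k[X]) = 0 := by
      have h2 := rootMultiplicity_C (1 : k) (1 : k)
      rwa [C_1] at h2
    exact h1.le
  | insert c T hc ih =>
    rw [Finset.prod_insert hc, Finset.card_insert_of_notMem hc]
    have h1 : f c * ∏ x ∈ T, f x ≠ 0 := by
      refine mul_ne_zero (h0 c (Finset.mem_insert_self c T)) ?_
      exact Finset.prod_ne_zero_iff.2 fun x hx => h0 x (Finset.mem_insert_of_mem hx)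
    rw [rootMultiplicity_mul h1]
    have h2 := h c (Finset.mem_insert_self c T)
    have h3 := ih (fun x hx => h0 x (Finset.mem_insert_of_mem hx))
      (fun x hx => h x (Finset.mem_insert_of_mem hx))
    linarith

private theorem nwd_comp {O : Type} [CommRing O] (f : O[X]) (q : O) :
    (f.comp (C q * X)).comp (C q * X) = f.comp (C (q ^ 2) * X) := by
  rw [comp_assoc]
  congr 1
  rw [mul_comp, C_comp, X_comp, ← mul_assoc, ← C_mul, pow_two]

theorem apx_of_one {p e : ℕ} {k O ι : Type} [Field k] [CommRing O] [IsDomain O] (D : DR p e k O) (q : ℕ)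
    (hq : D.res (q : O) = 0) (κ : O) (T : Finset ι) (t : ι → ℕ → O) (s : ℕ → ℤ) (Dg μ M : ℕ)
    (h : ∀ c ∈ T, One D q κ (t c) Dg μ) (hs : ∀ r : ℕ, r ≠ 0 → D.w ^ M ∣ (s r : O) - ∑ c ∈ T, t c r) :
    Apx D q (κ ^ T.card) s (T.card * Dg) (T.card * μ) M := by
  classical
  unfold One at h
  choose! D00 D10 D01 D11 H t00 t10 t01 t11 h00 h10 h01 h11 ht hH hD10 hD01 hH0 hHd hHm using h
  refine ⟨∏ c ∈ T, (D11 c * (D00 c).comp (C ((q : O) ^ 2) * X)),
    (∏ c ∈ T, (D10 c * D01 c)).comp (C (q : O) * X), ∏ c ∈ T, (D10 c * D01 c),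
    ∏ c ∈ T, (D00 c).comp (C (q : O) * X), ∏ c ∈ T, H c,
    ∑ c ∈ T, (t11 c + fun r => ((q : O) ^ 2) ^ r * t00 c r),
    fun r => (q : O) ^ r * (∑ c ∈ T, (t10 c + t01 c)) r, ?_, ?_, ?_, rfl, ?_, ?_, ?_, ?_, ?_, ?_⟩
  · exact IsZ.prod T _ _ fun c hc => IsZ.mul (h11 c hc) (IsZ.scale (h00 c hc) _)
  · exact IsZ.scale (IsZ.prod T _ _ fun c hc => IsZ.mul (h10 c hc) (h01 c hc)) _
  · intro r hr
    have h1 : (∑ c ∈ T, (t11 c + fun r => ((q : O) ^ 2) ^ r * t00 c r)) r -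
        (q : O) ^ r * (∑ c ∈ T, (t10 c + t01 c)) r = ∑ c ∈ T, t c r := by
      rw [Finset.sum_apply, Finset.sum_apply, Finset.mul_sum, ← Finset.sum_sub_distrib]
      refine Finset.sum_congr rfl fun c hc => ?_
      rw [ht c hc r hr, Pi.add_apply, Pi.add_apply, ← pow_mul]
      ring
    rw [h1]
    exact hs r hr
  · rw [mul_comp, prod_comp, prod_comp, ← Finset.prod_const, C_eq_algebraMap]
    rw [map_prod, ← C_eq_algebraMap, ← Finset.prod_mul_distrib, ← Finset.prod_mul_distrib]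
    refine Finset.prod_congr rfl fun c hc => ?_
    rw [hH c hc, nwd_comp, mul_assoc]
  · rw [Polynomial.map_prod]
    refine Finset.prod_eq_one fun c hc => ?_
    rw [Polynomial.map_mul, hD10 c hc, hD01 c hc, one_mul]
  · rw [Polynomial.map_prod]
    refine Finset.prod_eq_one fun c hc => ?_
    rw [Polynomial.map_comp, Polynomial.map_mul, map_C, map_X, hq, C_0, zero_mul, comp_zero,
      ← coeff_zero_eq_eval_zero, coeff_map, (h00 c hc).zero, map_one, C_1]
  · rw [Polynomial.map_prod]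
    exact Finset.prod_ne_zero_iff.2 fun c hc => hH0 c hc
  · rw [Polynomial.map_prod]
    refine (natDegree_prod_le _ _).trans ?_
    refine (Finset.sum_le_card_nsmul T _ Dg fun c hc => hHd c hc).trans ?_
    rw [smul_eq_mul]
  · rw [Polynomial.map_prod]
    exact nwd_root T _ μ hH0 hHm

end H45.AT

end
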