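import Pool.Agent.H45.AT.PTz

/-!
# AT-PTa: the number of points as a sum of characters

Write `fx = fx k (p ^ s)`, a finite subfield of `k` (`mem_fx`), `Tr y = ∑_(j < s) y ^ (p ^ j)`, `ζ = th E N (w ^ d g)`. For `y ∈ fx`, `(Tr y) ^ p = Tr y`, so there is `n(y) : ℕ` with
`(n(y) : k) = Tr y` (the roots of `X ^ p - X` are the elements of the prime field; `hs` and `D.trc` give this directly). The number of points is `∑_(t, x ∈ fx) #{z ∈ fx : z ^ p - z = v}`,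
`v = vl d a t x ∈ fx`, `= ∑_(t, x) (if Tr v = 0 then p else 0)` (`card_as`). Claim: `(if Tr v = 0 then p else 0) ≡ ∑_(c < p) ζ ^ (c n(v))` modulo `w ^ (K - d)`.
If `Tr v = 0`, `p ∣ n(v)`, each term is `≡ 1` modulo `w ^ K`. If not, `p ∤ n = n(v)`, `(ζ ^ n - 1) ∑_(c<p) ζ ^ (c n) = ζ ^ (p n) - 1 ∈ w ^ K O`, and `ζ = 1 + w ^ d h`, `res h = 1`
(`E 0 = E 1 = 1`, `N ≥ 1`, `res g = 1`, `d ≠ 0`), so `ζ ^ n - 1 = w ^ d h'` with `res h' = n ≠ 0`, `h'` a unit; cancel `w ^ d` (if `K ≥ d`; nothing to prove if not). `w ≠ 0` since `w ^ e = - p ≠ 0` and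
`e ≠ 0`. The term `c = 0` gives `∑_(t, x) 1 = p ^ (2 s)` (`card_fx`). For `1 ≤ c < p` let
`y_u = c a_u t ^ u₁ x ^ u₂ ∈ fx`: `∑_u Tr y_u = c Tr v`, so `c n(v) ≡ ∑_u n(y_u)` modulo `p`, `ζ ^ (c n(v)) ≡ ∏_u ζ ^ (n(y_u)) ≡ ∏_u ∏_(j < s) th E N (w ^ d g tau(y_u) ^ (p ^ j))` modulo `w ^ K`
(`hg.root`, `hg.chr`); exchange the products.
-/

set_option autoImplicit false

open Polynomial

noncomputable section

namespace H45.AT

private theorem q_ne {O : Type} [CommRing O] (m x y : O) :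
    Ideal.Quotient.mk (Ideal.span {m}) x = Ideal.Quotient.mk (Ideal.span {m}) y ↔ m ∣ x - y := by
  rw [Ideal.Quotient.eq, Ideal.mem_span_singleton]

private theorem w_ne {p e : ℕ} [Fact p.Prime] {k O : Type} [Field k] [CommRing O] [CharZero O] (D : DR p e k O)
    (he : e ≠ 0) : D.w ≠ 0 := by
  intro h
  have h1 := D.w_pow
  rw [h, zero_pow he] at h1
  have h2 : (p : O) = 0 := by
    rw [← neg_eq_zero]
    exact h1.symm
  exact (Fact.out : p.Prime).ne_zero (Nat.cast_eq_zero.1 h2)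

private theorem E_one {p : ℕ} [Fact p.Prime] {O : Type} [CommRing O] {E : ℕ → O} (hE : AH p E) : E 1 = 1 := by
  have h1 := hE.step 1 one_ne_zero
  have h2 : (Finset.range 1).filter (fun j => p ^ j ≤ 1) = {0} := by
    ext j
    simp only [Finset.mem_filter, Finset.mem_range, Finset.mem_singleton]
    constructor
    · intro h
      omega
    · rintro rfl
      simp
  rw [h2, Finset.sum_singleton, pow_zero, Nat.sub_self, hE.zero, Nat.cast_one, one_mul] at h1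
  exact h1

private theorem ze {p e d : ℕ} [Fact p.Prime] {k O : Type} [Field k] [CommRing O] (D : DR p e k O) (hd : d ≠ 0)
    {E : ℕ → O} (hE : AH p E) {N : ℕ} (hN : N ≠ 0) {g : O} (hg : D.res g = 1) :
    ∃ h, th E N (D.w ^ d * g) = 1 + D.w ^ d * h ∧ D.res h = 1 := by
  obtain ⟨M, rfl⟩ : ∃ M, N = M + 1 := ⟨N - 1, by omega⟩
  refine ⟨g + D.w ^ d * (g ^ 2 * ∑ i ∈ Finset.range M, E (i + 2) * (D.w ^ d * g) ^ i), ?_, ?_⟩
  · unfold th
    rw [Finset.sum_range_succ', Finset.sum_range_succ', hE.zero, zero_add, E_one hE]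
    have h1 : ∑ i ∈ Finset.range M, E (i + 1 + 1) * (D.w ^ d * g) ^ (i + 1 + 1) =
        (D.w ^ d * g) ^ 2 * ∑ i ∈ Finset.range M, E (i + 2) * (D.w ^ d * g) ^ i := by
      rw [Finset.mul_sum]
      refine Finset.sum_congr rfl fun i _ => ?_
      ring
    rw [h1]
    ring
  · rw [map_add, map_mul, map_pow, D.res_w, zero_pow hd, zero_mul, add_zero, hg]

private theorem pow_mod {R : Type} [Monoid R] {z : R} {p : ℕ} (hz : z ^ p = 1) {m n : ℕ} (h : m % p = n % p) :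
    z ^ m = z ^ n := by
  rw [← Nat.div_add_mod m p, ← Nat.div_add_mod n p, pow_add, pow_mul, pow_add, pow_mul, hz, one_pow, one_pow, h]

/-- the sum over the powers of `ζ` -/
private theorem sumz {p e d : ℕ} [Fact p.Prime] {k O : Type} [Field k] [CharP k p] [CommRing O] [IsDomain O] [CharZero O]
    (D : DR p e k O) (he : e ≠ 0) {K : ℕ} {z h : O} (hz : z = 1 + D.w ^ d * h) (hd : d ≠ 0) (hh : D.res h = 1)
    (hr : D.w ^ K ∣ z ^ p - 1) (n : ℕ) :
    (((n : k) = 0) → D.w ^ (K - d) ∣ (p : O) - ∑ c ∈ Finset.range p, z ^ (c * n)) ∧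
      (((n : k) ≠ 0) → D.w ^ (K - d) ∣ ∑ c ∈ Finset.range p, z ^ (c * n)) := by
  constructor
  · intro hn
    obtain ⟨m, rfl⟩ := (CharP.cast_eq_zero_iff k p n).1 hn
    have h1 : (p : O) - ∑ c ∈ Finset.range p, z ^ (c * (p * m)) = ∑ c ∈ Finset.range p, (1 - z ^ (c * (p * m))) := by
      rw [Finset.sum_sub_distrib]
      simp
    rw [h1]
    refine Finset.dvd_sum fun c _ => ?_
    have h2 : z ^ (c * (p * m)) = (z ^ p) ^ (c * m) := by
      rw [← pow_mul]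
      congr 1
      ring
    rw [h2]
    refine (pow_dvd_pow _ (Nat.sub_le _ _)).trans (hr.trans ?_)
    have h3 := one_sub_dvd_one_sub_pow (z ^ p) (c * m)
    rw [← neg_sub, neg_dvd]
    exact h3
  · intro hn
    by_cases hK : K ≤ d
    · rw [Nat.sub_eq_zero_of_le hK, pow_zero]
      exact one_dvd _
    push Not at hK
    have h1 : (z ^ n - 1) * ∑ c ∈ Finset.range p, z ^ (c * n) = z ^ (p * n) - 1 := by
      have h2 := mul_geom_sum (z ^ n) p
      have h3 : ∑ c ∈ Finset.range p, z ^ (c * n) = ∑ c ∈ Finset.range p, (z ^ n) ^ c := by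
        refine Finset.sum_congr rfl fun c _ => ?_
        rw [← pow_mul, mul_comm]
      rw [h3, h2, ← pow_mul, mul_comm]
    have h2 : z ^ n - 1 = D.w ^ d * (h * ∑ i ∈ Finset.range n, z ^ i) := by
      rw [← mul_geom_sum z n, hz]
      ring
    have h3 : IsUnit (h * ∑ i ∈ Finset.range n, z ^ i) := by
      refine D.unit _ ?_
      have h4 : D.res z = 1 := by
        rw [hz, map_add, map_one, map_mul, map_pow, D.res_w, zero_pow hd, zero_mul, add_zero]
      rw [map_mul, hh, one_mul, map_sum]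
      simp only [map_pow, h4, one_pow]
      simpa using hn
    have h4 : D.w ^ K ∣ z ^ (p * n) - 1 := by
      rw [pow_mul]
      exact hr.trans (sub_one_dvd_pow_sub_one _ _)
    rw [← h1, h2] at h4
    have h5 : D.w ^ K = D.w ^ d * D.w ^ (K - d) := by
      rw [← pow_add]
      congr 1
      omega
    rw [h5, mul_assoc] at h4
    have h6 := (mul_dvd_mul_iff_left (pow_ne_zero d (w_ne D he))).1 h4
    exact (h3.dvd_mul_left).1 h6

open Classical in
private theorem count {p : ℕ} [Fact p.Prime] {k : Type} [Field k] [CharP k p] [IsAlgClosed k] (d s : ℕ) (hs : s ≠ 0)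
    (a : ℕ × ℕ → k) :
    Nat.card {y : (k × k) × k // vl d a y.1.1 y.1.2 = y.2 ^ p - y.2 ∧ y.1.1 ^ p ^ s = y.1.1 ∧
        y.1.2 ^ p ^ s = y.1.2 ∧ y.2 ^ p ^ s = y.2} =
      ∑ t ∈ fx k (p ^ s), ∑ x ∈ fx k (p ^ s), ((fx k (p ^ s)).filter fun z => z ^ p - z = vl d a t x).card := by
  have hq : 1 < p ^ s := Nat.one_lt_pow hs (Fact.out : p.Prime).one_lt
  rw [Nat.subtype_card (((fx k (p ^ s) ×ˢ fx k (p ^ s)) ×ˢ fx k (p ^ s)).filter
    fun y => y.2 ^ p - y.2 = vl d a y.1.1 y.1.2)]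
  · rw [Finset.card_filter, Finset.sum_product, Finset.sum_product]
    refine Finset.sum_congr rfl fun t _ => Finset.sum_congr rfl fun x _ => ?_
    rw [Finset.card_filter]
  · intro y
    rw [Finset.mem_filter, Finset.mem_product, Finset.mem_product, mem_fx hq, mem_fx hq, mem_fx hq]
    constructor
    · rintro ⟨⟨⟨h1, h2⟩, h3⟩, h4⟩
      exact ⟨h4.symm, h1, h2, h3⟩
    · rintro ⟨h1, h2, h3, h4⟩
      exact ⟨⟨⟨h2, h3⟩, h4⟩, h1.symm⟩

private theorem cast_pow {p : ℕ} [Fact p.Prime] {k : Type} [Field k] [CharP k p] (c j : ℕ) :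
    (c : k) ^ p ^ j = c := by
  have h1 := map_natCast (iterateFrobenius k p j) c
  rwa [iterateFrobenius_def] at h1

/-- the trace -/
private theorem tr_add {p : ℕ} [Fact p.Prime] {k : Type} [Field k] [CharP k p] {ι : Type} (S : Finset ι) (f : ι → k)
    (s : ℕ) : ∑ u ∈ S, ∑ j ∈ Finset.range s, f u ^ p ^ j = ∑ j ∈ Finset.range s, (∑ u ∈ S, f u) ^ p ^ j := by
  rw [Finset.sum_comm]
  refine Finset.sum_congr rfl fun j _ => ?_
  have h1 := map_sum (iterateFrobenius k p j) f S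
  simp only [iterateFrobenius_def] at h1
  exact h1.symm

theorem card_points {p e d : ℕ} [Fact p.Prime] {k O : Type} [Field k] [CharP k p] [IsAlgClosed k] [CommRing O]
    [IsDomain O] [CharZero O] (D : DR p e k O) (he : e ≠ 0) (hd : d ≠ 0) {E : ℕ → O} (hE : AH p E) {N K : ℕ} (hN : N ≠ 0)
    {g : O} (hg : SP D d E N K g) (s : ℕ) (hs : s ≠ 0) (a : ℕ × ℕ → k) (ha : ∀ u, a u ^ p ^ s = a u) :
    D.w ^ (K - d) ∣
      (Nat.card {y : (k × k) × k // vl d a y.1.1 y.1.2 = y.2 ^ p - y.2 ∧ y.1.1 ^ p ^ s = y.1.1 ∧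
        y.1.2 ^ p ^ s = y.1.2 ∧ y.2 ^ p ^ s = y.2} : O) - (p : O) ^ (2 * s) -
      ∑ c ∈ Finset.Ico 1 p, ∑ t ∈ fx k (p ^ s), ∑ x ∈ fx k (p ^ s), ∏ j ∈ Finset.range s, ∏ u ∈ tri d,
        th E N (D.w ^ d * g * D.tau ((c : k) * a u * t ^ u.1 * x ^ u.2) ^ p ^ j) := by
  classical
  have hq : 1 < p ^ s := Nat.one_lt_pow hs (Fact.out : p.Prime).one_lt
  have hp1 : 1 ≤ p := (Fact.out : p.Prime).one_lt.le
  obtain ⟨z, hz⟩ : ∃ z, z = th E N (D.w ^ d * g) := ⟨_, rfl⟩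
  obtain ⟨h, hh, hh1⟩ := ze D hd hE hN hg.res_g
  rw [← hz] at hh
  have hroot : D.w ^ K ∣ z ^ p - 1 := by
    rw [hz]
    exact hg.root
  have hvq : ∀ (c : ℕ) (t x : k), t ∈ fx k (p ^ s) → x ∈ fx k (p ^ s) → ∀ u : ℕ × ℕ,
      ((c : k) * a u * t ^ u.1 * x ^ u.2) ^ p ^ s = (c : k) * a u * t ^ u.1 * x ^ u.2 := by
    intro c t x ht hx u
    rw [mem_fx hq] at ht hx
    rw [mul_pow, mul_pow, mul_pow, cast_pow, ha, pow_right_comm, ht, pow_right_comm, hx]
  have hv : ∀ t x : k, t ∈ fx k (p ^ s) → x ∈ fx k (p ^ s) → vl d a t x ^ p ^ s = vl d a t x := by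
    intro t x ht hx
    unfold vl
    have h1 := map_sum (iterateFrobenius k p s) (fun u : ℕ × ℕ => a u * t ^ u.1 * x ^ u.2) (tri d)
    simp only [iterateFrobenius_def] at h1
    rw [h1]
    refine Finset.sum_congr rfl fun u _ => ?_
    have h2 := hvq 1 t x ht hx u
    rwa [Nat.cast_one, one_mul] at h2
  have hn : ∀ y : k, ∃ n : ℕ, y ^ p ^ s = y → (n : k) = ∑ j ∈ Finset.range s, y ^ p ^ j := by
    intro y
    by_cases hy : y ^ p ^ s = y
    · obtain ⟨n, h1, -⟩ := D.trc s hs y hy 0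
      exact ⟨n, fun _ => h1⟩
    · exact ⟨0, fun h => absurd h hy⟩
  choose nn hnn using hn
  -- the term of `(t, x)`
  have key1 : ∀ t x : k, t ∈ fx k (p ^ s) → x ∈ fx k (p ^ s) →
      D.w ^ (K - d) ∣ ((((fx k (p ^ s)).filter fun z => z ^ p - z = vl d a t x).card : ℕ) : O) -
        ∑ c ∈ Finset.range p, z ^ (c * nn (vl d a t x)) := by
    intro t x ht hx
    have h1 := sumz D he hh hd hh1 hroot (nn (vl d a t x))
    rw [hnn _ (hv t x ht hx)] at h1
    rw [card_as s hs _ (hv t x ht hx)]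
    by_cases h2 : ∑ j ∈ Finset.range s, vl d a t x ^ p ^ j = 0
    · rw [if_pos h2]
      exact h1.1 h2
    · rw [if_neg h2, Nat.cast_zero, zero_sub, dvd_neg]
      exact h1.2 h2
  have key2 : ∀ c t x, t ∈ fx k (p ^ s) → x ∈ fx k (p ^ s) →
      D.w ^ K ∣ z ^ (c * nn (vl d a t x)) - ∏ j ∈ Finset.range s, ∏ u ∈ tri d,
        th E N (D.w ^ d * g * D.tau ((c : k) * a u * t ^ u.1 * x ^ u.2) ^ p ^ j) := by
    intro c t x ht hx
    rw [Finset.prod_comm, ← q_ne, map_pow, map_prod]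
    have h1 : ∀ u ∈ tri d, Ideal.Quotient.mk (Ideal.span {D.w ^ K}) (∏ j ∈ Finset.range s,
        th E N (D.w ^ d * g * D.tau ((c : k) * a u * t ^ u.1 * x ^ u.2) ^ p ^ j)) =
        Ideal.Quotient.mk (Ideal.span {D.w ^ K}) z ^ nn ((c : k) * a u * t ^ u.1 * x ^ u.2) := by
      intro u _
      rw [← map_pow, q_ne, hz]
      exact hg.chr s hs _ (hvq c t x ht hx u) _ (hnn _ (hvq c t x ht hx u))
    rw [Finset.prod_congr rfl h1, Finset.prod_pow_eq_pow_sum]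
    refine pow_mod (p := p) ?_ ?_
    · rw [← map_pow, ← map_one (Ideal.Quotient.mk (Ideal.span {D.w ^ K})), q_ne]
      exact hroot
    · have h2 : ((c * nn (vl d a t x) : ℕ) : k) =
          ((∑ u ∈ tri d, nn ((c : k) * a u * t ^ u.1 * x ^ u.2) : ℕ) : k) := by
        rw [Nat.cast_mul, hnn _ (hv t x ht hx), Nat.cast_sum]
        have h3 : ∀ u ∈ tri d, ((nn ((c : k) * a u * t ^ u.1 * x ^ u.2) : ℕ) : k) =
            ∑ j ∈ Finset.range s, ((c : k) * a u * t ^ u.1 * x ^ u.2) ^ p ^ j :=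
          fun u _ => hnn _ (hvq c t x ht hx u)
        rw [Finset.sum_congr rfl h3, tr_add, Finset.mul_sum]
        refine Finset.sum_congr rfl fun j _ => ?_
        have h4 : ∑ u ∈ tri d, (c : k) * a u * t ^ u.1 * x ^ u.2 = c * vl d a t x := by
          unfold vl
          rw [Finset.mul_sum]
          exact Finset.sum_congr rfl fun u _ => by ring
        rw [h4, mul_pow, cast_pow]
      exact (CharP.natCast_eq_natCast k p).1 h2
  have hcard : ((fx k (p ^ s)).card : O) = (p : O) ^ s := by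
    rw [card_fx s hs, Nat.cast_pow]
  have hsum : (Nat.card {y : (k × k) × k // vl d a y.1.1 y.1.2 = y.2 ^ p - y.2 ∧ y.1.1 ^ p ^ s = y.1.1 ∧
        y.1.2 ^ p ^ s = y.1.2 ∧ y.2 ^ p ^ s = y.2} : O) - (p : O) ^ (2 * s) -
      ∑ c ∈ Finset.Ico 1 p, ∑ t ∈ fx k (p ^ s), ∑ x ∈ fx k (p ^ s), ∏ j ∈ Finset.range s, ∏ u ∈ tri d,
        th E N (D.w ^ d * g * D.tau ((c : k) * a u * t ^ u.1 * x ^ u.2) ^ p ^ j) =
      ∑ t ∈ fx k (p ^ s), ∑ x ∈ fx k (p ^ s),
        ((((((fx k (p ^ s)).filter fun z => z ^ p - z = vl d a t x).card : ℕ) : O) -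
          ∑ c ∈ Finset.range p, z ^ (c * nn (vl d a t x))) +
        ∑ c ∈ Finset.Ico 1 p, (z ^ (c * nn (vl d a t x)) - ∏ j ∈ Finset.range s, ∏ u ∈ tri d,
          th E N (D.w ^ d * g * D.tau ((c : k) * a u * t ^ u.1 * x ^ u.2) ^ p ^ j))) := by
    have h1 : ∀ n : ℕ, ∑ c ∈ Finset.range p, z ^ (c * n) = 1 + ∑ c ∈ Finset.Ico 1 p, z ^ (c * n) := by
      intro n
      rw [Finset.range_eq_Ico, Finset.sum_eq_sum_Ico_succ_bot (by omega), Nat.zero_mul, pow_zero]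
    rw [count d s hs a, Nat.cast_sum]
    simp only [Nat.cast_sum, h1, Finset.sum_add_distrib, Finset.sum_sub_distrib, Finset.sum_const, nsmul_eq_mul,
      mul_one, hcard]
    have h2 : ∑ c ∈ Finset.Ico 1 p, ∑ t ∈ fx k (p ^ s), ∑ x ∈ fx k (p ^ s), ∏ j ∈ Finset.range s, ∏ u ∈ tri d,
        th E N (D.w ^ d * g * D.tau ((c : k) * a u * t ^ u.1 * x ^ u.2) ^ p ^ j) =
        ∑ t ∈ fx k (p ^ s), ∑ x ∈ fx k (p ^ s), ∑ c ∈ Finset.Ico 1 p, ∏ j ∈ Finset.range s, ∏ u ∈ tri d,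
        th E N (D.w ^ d * g * D.tau ((c : k) * a u * t ^ u.1 * x ^ u.2) ^ p ^ j) := by
      rw [Finset.sum_comm]
      refine Finset.sum_congr rfl fun t _ => ?_
      rw [Finset.sum_comm]
    rw [h2, mul_comm 2 s, pow_mul]
    ring
  rw [hsum]
  refine Finset.dvd_sum fun t ht => Finset.dvd_sum fun x hx => dvd_add (key1 t x ht hx) ?_
  exact Finset.dvd_sum fun c _ => (pow_dvd_pow _ (Nat.sub_le _ _)).trans (key2 c t x ht hx)

end H45.AT

end
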