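import Pool.Agent.H45.AT.WVb
import Pool.Agent.H45.AT.AHd
import Pool.Agent.H45.AT.PTa
import Pool.Agent.H45.AT.NWc
import Pool.Agent.H45.AT.NWd
import Pool.Agent.H45.AT.FC

/-!
# AT-FIN: the assembly
-/

set_option autoImplicit false

open Polynomial

noncomputable section

namespace H45.AT

theorem fin_core {F : Type} [Field F] [Finite F] {p d : ℕ} [Fact p.Prime] [CharP F p] (hd2 : 2 ≤ d)
    (hdp : d ∣ p - 1) (τ : F[X]) (hτd : τ.natDegree = d) (hτ : τ.Separable)
    (hH : ∀ m, 2 ≤ m → m < d → (hw p (m * (p - 1) / d) (m - 1) τ).det ≠ 0) (b : ℕ × ℕ → F)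
    (hb : ∀ l ≤ d, b (l, d - l) = τ.coeff l) (A : Multiset ℂ)
    (hA : ∀ r : ℕ, r ≠ 0 → ((Nat.card {y : (AlgebraicClosure F × AlgebraicClosure F) × AlgebraicClosure F //
      vl d (fun u => algebraMap F (AlgebraicClosure F) (b u)) y.1.1 y.1.2 = y.2 ^ p - y.2 ∧
        y.1.1 ^ Nat.card F ^ r = y.1.1 ∧ y.1.2 ^ Nat.card F ^ r = y.1.2 ∧ y.2 ^ Nat.card F ^ r = y.2} : ℕ) : ℂ) =
      (Nat.card F : ℂ) ^ (2 * r) + (A.map fun α => α ^ r).sum) :
    A.count (Nat.card F : ℂ) ≤ (nf τ - 1) * (p - 1) := by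
  have hp : p.Prime := Fact.out
  have : Fintype F := Fintype.ofFinite F
  obtain ⟨a, -, ha⟩ := FiniteField.card F p
  have hq : Nat.card F = p ^ (a : ℕ) := by rw [Nat.card_eq_fintype_card, ha]
  have ha0 : (a : ℕ) ≠ 0 := a.ne_zero
  have : CharP (AlgebraicClosure F) p := charP_of_injective_algebraMap (algebraMap F (AlgebraicClosure F)).injective p
  have hp1 : p - 1 ≠ 0 := by have := hp.two_le; omega
  have he : d * (p - 1) ≠ 0 := mul_ne_zero (by omega) hp1
  obtain ⟨O, iO, iD, iZ, ⟨D⟩⟩ := exists_DR p (AlgebraicClosure F) (d * (p - 1)) he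
  obtain ⟨E, hE⟩ := exists_ah D
  have hw0 : D.w ≠ 0 := by
    intro h
    have h1 := D.w_pow
    rw [h, zero_pow he] at h1
    have h2 : (p : O) = 0 := by
      rw [eq_comm, neg_eq_zero] at h1
      exact h1
    exact hp.ne_zero (by exact_mod_cast h2)
  have hresp : D.res ((p ^ (a : ℕ) : ℕ) : O) = 0 := by
    rw [map_natCast]
    push_cast
    rw [CharP.cast_eq_zero, zero_pow ha0]
  set b' : ℕ × ℕ → AlgebraicClosure F := fun u => algebraMap F (AlgebraicClosure F) (b u) with hb'
  have hb'q : ∀ u, b' u ^ p ^ (a : ℕ) = b' u := by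
    intro u
    rw [hb']
    dsimp only
    rw [← map_pow, ← ha, FiniteField.pow_card]
  -- the integers
  let s : ℕ → ℤ := fun r => (Nat.card {y : (AlgebraicClosure F × AlgebraicClosure F) × AlgebraicClosure F //
      vl d b' y.1.1 y.1.2 = y.2 ^ p - y.2 ∧
        y.1.1 ^ Nat.card F ^ r = y.1.1 ∧ y.1.2 ^ Nat.card F ^ r = y.1.2 ∧ y.2 ^ Nat.card F ^ r = y.2} : ℤ) -
      (Nat.card F : ℤ) ^ (2 * r)
  have hs : ∀ r : ℕ, r ≠ 0 → (s r : ℂ) = (A.map fun α => α ^ r).sum := by
    intro r hr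
    have := hA r hr
    simp only [s]
    push_cast
    rw [this]
    ring
  have key := nwd (a := a) D he (kap D d a ^ (Finset.Ico 1 p).card) (pow_ne_zero _ (kap_ne D hw0 d a)) A s hs
    ((Finset.Ico 1 p).card * (((bx d (1, 1)).filter fun u => wt u < d).card + (d - 1)))
    ((Finset.Ico 1 p).card * (nf τ - 1)) ?_
  · rw [Nat.card_Ico] at key
    rw [hq]
    calc A.count ((p ^ (a : ℕ) : ℕ) : ℂ) ≤ _ := key
      _ = _ := mul_comm _ _
  · intro M
    obtain ⟨g, hg⟩ := exists_sp D (by omega) hE (M + d + p) (M + d) (by have := hp.two_le; omega) (by omega)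
    refine apx_of_one D (p ^ (a : ℕ)) hresp (kap D d a) (Finset.Ico 1 p)
      (fun c r => ∑ t ∈ fx (AlgebraicClosure F) (p ^ (a * r)), ∑ x ∈ fx (AlgebraicClosure F) (p ^ (a * r)),
        ∏ j ∈ Finset.range (a * r), ∏ u ∈ tri d,
          th E (M + d + p) (D.w ^ d * g * D.tau ((c : AlgebraicClosure F) * b' u * t ^ u.1 * x ^ u.2) ^ p ^ j))
      s _ _ M (fun c hc => ?_) ?_
    · exact one_of hq D hd2 hdp hE (M + d + p) (by omega) g hg.res_g τ hτd hτ hH b' hb'q
        (fun l hl => by rw [hb']; dsimp only; rw [hb l hl]) c hc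
    · intro r hr
      have har : (a : ℕ) * r ≠ 0 := mul_ne_zero ha0 hr
      have h1 := card_points D he (by omega) hE (N := M + d + p) (by have := hp.two_le; omega) hg (a * r) har b'
        (fun u => by
          have h2 : ∀ n : ℕ, b' u ^ (p ^ (a : ℕ)) ^ n = b' u := by
            intro n
            induction n with
            | zero => simp
            | succ n ih => rw [pow_succ, pow_mul, ih, hb'q]
          rw [pow_mul]
          exact h2 r)
      rw [show M + d - d = M by omega] at h1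
      convert h1 using 2
      simp only [s]
      push_cast
      rw [hq]
      push_cast
      simp only [← pow_mul]
      ring

end H45.AT

end
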