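import Pool.Agent.H45.AT.Df

/-!
# AT-HSa: Fermat leading forms

`d ∣ p - 1`, `n = m (p - 1) / d = m e`, `e = (p - 1) / d`. The coefficients of `(α X ^ d + β) ^ n` are `binom(n, s) α ^ s β ^ (n - s)` at `d s`, and zero at the exponents not divisible by `d`
(`expand d` of `(C α * X + C β) ^ n`, `Polynomial.coeff_expand`). The exponent `p (i + 1) - (j + 1)`, `i, j < m - 1`: `p = d e + 1`, so it is `d e (i + 1) + (i - j)`, divisible by `d` only for `i = j` (`|i - j| < m - 1 < d`). So the matrix is diagonal, with the entries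
`binom(m e, e (i + 1)) α ^ .. β ^ ..`, `e (i + 1) ≤ m e ≤ p - 1 < p`, so the binomial coefficient is not divisible by `p` (`Nat.Prime.dvd_choose`-like: `Nat.Prime.dvd_factorial`, `(m e)! ` is not divisible by `p`).
-/

set_option autoImplicit false

open Polynomial

noncomputable section

namespace H45.AT

private theorem coeff_lin {F : Type} [Field F] (α β : F) (n s : ℕ) :
    ((C α * X + C β) ^ n : F[X]).coeff s = (n.choose s : F) * α ^ s * β ^ (n - s) := by
  rw [add_pow, finset_sum_coeff]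
  have h : ∀ k ∈ Finset.range (n + 1),
      ((C α * X : F[X]) ^ k * C β ^ (n - k) * ((n.choose k : ℕ) : F[X])).coeff s =
        if s = k then (n.choose s : F) * α ^ s * β ^ (n - s) else 0 := by
    intro k _
    have e1 : ((C α * X : F[X]) ^ k * C β ^ (n - k) * ((n.choose k : ℕ) : F[X])) =
        C ((n.choose k : F) * α ^ k * β ^ (n - k)) * X ^ k := by
      rw [mul_pow, ← C_pow, ← C_pow]
      simp only [C_mul, C_pow, map_natCast]
      ring
    rw [e1, coeff_C_mul, coeff_X_pow]
    split_ifs with h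
    · subst h; ring
    · ring
  rw [Finset.sum_congr rfl h, Finset.sum_ite_eq]
  split_ifs with h1
  · rfl
  · have : n.choose s = 0 := Nat.choose_eq_zero_of_lt (by
      simpa [Finset.mem_range, Nat.lt_succ_iff] using h1)
    simp [this]

private theorem coeff_fer {F : Type} [Field F] (α β : F) (d n t : ℕ) (hd : 0 < d) :
    ((C α * X ^ d + C β) ^ n : F[X]).coeff t =
      if d ∣ t then (n.choose (t / d) : F) * α ^ (t / d) * β ^ (n - t / d) else 0 := by
  have e : ((C α * X ^ d + C β) ^ n : F[X]) = expand F d ((C α * X + C β) ^ n) := by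
    simp [map_pow, map_add, map_mul, expand_C, expand_X]
  rw [e, coeff_expand hd]
  split_ifs with h
  · exact coeff_lin α β n _
  · rfl

theorem hs_fermat {p d : ℕ} [Fact p.Prime] {F : Type} [Field F] [CharP F p] (hd : d ∣ p - 1) (α β : F) (hα : α ≠ 0)
    (hβ : β ≠ 0) (m : ℕ) (hm : m < d) : (hw p (m * (p - 1) / d) (m - 1) (C α * X ^ d + C β)).det ≠ 0 := by
  have hp : p.Prime := Fact.out
  obtain ⟨e, he⟩ := hd
  have hd0 : 0 < d := by omega
  have hp1 : 1 ≤ p := hp.one_le
  have hpe : p = d * e + 1 := by omega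
  have he0 : 0 < e := by
    rcases Nat.eq_zero_or_pos e with h | h
    · subst h
      have := hp.one_lt
      omega
    · exact h
  have hn : m * (p - 1) / d = m * e := by
    rw [he, show m * (d * e) = m * e * d by ring]
    exact Nat.mul_div_cancel _ hd0
  rw [hn]
  have hdiag : hw p (m * e) (m - 1) (C α * X ^ d + C β : F[X]) =
      Matrix.diagonal (fun i : Fin (m - 1) => (((m * e).choose (e * ((i : ℕ) + 1)) : ℕ) : F) *
        α ^ (e * ((i : ℕ) + 1)) * β ^ (m * e - e * ((i : ℕ) + 1))) := by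
    ext i j
    have hi := i.2
    have hj := j.2
    simp only [hw, Matrix.of_apply]
    rw [coeff_fer α β d _ _ hd0]
    have key : p * ((i : ℕ) + 1) = d * (e * ((i : ℕ) + 1)) + ((i : ℕ) + 1) := by
      rw [hpe]; ring
    by_cases hij : i = j
    · subst hij
      have h1 : p * ((i : ℕ) + 1) - ((i : ℕ) + 1) = d * (e * ((i : ℕ) + 1)) := by omega
      rw [h1, if_pos (Dvd.intro _ rfl), Nat.mul_div_cancel_left _ hd0, Matrix.diagonal_apply_eq]
    · rw [Matrix.diagonal_apply_ne _ hij, if_neg]
      intro hdv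
      apply hij
      have hge : d ≤ d * (e * ((i : ℕ) + 1)) := Nat.le_mul_of_pos_right _ (by positivity)
      apply Fin.ext
      have hle : ((j : ℕ) + 1) ≤ p * ((i : ℕ) + 1) := by omega
      have h2 : (d : ℤ) ∣ ((p * ((i : ℕ) + 1) - ((j : ℕ) + 1) : ℕ) : ℤ) := Int.natCast_dvd_natCast.mpr hdv
      rw [Nat.cast_sub hle, key] at h2
      have h3 : (d : ℤ) ∣ ((i : ℕ) : ℤ) - ((j : ℕ) : ℤ) := by
        have h4 : (((d * (e * ((i : ℕ) + 1)) + ((i : ℕ) + 1) : ℕ) : ℤ) - (((j : ℕ) + 1 : ℕ) : ℤ)) =
            (d : ℤ) * (e * ((i : ℕ) + 1)) + (((i : ℕ) : ℤ) - ((j : ℕ) : ℤ)) := by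
          push_cast; ring
        rw [h4] at h2
        exact (dvd_add_right (Dvd.intro _ rfl)).mp h2
      have h5 := Int.eq_zero_of_abs_lt_dvd h3 (by
        rw [abs_lt]
        constructor <;> omega)
      omega
  rw [hdiag, Matrix.det_diagonal]
  refine Finset.prod_ne_zero_iff.mpr fun i _ => ?_
  have hi := i.2
  refine mul_ne_zero (mul_ne_zero ?_ (pow_ne_zero _ hα)) (pow_ne_zero _ hβ)
  have hle : e * ((i : ℕ) + 1) ≤ m * e := by
    rw [mul_comm m e]
    exact Nat.mul_le_mul_left _ (by omega)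
  have hlt : m * e < p := by
    have : m * e ≤ d * e := Nat.mul_le_mul_right _ hm.le
    omega
  intro h0
  rw [CharP.cast_eq_zero_iff F p] at h0
  have h1 : p ∣ (m * e).factorial := by
    rw [← Nat.choose_mul_factorial_mul_factorial hle]
    exact Dvd.dvd.mul_right (Dvd.dvd.mul_right h0 _) _
  rw [hp.dvd_factorial] at h1
  omega

end H45.AT

end
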