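import Pool.Agent.H45.AT.Df

/-!
# AT-HSb: cubic leading forms

`p = 3 e + 1` is a prime, so `p ≥ 7`. The matrix has size `1` and its entry is the coefficient of `X ^ (p - 1)` in `τ ^ n`, `n = 2 e` (`2 (p - 1) / 3 = 2 e`). Extend to the algebraic closure `k` of `F`
(`hw` and `det` commute with `map`).
(1) Over `k` there are `a, b, a', b'` with `a b' - a' b ≠ 0` and `τ = (a X + b) ^ 3 + (a' X + b') ^ 3`. Let `τ = A (y ^ 3 + P y + Q)`, `y = X - s` (`s = - B / (3 A)`; replace `X` by `y`: `a X + b = a y + b + a s`, the determinant does not change), with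
`4 P ^ 3 + 27 Q ^ 2 ≠ 0` because `τ` is separable (if it is zero there is a common zero of `y ^ 3 + P y + Q` and `3 y ^ 2 + P`: `P = 0`: `Q = 0`, the zero `0`; `P ≠ 0`: `y = - 3 Q / (2 P)`). If `P = 0`: `Q ≠ 0`, `a ^ 3 = A`, `b' ^ 3 = A Q`, `b = a' = 0`.
If `P ≠ 0`: let `u, v` be the zeros of `z ^ 2 + (3 Q / P) z - P / 3`; `u v = - P / 3 ≠ 0`, `u ≠ v` (the discriminant is `(27 Q ^ 2 + 4 P ^ 3) / (3 P ^ 2)`), and `(v - u) (y ^ 3 + P y + Q) = v (y - u) ^ 3 - u (y - v) ^ 3`; take cube roots of `A v / (v - u)` and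
`- A u / (v - u)`.
(2) For `r + s = 2 (p - 1)` the coefficient of `X ^ (p - 1)` in `(a X + b) ^ r (a' X + b') ^ s` is `0` for `r ≠ p - 1` (say `r ≥ p`: `(a X + b) ^ r = (a ^ p X ^ p + b ^ p) (a X + b) ^ (r - p)`, and `(a X + b) ^ (r - p) (a' X + b') ^ s` has degree `≤ p - 2`), and
`(a b' - a' b) ^ (p - 1)` for `r = s = p - 1`: it is `∑_i binom(p - 1, i) binom(p - 1, p - 1 - i) (a b') ^ i (a' b) ^ (p - 1 - i)`, and `binom(p - 1, i) = (-1) ^ i` in `k`.
(3) `τ ^ n = ∑_j binom(n, j) (a X + b) ^ (3 j) (a' X + b') ^ (3 (n - j))`: only `j = e` contributes, `binom(2 e, e) (a b' - a' b) ^ (p - 1) ≠ 0`, as `2 e < p`.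
-/

set_option autoImplicit false

open Polynomial

noncomputable section

namespace H45.AT

private theorem pred_pow {p : ℕ} [hp : Fact p.Prime] {R : Type} [CommRing R] [IsDomain R] [CharP R p] (x y : R) :
    (x - y) ^ (p - 1) = ∑ i ∈ Finset.range p, x ^ i * y ^ (p - 1 - i) := by
  have h2 := hp.out.two_le
  rcases eq_or_ne x y with rfl | hxy
  · rw [sub_self, zero_pow (by omega)]
    have h1 : ∀ i ∈ Finset.range p, x ^ i * x ^ (p - 1 - i) = x ^ (p - 1) := by
      intro i hi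
      have := Finset.mem_range.1 hi
      rw [← pow_add]
      congr 1
      omega
    rw [Finset.sum_congr rfl h1, Finset.sum_const, Finset.card_range, nsmul_eq_mul, CharP.cast_eq_zero, zero_mul]
  · apply mul_right_cancel₀ (sub_ne_zero.2 hxy)
    rw [geom_sum₂_mul, ← pow_succ]
    have h3 : p - 1 + 1 = p := by omega
    rw [h3]
    exact sub_pow_char x y

private theorem co_lin {p : ℕ} [hp : Fact p.Prime] {K : Type} [Field K] [CharP K p] (a b : K) {i : ℕ} (hi : i < p) :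
    ((C a * X + C b) ^ (p - 1)).coeff i = a ^ i * (-b) ^ (p - 1 - i) := by
  have h1 : (C a * X + C b : K[X]) = C a * X - C (-b) := by
    rw [C_neg, sub_neg_eq_add]
  rw [h1, pred_pow, finsetSum_coeff]
  have h2 : ∀ j ∈ Finset.range p, ((C a * X) ^ j * C (-b) ^ (p - 1 - j) : K[X]).coeff i =
      if j = i then a ^ i * (-b) ^ (p - 1 - i) else 0 := by
    intro j _
    rw [mul_pow, ← C_pow, ← C_pow, mul_assoc, mul_comm (X ^ j), ← mul_assoc, ← C_mul, coeff_C_mul, coeff_X_pow]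
    by_cases h : j = i
    · subst h
      simp
    · rw [if_neg h, if_neg (fun h' => h h'.symm), mul_zero]
  rw [Finset.sum_congr rfl h2, Finset.sum_ite_eq' (Finset.range p) i, if_pos (Finset.mem_range.2 hi)]

private theorem co_mid {p : ℕ} [hp : Fact p.Prime] {K : Type} [Field K] [CharP K p] (a b a' b' : K) :
    ((C a * X + C b) ^ (p - 1) * (C a' * X + C b') ^ (p - 1)).coeff (p - 1) = (a' * b - a * b') ^ (p - 1) := by
  have h2 := hp.out.two_le
  rw [coeff_mul, Finset.Nat.sum_antidiagonal_eq_sum_range_succ_mk]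
  have h3 : (p - 1).succ = p := by omega
  rw [h3]
  have h4 : (a' * b - a * b') = (-(a * b')) - (-(a' * b)) := by ring
  rw [h4, pred_pow]
  refine Finset.sum_congr rfl fun i hi => ?_
  have hi' := Finset.mem_range.1 hi
  show ((C a * X + C b) ^ (p - 1)).coeff i * ((C a' * X + C b') ^ (p - 1)).coeff (p - 1 - i) = _
  rw [co_lin a b hi', co_lin a' b' (by omega : p - 1 - i < p)]
  have h5 : p - 1 - (p - 1 - i) = i := by omega
  rw [h5]
  have e1 : -(a * b') = a * -b' := by ring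
  have e2 : -(a' * b) = a' * -b := by ring
  rw [e1, e2, mul_pow, mul_pow]
  ring

private theorem co_hi {p : ℕ} [hp : Fact p.Prime] {K : Type} [Field K] [CharP K p] (a b a' b' : K) {r s : ℕ}
    (h : r + s = 2 * (p - 1)) (hr : p ≤ r) :
    ((C a * X + C b) ^ r * (C a' * X + C b') ^ s).coeff (p - 1) = 0 := by
  have h2 := hp.out.two_le
  obtain ⟨q, rfl⟩ : ∃ q, r = p + q := ⟨r - p, by omega⟩
  have h1 : (C a * X + C b : K[X]) ^ (p + q) * (C a' * X + C b') ^ s =
      C (a ^ p) * (X ^ p * ((C a * X + C b) ^ q * (C a' * X + C b') ^ s)) +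
        C (b ^ p) * ((C a * X + C b) ^ q * (C a' * X + C b') ^ s) := by
    rw [pow_add, add_pow_char, mul_pow, C_pow, C_pow]
    ring
  have h3 : ((C a * X + C b : K[X]) ^ q * (C a' * X + C b') ^ s).natDegree < p - 1 := by
    refine lt_of_le_of_lt natDegree_mul_le ?_
    have e1 : ((C a * X + C b : K[X]) ^ q).natDegree ≤ q := by
      refine natDegree_pow_le.trans ?_
      calc q * (C a * X + C b : K[X]).natDegree ≤ q * 1 := Nat.mul_le_mul_left q (natDegree_linear_le)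
        _ = q := mul_one q
    have e2 : ((C a' * X + C b' : K[X]) ^ s).natDegree ≤ s := by
      refine natDegree_pow_le.trans ?_
      calc s * (C a' * X + C b' : K[X]).natDegree ≤ s * 1 := Nat.mul_le_mul_left s (natDegree_linear_le)
        _ = s := mul_one s
    omega
  rw [h1, coeff_add, coeff_C_mul, coeff_C_mul, coeff_X_pow_mul', if_neg (by omega), coeff_eq_zero_of_natDegree_lt h3]
  ring

private theorem cub {p : ℕ} [hp : Fact p.Prime] {K : Type} [Field K] [IsAlgClosed K] [CharP K p] (e : ℕ)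
    (he : p = 3 * e + 1) (τ : K[X]) (hτ : τ.Separable) (hd : τ.natDegree = 3) :
    (τ ^ (2 * e)).coeff (p - 1) ≠ 0 := by
  classical
  have hpp := hp.out
  have h2 : (2 : K) ≠ 0 := by
    intro h
    have h1 : ((2 : ℕ) : K) = 0 := by exact_mod_cast h
    rw [CharP.cast_eq_zero_iff K p] at h1
    have h3 := (Nat.prime_dvd_prime_iff_eq hpp Nat.prime_two).1 h1
    omega
  have h3 : (3 : K) ≠ 0 := by
    intro h
    have h1 : ((3 : ℕ) : K) = 0 := by exact_mod_cast h
    rw [CharP.cast_eq_zero_iff K p] at h1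
    have h4 := (Nat.prime_dvd_prime_iff_eq hpp Nat.prime_three).1 h1
    omega
  -- the roots
  have hτ0 : τ ≠ 0 := by
    rintro rfl
    rw [natDegree_zero] at hd
    omega
  have hcard : Multiset.card τ.roots = τ.natDegree := (splits_iff_card_roots.1 (IsAlgClosed.splits τ))
  have hcard3 : Multiset.card τ.roots = 3 := hcard.trans hd
  obtain ⟨r1, r2, r3, hr⟩ := Multiset.card_eq_three.1 hcard3
  have hnd : τ.roots.Nodup := nodup_roots hτ
  rw [hr] at hnd
  have h12 : r1 ≠ r2 := by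
    rintro rfl
    simp at hnd
  have h13 : r1 ≠ r3 := by
    rintro rfl
    simp at hnd
  have h23 : r2 ≠ r3 := by
    rintro rfl
    simp at hnd
  have hprod : τ = C τ.leadingCoeff * ((X - C r1) * ((X - C r2) * (X - C r3))) := by
    conv_lhs => rw [← C_leadingCoeff_mul_prod_multiset_X_sub_C hcard, hr]
    simp
  obtain ⟨A, hA⟩ : ∃ A, A = τ.leadingCoeff := ⟨_, rfl⟩
  have hA0 : A ≠ 0 := by
    rw [hA]
    exact leadingCoeff_ne_zero.2 hτ0
  rw [← hA] at hprod
  -- the cube root of unity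
  obtain ⟨s, hs⟩ := IsAlgClosed.exists_pow_nat_eq (-3 : K) (by norm_num : 0 < 2)
  obtain ⟨ω, hω⟩ : ∃ ω : K, ω = (-1 + s) / 2 := ⟨_, rfl⟩
  have hω2 : ω ^ 2 + ω + 1 = 0 := by
    rw [hω]
    field_simp
    linear_combination hs
  have hω1 : ω - 1 ≠ 0 := by
    intro h
    have h4 : ω = 1 := by linear_combination h
    rw [h4] at hω2
    apply h3
    linear_combination hω2
  have hδ : (r2 - r3) * (r3 - r1) * (r1 - r2) ≠ 0 :=
    mul_ne_zero (mul_ne_zero (sub_ne_zero.2 h23) (sub_ne_zero.2 h13.symm)) (sub_ne_zero.2 h12)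
  obtain ⟨c, hc⟩ := IsAlgClosed.exists_pow_nat_eq (A / ((r2 - r3) * (r3 - r1) * (r1 - r2))) (by norm_num : 0 < 3)
  have hc3 : c ^ 3 * ((r2 - r3) * (r3 - r1) * (r1 - r2)) = A := by
    rw [hc, div_mul_cancel₀ _ hδ]
  have hc0 : c ≠ 0 := by
    rintro rfl
    apply hA0
    rw [← hc3]
    ring
  have hω3 : ω ^ 3 = 1 := by linear_combination (ω - 1) * hω2
  obtain ⟨a1, ha1⟩ : ∃ a1 : K, a1 = c * (r2 - r3) := ⟨_, rfl⟩
  obtain ⟨a2, ha2⟩ : ∃ a2 : K, a2 = c * ω ^ 2 * (r3 - r1) := ⟨_, rfl⟩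
  obtain ⟨a3, ha3⟩ : ∃ a3 : K, a3 = c * ω * (r1 - r2) := ⟨_, rfl⟩
  have haa : a1 * a2 * a3 = A := by
    rw [ha1, ha2, ha3, ← hc3]
    linear_combination (c ^ 3 * ((r2 - r3) * (r3 - r1) * (r1 - r2))) * hω3
  have hl1 : a1 + ω * a2 + ω ^ 2 * a3 = 0 := by
    rw [ha1, ha2, ha3]
    linear_combination (c * (r3 - r1) + c * (r1 - r2)) * hω3
  have hl2 : a1 * r1 + ω * a2 * r2 + ω ^ 2 * a3 * r3 = 0 := by
    rw [ha1, ha2, ha3]
    linear_combination (c * (r3 - r1) * r2 + c * (r1 - r2) * r3) * hω3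
  -- the two linear forms
  obtain ⟨a', ha'⟩ : ∃ a' : K, a' = (a1 - a2) / (1 - ω) := ⟨_, rfl⟩
  obtain ⟨b', hb'⟩ : ∃ b' : K, b' = (-(a1 * r1) + a2 * r2) / (1 - ω) := ⟨_, rfl⟩
  have h1ω : (1 : K) - ω ≠ 0 := by
    intro h
    apply hω1
    linear_combination -h
  have ea' : a' * (1 - ω) = a1 - a2 := by rw [ha', div_mul_cancel₀ _ h1ω]
  have eb' : b' * (1 - ω) = -(a1 * r1) + a2 * r2 := by rw [hb', div_mul_cancel₀ _ h1ω]
  have hω0 : (ω : K) ≠ 0 := by
    rintro h
    rw [h] at hω3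
    norm_num at hω3
  obtain ⟨a, hadef⟩ : ∃ a : K, a = a1 - a' := ⟨_, rfl⟩
  obtain ⟨b, hbdef⟩ : ∃ b : K, b = -(a1 * r1) - b' := ⟨_, rfl⟩
  have k1 : a + a' = a1 := by rw [hadef]; ring
  have k2 : a + ω * a' = a2 := by rw [hadef]; linear_combination -ea'
  have k3 : a + ω ^ 2 * a' = a3 := by
    apply mul_left_cancel₀ (pow_ne_zero 2 hω0)
    linear_combination (a + a' * (1 - ω + ω ^ 2)) * hω2 - hl1 - k1 - ω * k2
  have m1 : b + b' = -(a1 * r1) := by rw [hbdef]; ring
  have m2 : b + ω * b' = -(a2 * r2) := by rw [hbdef]; linear_combination -eb'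
  have m3 : b + ω ^ 2 * b' = -(a3 * r3) := by
    apply mul_left_cancel₀ (pow_ne_zero 2 hω0)
    linear_combination (b + b' * (1 - ω + ω ^ 2)) * hω2 + hl2 - m1 - ω * m2
  have hD : a' * b - a * b' ≠ 0 := by
    intro h0
    have e1 : a1 * a2 * (r1 - r2) = (a + a') * (b + ω * b') - (a + ω * a') * (b + b') := by
      rw [m1, m2, k1, k2]
      ring
    have e2 : a1 * a2 * (r1 - r2) = 0 := by
      rw [e1]
      linear_combination (1 - ω) * h0
    have e3 : a1 * a2 * (r1 - r2) ≠ 0 := by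
      rw [ha1, ha2]
      exact mul_ne_zero (mul_ne_zero (mul_ne_zero hc0 (sub_ne_zero.2 h23))
        (mul_ne_zero (mul_ne_zero hc0 (pow_ne_zero 2 hω0)) (sub_ne_zero.2 h13.symm))) (sub_ne_zero.2 h12)
    exact e3 e2
  obtain ⟨U, hU⟩ : ∃ U : K[X], U = C a * X + C b := ⟨_, rfl⟩
  obtain ⟨V, hV⟩ : ∃ V : K[X], V = C a' * X + C b' := ⟨_, rfl⟩
  have w2 : (C ω : K[X]) ^ 2 + C ω + 1 = 0 := by
    rw [← C_pow, ← C_add, ← C_1, ← C_add, hω2, C_0]
  have u1 : U + V = C a1 * (X - C r1) := by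
    have x1 : (C a : K[X]) + C a' = C a1 := by rw [← C_add, k1]
    have x2 : (C b : K[X]) + C b' = -(C a1 * C r1) := by rw [← C_add, m1, C_neg, C_mul]
    rw [hU, hV]
    linear_combination X * x1 + x2
  have u2 : U + C ω * V = C a2 * (X - C r2) := by
    have x1 : (C a : K[X]) + C ω * C a' = C a2 := by rw [← C_mul, ← C_add, k2]
    have x2 : (C b : K[X]) + C ω * C b' = -(C a2 * C r2) := by rw [← C_mul, ← C_add, m2, C_neg, C_mul]
    rw [hU, hV]
    linear_combination X * x1 + x2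
  have u3 : U + C ω ^ 2 * V = C a3 * (X - C r3) := by
    have x1 : (C a : K[X]) + C ω ^ 2 * C a' = C a3 := by rw [← C_pow, ← C_mul, ← C_add, k3]
    have x2 : (C b : K[X]) + C ω ^ 2 * C b' = -(C a3 * C r3) := by
      rw [← C_pow, ← C_mul, ← C_add, m3, C_neg, C_mul]
    rw [hU, hV]
    linear_combination X * x1 + x2
  have hUV : τ = U ^ 3 + V ^ 3 := by
    calc τ = C A * ((X - C r1) * ((X - C r2) * (X - C r3))) := hprod
      _ = (C a1 * (X - C r1)) * (C a2 * (X - C r2)) * (C a3 * (X - C r3)) := by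
        rw [← haa, C_mul, C_mul]
        ring
      _ = (U + V) * (U + C ω * V) * (U + C ω ^ 2 * V) := by rw [u1, u2, u3]
      _ = U ^ 3 + V ^ 3 := by
        linear_combination (U ^ 2 * V + U * V ^ 2 * C ω + (C ω - 1) * V ^ 3) * w2
  have hmain : (τ ^ (2 * e)).coeff (p - 1) = (a' * b - a * b') ^ (p - 1) * ((2 * e).choose e : K) := by
    rw [hUV, add_pow, finsetSum_coeff, Finset.sum_eq_single e]
    · have e1 : (U ^ 3) ^ e = U ^ (p - 1) := by
        rw [← pow_mul]
        congr 1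
        omega
      have e2 : (V ^ 3) ^ (2 * e - e) = V ^ (p - 1) := by
        rw [← pow_mul]
        congr 1
        omega
      rw [coeff_mul_natCast, e1, e2, hU, hV, co_mid]
    · intro j hj hje
      have hj' := Finset.mem_range.1 hj
      rw [coeff_mul_natCast, ← pow_mul, ← pow_mul]
      have e3 : (U ^ (3 * j) * V ^ (3 * (2 * e - j))).coeff (p - 1) = 0 := by
        rw [hU, hV]
        rcases lt_or_gt_of_ne hje with h | h
        · rw [mul_comm]
          exact co_hi _ _ _ _ (by omega) (by omega)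
        · exact co_hi _ _ _ _ (by omega) (by omega)
      rw [e3, zero_mul]
    · intro h
      exact absurd (Finset.mem_range.2 (by omega)) h
  rw [hmain]
  refine mul_ne_zero (pow_ne_zero _ hD) ?_
  intro h0
  rw [CharP.cast_eq_zero_iff K p] at h0
  have h4 : p ∣ (2 * e).factorial := by
    rw [← Nat.choose_mul_factorial_mul_factorial (show e ≤ 2 * e by omega)]
    exact Dvd.dvd.mul_right (Dvd.dvd.mul_right h0 _) _
  have h5 := (Nat.Prime.dvd_factorial hpp).1 h4
  omega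

theorem hs_cubic {p : ℕ} [Fact p.Prime] {F : Type} [Field F] [CharP F p] (h3 : 3 ∣ p - 1) (τ : F[X]) (hτ : τ.Separable)
    (hd : τ.natDegree = 3) : (hw p (2 * (p - 1) / 3) 1 τ).det ≠ 0 := by
  have hpp : p.Prime := Fact.out
  obtain ⟨e, he⟩ := h3
  have hp2 := hpp.two_le
  have he' : p = 3 * e + 1 := by omega
  have hn : 2 * (p - 1) / 3 = 2 * e := by omega
  rw [Matrix.det_fin_one, hn]
  show (τ ^ (2 * e)).coeff (p * (((0 : Fin 1) : ℕ) + 1) - (((0 : Fin 1) : ℕ) + 1)) ≠ 0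
  have h1 : p * (((0 : Fin 1) : ℕ) + 1) - (((0 : Fin 1) : ℕ) + 1) = p - 1 := by
    simp
  rw [h1]
  intro h0
  have hch : CharP (AlgebraicClosure F) p :=
    charP_of_injective_algebraMap (algebraMap F (AlgebraicClosure F)).injective p
  refine cub e he' (τ.map (algebraMap F (AlgebraicClosure F))) (hτ.map) ?_ ?_
  · rw [natDegree_map, hd]
  · rw [← Polynomial.map_pow, coeff_map, h0, map_zero]

end H45.AT

end
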