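import Pool.Agent.H45.AT.TFz

/-!
# AT-IX: the monomials of a given weight, and products of reindexed matrices

`exists_ix`: the elements `u` of `bx B (1, 1)` with `wt u = i` are the `(j + 1, i - (j + 1))`, `j < i - 1` (`i ≤ B`). `pm_submatrix`: `Matrix.submatrix_mul_equiv`. `charpolyRev_submatrix`: `Matrix.det_submatrix_equiv_self`.
`card_lt`: `u ↦ u` between `{u ∈ bx B (1, 1), wt u < d}` and `{u ∈ bx d (1, 1), wt u < d}` for `d ≤ B`.
-/

set_option autoImplicit false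

open Polynomial

noncomputable section

namespace H45.AT

private theorem mem_bx_one (B : ℕ) (u : ℕ × ℕ) : u ∈ bx B (1, 1) ↔ 1 ≤ u.1 ∧ 1 ≤ u.2 ∧ u.1 + u.2 ≤ B := by
  unfold bx wt
  rw [Finset.mem_filter, Finset.mem_product, Finset.mem_range, Finset.mem_range, Prod.le_def]
  constructor
  · rintro ⟨_, ⟨h1, h2⟩, h3⟩
    exact ⟨h1, h2, h3⟩
  · rintro ⟨h1, h2, h3⟩
    exact ⟨⟨by omega, by omega⟩, ⟨h1, h2⟩, h3⟩

theorem exists_ix (B i : ℕ) (hi : i ≤ B) : ∃ e : Fin (i - 1) ≃ {u : bx B (1, 1) // wt u.1 = i},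
    ∀ j : Fin (i - 1), (e j).1.1 = ((j : ℕ) + 1, i - ((j : ℕ) + 1)) := by
  have hmem : ∀ j : Fin (i - 1), ((j : ℕ) + 1, i - ((j : ℕ) + 1)) ∈ bx B (1, 1) := by
    intro j
    rw [mem_bx_one]
    have := j.2
    refine ⟨?_, ?_, ?_⟩ <;> dsimp only <;> omega
  have hwt : ∀ j : Fin (i - 1), wt ((j : ℕ) + 1, i - ((j : ℕ) + 1)) = i := by
    intro j
    have := j.2
    unfold wt
    dsimp only
    omega
  refine ⟨Equiv.ofBijective (fun j => ⟨⟨_, hmem j⟩, hwt j⟩) ⟨?_, ?_⟩, fun j => rfl⟩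
  · intro j j' h
    have h1 : ((j : ℕ) + 1, i - ((j : ℕ) + 1)) = ((j' : ℕ) + 1, i - ((j' : ℕ) + 1)) :=
      congrArg (fun v : {u : bx B (1, 1) // wt u.1 = i} => v.1.1) h
    have h2 := (Prod.mk.inj h1).1
    exact Fin.ext (by omega)
  · rintro ⟨⟨⟨a, b⟩, hu⟩, hw⟩
    have h1 := (mem_bx_one B (a, b)).1 hu
    unfold wt at hw
    dsimp only at h1 hw
    refine ⟨⟨a - 1, by omega⟩, ?_⟩
    apply Subtype.ext
    apply Subtype.ext
    refine Prod.ext ?_ ?_
    · show a - 1 + 1 = a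
      omega
    · show i - (a - 1 + 1) = b
      omega

theorem pm_submatrix {R ι κ : Type} [CommRing R] [Fintype ι] [DecidableEq ι] [Fintype κ] [DecidableEq κ] (e : κ ≃ ι)
    (M : ℕ → Matrix ι ι R) (a : ℕ) : (pm M a).submatrix e e = pm (fun j => (M j).submatrix e e) a := by
  induction a with
  | zero =>
    show (1 : Matrix ι ι R).submatrix e e = 1
    exact Matrix.submatrix_one_equiv e
  | succ n ih =>
    show (M n * pm M n).submatrix e e = (M n).submatrix e e * pm (fun j => (M j).submatrix e e) n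
    rw [← ih, Matrix.submatrix_mul_equiv]

theorem charpolyRev_submatrix {R ι κ : Type} [CommRing R] [Fintype ι] [DecidableEq ι] [Fintype κ] [DecidableEq κ]
    (e : κ ≃ ι) (M : Matrix ι ι R) : (M.submatrix e e).charpolyRev = M.charpolyRev := by
  unfold Matrix.charpolyRev
  rw [← Matrix.det_submatrix_equiv_self e]
  congr 1
  ext1 i j
  simp [Matrix.one_apply]

theorem prod_lt {R : Type} [CommRing R] (B d : ℕ) (hd : d ≤ B) (f : ℕ → R) :
    ∏ u ∈ Finset.univ.filter (fun u : bx B (1, 1) => wt u.1 < d), f (wt u.1) =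
      ∏ u ∈ (bx d (1, 1)).filter (fun u => wt u < d), f (wt u) := by
  refine Finset.prod_bij (fun u _ => u.1) ?_ ?_ ?_ fun _ _ => rfl
  · intro u hu
    have h1 := (mem_bx_one B u.1).1 u.2
    have h2 := (Finset.mem_filter.1 hu).2
    rw [Finset.mem_filter, mem_bx_one]
    refine ⟨⟨h1.1, h1.2.1, ?_⟩, h2⟩
    unfold wt at h2
    omega
  · intro u _ v _ h
    exact Subtype.ext h
  · intro u hu
    obtain ⟨h1, h2⟩ := Finset.mem_filter.1 hu
    rw [mem_bx_one] at h1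
    refine ⟨⟨u, (mem_bx_one B u).2 ⟨h1.1, h1.2.1, by omega⟩⟩, ?_, rfl⟩
    exact Finset.mem_filter.2 ⟨Finset.mem_univ _, h2⟩

theorem card_lt (B d : ℕ) (hd : d ≤ B) :
    (Finset.univ.filter fun u : bx B (1, 1) => wt u.1 < d).card =
      ((bx d (1, 1)).filter fun u => wt u < d).card := by
  refine Finset.card_bij (fun u _ => u.1) ?_ ?_ ?_
  · intro u hu
    have h1 := (mem_bx_one B u.1).1 u.2
    have h2 := (Finset.mem_filter.1 hu).2
    rw [Finset.mem_filter, mem_bx_one]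
    refine ⟨⟨h1.1, h1.2.1, ?_⟩, h2⟩
    unfold wt at h2
    omega
  · intro u _ v _ h
    exact Subtype.ext h
  · intro u hu
    obtain ⟨h1, h2⟩ := Finset.mem_filter.1 hu
    rw [mem_bx_one] at h1
    refine ⟨⟨u, (mem_bx_one B u).2 ⟨h1.1, h1.2.1, by omega⟩⟩, ?_, rfl⟩
    exact Finset.mem_filter.2 ⟨Finset.mem_univ _, h2⟩

end H45.AT

end
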