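import Pool.Agent.H45.AT.Df

/-!
# AT-LDa: block cyclic determinants

`cyc a Z` has the block `Z j` in the block row `j + 1`, block column `j`, for `j + 1 < a`, and the block `X Z (a - 1)` in the block row `0`, block column `a - 1`.
`det_cyc`: right multiplication of `1 - cyc a Z` by the block matrix `U` with identity diagonal blocks and the blocks `pm Z i` in the block column `0` (rows `i ≥ 1`) gives: block column `0` is
`1 - X pm Z a` in the block row `0` and `pm Z i - Z (i - 1) pm Z (i - 1) = 0` in the block row `i ≥ 1`; the other columns are unchanged, so the result is block triangular with the diagonal blocks `1 - X pm Z a`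
and a block lower unitriangular matrix (blocks `i, i' ≥ 1`). `det U = 1`. Another way: induction on `a ≥ 1` with the Schur complement (`Matrix.det_fromBlocks_one₂₂`), eliminating the block `a`:
`1 - cyc (a + 1) Z` has the determinant of `1 - cyc a Z'`, where `Z' j = Z j` for `j + 1 < a` and `Z' (a - 1) = Z a * Z (a - 1)` (`Z : ℕ → Matrix`, `a ≥ 1`; `pm Z' a = pm Z (a + 1)`).
`det_cyc0`: `- cyc a Z = (block diagonal matrix) * (permutation matrix)`: row block `j + 1` (or `0` for `j + 1 = a`) of `- cyc a Z` is `- Z j` (or `- X Z (a - 1)`) in the block column `j`. Permute the rows with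
`(i, u) ↦ (i - 1, u)` (`finRotate`, `Matrix.det_permute`): block diagonal, `Matrix.det_blockDiagonal`, `det (- Z j) = (-1) ^ card ι det Z j`, `det (- X Z) = (-X) ^ card ι det Z`.
-/

set_option autoImplicit false

open Polynomial

noncomputable section

namespace H45.AT

/-- a block triangular matrix whose blocks except `k0` are identity matrices -/
private theorem bt1 {m R : Type} [CommRing R] [Fintype m] [DecidableEq m] (M : Matrix m m R)
    (b : m → ℕ) (k0 : ℕ) (h : M.BlockTriangular b)
    (hb : ∀ x y, b x = b y → b x ≠ k0 → M x y = (1 : Matrix m m R) x y) :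
    M.det = (M.toSquareBlock b k0).det := by
  rw [h.det]
  refine Finset.prod_eq_single k0 (fun k _ hk => ?_) (fun hk => ?_)
  · have h1 : M.toSquareBlock b k = 1 := by
      ext x y
      change M x y = _
      rw [hb x y (x.2.trans y.2.symm) (fun h => hk (x.2.symm.trans h)), Matrix.one_apply,
        Matrix.one_apply]
      simp only [Subtype.ext_iff]
    rw [h1, Matrix.det_one]
  · have : IsEmpty {x : m // b x = k0} := ⟨fun x => hk (Finset.mem_image.2
      ⟨x.1, Finset.mem_univ _, x.2⟩)⟩
    exact Matrix.det_isEmpty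

/-- the transformation matrix -/
private def UU {ι R : Type} [CommRing R] [Fintype ι] [DecidableEq ι] (a : ℕ)
    (Z : ℕ → Matrix ι ι R) : Matrix (Fin a × ι) (Fin a × ι) R[X] :=
  Matrix.of fun x y => if (y.1 : ℕ) = 0 then C (pm Z x.1 x.2 y.2) else (1 : Matrix _ _ R[X]) x y

private theorem det_UU {ι R : Type} [CommRing R] [Fintype ι] [DecidableEq ι] (a : ℕ)
    (Z : ℕ → Matrix ι ι R) : (UU a Z).det = 1 := by
  have hx : ∀ x y : Fin a × ι, (x.1 : ℕ) = 0 → UU a Z x y = (1 : Matrix _ _ R[X]) x y := by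
    intro x y hx
    unfold UU
    rw [Matrix.of_apply]
    by_cases hy : (y.1 : ℕ) = 0
    · rw [if_pos hy, hx]
      change C ((1 : Matrix ι ι R) x.2 y.2) = _
      rw [Matrix.one_apply, Matrix.one_apply]
      by_cases h : x.2 = y.2
      · rw [if_pos h, if_pos (Prod.ext (Fin.ext (hx.trans hy.symm)) h), C_1]
      · rw [if_neg h, if_neg (fun h' => h (congrArg Prod.snd h')), C_0]
    · rw [if_neg hy]
  rw [bt1 (UU a Z) (fun x => if (x.1 : ℕ) = 0 then 1 else 0) 2 ?_ ?_]
  · have : IsEmpty {x : Fin a × ι // (fun x : Fin a × ι => if (x.1 : ℕ) = 0 then 1 else 0) x = 2} :=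
      ⟨fun x => by
        have h := x.2
        beta_reduce at h
        split_ifs at h
        · exact absurd h (by decide)⟩
    exact Matrix.det_isEmpty
  · intro x y hxy
    beta_reduce at hxy
    by_cases h : (x.1 : ℕ) = 0
    · rw [hx x y h, Matrix.one_apply, if_neg]
      rintro rfl
      exact lt_irrefl _ hxy
    · rw [if_neg h] at hxy
      exact absurd hxy (Nat.not_lt_zero _)
  · intro x y hxy _
    beta_reduce at hxy
    by_cases h : (x.1 : ℕ) = 0
    · exact hx x y h
    · rw [if_neg h] at hxy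
      have hy : (y.1 : ℕ) ≠ 0 := by
        intro hy
        rw [if_pos hy] at hxy
        exact absurd hxy (by decide)
      unfold UU
      rw [Matrix.of_apply, if_neg hy]

/-- one column block -/
private theorem cyc_col {ι R : Type} [CommRing R] [Fintype ι] [DecidableEq ι] (a : ℕ)
    (Z : ℕ → Matrix ι ι R) (x : Fin a × ι) (y : Fin a × ι) (hy : (y.1 : ℕ) = 0) :
    ((1 - cyc a Z) * UU a Z) x y = if (x.1 : ℕ) = 0 then
      (1 - (X : R[X]) • (pm Z a).map C) x.2 y.2 else 0 := by
  have h0 : 0 < a := lt_of_le_of_lt (Nat.zero_le _) y.1.2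
  have h1 : ((1 - cyc a Z) * UU a Z) x y = UU a Z x y - (cyc a Z * UU a Z) x y := by
    rw [sub_mul, one_mul]
    rfl
  have h2 : (cyc a Z * UU a Z) x y = if (x.1 : ℕ) = 0 then X * C ((pm Z a) x.2 y.2)
      else C ((pm Z x.1) x.2 y.2) := by
    rw [Matrix.mul_apply, Fintype.sum_prod_type]
    by_cases hx : (x.1 : ℕ) = 0
    · rw [if_pos hx, Finset.sum_eq_single (⟨a - 1, by omega⟩ : Fin a)]
      · obtain ⟨b, rfl⟩ : ∃ b, a = b + 1 := ⟨a - 1, by omega⟩
        have h3 : pm Z (b + 1) = Z b * pm Z b := rfl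
        rw [h3, Matrix.mul_apply, map_sum, Finset.mul_sum]
        refine Finset.sum_congr rfl fun i _ => ?_
        unfold cyc UU
        rw [Matrix.of_apply, Matrix.of_apply, if_pos hy]
        have h4 : ((⟨b + 1 - 1, by omega⟩ : Fin (b + 1)) : ℕ) = b := by simp
        dsimp only
        rw [if_neg (by omega), if_pos ⟨by omega, hx⟩, C_mul, mul_assoc]
        rfl
      · intro j _ hj
        refine Finset.sum_eq_zero fun i _ => ?_
        unfold cyc
        rw [Matrix.of_apply]
        dsimp only
        rw [if_neg (by omega), if_neg, zero_mul]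
        rintro ⟨h, -⟩
        exact hj (Fin.ext (by dsimp only; omega))
      · intro h
        exact absurd (Finset.mem_univ _) h
    · obtain ⟨l, hl⟩ : ∃ l : Fin a, (l : ℕ) + 1 = x.1 :=
        ⟨⟨(x.1 : ℕ) - 1, by have := x.1.2; omega⟩, by dsimp only; omega⟩
      rw [if_neg hx, Finset.sum_eq_single l]
      · have h5 : pm Z x.1 = Z l * pm Z l := by
          rw [← hl]
          rfl
        rw [h5, Matrix.mul_apply, map_sum]
        refine Finset.sum_congr rfl fun i _ => ?_
        unfold cyc UU
        rw [Matrix.of_apply, Matrix.of_apply, if_pos hy]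
        dsimp only
        rw [if_pos hl, C_mul]
      · intro j _ hj
        refine Finset.sum_eq_zero fun i _ => ?_
        unfold cyc
        rw [Matrix.of_apply]
        dsimp only
        rw [if_neg, if_neg (fun h => hx h.2), zero_mul]
        intro h
        exact hj (Fin.ext (by omega))
      · intro h
        exact absurd (Finset.mem_univ _) h
  rw [h1, h2]
  unfold UU
  rw [Matrix.of_apply, if_pos hy]
  by_cases hx : (x.1 : ℕ) = 0
  · rw [if_pos hx, if_pos hx, hx]
    change C ((1 : Matrix ι ι R) x.2 y.2) - _ = (1 : Matrix ι ι R[X]) x.2 y.2 -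
      X * C (pm Z a x.2 y.2)
    congr 1
    rw [Matrix.one_apply, Matrix.one_apply]
    split_ifs
    · exact C_1
    · exact C_0
  · rw [if_neg hx, if_neg hx, sub_self]

private theorem cyc_col' {ι R : Type} [CommRing R] [Fintype ι] [DecidableEq ι] (a : ℕ)
    (Z : ℕ → Matrix ι ι R) (x : Fin a × ι) (y : Fin a × ι) (hy : (y.1 : ℕ) ≠ 0) :
    ((1 - cyc a Z) * UU a Z) x y = (1 : Matrix _ _ R[X]) x y - cyc a Z x y := by
  rw [Matrix.mul_apply, Finset.sum_eq_single y]
  · unfold UU
    rw [Matrix.of_apply, if_neg hy, Matrix.one_apply_eq, mul_one]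
    rfl
  · intro z _ hz
    unfold UU
    rw [Matrix.of_apply, if_neg hy, Matrix.one_apply_ne hz, mul_zero]
  · intro h
    exact absurd (Finset.mem_univ _) h

theorem det_cyc {ι R : Type} [CommRing R] [Fintype ι] [DecidableEq ι] (a : ℕ) (ha : a ≠ 0) (Z : ℕ → Matrix ι ι R) :
    (1 - cyc a Z).det = (pm Z a).charpolyRev := by
  have ha0 : 0 < a := Nat.pos_of_ne_zero ha
  have h1 : (1 - cyc a Z).det = ((1 - cyc a Z) * UU a Z).det := by
    rw [Matrix.det_mul, det_UU, mul_one]
  obtain ⟨b, hb⟩ : ∃ b : Fin a × ι → ℕ, ∀ x, b x = if (x.1 : ℕ) = 0 then 0 else a - x.1 :=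
    ⟨_, fun _ => rfl⟩
  rw [h1, bt1 _ b 0 ?_ ?_]
  · obtain ⟨f, hf⟩ : ∃ f : ι → {x : Fin a × ι // b x = 0}, ∀ i, (f i).1 = (⟨0, ha0⟩, i) :=
      ⟨fun i => ⟨(⟨0, ha0⟩, i), by rw [hb]; rfl⟩, fun _ => rfl⟩
    have hfb : Function.Bijective f := by
      constructor
      · intro i j hij
        have h := congrArg (fun x => x.1.2) hij
        beta_reduce at h
        rw [hf, hf] at h
        exact h
      · rintro ⟨⟨x, i⟩, hx⟩
        refine ⟨i, Subtype.ext ?_⟩
        rw [hf]
        refine Prod.ext (Fin.ext ?_) rfl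
        have h := hb (x, i)
        rw [hx] at h
        dsimp only at h ⊢
        by_contra hc
        rw [if_neg (fun h' => hc h'.symm)] at h
        have := x.2
        omega
    rw [← Matrix.det_submatrix_equiv_self (Equiv.ofBijective f hfb), Matrix.charpolyRev]
    congr 1
    ext i j : 1
    change ((1 - cyc a Z) * UU a Z) (f i).1 (f j).1 = _
    rw [hf, hf, cyc_col a Z _ _ rfl, if_pos rfl]
  · intro x y hxy
    rw [hb, hb] at hxy
    by_cases hy : (y.1 : ℕ) = 0
    · rw [cyc_col a Z x y hy, if_neg]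
      intro hx
      rw [if_pos hy, if_pos hx] at hxy
      exact lt_irrefl _ hxy
    · rw [if_neg hy] at hxy
      have hx : (x.1 : ℕ) ≠ 0 := by
        intro hx
        rw [if_pos hx] at hxy
        exact absurd hxy (Nat.not_lt_zero _)
      rw [if_neg hx] at hxy
      have h2 : (x.1 : ℕ) < y.1 := by
        have := x.1.2
        have := y.1.2
        omega
      rw [cyc_col' a Z x y hy, Matrix.one_apply_ne (by
        rintro rfl
        exact lt_irrefl _ h2)]
      unfold cyc
      rw [Matrix.of_apply, if_neg (by omega), if_neg (fun h => hx h.2), sub_zero]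
  · intro x y hxy hx0
    rw [hb] at hx0
    rw [hb, hb] at hxy
    have hx : (x.1 : ℕ) ≠ 0 := by
      intro hx
      rw [if_pos hx] at hx0
      exact hx0 rfl
    rw [if_neg hx] at hxy
    have hy : (y.1 : ℕ) ≠ 0 := by
      intro hy
      rw [if_pos hy] at hxy
      have := x.1.2
      omega
    rw [if_neg hy] at hxy
    have h2 : (x.1 : ℕ) = y.1 := by
      have := x.1.2
      have := y.1.2
      omega
    rw [cyc_col' a Z x y hy]
    unfold cyc
    rw [Matrix.of_apply, if_neg (by omega), if_neg (fun h => hx h.2), sub_zero]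

private theorem sgn_sq {R : Type} [CommRing R] (u : ℤˣ) : (((u : ℤ) : R)) ^ 2 = 1 := by
  rcases Int.units_eq_one_or u with rfl | rfl <;> simp

theorem det_cyc0 {ι R : Type} [CommRing R] [Fintype ι] [DecidableEq ι] (a : ℕ) (ha : a ≠ 0) (Z : ℕ → Matrix ι ι R) :
    ∃ ε : R, ε ^ 2 = 1 ∧
      (-cyc a Z).det = C ε * X ^ Fintype.card ι * C (∏ j ∈ Finset.range a, (Z j).det) := by
  obtain ⟨b, rfl⟩ : ∃ b, a = b + 1 := ⟨a - 1, by omega⟩
  obtain ⟨σ, hσ⟩ : ∃ σ : Equiv.Perm (Fin (b + 1) × ι),
      ∀ x, σ x = (finRotate (b + 1) x.1, x.2) :=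
    ⟨(finRotate (b + 1)).prodCongr (Equiv.refl ι), fun _ => rfl⟩
  obtain ⟨B, hB⟩ : ∃ B : Fin (b + 1) → Matrix ι ι R[X], ∀ k, B k =
      (-(if (k : ℕ) = b then (X : R[X]) else 1)) • (Z k).map C := ⟨_, fun _ => rfl⟩
  have h1 : ((-cyc (b + 1) Z).submatrix σ id).submatrix (Equiv.prodComm ι (Fin (b + 1)))
      (Equiv.prodComm ι (Fin (b + 1))) = Matrix.blockDiagonal B := by
    refine Matrix.ext fun x y => ?_
    obtain ⟨i, k⟩ := x
    obtain ⟨j, l⟩ := y
    rw [Matrix.blockDiagonal_apply]
    change -cyc (b + 1) Z (σ (k, i)) (l, j) = _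
    rw [hσ]
    unfold cyc
    rw [Matrix.of_apply]
    dsimp only
    by_cases hk : (k : ℕ) = b
    · have h2 : ((finRotate (b + 1) k : Fin (b + 1)) : ℕ) = 0 := by
        have h3 : k = Fin.last b := Fin.ext hk
        rw [h3, finRotate_last]
        rfl
      rw [h2, if_neg (by omega)]
      by_cases hl : k = l
      · rw [if_pos hl, ← hl, if_pos ⟨by omega, rfl⟩, hB, if_pos hk]
        change _ = -X * C (Z k i j)
        rw [neg_mul]
      · rw [if_neg hl, if_neg, neg_zero]
        rintro ⟨h, -⟩
        exact hl (Fin.ext (by omega))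
    · have h2 : ((finRotate (b + 1) k : Fin (b + 1)) : ℕ) = k + 1 := by
        have h3 : (k : ℕ) < b := by
          have := k.2
          omega
        rw [coe_finRotate_of_ne_last]
        intro h4
        rw [h4] at hk
        exact hk (Fin.val_last b)
      rw [h2]
      by_cases hl : k = l
      · rw [if_pos hl, ← hl, if_pos rfl, hB, if_neg hk]
        change _ = -1 * C (Z k i j)
        rw [neg_mul, one_mul]
      · rw [if_neg hl, if_neg, if_neg, neg_zero]
        · rintro ⟨-, h⟩
          omega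
        · intro h
          exact hl (Fin.ext (by omega))
  have h2 := Matrix.det_permute σ (-cyc (b + 1) Z)
  have h3 : ((-cyc (b + 1) Z).submatrix σ id).det = ∏ k, (B k).det := by
    rw [← Matrix.det_blockDiagonal, ← h1, Matrix.det_submatrix_equiv_self]
  have h4 : ∏ k, (B k).det = (C ((-1) ^ (b + 1)) * X) ^ Fintype.card ι *
      C (∏ j ∈ Finset.range (b + 1), (Z j).det) := by
    have h5 : ∀ k : Fin (b + 1), (B k).det =
        (-(if (k : ℕ) = b then (X : R[X]) else 1)) ^ Fintype.card ι * C ((Z k).det) := by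
      intro k
      rw [hB, Matrix.det_smul, RingHom.map_det]
      rfl
    rw [Finset.prod_congr rfl fun k _ => h5 k, Finset.prod_mul_distrib, Finset.prod_pow,
      ← Fin.prod_univ_eq_prod_range (fun j => (Z j).det), map_prod]
    congr 2
    rw [Fin.prod_univ_castSucc, Fin.val_last, if_pos rfl, Finset.prod_congr rfl
      (fun (k : Fin b) _ => (by
        rw [Fin.val_castSucc, if_neg (by have := k.2; omega)] :
          (-(if ((Fin.castSucc k : Fin (b + 1)) : ℕ) = b then (X : R[X]) else 1)) = -1)),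
      Finset.prod_const, Finset.card_univ, Fintype.card_fin, pow_succ, C_mul, C_pow, C_neg, C_1]
    ring
  refine ⟨((Equiv.Perm.sign σ : ℤ) : R) * ((-1) ^ (b + 1)) ^ Fintype.card ι, ?_, ?_⟩
  · rw [mul_pow, sgn_sq, one_mul, ← pow_mul, ← pow_mul]
    exact Even.neg_one_pow ((even_two.mul_left _).mul_left _)
  · have h6 : ((Equiv.Perm.sign σ : ℤ) : R[X]) * ((Equiv.Perm.sign σ : ℤ) : R[X]) = 1 := by
      rw [← sq, sgn_sq]
    have h7 : (-cyc (b + 1) Z).det = ((Equiv.Perm.sign σ : ℤ) : R[X]) *
        (((Equiv.Perm.sign σ : ℤ) : R[X]) * (-cyc (b + 1) Z).det) := by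
      rw [← mul_assoc, h6, one_mul]
    generalize ((-1 : R) ^ (b + 1)) = E at h4 ⊢
    rw [h7, ← h2, h3, h4, C_mul, mul_pow, C_pow, map_intCast]
    ring

end H45.AT

end
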