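import Pool.Agent.H45.AT.Df

/-!
# AT-NWb: the polynomial of a multiset with integer power sums

Let `P = ∏_(α ∈ A) (1 - C α * X) ∈ ℂ[X]` (degree `≤ card A`, constant coefficient `1`); Newton: `n P_n = - ∑_(r=1)^n s_r P_(n - r)` (logarithmic derivative, induction on `A`, or `Multiset`/`MvPolynomial.psum` Newton identities; similar things are in
`Pool/Agent/H13/CZ/` and `Pool/Agent/H13/PC/Ak.lean`). So `n! P_n ∈ ℤ` by induction on `n`. Let `y = ∑_(n ≤ L) (L! P_n) X ^ n ∈ ℤ[X]`, so `y.map = C L! * P` (`P_n = 0` for `n > card A`, `card A ≤ L`). `P = (1 - C q * X) ^ (A.count q) * P'` (`Multiset.le_count_iff_replicate_le`).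
`(1 - q X) ^ c` is a unit in `ℤ⟦X⟧` (constant coefficient `1`), so `y = (1 - q X) ^ c y'` in `ℤ⟦X⟧`, and in `ℂ⟦X⟧` `y' = L! P'` is a polynomial, so `y'` is a polynomial over `ℤ` (coefficients `0` from some place on).
-/

set_option autoImplicit false

open Polynomial

noncomputable section

namespace H45.AT

private def PP (A : Multiset ℂ) : ℂ[X] := (A.map fun α => (1 : ℂ[X]) - C α * X).prod

private theorem PP_cons (a : ℂ) (A : Multiset ℂ) : PP (a ::ₘ A) = (1 - C a * X) * PP A := by
  unfold PP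
  rw [Multiset.map_cons, Multiset.prod_cons]

private theorem PP_deg (A : Multiset ℂ) : (PP A).natDegree ≤ Multiset.card A := by
  induction A using Multiset.induction_on with
  | empty => simp [PP]
  | cons a A ih =>
    rw [PP_cons, Multiset.card_cons]
    refine natDegree_mul_le.trans ?_
    have h1 : ((1 : ℂ[X]) - C a * X).natDegree ≤ 1 := by
      refine (natDegree_sub_le _ _).trans ?_
      rw [natDegree_one]
      exact max_le (by omega) ((natDegree_C_mul_le a X).trans natDegree_X_le)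
    omega

private theorem PP_zero (A : Multiset ℂ) : (PP A).coeff 0 = 1 := by
  induction A using Multiset.induction_on with
  | empty => simp [PP]
  | cons a A ih =>
    rw [PP_cons, mul_coeff_zero, ih]
    simp

private def ss (A : Multiset ℂ) : PowerSeries ℂ :=
  PowerSeries.mk fun r => if r = 0 then 0 else (A.map fun α => α ^ r).sum

private theorem ss_cons (a : ℂ) (A : Multiset ℂ) : ss (a ::ₘ A) = ss {a} + ss A := by
  ext n
  unfold ss
  rw [map_add, PowerSeries.coeff_mk, PowerSeries.coeff_mk, PowerSeries.coeff_mk]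
  split_ifs
  · rw [add_zero]
  · rw [Multiset.map_cons, Multiset.sum_cons, Multiset.map_singleton, Multiset.sum_singleton]

private theorem ss_one (a : ℂ) : ((((1 : ℂ[X]) - C a * X : ℂ[X])) : PowerSeries ℂ) * ss {a} = ((C a * X : ℂ[X]) : PowerSeries ℂ) := by
  rw [Polynomial.coe_sub, Polynomial.coe_one, sub_mul, one_mul, Polynomial.coe_mul, Polynomial.coe_C, Polynomial.coe_X,
    mul_assoc]
  ext n
  rw [map_sub, PowerSeries.coeff_C_mul, PowerSeries.coeff_C_mul]
  rcases n with _ | _ | k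
  · simp [ss]
  · rw [PowerSeries.coeff_succ_X_mul]
    simp [ss]
  · rw [PowerSeries.coeff_succ_X_mul, PowerSeries.coeff_X]
    unfold ss
    rw [PowerSeries.coeff_mk, PowerSeries.coeff_mk, if_neg (by omega), if_neg (by omega), if_neg (by omega)]
    rw [Multiset.map_singleton, Multiset.sum_singleton, Multiset.map_singleton, Multiset.sum_singleton]
    ring

private theorem newton (A : Multiset ℂ) : ((X * derivative (PP A) : ℂ[X]) : PowerSeries ℂ) =
    -(((PP A : ℂ[X]) : PowerSeries ℂ) * ss A) := by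
  induction A using Multiset.induction_on with
  | empty =>
    have h1 : ss (0 : Multiset ℂ) = 0 := by
      ext n
      unfold ss
      rw [PowerSeries.coeff_mk]
      simp
    rw [h1]
    simp [PP]
  | cons a A ih =>
    rw [PP_cons, derivative_mul, derivative_sub, derivative_one, derivative_C_mul_X, zero_sub, ss_cons]
    have e1 : X * (-C a * PP A + (1 - C a * X) * derivative (PP A)) =
        -((C a * X) * PP A) + (1 - C a * X) * (X * derivative (PP A)) := by ring
    rw [e1, Polynomial.coe_add, Polynomial.coe_neg, Polynomial.coe_mul (C a * X) (PP A), Polynomial.coe_mul (1 - C a * X) (X * derivative (PP A)),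
      Polynomial.coe_mul (1 - C a * X) (PP A), ih, ← ss_one]
    ring

private theorem newton' (A : Multiset ℂ) {n : ℕ} (hn : n ≠ 0) : (n : ℂ) * (PP A).coeff n =
    -∑ r ∈ Finset.Icc 1 n, (A.map fun α => α ^ r).sum * (PP A).coeff (n - r) := by
  have h1 := congrArg (PowerSeries.coeff n) (newton A)
  rw [Polynomial.coeff_coe, map_neg, mul_comm ((PP A : ℂ[X]) : PowerSeries ℂ), PowerSeries.coeff_mul,
    Finset.Nat.sum_antidiagonal_eq_sum_range_succ (fun i j => PowerSeries.coeff i (ss A) *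
      PowerSeries.coeff j ((PP A : ℂ[X]) : PowerSeries ℂ)), Finset.range_eq_Ico,
    Finset.sum_eq_sum_Ico_succ_bot (by omega)] at h1
  obtain ⟨k, rfl⟩ : ∃ k, n = k + 1 := ⟨n - 1, by omega⟩
  rw [coeff_X_mul, coeff_derivative] at h1
  have h2 : PowerSeries.coeff 0 (ss A) = 0 := by
    unfold ss
    rw [PowerSeries.coeff_mk, if_pos rfl]
  rw [h2, zero_mul, zero_add] at h1
  push_cast
  rw [mul_comm, h1]
  congr 1
  refine Finset.sum_congr ?_ fun r hr => ?_
  · ext r
    rw [Finset.mem_Ico, Finset.mem_Icc]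
    omega
  · rw [Finset.mem_Icc] at hr
    rw [Polynomial.coeff_coe]
    unfold ss
    rw [PowerSeries.coeff_mk, if_neg (by omega)]

private theorem int_coeff (A : Multiset ℂ) (s : ℕ → ℤ)
    (hA : ∀ r : ℕ, r ≠ 0 → (s r : ℂ) = (A.map fun α => α ^ r).sum) (n : ℕ) :
    ∃ z : ℤ, (z : ℂ) = (n.factorial : ℂ) * (PP A).coeff n := by
  induction n using Nat.strong_induction_on with
  | _ n ih =>
    rcases Nat.eq_zero_or_pos n with rfl | hn
    · exact ⟨1, by rw [PP_zero]; simp⟩
    · obtain ⟨k, rfl⟩ : ∃ k, n = k + 1 := ⟨n - 1, by omega⟩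
      have h1 := newton' A (n := k + 1) (by omega)
      choose! z hz using ih
      obtain ⟨W, hW⟩ : ∃ W : ℕ → ℕ, ∀ r ∈ Finset.Icc 1 (k + 1), k.factorial = (k + 1 - r).factorial * W r := by
        have h3 : ∀ r ∈ Finset.Icc 1 (k + 1), ∃ w, k.factorial = (k + 1 - r).factorial * w := by
          intro r hr
          rw [Finset.mem_Icc] at hr
          exact Nat.factorial_dvd_factorial (by omega)
        choose! W hW using h3
        exact ⟨W, hW⟩
      refine ⟨-∑ r ∈ Finset.Icc 1 (k + 1), s r * (W r : ℤ) * z (k + 1 - r), ?_⟩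
      rw [Nat.factorial_succ]
      push_cast
      have e1 : ((k : ℂ) + 1) * (k.factorial : ℂ) * (PP A).coeff (k + 1) =
          (k.factorial : ℂ) * (((k + 1 : ℕ) : ℂ) * (PP A).coeff (k + 1)) := by
        push_cast
        ring
      rw [e1, h1, mul_neg, Finset.mul_sum]
      congr 1
      refine Finset.sum_congr rfl fun r hr => ?_
      have hw := hW r hr
      rw [Finset.mem_Icc] at hr
      have h2 := hz (k + 1 - r) (by omega)
      rw [h2, ← hA r (by omega), hw]
      push_cast
      ring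

private theorem int_factor (q : ℕ) (c : ℕ) : ∀ R : ℂ[X],
    (∀ n, ∃ z : ℤ, (z : ℂ) = (((1 : ℂ[X]) - C (q : ℂ) * X) ^ c * R).coeff n) → ∀ n, ∃ z : ℤ, (z : ℂ) = R.coeff n := by
  have step : ∀ R : ℂ[X], (∀ n, ∃ z : ℤ, (z : ℂ) = (((1 : ℂ[X]) - C (q : ℂ) * X) * R).coeff n) →
      ∀ n, ∃ z : ℤ, (z : ℂ) = R.coeff n := by
    intro R hR n
    induction n with
    | zero =>
      obtain ⟨z, hz⟩ := hR 0
      refine ⟨z, ?_⟩
      rw [hz, mul_coeff_zero]
      simp
    | succ n ih =>
      obtain ⟨z, hz⟩ := hR (n + 1)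
      obtain ⟨w, hw⟩ := ih
      refine ⟨z + q * w, ?_⟩
      rw [sub_mul, one_mul, mul_assoc, coeff_sub, coeff_C_mul, coeff_X_mul] at hz
      push_cast
      rw [hz, hw]
      ring
  induction c with
  | zero =>
    intro R hR n
    simpa using hR n
  | succ c ih =>
    intro R hR
    apply ih
    apply step
    intro n
    obtain ⟨z, hz⟩ := hR n
    refine ⟨z, ?_⟩
    rw [hz, pow_succ']
    rw [mul_assoc]

private theorem lift_poly {R : ℂ[X]} (hR : ∀ n, ∃ z : ℤ, (z : ℂ) = R.coeff n) :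
    ∃ r : ℤ[X], r.map (Int.castRingHom ℂ) = R := by
  have h1 : R ∈ Polynomial.lifts (Int.castRingHom ℂ) := by
    rw [Polynomial.lifts_iff_coeff_lifts]
    intro n
    obtain ⟨z, hz⟩ := hR n
    exact ⟨z, by rw [← hz]; simp⟩
  exact (Polynomial.mem_lifts _).1 h1

theorem exists_int_poly (A : Multiset ℂ) (s : ℕ → ℤ) (q : ℕ)
    (hA : ∀ r : ℕ, r ≠ 0 → (s r : ℂ) = (A.map fun α => α ^ r).sum) (L : ℕ) (hL : Multiset.card A ≤ L) :
    ∃ y y' : ℤ[X], y.natDegree ≤ L ∧ y.coeff 0 = (L.factorial : ℤ) ∧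
      (∀ n : ℕ, n ≠ 0 → (n : ℤ) * y.coeff n = -∑ r ∈ Finset.Icc 1 n, s r * y.coeff (n - r)) ∧
      y = (1 - C (q : ℤ) * X) ^ A.count (q : ℂ) * y' := by
  classical
  have hint : ∀ n, ∃ z : ℤ, (z : ℂ) = (C (L.factorial : ℂ) * PP A).coeff n := by
    intro n
    rw [coeff_C_mul]
    rcases le_or_gt n L with hn | hn
    · obtain ⟨z, hz⟩ := int_coeff A s hA n
      obtain ⟨w, hw⟩ := Nat.factorial_dvd_factorial hn
      refine ⟨w * z, ?_⟩
      rw [hw]
      push_cast
      rw [hz]
      ring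
    · refine ⟨0, ?_⟩
      rw [coeff_eq_zero_of_natDegree_lt (lt_of_le_of_lt (PP_deg A) (lt_of_le_of_lt hL hn))]
      simp
  obtain ⟨y, hy⟩ := lift_poly hint
  have hinj : Function.Injective (Int.castRingHom ℂ) := Int.cast_injective
  have hyc : ∀ n, ((y.coeff n : ℤ) : ℂ) = (L.factorial : ℂ) * (PP A).coeff n := by
    intro n
    have h1 := congrArg (fun R : ℂ[X] => R.coeff n) hy
    simp only [coeff_map, coeff_C_mul] at h1
    exact h1
  have hfac : ∃ P' : ℂ[X], PP A = ((1 : ℂ[X]) - C (q : ℂ) * X) ^ A.count (q : ℂ) * P' := by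
    obtain ⟨A', hA'⟩ := Multiset.le_iff_exists_add.1 (Multiset.le_count_iff_replicate_le.1 (le_refl (A.count (q : ℂ))))
    refine ⟨PP A', ?_⟩
    conv_lhs => rw [hA']
    unfold PP
    rw [Multiset.map_add, Multiset.prod_add, Multiset.map_replicate, Multiset.prod_replicate]
  obtain ⟨P', hP'⟩ := hfac
  have hint' : ∀ n, ∃ z : ℤ, (z : ℂ) = (C (L.factorial : ℂ) * P').coeff n := by
    refine int_factor q (A.count (q : ℂ)) _ ?_
    intro n
    obtain ⟨z, hz⟩ := hint n
    refine ⟨z, ?_⟩
    rw [hz, hP']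
    congr 1
    ring
  obtain ⟨y', hy'⟩ := lift_poly hint'
  refine ⟨y, y', ?_, ?_, ?_, ?_⟩
  · rw [← natDegree_map_eq_of_injective hinj, hy]
    exact (natDegree_C_mul_le _ _).trans ((PP_deg A).trans hL)
  · apply hinj
    have h1 := hyc 0
    rw [PP_zero, mul_one] at h1
    simpa using h1
  · intro n hn
    apply hinj
    have h1 := newton' A hn
    have h2 : (n : ℂ) * ((y.coeff n : ℤ) : ℂ) = -∑ r ∈ Finset.Icc 1 n, (s r : ℂ) * ((y.coeff (n - r) : ℤ) : ℂ) := by
      rw [hyc]
      calc (n : ℂ) * ((L.factorial : ℂ) * (PP A).coeff n) = (L.factorial : ℂ) * ((n : ℂ) * (PP A).coeff n) := by ring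
        _ = _ := by
          rw [h1, mul_neg, Finset.mul_sum]
          congr 1
          refine Finset.sum_congr rfl fun r hr => ?_
          rw [Finset.mem_Icc] at hr
          rw [hyc, hA r (by omega)]
          ring
    simpa using h2
  · apply map_injective (Int.castRingHom ℂ) hinj
    rw [hy, Polynomial.map_mul, hy', Polynomial.map_pow, Polynomial.map_sub, Polynomial.map_one, Polynomial.map_mul, map_C, map_X, hP']
    have e1 : (Int.castRingHom ℂ) ((q : ℕ) : ℤ) = (q : ℂ) := by simp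
    rw [e1]
    ring

end H45.AT

end
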