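import Pool.Agent.H45.AT.Df

/-!
# AT-PTz: the fields `k_s` in `k` and the equation `z ^ p - z = y`

`mem_fx`: `X ^ n - X ≠ 0` for `n ≥ 2`. `card_fx`: `X ^ (p ^ s) - X` is separable (derivative `- 1`; `galois_poly_separable`) and splits over `k`, so it has
`p ^ s` different roots (`Polynomial.nodup_roots`, `IsAlgClosed.card_roots...`/`Polynomial.splits_iff_card_roots`, `Multiset.toFinset_card_of_nodup`).
`card_as`: `z ^ (p ^ s) - z = ∑_(j < s) (z ^ p - z) ^ (p ^ j)` (telescoping, `sub_pow_char_pow`), so for `z ^ p - z = y`: `z ∈ fx k (p ^ s)` iff `Tr y = 0`. If `Tr y ≠ 0` the set is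
empty. If `Tr y = 0` the set is the set of all roots of `X ^ p - X - C y`, separable of degree `p`, so it has `p` elements.
-/

set_option autoImplicit false

open Polynomial

noncomputable section

namespace H45.AT

theorem mem_fx {k : Type} [Field k] {n : ℕ} (hn : 1 < n) (y : k) : y ∈ fx k n ↔ y ^ n = y := by
  classical
  unfold fx
  rw [Multiset.mem_toFinset, mem_roots (FiniteField.X_pow_card_sub_X_ne_zero k hn), IsRoot.def,
    eval_sub, eval_pow, eval_X, sub_eq_zero]

private theorem ptz_card {k : Type} [Field k] [DecidableEq k] [IsAlgClosed k] (f : k[X])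
    (hf : f.Separable) : f.roots.toFinset.card = f.natDegree := by
  rw [Multiset.toFinset_card_of_nodup (nodup_roots hf)]
  exact (IsAlgClosed.splits f).natDegree_eq_card_roots.symm

theorem card_fx {p : ℕ} [Fact p.Prime] {k : Type} [Field k] [CharP k p] [IsAlgClosed k] (s : ℕ) (hs : s ≠ 0) :
    (fx k (p ^ s)).card = p ^ s := by
  classical
  have hp : p.Prime := Fact.out
  unfold fx
  have h1 : (X ^ p ^ s - X : k[X]).Separable := galois_poly_separable p (p ^ s) (dvd_pow_self p hs)
  have h2 := ptz_card _ h1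
  rw [FiniteField.X_pow_card_sub_X_natDegree_eq k (Nat.one_lt_pow hs hp.one_lt)] at h2
  convert h2

private theorem ptz_tel {p : ℕ} [Fact p.Prime] {k : Type} [Field k] [CharP k p] (z : k) (s : ℕ) :
    z ^ p ^ s - z = ∑ j ∈ Finset.range s, (z ^ p - z) ^ p ^ j := by
  have h1 : ∀ j, (z ^ p - z) ^ p ^ j = z ^ p ^ (j + 1) - z ^ p ^ j := by
    intro j
    rw [sub_pow_char_pow, ← pow_mul, pow_succ' p j]
  rw [Finset.sum_congr rfl fun j _ => h1 j, Finset.sum_range_sub (fun j => z ^ p ^ j), pow_zero,
    pow_one]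

theorem card_as {p : ℕ} [Fact p.Prime] {k : Type} [Field k] [DecidableEq k] [CharP k p] [IsAlgClosed k] (s : ℕ)
    (hs : s ≠ 0) (y : k) (hy : y ^ p ^ s = y) :
    ((fx k (p ^ s)).filter fun z => z ^ p - z = y).card = if ∑ j ∈ Finset.range s, y ^ p ^ j = 0 then p else 0 := by
  have hp : p.Prime := Fact.out
  split_ifs with h
  · obtain ⟨f, hf⟩ : ∃ f : k[X], f = X ^ p - X - C y := ⟨_, rfl⟩
    have hsep : f.Separable := by
      have h1 : derivative f = -1 := by
        rw [hf]
        simp [derivative_X_pow, CharP.cast_eq_zero k p]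
      unfold Polynomial.Separable
      rw [h1]
      exact ⟨0, -1, by ring⟩
    have hdeg : f.natDegree = p := by
      rw [hf, natDegree_sub_C]
      exact FiniteField.X_pow_card_sub_X_natDegree_eq k hp.one_lt
    have h2 : (fx k (p ^ s)).filter (fun z => z ^ p - z = y) = f.roots.toFinset := by
      ext z
      have hf0 : f ≠ 0 := by
        intro h0
        rw [h0, natDegree_zero] at hdeg
        exact hp.ne_zero hdeg.symm
      rw [Finset.mem_filter, mem_fx (Nat.one_lt_pow hs hp.one_lt), Multiset.mem_toFinset,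
        mem_roots hf0, IsRoot.def, hf, eval_sub, eval_sub, eval_pow, eval_X, eval_C, sub_eq_zero]
      refine ⟨fun h3 => h3.2, fun h3 => ⟨?_, h3⟩⟩
      have h4 := ptz_tel (p := p) z s
      rw [h3, h, sub_eq_zero] at h4
      exact h4
    rw [h2, ptz_card f hsep, hdeg]
  · rw [Finset.card_eq_zero, Finset.filter_eq_empty_iff]
    intro z hz h3
    rw [mem_fx (Nat.one_lt_pow hs hp.one_lt)] at hz
    apply h
    have h4 := ptz_tel (p := p) z s
    rw [h3, hz, sub_self] at h4
    exact h4.symm

end H45.AT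

end
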