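import Pool.Agent.H45.AT.TFz
import Pool.Agent.H45.AT.PTz

/-!
# AT-TFa: sums over Teichmüller points

Let `Q = p ^ s`. One variable: for `i : ℕ`, `σ_i = ∑_(t ∈ fx k Q) (tau t) ^ i = Q [Q - 1 ∣ i] - [Q - 1 ∣ i, i > 0]`: `i = 0`: `card_fx`. `i > 0`, `Q - 1 ∣ i`: the term `t = 0` is `0` and the others are `1`
(`t ^ (Q - 1) = 1` for `t ≠ 0`). `Q - 1 ∤ i`: there is `u ∈ fx k Q`, `u ≠ 0`, with `u ^ i ≠ 1` (let `i = (Q-1) m + i'`, `0 < i' < Q - 1`; if not, the polynomial `X ^ i' - 1` would have `Q - 1` roots),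
`t ↦ u t` permutes `fx k Q`, so `(tau(u) ^ i - 1) σ_i = 0` and `tau(u) ^ i ≠ 1` (apply `res`), so `σ_i = 0` (domain).
Two variables: `G = ∑_m coeff_m G X ^ m` (`MvPolynomial.eval_eq'`), so the sum is `∑_u co G u σ_(u₁) σ_(u₂)` over the support. Expand
`(Q [..] - [..])(Q [..] - [..])`; the four terms are the sums of `co G ((Q - 1) • u)` over `u ∈ bx B ε` (`u ↦ (Q - 1) • u` is injective, `Q - 1 ≥ 1`, and by `hB` all
`u` with `co G ((Q - 1) • u) ≠ 0` have `wt u ≤ B`), and `mt Q G u u = co G ((Q - 1) • u)`, as `u ≤ Q • u` and `Q • u - u = (Q - 1) • u`.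
-/

set_option autoImplicit false

open Polynomial

noncomputable section

namespace H45.AT

/-- power sums of the Teichmueller points -/
private theorem sig {p e : ℕ} [Fact p.Prime] {k O : Type} [Field k] [CharP k p] [IsAlgClosed k]
    [CommRing O] [IsDomain O] (D : DR p e k O) (s : ℕ) (hs : s ≠ 0) (i : ℕ) :
    ∑ t ∈ fx k (p ^ s), D.tau t ^ i =
      (p : O) ^ s * (if (p ^ s - 1) ∣ i ∧ 0 ≤ i then 1 else 0) -
        (if (p ^ s - 1) ∣ i ∧ 1 ≤ i then 1 else 0) := by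
  classical
  have hp : p.Prime := Fact.out
  have hQ : 1 < p ^ s := Nat.one_lt_pow hs hp.one_lt
  have hcard := card_fx (p := p) (k := k) s hs
  have h0mem : (0 : k) ∈ fx k (p ^ s) := by
    rw [mem_fx hQ, zero_pow (by omega)]
  have hpow : ∀ t ∈ fx k (p ^ s), t ≠ 0 → t ^ (p ^ s - 1) = 1 := by
    intro t ht ht0
    rw [mem_fx hQ] at ht
    refine mul_right_cancel₀ ht0 ?_
    rw [one_mul, ← pow_succ, Nat.sub_add_cancel (by omega)]
    exact ht
  by_cases hi0 : i = 0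
  · subst hi0
    simp only [pow_zero, Finset.sum_const, hcard, nsmul_eq_mul, mul_one]
    rw [if_pos ⟨dvd_zero _, le_rfl⟩, if_neg (by omega)]
    push_cast
    ring
  by_cases hdiv : (p ^ s - 1) ∣ i
  · rw [if_pos ⟨hdiv, Nat.zero_le _⟩, if_pos ⟨hdiv, by omega⟩,
      ← Finset.add_sum_erase _ _ h0mem, D.tau_zero, zero_pow hi0, zero_add]
    have h1 : ∀ t ∈ (fx k (p ^ s)).erase 0, D.tau t ^ i = 1 := by
      intro t ht
      rw [Finset.mem_erase] at ht
      obtain ⟨c, rfl⟩ := hdiv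
      rw [← map_pow, pow_mul, hpow t ht.2 ht.1, one_pow, map_one]
    rw [Finset.sum_congr rfl h1, Finset.sum_const, Finset.card_erase_of_mem h0mem, hcard,
      nsmul_eq_mul, mul_one, Nat.cast_sub (by omega)]
    push_cast
    ring
  · rw [if_neg (fun h => hdiv h.1), if_neg (fun h => hdiv h.1), mul_zero, sub_zero]
    -- an element with `u ^ i ≠ 1`
    have hex : ∃ u ∈ fx k (p ^ s), u ≠ 0 ∧ u ^ i ≠ 1 := by
      by_contra hcon
      push Not at hcon
      have hi' : 0 < i % (p ^ s - 1) := Nat.pos_of_ne_zero fun h => hdiv (Nat.dvd_of_mod_eq_zero h)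
      have hlt : i % (p ^ s - 1) < p ^ s - 1 := Nat.mod_lt _ (by omega)
      have hsub : (fx k (p ^ s)).erase 0 ⊆ (nthRoots (i % (p ^ s - 1)) (1 : k)).toFinset := by
        intro t ht
        rw [Finset.mem_erase] at ht
        rw [Multiset.mem_toFinset, mem_nthRoots hi']
        have h1 := hcon t ht.2 ht.1
        rw [← Nat.div_add_mod i (p ^ s - 1), pow_add, pow_mul, hpow t ht.2 ht.1, one_pow,
          one_mul] at h1
        exact h1
      have h2 := Finset.card_le_card hsub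
      rw [Finset.card_erase_of_mem h0mem, hcard] at h2
      have h3 := (Multiset.toFinset_card_le (nthRoots (i % (p ^ s - 1)) (1 : k))).trans
        (card_nthRoots (i % (p ^ s - 1)) (1 : k))
      omega
    obtain ⟨u, hu, hu0, hui⟩ := hex
    have hmul : ∀ a ∈ fx k (p ^ s), ∀ b ∈ fx k (p ^ s), a * b ∈ fx k (p ^ s) := by
      intro a ha b hb
      rw [mem_fx hQ] at ha hb ⊢
      rw [mul_pow, ha, hb]
    have hinv : u⁻¹ ∈ fx k (p ^ s) := by
      rw [mem_fx hQ] at hu ⊢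
      rw [inv_pow, hu]
    have h1 : ∑ t ∈ fx k (p ^ s), D.tau t ^ i = ∑ t ∈ fx k (p ^ s), D.tau (u * t) ^ i := by
      symm
      refine Finset.sum_nbij' (fun t => u * t) (fun t => u⁻¹ * t) (fun t ht => hmul u hu t ht)
        (fun t ht => hmul _ hinv t ht) (fun t _ => ?_) (fun t _ => ?_) (fun t _ => rfl)
      · rw [← mul_assoc, inv_mul_cancel₀ hu0, one_mul]
      · rw [← mul_assoc, mul_inv_cancel₀ hu0, one_mul]
    have h2 : ∑ t ∈ fx k (p ^ s), D.tau (u * t) ^ i = D.tau u ^ i * ∑ t ∈ fx k (p ^ s), D.tau t ^ i := by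
      rw [Finset.mul_sum]
      exact Finset.sum_congr rfl fun t _ => by rw [map_mul, mul_pow]
    have h3 : (D.tau u ^ i - 1) * ∑ t ∈ fx k (p ^ s), D.tau t ^ i = 0 := by
      rw [sub_mul, one_mul, ← h2, ← h1, sub_self]
    refine (mul_eq_zero.1 h3).resolve_left fun h4 => hui ?_
    have h5 := congrArg D.res (sub_eq_zero.1 h4)
    rw [map_pow, D.res_tau, map_one] at h5
    exact h5

/-- the sum over the support and the sum over the box -/
private theorem box_sum {R : Type} [CommRing R] (n : ℕ) (hn : 1 ≤ n) (G : MvPolynomial (Fin 2) R)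
    (B : ℕ) (hB : ∀ u, co G u ≠ 0 → wt u ≤ n * B) (ε₀ ε₁ : ℕ) (h0 : ε₀ ≤ 1) (h1 : ε₁ ≤ 1) :
    ∑ m ∈ G.support, MvPolynomial.coeff m G * (if n ∣ m 0 ∧ ε₀ ≤ m 0 then 1 else 0) *
      (if n ∣ m 1 ∧ ε₁ ≤ m 1 then 1 else 0) = ∑ u ∈ bx B (ε₀, ε₁), mt (n + 1) G u u := by
  classical
  have hmt : ∀ u, mt (n + 1) G u u = co G (n • u) := by
    intro u
    unfold mt
    have h2 : u ≤ (n + 1) • u := by
      rw [Prod.le_def]
      constructor
      · show u.1 ≤ (n + 1) * u.1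
        nlinarith
      · show u.2 ≤ (n + 1) * u.2
        nlinarith
    rw [if_pos h2]
    congr 1
    rw [add_smul, one_smul, add_tsub_cancel_right]
  have hle : ∀ ε c : ℕ, ε ≤ 1 → (ε ≤ n * c ↔ ε ≤ c) := by
    intro ε c hε
    constructor
    · intro h
      rcases Nat.eq_zero_or_pos c with hc | hc
      · rw [hc, mul_zero] at h
        omega
      · omega
    · intro h
      exact h.trans (Nat.le_mul_of_pos_left c hn)
  rw [Finset.sum_congr rfl fun u _ => hmt u, ← Finset.sum_filter_ne_zero (bx B (ε₀, ε₁))]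
  symm
  refine Finset.sum_of_injOn (fun u => mo (n • u)) ?_ ?_ ?_ ?_
  · intro u _ v _ huv
    have h2 := mo_inj huv
    have h3 := congrArg Prod.fst h2
    have h4 := congrArg Prod.snd h2
    exact Prod.ext (Nat.eq_of_mul_eq_mul_left (by omega) h3)
      (Nat.eq_of_mul_eq_mul_left (by omega) h4)
  · intro u hu
    have hu' := (Finset.mem_filter.1 (Finset.mem_coe.1 hu)).2
    exact Finset.mem_coe.2 (MvPolynomial.mem_support_iff.2 hu')
  · intro m hm hnot
    by_cases h2 : n ∣ m 0 ∧ ε₀ ≤ m 0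
    · by_cases h3 : n ∣ m 1 ∧ ε₁ ≤ m 1
      · exfalso
        refine hnot ?_
        obtain ⟨⟨a, ha⟩, ha'⟩ := h2
        obtain ⟨⟨b, hb⟩, hb'⟩ := h3
        have hmo : mo (n • (a, b)) = m := by
          rw [← mo_surj m, ha, hb]
          rfl
        have hco : co G (n • (a, b)) ≠ 0 := by
          unfold co
          rw [hmo]
          exact MvPolynomial.mem_support_iff.1 hm
        refine ⟨(a, b), ?_, hmo⟩
        rw [Finset.mem_coe, Finset.mem_filter, mem_bx]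
        refine ⟨⟨?_, ?_⟩, hco⟩
        · rw [Prod.le_def]
          rw [ha, hle ε₀ a h0] at ha'
          rw [hb, hle ε₁ b h1] at hb'
          exact ⟨ha', hb'⟩
        · have h4 := hB _ hco
          have h5 : wt (n • (a, b)) = n * wt (a, b) := by
            show n * a + n * b = n * (a + b)
            ring
          rw [h5] at h4
          exact Nat.le_of_mul_le_mul_left h4 hn
      · rw [if_neg h3, mul_zero]
    · rw [if_neg h2, mul_zero, zero_mul]
  · intro u hu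
    have hu' := Finset.mem_filter.1 hu
    rw [mem_bx, Prod.le_def] at hu'
    have e0 : (mo (n • u)) 0 = n * u.1 := by
      show (Finsupp.single 0 (n • u).1 + Finsupp.single 1 (n • u).2 : Fin 2 →₀ ℕ) 0 = _
      simp
    have e1 : (mo (n • u)) 1 = n * u.2 := by
      show (Finsupp.single 0 (n • u).1 + Finsupp.single 1 (n • u).2 : Fin 2 →₀ ℕ) 1 = _
      simp
    rw [e0, e1, if_pos ⟨dvd_mul_right _ _, (hle ε₀ u.1 h0).2 hu'.1.1.1⟩,
      if_pos ⟨dvd_mul_right _ _, (hle ε₁ u.2 h1).2 hu'.1.1.2⟩, mul_one, mul_one]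
    rfl

theorem sum_points {p e : ℕ} [Fact p.Prime] {k O : Type} [Field k] [CharP k p] [IsAlgClosed k] [CommRing O] [IsDomain O]
    (D : DR p e k O) (s : ℕ) (hs : s ≠ 0) (G : MvPolynomial (Fin 2) O) (B : ℕ)
    (hB : ∀ u, co G u ≠ 0 → wt u ≤ (p ^ s - 1) * B) :
    ∑ t ∈ fx k (p ^ s), ∑ x ∈ fx k (p ^ s), MvPolynomial.eval ![D.tau t, D.tau x] G =
      (p : O) ^ s * (p : O) ^ s * ∑ u ∈ bx B (0, 0), mt (p ^ s) G u u
        - (p : O) ^ s * ∑ u ∈ bx B (1, 0), mt (p ^ s) G u u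
        - (p : O) ^ s * ∑ u ∈ bx B (0, 1), mt (p ^ s) G u u
        + ∑ u ∈ bx B (1, 1), mt (p ^ s) G u u := by
  classical
  have hp : p.Prime := Fact.out
  have hQ : 1 < p ^ s := Nat.one_lt_pow hs hp.one_lt
  have hev : ∀ t x : k, MvPolynomial.eval ![D.tau t, D.tau x] G =
      ∑ m ∈ G.support, MvPolynomial.coeff m G * (D.tau t ^ m 0 * D.tau x ^ m 1) := by
    intro t x
    rw [MvPolynomial.eval_eq']
    refine Finset.sum_congr rfl fun m _ => ?_
    rw [Fin.prod_univ_two]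
    rfl
  have h1 : ∑ t ∈ fx k (p ^ s), ∑ x ∈ fx k (p ^ s), MvPolynomial.eval ![D.tau t, D.tau x] G =
      ∑ m ∈ G.support, MvPolynomial.coeff m G *
        ((∑ t ∈ fx k (p ^ s), D.tau t ^ m 0) * ∑ x ∈ fx k (p ^ s), D.tau x ^ m 1) := by
    have h2 : ∀ t : k, ∑ x ∈ fx k (p ^ s), MvPolynomial.eval ![D.tau t, D.tau x] G =
        ∑ m ∈ G.support, MvPolynomial.coeff m G * (D.tau t ^ m 0 *
          ∑ x ∈ fx k (p ^ s), D.tau x ^ m 1) := by
      intro t
      rw [Finset.sum_congr rfl fun x _ => hev t x, Finset.sum_comm]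
      refine Finset.sum_congr rfl fun m _ => ?_
      rw [Finset.mul_sum, Finset.mul_sum]
    rw [Finset.sum_congr rfl fun t _ => h2 t, Finset.sum_comm]
    refine Finset.sum_congr rfl fun m _ => ?_
    rw [Finset.sum_mul, Finset.mul_sum]
  have hQ1 : p ^ s - 1 + 1 = p ^ s := Nat.sub_add_cancel (by omega)
  have hbs : ∀ ε₀ ε₁ : ℕ, ε₀ ≤ 1 → ε₁ ≤ 1 →
      ∑ m ∈ G.support, MvPolynomial.coeff m G * (if (p ^ s - 1) ∣ m 0 ∧ ε₀ ≤ m 0 then 1 else 0) *
        (if (p ^ s - 1) ∣ m 1 ∧ ε₁ ≤ m 1 then 1 else 0) =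
      ∑ u ∈ bx B (ε₀, ε₁), mt (p ^ s) G u u := by
    intro ε₀ ε₁ h0 h1
    have h2 := box_sum (p ^ s - 1) (by omega) G B hB ε₀ ε₁ h0 h1
    rw [hQ1] at h2
    exact h2
  rw [h1, ← hbs 0 0 zero_le_one zero_le_one, ← hbs 1 0 le_rfl zero_le_one,
    ← hbs 0 1 zero_le_one le_rfl, ← hbs 1 1 le_rfl le_rfl, Finset.mul_sum, Finset.mul_sum,
    Finset.mul_sum, ← Finset.sum_sub_distrib, ← Finset.sum_sub_distrib, ← Finset.sum_add_distrib]
  refine Finset.sum_congr rfl fun m _ => ?_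
  rw [sig D s hs, sig D s hs]
  ring

end H45.AT

end
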