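import Pool.Agent.H45.AT.Df

/-!
# AT-TFz: coefficients of polynomials in two variables

Basic facts on `mo`, `co`, `mt`. Every exponent is `mo (m 0, m 1)`. `mo` is additive and injective. `co_mul`: from `MvPolynomial.coeff_mul` and the antidiagonal
(state it with `Finset.antidiagonal` of `ℕ × ℕ`, or as here). `co_expand`: `MvPolynomial.coeff_expand_smul`, `MvPolynomial.coeff_expand_of_not_dvd`.
`co_mul_expand` is the composition rule: the coefficient of `X ^ (Q₁ Q₂ u - v)` in `G₁(X ^ Q₂) G₂` is `∑_m mt Q₁ G₁ u m * mt Q₂ G₂ m v`, the sum over a finite set `S` containing all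
`m` with `mt Q₂ G₂ m v ≠ 0`.
-/

set_option autoImplicit false

open Polynomial

noncomputable section

namespace H45.AT

private theorem mo_0 (u : ℕ × ℕ) : mo u 0 = u.1 := by
  unfold mo
  simp

private theorem mo_1 (u : ℕ × ℕ) : mo u 1 = u.2 := by
  unfold mo
  simp

private theorem mo_eq {m n : Fin 2 →₀ ℕ} (h0 : m 0 = n 0) (h1 : m 1 = n 1) : m = n := by
  ext i
  fin_cases i
  · exact h0
  · exact h1

private theorem mo_le {u v : ℕ × ℕ} : mo u ≤ mo v ↔ u ≤ v := by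
  rw [Finsupp.le_def, Fin.forall_fin_two, mo_0, mo_0, mo_1, mo_1]
  rfl

private theorem mo_sub (u v : ℕ × ℕ) : mo u - mo v = mo (u - v) := by
  refine mo_eq ?_ ?_
  · rw [Finsupp.tsub_apply, mo_0, mo_0, mo_0]
    rfl
  · rw [Finsupp.tsub_apply, mo_1, mo_1, mo_1]
    rfl

private theorem tfz_arith {Q₁ Q₂ : ℕ} {u v m : ℕ × ℕ} (hm1 : m ≤ Q₁ • u) (hm2 : v ≤ Q₂ • m) :
    Q₂ • (Q₁ • u - m) + (Q₂ • m - v) = (Q₁ * Q₂) • u - v := by
  refine Prod.ext ?_ ?_
  · show Q₂ * (Q₁ * u.1 - m.1) + (Q₂ * m.1 - v.1) = Q₁ * Q₂ * u.1 - v.1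
    have e1 : v.1 ≤ Q₂ * m.1 := hm2.1
    have e2 : m.1 ≤ Q₁ * u.1 := hm1.1
    have e3 : Q₂ * m.1 ≤ Q₂ * (Q₁ * u.1) := Nat.mul_le_mul_left _ e2
    have e4 : Q₁ * Q₂ * u.1 = Q₂ * (Q₁ * u.1) := by ring
    rw [Nat.mul_sub, e4]
    omega
  · show Q₂ * (Q₁ * u.2 - m.2) + (Q₂ * m.2 - v.2) = Q₁ * Q₂ * u.2 - v.2
    have e1 : v.2 ≤ Q₂ * m.2 := hm2.2
    have e2 : m.2 ≤ Q₁ * u.2 := hm1.2
    have e3 : Q₂ * m.2 ≤ Q₂ * (Q₁ * u.2) := Nat.mul_le_mul_left _ e2
    have e4 : Q₁ * Q₂ * u.2 = Q₂ * (Q₁ * u.2) := by ring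
    rw [Nat.mul_sub, e4]
    omega

theorem mo_add (u v : ℕ × ℕ) : mo (u + v) = mo u + mo v := by
  refine mo_eq ?_ ?_
  · rw [Finsupp.add_apply, mo_0, mo_0, mo_0]
    rfl
  · rw [Finsupp.add_apply, mo_1, mo_1, mo_1]
    rfl

theorem mo_smul (Q : ℕ) (u : ℕ × ℕ) : mo (Q • u) = Q • mo u := by
  refine mo_eq ?_ ?_
  · rw [Finsupp.smul_apply, mo_0, mo_0]
    rfl
  · rw [Finsupp.smul_apply, mo_1, mo_1]
    rfl

theorem mo_inj {u v : ℕ × ℕ} (h : mo u = mo v) : u = v := by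
  refine Prod.ext ?_ ?_
  · rw [← mo_0 u, ← mo_0 v, h]
  · rw [← mo_1 u, ← mo_1 v, h]

theorem mo_surj (m : Fin 2 →₀ ℕ) : mo (m 0, m 1) = m := by
  exact mo_eq (mo_0 _) (mo_1 _)

theorem mem_bx {B : ℕ} {ε u : ℕ × ℕ} : u ∈ bx B ε ↔ ε ≤ u ∧ wt u ≤ B := by
  unfold bx
  rw [Finset.mem_filter, Finset.mem_product, Finset.mem_range, Finset.mem_range]
  refine ⟨fun h => h.2, fun h => ⟨⟨?_, ?_⟩, h⟩⟩
  · have h1 := h.2
    unfold wt at h1
    omega
  · have h1 := h.2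
    unfold wt at h1
    omega

theorem mem_tri {d : ℕ} {u : ℕ × ℕ} : u ∈ tri d ↔ wt u ≤ d := by
  unfold tri
  rw [Finset.mem_filter, Finset.mem_product, Finset.mem_range, Finset.mem_range]
  refine ⟨fun h => h.2, fun h => ⟨⟨?_, ?_⟩, h⟩⟩
  · unfold wt at h
    omega
  · unfold wt at h
    omega

theorem ext_co {R : Type} [CommRing R] {G H : MvPolynomial (Fin 2) R} (h : ∀ u, co G u = co H u) : G = H := by
  refine MvPolynomial.ext _ _ fun m => ?_
  have h1 := h (m 0, m 1)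
  unfold co at h1
  rw [mo_surj] at h1
  exact h1

theorem co_monomial {R : Type} [CommRing R] (u v : ℕ × ℕ) (c : R) :
    co (MvPolynomial.monomial (mo u) c) v = if u = v then c else 0 := by
  classical
  unfold co
  rw [MvPolynomial.coeff_monomial]
  by_cases h : u = v
  · rw [if_pos h, if_pos (by rw [h])]
  · rw [if_neg h, if_neg (fun h2 => h (mo_inj h2))]

theorem co_mul_monomial {R : Type} [CommRing R] (G : MvPolynomial (Fin 2) R) (u v : ℕ × ℕ) (c : R) :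
    co (G * MvPolynomial.monomial (mo u) c) v = if u ≤ v then co G (v - u) * c else 0 := by
  unfold co
  rw [MvPolynomial.coeff_mul_monomial']
  by_cases h : u ≤ v
  · rw [if_pos h, if_pos (mo_le.2 h), mo_sub]
  · rw [if_neg h, if_neg (fun h2 => h (mo_le.1 h2))]

/-- products -/
theorem co_mul {R : Type} [CommRing R] (G H : MvPolynomial (Fin 2) R) (s : ℕ × ℕ) :
    co (G * H) s = ∑ x ∈ Finset.HasAntidiagonal.antidiagonal s.1, ∑ y ∈ Finset.HasAntidiagonal.antidiagonal s.2, co G (x.1, y.1) * co H (x.2, y.2) := by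
  classical
  unfold co
  rw [MvPolynomial.coeff_mul, ← Finset.sum_product']
  refine Finset.sum_bij' (fun m _ => ((m.1 0, m.2 0), (m.1 1, m.2 1)))
    (fun x _ => (mo (x.1.1, x.2.1), mo (x.1.2, x.2.2))) ?_ ?_ ?_ ?_ ?_
  · intro m hm
    rw [Finset.HasAntidiagonal.mem_antidiagonal] at hm
    rw [Finset.mem_product, Finset.HasAntidiagonal.mem_antidiagonal, Finset.HasAntidiagonal.mem_antidiagonal]
    refine ⟨?_, ?_⟩
    · show m.1 0 + m.2 0 = s.1
      rw [← mo_0 s, ← hm]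
      rfl
    · show m.1 1 + m.2 1 = s.2
      rw [← mo_1 s, ← hm]
      rfl
  · intro x hx
    rw [Finset.mem_product, Finset.HasAntidiagonal.mem_antidiagonal, Finset.HasAntidiagonal.mem_antidiagonal] at hx
    rw [Finset.HasAntidiagonal.mem_antidiagonal]
    show mo (x.1.1, x.2.1) + mo (x.1.2, x.2.2) = mo s
    rw [← mo_add]
    congr 1
    exact Prod.ext hx.1 hx.2
  · intro m _
    exact Prod.ext (mo_surj m.1) (mo_surj m.2)
  · intro x _
    refine Prod.ext (Prod.ext ?_ ?_) (Prod.ext ?_ ?_)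
    · exact mo_0 _
    · exact mo_0 _
    · exact mo_1 _
    · exact mo_1 _
  · intro m _
    show _ = MvPolynomial.coeff (mo (m.1 0, m.1 1)) G * MvPolynomial.coeff (mo (m.2 0, m.2 1)) H
    rw [mo_surj, mo_surj]

theorem co_expand {R : Type} [CommRing R] (Q : ℕ) (hQ : Q ≠ 0) (G : MvPolynomial (Fin 2) R) (u : ℕ × ℕ) :
    co (MvPolynomial.expand Q G) (Q • u) = co G u := by
  unfold co
  rw [mo_smul, MvPolynomial.coeff_expand_smul _ hQ]

theorem co_expand_ne {R : Type} [CommRing R] (Q : ℕ) (G : MvPolynomial (Fin 2) R) (s : ℕ × ℕ)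
    (h : co (MvPolynomial.expand Q G) s ≠ 0) : ∃ u, s = Q • u := by
  unfold co at h
  have h0 : Q ∣ s.1 := by
    by_contra h1
    refine h (MvPolynomial.coeff_expand_of_not_dvd _ (i := 0) ?_)
    rw [mo_0]
    exact h1
  have h2 : Q ∣ s.2 := by
    by_contra h1
    refine h (MvPolynomial.coeff_expand_of_not_dvd _ (i := 1) ?_)
    rw [mo_1]
    exact h1
  obtain ⟨a, ha⟩ := h0
  obtain ⟨b, hb⟩ := h2
  exact ⟨(a, b), Prod.ext ha hb⟩

/-- the coefficient of `X ^ (Q₁ Q₂ u - v)` in `G₁(X ^ Q₂) G₂` -/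
theorem co_mul_expand {R : Type} [CommRing R] (Q₁ Q₂ : ℕ) (hQ₂ : Q₂ ≠ 0) (G₁ G₂ : MvPolynomial (Fin 2) R)
    (u v : ℕ × ℕ) (S : Finset (ℕ × ℕ)) (hS : ∀ m, mt Q₂ G₂ m v ≠ 0 → m ∈ S) :
    mt (Q₁ * Q₂) (MvPolynomial.expand Q₂ G₁ * G₂) u v = ∑ m ∈ S, mt Q₁ G₁ u m * mt Q₂ G₂ m v := by
  classical
  have hsum : ∑ m ∈ S, mt Q₁ G₁ u m * mt Q₂ G₂ m v = ∑ m ∈ Finset.Iic (Q₁ • u), mt Q₁ G₁ u m * mt Q₂ G₂ m v := by
    have h1 : ∀ m, mt Q₁ G₁ u m * mt Q₂ G₂ m v ≠ 0 → m ∈ S ∧ m ∈ Finset.Iic (Q₁ • u) := by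
      intro m hm
      refine ⟨hS m (right_ne_zero_of_mul hm), ?_⟩
      have h2 := left_ne_zero_of_mul hm
      unfold mt at h2
      rw [Finset.mem_Iic]
      by_contra h3
      exact h2 (if_neg h3)
    rw [← Finset.sum_subset (Finset.subset_union_left (s₁ := S) (s₂ := Finset.Iic (Q₁ • u))) (by
      intro m _ hm
      by_contra h3
      exact hm (h1 m h3).1) |>.symm]
    exact (Finset.sum_subset (Finset.subset_union_right (s₁ := S) (s₂ := Finset.Iic (Q₁ • u))) (by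
      intro m _ hm
      by_contra h3
      exact hm (h1 m h3).2)).symm
  rw [hsum]
  by_cases hv : v ≤ (Q₁ * Q₂) • u
  · have hL : mt (Q₁ * Q₂) (MvPolynomial.expand Q₂ G₁ * G₂) u v =
        ∑ x ∈ Finset.HasAntidiagonal.antidiagonal (mo ((Q₁ * Q₂) • u - v)),
          MvPolynomial.coeff x.1 (MvPolynomial.expand Q₂ G₁) * MvPolynomial.coeff x.2 G₂ := by
      unfold mt
      rw [if_pos hv]
      unfold co
      rw [MvPolynomial.coeff_mul]
    rw [hL]
    symm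
    refine Finset.sum_bij_ne_zero (fun m _ _ => (mo (Q₂ • (Q₁ • u - m)), mo (Q₂ • m - v))) ?_ ?_ ?_ ?_
    · intro m hm hne
      have hm1 : m ≤ Q₁ • u := Finset.mem_Iic.1 hm
      have hm2 : v ≤ Q₂ • m := by
        have h2 := right_ne_zero_of_mul hne
        unfold mt at h2
        by_contra h3
        exact h2 (if_neg h3)
      rw [Finset.HasAntidiagonal.mem_antidiagonal]
      show mo _ + mo _ = _
      rw [← mo_add]
      congr 1
      exact tfz_arith hm1 hm2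
    · intro m hm hne m' hm' hne' heq
      have h1 : Q₂ • (Q₁ • u - m) = Q₂ • (Q₁ • u - m') := mo_inj (congrArg Prod.fst heq)
      have hm1 : m ≤ Q₁ • u := Finset.mem_Iic.1 hm
      have hm1' : m' ≤ Q₁ • u := Finset.mem_Iic.1 hm'
      have h2 : Q₁ • u - m = Q₁ • u - m' := by
        refine Prod.ext ?_ ?_
        · exact Nat.eq_of_mul_eq_mul_left (Nat.pos_of_ne_zero hQ₂) (congrArg Prod.fst h1)
        · exact Nat.eq_of_mul_eq_mul_left (Nat.pos_of_ne_zero hQ₂) (congrArg Prod.snd h1)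
      refine Prod.ext ?_ ?_
      · have e1 : (Q₁ • u).1 - m.1 = (Q₁ • u).1 - m'.1 := congrArg Prod.fst h2
        have e2 := hm1.1
        have e3 := hm1'.1
        omega
      · have e1 : (Q₁ • u).2 - m.2 = (Q₁ • u).2 - m'.2 := congrArg Prod.snd h2
        have e2 := hm1.2
        have e3 := hm1'.2
        omega
    · intro x hx hne
      have hx1 := left_ne_zero_of_mul hne
      obtain ⟨w, hw⟩ := co_expand_ne Q₂ G₁ (x.1 0, x.1 1) (by
        unfold co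
        rw [mo_surj]
        exact hx1)
      have hx2 : mo (x.1 0, x.1 1) + mo (x.2 0, x.2 1) = mo ((Q₁ * Q₂) • u - v) := by
        rw [mo_surj, mo_surj]
        exact Finset.HasAntidiagonal.mem_antidiagonal.1 hx
      rw [hw, ← mo_add] at hx2
      have hx3 := mo_inj hx2
      have e1 : Q₂ * w.1 + x.2 0 = Q₁ * Q₂ * u.1 - v.1 := congrArg Prod.fst hx3
      have e2 : Q₂ * w.2 + x.2 1 = Q₁ * Q₂ * u.2 - v.2 := congrArg Prod.snd hx3
      have f1 : v.1 ≤ Q₁ * Q₂ * u.1 := hv.1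
      have f2 : v.2 ≤ Q₁ * Q₂ * u.2 := hv.2
      have g1 : w.1 ≤ Q₁ * u.1 := by
        refine Nat.le_of_mul_le_mul_left ?_ (Nat.pos_of_ne_zero hQ₂)
        calc Q₂ * w.1 ≤ Q₁ * Q₂ * u.1 := by omega
          _ = Q₂ * (Q₁ * u.1) := by ring
      have g2 : w.2 ≤ Q₁ * u.2 := by
        refine Nat.le_of_mul_le_mul_left ?_ (Nat.pos_of_ne_zero hQ₂)
        calc Q₂ * w.2 ≤ Q₁ * Q₂ * u.2 := by omega
          _ = Q₂ * (Q₁ * u.2) := by ring
      have k1 : Q₂ * (Q₁ * u.1 - w.1) = Q₁ * Q₂ * u.1 - Q₂ * w.1 := by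
        rw [Nat.mul_sub]
        congr 1
        ring
      have k2 : Q₂ * (Q₁ * u.2 - w.2) = Q₁ * Q₂ * u.2 - Q₂ * w.2 := by
        rw [Nat.mul_sub]
        congr 1
        ring
      have hm1 : Q₁ • u - w ≤ Q₁ • u := ⟨Nat.sub_le _ _, Nat.sub_le _ _⟩
      have hm2 : v ≤ Q₂ • (Q₁ • u - w) := by
        refine ⟨?_, ?_⟩
        · show v.1 ≤ Q₂ * (Q₁ * u.1 - w.1)
          rw [k1]
          omega
        · show v.2 ≤ Q₂ * (Q₁ * u.2 - w.2)
          rw [k2]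
          omega
      have hw2 : Q₁ • u - (Q₁ • u - w) = w := by
        refine Prod.ext ?_ ?_
        · show Q₁ * u.1 - (Q₁ * u.1 - w.1) = w.1
          omega
        · show Q₁ * u.2 - (Q₁ * u.2 - w.2) = w.2
          omega
      have hx4 : Q₂ • (Q₁ • u - w) - v = (x.2 0, x.2 1) := by
        refine Prod.ext ?_ ?_
        · show Q₂ * (Q₁ * u.1 - w.1) - v.1 = x.2 0
          rw [k1]
          omega
        · show Q₂ * (Q₁ * u.2 - w.2) - v.2 = x.2 1
          rw [k2]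
          omega
      have hx5 : (mo (Q₂ • (Q₁ • u - (Q₁ • u - w))), mo (Q₂ • (Q₁ • u - w) - v)) = x := by
        rw [hw2, hx4, ← hw, mo_surj, mo_surj]
      have hval : mt Q₁ G₁ u (Q₁ • u - w) * mt Q₂ G₂ (Q₁ • u - w) v =
          MvPolynomial.coeff x.1 (MvPolynomial.expand Q₂ G₁) * MvPolynomial.coeff x.2 G₂ := by
        unfold mt
        rw [if_pos hm1, if_pos hm2, hw2, hx4]
        unfold co
        rw [mo_surj, ← MvPolynomial.coeff_expand_smul Q₂ hQ₂ G₁ (mo w), ← mo_smul, ← hw, mo_surj]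
      exact ⟨Q₁ • u - w, Finset.mem_Iic.2 hm1, by rw [hval]; exact hne, hx5⟩
    · intro m hm hne
      have hm1 : m ≤ Q₁ • u := Finset.mem_Iic.1 hm
      have hm2 : v ≤ Q₂ • m := by
        have h2 := right_ne_zero_of_mul hne
        unfold mt at h2
        by_contra h3
        exact h2 (if_neg h3)
      unfold mt
      rw [if_pos hm1, if_pos hm2]
      unfold co
      show _ = MvPolynomial.coeff (mo (Q₂ • (Q₁ • u - m))) (MvPolynomial.expand Q₂ G₁) * MvPolynomial.coeff (mo (Q₂ • m - v)) G₂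
      rw [mo_smul, MvPolynomial.coeff_expand_smul Q₂ hQ₂]
  · have hL : mt (Q₁ * Q₂) (MvPolynomial.expand Q₂ G₁ * G₂) u v = 0 := if_neg hv
    rw [hL]
    symm
    refine Finset.sum_eq_zero fun m hm => ?_
    have hm1 : m ≤ Q₁ • u := Finset.mem_Iic.1 hm
    by_cases hm2 : v ≤ Q₂ • m
    · exfalso
      apply hv
      refine ⟨?_, ?_⟩
      · show v.1 ≤ Q₁ * Q₂ * u.1
        have e1 : v.1 ≤ Q₂ * m.1 := hm2.1
        have e2 : m.1 ≤ Q₁ * u.1 := hm1.1
        calc v.1 ≤ Q₂ * m.1 := e1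
          _ ≤ Q₂ * (Q₁ * u.1) := Nat.mul_le_mul_left _ e2
          _ = Q₁ * Q₂ * u.1 := by ring
      · show v.2 ≤ Q₁ * Q₂ * u.2
        have e1 : v.2 ≤ Q₂ * m.2 := hm2.2
        have e2 : m.2 ≤ Q₁ * u.2 := hm1.2
        calc v.2 ≤ Q₂ * m.2 := e1
          _ ≤ Q₂ * (Q₁ * u.2) := Nat.mul_le_mul_left _ e2
          _ = Q₁ * Q₂ * u.2 := by ring
    · have h3 : mt Q₂ G₂ m v = 0 := if_neg hm2
      rw [h3, mul_zero]

/-- the degree of a product -/
theorem wt_mul {R : Type} [CommRing R] {G H : MvPolynomial (Fin 2) R} {m n : ℕ} (hG : ∀ u, co G u ≠ 0 → wt u ≤ m)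
    (hH : ∀ u, co H u ≠ 0 → wt u ≤ n) (u : ℕ × ℕ) (hu : co (G * H) u ≠ 0) : wt u ≤ m + n := by
  classical
  unfold co at hu
  rw [MvPolynomial.coeff_mul] at hu
  obtain ⟨x, hx, hne⟩ := Finset.exists_ne_zero_of_sum_ne_zero hu
  have h1 := hG (x.1 0, x.1 1) (by
    unfold co
    rw [mo_surj]
    exact left_ne_zero_of_mul hne)
  have h2 := hH (x.2 0, x.2 1) (by
    unfold co
    rw [mo_surj]
    exact right_ne_zero_of_mul hne)
  rw [Finset.HasAntidiagonal.mem_antidiagonal] at hx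
  have h3 : x.1 0 + x.2 0 = u.1 := by
    rw [← mo_0 u, ← hx]
    rfl
  have h4 : x.1 1 + x.2 1 = u.2 := by
    rw [← mo_1 u, ← hx]
    rfl
  unfold wt at *
  simp only at h1 h2
  omega

end H45.AT

end
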