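import Pool.Agent.H45.AT.Df

/-!
# AT-WVa: the ramified extension of the Witt vectors

`𝕎 = WittVector p k` is a discrete valuation ring with the uniformizer `p` (`WittVector.isDiscreteValuationRing`,
`WittVector.irreducible`, `WittVector.isUnit_of_coeff_zero_ne_zero`, `WittVector.exists_eq_pow_p_mul`). Take `O = AdjoinRoot f`,
`f = X ^ e + C p`, `w` the root. `f` is monic (natDegree `e`), Eisenstein at `(p)`: `Polynomial.IsEisensteinAt.irreducible` (or
`Polynomial.irreducible_of_eisenstein_criterion`), so irreducible in the UFD `𝕎[X]`, so prime: `AdjoinRoot.isDomain_of_prime`.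
`i = AdjoinRoot.of f` is injective (`AdjoinRoot.of.injective_of_degree_ne_zero` or the power basis `AdjoinRoot.powerBasis'`), `𝕎` has
characteristic zero (`p ^ n ≠ 0`, prime factors other than `p` are units; perhaps an instance in Mathlib), so `CharZero O`.
`res = AdjoinRoot.lift constantCoeff 0` (`constantCoeff p = 0` in `k`). `w ^ e = - p` (`AdjoinRoot.eval₂_root`).
`dvd`: every `x ∈ O` is `i a + w y` (`x = mk g`, `g = C (g.coeff 0) + X (divX g)`); `res x = a.coeff 0 = 0` gives `a = p b = - w ^ e b`, so
`w ∣ x` (`e ≠ 0`). `unit`: let `res x ≠ 0`, `x = i a + w y`, `a` a unit. If `x` were not a unit it would lie in a maximal ideal `m`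
(`exists_max_ideal_of_mem_nonunits`); `O` is integral over `𝕎` (`f` monic), so `m.comap i` is maximal
(`Ideal.isMaximal_comap_of_isIntegral_of_isMaximal`), so it contains `p` (`𝕎` is local and `p` is not a unit), so `w ^ e = - p ∈ m`,
`w ∈ m`, `i a ∈ m`, a contradiction.
-/

set_option autoImplicit false

open Polynomial

noncomputable section

namespace H45.AT

private theorem wv_charZero (p : ℕ) [Fact p.Prime] (k : Type) [Field k] [CharP k p] [IsAlgClosed k] :
    CharZero (WittVector p k) := by
  have hp : p.Prime := Fact.out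
  refine charZero_of_inj_zero fun n hn => ?_
  by_contra h0
  obtain ⟨a, m, hm, rfl⟩ := Nat.exists_eq_pow_mul_and_not_dvd h0 p hp.ne_one
  rw [Nat.cast_mul, Nat.cast_pow] at hn
  have hpne : (p : WittVector p k) ≠ 0 := WittVector.p_nonzero p k
  have h1 : (m : WittVector p k) = 0 := (mul_eq_zero.1 hn).resolve_left (pow_ne_zero _ hpne)
  have h2 := congrArg (WittVector.constantCoeff : WittVector p k →+* k) h1
  rw [map_natCast, map_zero] at h2
  exact hm ((CharP.cast_eq_zero_iff k p m).1 h2)

theorem exists_ext (p : ℕ) [Fact p.Prime] (k : Type) [Field k] [CharP k p] [IsAlgClosed k] (e : ℕ) (he : e ≠ 0) :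
    ∃ (O : Type) (_ : CommRing O) (_ : IsDomain O) (_ : CharZero O) (i : WittVector p k →+* O) (w : O)
      (res : O →+* k), w ^ e = -(p : O) ∧ res w = 0 ∧ (∀ x, res x = 0 → w ∣ x) ∧
        (∀ x, res x ≠ 0 → IsUnit x) ∧ ∀ a : WittVector p k, res (i a) = a.coeff 0 := by
  classical
  have hp : p.Prime := Fact.out
  have hcz : CharZero (WittVector p k) := wv_charZero p k
  have hirp : Irreducible (p : WittVector p k) := WittVector.irreducible p
  have hpr : Prime (p : WittVector p k) := hirp.prime
  obtain ⟨f, hf⟩ : ∃ f : (WittVector p k)[X], f = X ^ e + C (p : WittVector p k) := ⟨_, rfl⟩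
  have hmon : f.Monic := hf ▸ monic_X_pow_add_C _ he
  have hdeg : f.natDegree = e := hf ▸ natDegree_X_pow_add_C
  have hI : (Ideal.span {(p : WittVector p k)}).IsPrime :=
    (Ideal.span_singleton_prime hpr.ne_zero).2 hpr
  have heis : f.IsEisensteinAt (Ideal.span {(p : WittVector p k)}) := by
    refine ⟨?_, ?_, ?_⟩
    · rw [hmon.leadingCoeff]
      intro h
      exact hI.ne_top ((Ideal.eq_top_iff_one _).2 h)
    · intro n hn
      rw [hdeg] at hn
      rw [hf, coeff_add, coeff_X_pow, if_neg hn.ne, zero_add, coeff_C]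
      split_ifs
      · exact Ideal.mem_span_singleton_self _
      · exact zero_mem _
    · rw [hf, coeff_add, coeff_X_pow, if_neg he.symm, zero_add, coeff_C_zero,
        Ideal.span_singleton_pow, Ideal.mem_span_singleton]
      intro h
      rw [pow_two] at h
      obtain ⟨c, hc⟩ := h
      have h1 : (p : WittVector p k) * c = 1 := by
        apply mul_left_cancel₀ hpr.ne_zero
        rw [← mul_assoc, ← hc, mul_one]
      exact hpr.not_isUnit (IsUnit.of_mul_eq_one _ h1)
  have hirr : Irreducible f := heis.irreducible hI hmon.isPrimitive (by rw [hdeg]; omega)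
  have hprime : Prime f := hirr.prime
  have hdom : IsDomain (AdjoinRoot f) := AdjoinRoot.isDomain_of_prime hprime
  have hinj : Function.Injective (AdjoinRoot.of f) :=
    AdjoinRoot.of.injective_of_degree_ne_zero (by
      rw [degree_eq_natDegree hmon.ne_zero, hdeg]
      exact_mod_cast he)
  have hczO : CharZero (AdjoinRoot f) := charZero_of_injective_ringHom hinj
  have hlift : f.eval₂ (WittVector.constantCoeff : WittVector p k →+* k) 0 = 0 := by
    rw [hf, eval₂_add, eval₂_X_pow, eval₂_C, zero_pow he, zero_add, map_natCast]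
    exact CharP.cast_eq_zero k p
  have hroot : AdjoinRoot.root f ^ e = -(p : AdjoinRoot f) := by
    have h1 := AdjoinRoot.eval₂_root f
    have h2 : ∀ g : (WittVector p k)[X], g = X ^ e + C (p : WittVector p k) →
        g.eval₂ (AdjoinRoot.of f) (AdjoinRoot.root f) = AdjoinRoot.root f ^ e + (p : AdjoinRoot f) := by
      rintro g rfl
      rw [eval₂_add, eval₂_X_pow, eval₂_C, map_natCast]
    rw [h2 f hf] at h1
    exact eq_neg_of_add_eq_zero_left h1
  have hdec : ∀ x : AdjoinRoot f, ∃ (a : WittVector p k) (y : AdjoinRoot f),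
      x = AdjoinRoot.of f a + AdjoinRoot.root f * y := by
    intro x
    obtain ⟨g, rfl⟩ := AdjoinRoot.mk_surjective x
    refine ⟨g.coeff 0, AdjoinRoot.mk f g.divX, ?_⟩
    conv_lhs => rw [← divX_mul_X_add g]
    rw [map_add, map_mul, AdjoinRoot.mk_X, AdjoinRoot.mk_C, mul_comm, add_comm]
  have hres : ∀ (a : WittVector p k) (y : AdjoinRoot f),
      AdjoinRoot.lift (WittVector.constantCoeff : WittVector p k →+* k) 0 hlift
        (AdjoinRoot.of f a + AdjoinRoot.root f * y) = a.coeff 0 := by
    intro a y
    rw [map_add, map_mul, AdjoinRoot.lift_root, zero_mul, add_zero, AdjoinRoot.lift_of]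
    rfl
  have hcoeff : ∀ a : WittVector p k, a.coeff 0 = 0 → ∃ b, a = (p : WittVector p k) * b := by
    intro a ha
    have h1 : a ∈ RingHom.ker (WittVector.constantCoeff : WittVector p k →+* k) := ha
    rw [WittVector.ker_constantCoeff, Ideal.mem_span_singleton] at h1
    exact h1
  refine ⟨AdjoinRoot f, inferInstance, hdom, hczO, AdjoinRoot.of f, AdjoinRoot.root f,
    AdjoinRoot.lift (WittVector.constantCoeff : WittVector p k →+* k) 0 hlift, hroot,
    AdjoinRoot.lift_root _, ?_, ?_, ?_⟩
  · intro x hx
    obtain ⟨a, y, rfl⟩ := hdec x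
    rw [hres] at hx
    obtain ⟨b, rfl⟩ := hcoeff a hx
    obtain ⟨e', rfl⟩ : ∃ e', e = e' + 1 := ⟨e - 1, by omega⟩
    refine dvd_add ?_ (dvd_mul_right _ _)
    rw [map_mul, map_natCast]
    refine Dvd.dvd.mul_right ?_ _
    rw [← dvd_neg, ← hroot]
    exact dvd_pow_self _ he
  · intro x hx
    obtain ⟨a, y, rfl⟩ := hdec x
    rw [hres] at hx
    have hu : IsUnit a := WittVector.isUnit_of_coeff_zero_ne_zero a hx
    by_contra hnu
    obtain ⟨m, hm, hxm⟩ := exists_max_ideal_of_mem_nonunits hnu
    have hfin : Module.Finite (WittVector p k) (AdjoinRoot f) := hmon.finite_adjoinRoot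
    have hint : Algebra.IsIntegral (WittVector p k) (AdjoinRoot f) := Algebra.IsIntegral.of_finite _ _
    have hmc : (m.comap (algebraMap (WittVector p k) (AdjoinRoot f))).IsMaximal :=
      Ideal.isMaximal_comap_of_isIntegral_of_isMaximal m
    have hpm : (p : WittVector p k) ∈ m.comap (algebraMap (WittVector p k) (AdjoinRoot f)) := by
      rw [IsLocalRing.eq_maximalIdeal hmc, IsLocalRing.mem_maximalIdeal]
      exact hpr.not_isUnit
    rw [Ideal.mem_comap, map_natCast] at hpm
    have hwm : AdjoinRoot.root f ∈ m := by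
      apply hm.isPrime.mem_of_pow_mem e
      rw [hroot]
      exact m.neg_mem hpm
    have ham : AdjoinRoot.of f a ∈ m := by
      have h1 := m.sub_mem hxm (m.mul_mem_right y hwm)
      rwa [add_sub_cancel_right] at h1
    exact hm.ne_top (Ideal.eq_top_of_isUnit_mem _ ham (hu.map _))
  · intro a
    rw [AdjoinRoot.lift_of]
    rfl

end H45.AT

end
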