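import Pool.Agent.H45.AT.WVa

/-!
# AT-WVb: traces of Teichmüller elements, and the coefficient ring

`witt_trc`: let `T = teichmuller p a`, `S = ∑_(j < s) T ^ (p ^ j)`. `frobenius T = T ^ p` (`WittVector.map_frobenius`-like;
`frobenius (teichmuller p a) = teichmuller p (a ^ p)`, both have the coefficients of `a ^ p`, `WittVector.coeff_frobenius_charP`),
and `T ^ (p ^ s) = T`, so `frobenius S = S`. Claim (induction on `M`): if `frobenius x = x` there is `n : ℕ` with `p ^ M ∣ x - n`. Step: the
coefficient `x.coeff 0 ∈ k` satisfies `c ^ p = c` (`coeff_frobenius_charP`), so `c = (n₀ : k)` for some `n₀ : ℕ` (the roots of `X ^ p - X` in `k` are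
the `p` elements of the prime field; the polynomial has at most `p` roots), so `x - n₀` has the coefficient 0 zero, so `x - n₀ = p y`
(`WittVector.exists_eq_pow_p_mul`-like, or `p y = V (F y)` with `F` bijective for perfect `k`, `WittVector.verschiebung_frobenius`,
`WittVector.mul_charP_...`), and `p (frobenius y - y) = 0` gives `frobenius y = y`; by induction `y ≡ n₁` modulo `p ^ M`, `x ≡ n₀ + p n₁` modulo `p ^ (M + 1)`.
Apply it with `M + 1` to `S`: `n ≡ S`, coefficient 0: `(n : k) = S.coeff 0 = ∑ a ^ (p ^ j)` (`constantCoeff` is a ring homomorphism).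

`exists_DR`: from `exists_ext`, `tau = i ∘ teichmuller p`.
-/

set_option autoImplicit false

open Polynomial

noncomputable section

namespace H45.AT

private theorem prime_el (p : ℕ) [Fact p.Prime] (k : Type) [Field k] [CharP k p] {c : k} (hc : c ^ p = c) :
    ∃ n : ℕ, (n : k) = c := by
  classical
  have hp : 1 < p := (Fact.out : p.Prime).one_lt
  have h1 : (Finset.range p).image (fun n : ℕ => (n : k)) ⊆ (X ^ p - X : k[X]).roots.toFinset := by
    intro x hx
    obtain ⟨n, -, rfl⟩ := Finset.mem_image.1 hx
    rw [Multiset.mem_toFinset, mem_roots (FiniteField.X_pow_card_sub_X_ne_zero k hp), IsRoot.def, eval_sub,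
      eval_pow, eval_X, sub_eq_zero]
    exact map_natCast (frobenius k p) n
  have h2 : ((Finset.range p).image (fun n : ℕ => (n : k))).card = p := by
    rw [Finset.card_image_of_injOn, Finset.card_range]
    intro a ha b hb hab
    exact CharP.natCast_injOn_Iio k p (Finset.mem_range.1 (Finset.mem_coe.1 ha))
      (Finset.mem_range.1 (Finset.mem_coe.1 hb)) hab
  have h3 : (X ^ p - X : k[X]).roots.toFinset.card ≤ p := by
    refine (Multiset.toFinset_card_le _).trans ((card_roots' _).trans ?_)
    rw [FiniteField.X_pow_card_sub_X_natDegree_eq k hp]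
  have h4 := Finset.eq_of_subset_of_card_le h1 (by rw [h2]; exact h3)
  have h5 : c ∈ (X ^ p - X : k[X]).roots.toFinset := by
    rw [Multiset.mem_toFinset, mem_roots (FiniteField.X_pow_card_sub_X_ne_zero k hp), IsRoot.def, eval_sub,
      eval_pow, eval_X, hc, sub_self]
  rw [← h4] at h5
  obtain ⟨n, -, hn⟩ := Finset.mem_image.1 h5
  exact ⟨n, hn⟩

private theorem fix_div (p : ℕ) [Fact p.Prime] (k : Type) [Field k] [CharP k p] [IsAlgClosed k]
    {x : WittVector p k} (hx : WittVector.frobenius x = x) (h0 : x.coeff 0 = 0) :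
    ∃ y : WittVector p k, x = y * p ∧ WittVector.frobenius y = y := by
  have h1 : x = WittVector.verschiebung (x.shift 1) := by
    have h2 := WittVector.eq_iterate_verschiebung (x := x) (n := 1) (fun i hi => by
      have : i = 0 := by omega
      rw [this, h0])
    exact h2
  obtain ⟨y, hy⟩ := (WittVector.frobenius_bijective p k).2 (x.shift 1)
  have h2 : x = y * p := by
    rw [h1, ← hy, WittVector.verschiebung_frobenius]
  refine ⟨y, h2, ?_⟩
  have h3 : WittVector.frobenius y * (p : WittVector p k) = y * p := by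
    have h4 := hx
    rw [h2, map_mul, map_natCast] at h4
    exact h4
  exact mul_right_cancel₀ (WittVector.p_nonzero p k) h3

private theorem fix_nat (p : ℕ) [Fact p.Prime] (k : Type) [Field k] [CharP k p] [IsAlgClosed k] (M : ℕ) :
    ∀ x : WittVector p k, WittVector.frobenius x = x → ∃ n : ℕ, (p : WittVector p k) ^ M ∣ x - n := by
  induction M with
  | zero => exact fun x _ => ⟨0, by rw [pow_zero]; exact one_dvd _⟩
  | succ M ih =>
    intro x hx
    have hc : x.coeff 0 ^ p = x.coeff 0 := by
      rw [← WittVector.coeff_frobenius_charP, hx]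
    obtain ⟨n0, hn0⟩ := prime_el p k hc
    have h1 : WittVector.frobenius (x - (n0 : WittVector p k)) = x - n0 := by
      rw [map_sub, map_natCast, hx]
    have h2 : (x - (n0 : WittVector p k)).coeff 0 = 0 := by
      have h3 : WittVector.constantCoeff (x - (n0 : WittVector p k)) = 0 := by
        rw [map_sub, map_natCast, hn0]
        exact sub_self _
      exact h3
    obtain ⟨y, hy1, hy2⟩ := fix_div p k h1 h2
    obtain ⟨n1, z, hz⟩ := ih y hy2
    refine ⟨n0 + p * n1, z, ?_⟩
    push_cast
    have h4 : x = y * p + n0 := by rw [← hy1, sub_add_cancel]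
    have h5 : y = (p : WittVector p k) ^ M * z + n1 := by rw [← hz, sub_add_cancel]
    rw [h4, h5]
    ring

theorem witt_trc (p : ℕ) [Fact p.Prime] (k : Type) [Field k] [CharP k p] [IsAlgClosed k] (s : ℕ) (a : k)
    (ha : a ^ p ^ s = a) (M : ℕ) :
    ∃ n : ℕ, (n : k) = ∑ j ∈ Finset.range s, a ^ p ^ j ∧
      (p : WittVector p k) ^ M ∣ ∑ j ∈ Finset.range s, WittVector.teichmuller p a ^ p ^ j - (n : WittVector p k) := by
  obtain ⟨T, hT⟩ : ∃ T, T = WittVector.teichmuller p a := ⟨_, rfl⟩
  have hF : WittVector.frobenius T = T ^ p := by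
    rw [hT, WittVector.frobenius_eq_map_frobenius, WittVector.map_teichmuller, frobenius_def, map_pow]
  have hs : T ^ p ^ s = T := by
    rw [hT, ← map_pow, ha]
  obtain ⟨S, hS⟩ : ∃ S, S = ∑ j ∈ Finset.range s, T ^ p ^ j := ⟨_, rfl⟩
  have hFS : WittVector.frobenius S = S := by
    have h1 : WittVector.frobenius S = ∑ j ∈ Finset.range s, T ^ p ^ (j + 1) := by
      rw [hS, map_sum]
      refine Finset.sum_congr rfl fun j _ => ?_
      rw [map_pow, hF, ← pow_mul, pow_succ, mul_comm]
    have h2 := Finset.sum_range_succ (fun j => T ^ p ^ j) s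
    rw [Finset.sum_range_succ'] at h2
    rw [hs, pow_zero, pow_one] at h2
    rw [h1, hS]
    exact add_right_cancel h2
  obtain ⟨n, hn⟩ := fix_nat p k (M + 1) S hFS
  refine ⟨n, ?_, ?_⟩
  · obtain ⟨z, hz⟩ := hn
    have h1 := congrArg (WittVector.constantCoeff : WittVector p k →+* k) hz
    rw [map_sub, map_natCast, map_mul, map_pow, map_natCast, CharP.cast_eq_zero k p, pow_succ, mul_zero, zero_mul,
      sub_eq_zero] at h1
    rw [← h1, hS, map_sum]
    refine Finset.sum_congr rfl fun j _ => ?_
    rw [map_pow, hT]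
    congr 1
  · rw [← hT, ← hS]
    exact (pow_dvd_pow _ (Nat.le_succ M)).trans hn

theorem exists_DR (p : ℕ) [Fact p.Prime] (k : Type) [Field k] [CharP k p] [IsAlgClosed k] (e : ℕ) (he : e ≠ 0) :
    ∃ (O : Type) (_ : CommRing O) (_ : IsDomain O) (_ : CharZero O), Nonempty (DR p e k O) := by
  obtain ⟨O, i1, i2, i3, i, w, res, h1, h2, h3, h4, h5⟩ := exists_ext p k e he
  refine ⟨O, i1, i2, i3, ⟨?_⟩⟩
  exact
    { w := w
      res := res
      tau := (i : WittVector p k →* O).comp (WittVector.teichmuller p)
      w_pow := h1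
      res_w := h2
      dvd := h3
      unit := h4
      res_tau := fun a => h5 _
      tau_zero := by
        show i (WittVector.teichmuller p 0) = 0
        rw [WittVector.teichmuller_zero, map_zero]
      trc := by
        intro s _ a ha M
        obtain ⟨n, hn1, hn2⟩ := witt_trc p k s a ha M
        refine ⟨n, hn1, ?_⟩
        have h6 := map_dvd i hn2
        rw [map_pow, map_natCast, map_sub, map_natCast, map_sum] at h6
        have h7 : ∀ j, i (WittVector.teichmuller p a ^ p ^ j) =
            ((i : WittVector p k →* O).comp (WittVector.teichmuller p)) a ^ p ^ j := by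
          intro j
          rw [map_pow]
          rfl
        rwa [Finset.sum_congr rfl fun j _ => h7 j] at h6 }

end H45.AT

end
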